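import Pool.Agent.Lib.KM1.Blue

/-! AN1, AN2: analytic isomorphisms of coefficient rings. -/

namespace Pool.Agent.Lib.KM1

universe u v w

namespace AN

/-- Coordinatewise divisibility of a finitely supported function. -/
theorem fdiv {M : Type w} {A : Type v} [AddCommGroup A] (n : ℕ) (f : M →₀ A)
    (h : ∀ m, ∃ a, f m = n • a) : ∃ g : M →₀ A, f = n • g := by
  classical
  choose a ha using h
  refine ⟨Finsupp.onFinset f.support (fun m => if f m = 0 then 0 else a m) ?_, ?_⟩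
  · intro m hm
    rw [Finsupp.mem_support_iff]
    intro h0
    exact hm (if_pos h0)
  · ext m
    rw [Finsupp.smul_apply, Finsupp.onFinset_apply]
    split_ifs with h0
    · rw [h0, smul_zero]
    · exact ha m

theorem tf {M : Type w} {A : Type v} {S : Type u} [AddCommGroup A] [AddCommGroup S] {p : ℕ}
    (e : S ≃+ (M →₀ A)) (h : ∀ x : A, p • x = 0 → x = 0) (x : S) (hx : p • x = 0) : x = 0 := by
  apply e.injective
  ext m
  have := congrArg (fun y => e y m) hx
  simp only [map_nsmul, map_zero, Finsupp.smul_apply, Finsupp.zero_apply] at this ⊢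
  exact h _ this

theorem div {M : Type w} {A : Type v} {S : Type u} [AddCommGroup A] [AddCommGroup S] (n : ℕ)
    (e : S ≃+ (M →₀ A)) (x : S) (h : ∀ m, ∃ a, e x m = n • a) : ∃ y, x = n • y := by
  obtain ⟨g, hg⟩ := fdiv n (e x) h
  exact ⟨e.symm g, e.injective (by rw [map_nsmul, e.apply_symm_apply, hg])⟩

/-- Transfer of analytic isomorphisms along coefficientwise maps. -/
theorem transfer {M : Type w} {A A' : Type v} {S S' : Type u} [Ring A] [Ring A'] [Ring S]
    [Ring S'] {p : ℕ} {φ : A →+* A'} (hφ : AnIso p φ) (Φ : S →+* S') (e : S ≃+ (M →₀ A))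
    (e' : S' ≃+ (M →₀ A')) (h : ∀ x m, e' (Φ x) m = φ (e x m)) : AnIso p Φ := by
  classical
  refine ⟨tf e hφ.tf, tf e' hφ.tf', fun y K => ?_, fun x K z hz => ?_⟩
  · choose a b hab using fun m => hφ.dense (e' y m) K
    let x : M →₀ A := Finsupp.onFinset (e' y).support (fun m => if e' y m = 0 then 0 else a m)
      (fun m hm => by
        rw [Finsupp.mem_support_iff]
        intro h0
        exact hm (if_pos h0))
    obtain ⟨z, hz⟩ := div (p ^ K) e' (y - Φ (e.symm x)) (fun m => by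
      rw [map_sub, Finsupp.sub_apply, h, e.apply_symm_apply, Finsupp.onFinset_apply]
      split_ifs with h0
      · exact ⟨0, by simp [h0]⟩
      · exact ⟨b m, by rw [sub_eq_iff_eq_add', ← hab m]⟩)
    exact ⟨e.symm x, z, by rw [← hz]; abel⟩
  · refine div (p ^ K) e x fun m => hφ.pure _ K (e' z m) ?_
    rw [← h, hz, map_nsmul, Finsupp.smul_apply]

variable (p : ℕ) [hp : Fact p.Prime]

theorem tfZp (x : ℤ_[p]) (hx : p • x = 0) : x = 0 := by
  rw [nsmul_eq_mul, mul_eq_zero] at hx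
  exact hx.resolve_left (Nat.cast_ne_zero.2 hp.out.ne_zero)

theorem mem_iff (x : ℤ_[p]) (K : ℕ) :
    x ∈ Ideal.span {(p : ℤ_[p]) ^ K} ↔ ∃ z, x = p ^ K • z := by
  rw [Ideal.mem_span_singleton]
  simp only [nsmul_eq_mul, Nat.cast_pow]
  rfl

theorem anZ : AnIso p (Int.castRingHom ℤ_[p]) := by
  refine ⟨fun x hx => ?_, tfZp p, fun y K => ?_, fun x K z hz => ?_⟩
  · rw [nsmul_eq_mul, mul_eq_zero] at hx
    exact hx.resolve_left (Nat.cast_ne_zero.2 hp.out.ne_zero)
  · obtain ⟨z, hz⟩ := (mem_iff p _ K).1 (PadicInt.appr_spec K y)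
    exact ⟨(y.appr K : ℕ), z, by rw [← hz]; simp⟩
  · have h1 := (PadicInt.norm_le_pow_iff_mem_span_pow _ K).2 ((mem_iff p _ K).2 ⟨z, hz⟩)
    have h2 : ((p : ℤ) ^ K) ∣ x := by
      have := PadicInt.norm_int_le_pow_iff_dvd.1 h1
      exact_mod_cast this
    obtain ⟨c, hc⟩ := h2
    exact ⟨c, by rw [hc]; simp⟩

theorem smod_iff (x y : ℤ_[p]) (K : ℕ) :
    x ≡ y [SMOD ((IsLocalRing.maximalIdeal ℤ_[p]) ^ K • ⊤ : Submodule ℤ_[p] ℤ_[p])] ↔
      ∃ z, x - y = p ^ K • z := by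
  rw [← mem_iff]
  simp only [← Ideal.one_eq_top, smul_eq_mul, mul_one, SModEq.sub_mem,
    PadicInt.maximalIdeal_eq_span_p, Ideal.span_singleton_pow]

theorem sepZp (y : ℤ_[p]) (h : ∀ K : ℕ, ∃ z, y = p ^ K • z) : y = 0 :=
  IsHausdorff.haus (I := IsLocalRing.maximalIdeal ℤ_[p]) inferInstance y fun K =>
    (smod_iff p y 0 K).2 (by simpa using h K)

theorem complZp (x : ℕ → ℤ_[p]) (h : ∀ K, ∃ z, x (K + 1) - x K = p ^ K • z) :
    ∃ L, ∀ K, ∃ z, L - x K = p ^ K • z := by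
  have key : ∀ m j, ∃ z, x m - x (m + j) = p ^ m • z := by
    intro m j
    induction j with
    | zero => exact ⟨0, by simp⟩
    | succ j ih =>
      obtain ⟨z, hz⟩ := ih
      obtain ⟨z', hz'⟩ := h (m + j)
      refine ⟨z - p ^ j • z', ?_⟩
      rw [smul_sub, ← hz, smul_smul, ← pow_add, ← hz', ← add_assoc]
      abel
  obtain ⟨L, hL⟩ := IsPrecomplete.prec (I := IsLocalRing.maximalIdeal ℤ_[p]) inferInstance
    (f := x) (fun {m n} hmn => by
      obtain ⟨j, rfl⟩ := Nat.exists_eq_add_of_le hmn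
      exact (smod_iff p _ _ m).2 (key m j))
  exact ⟨L, fun K => (smod_iff p _ _ K).1 (hL K).symm⟩

theorem surjQp (y : ℚ_[p]) : ∃ (s : ℕ) (x : ℤ_[p]), (x : ℚ_[p]) = p ^ s • y := by
  obtain ⟨s, hs⟩ := pow_unbounded_of_one_lt ‖y‖ (Nat.one_lt_cast.2 hp.out.one_lt : (1 : ℝ) < p)
  have hp0 : (0 : ℝ) < (p : ℝ) ^ s := pow_pos (Nat.cast_pos.2 hp.out.pos) s
  refine ⟨s, ⟨p ^ s • y, ?_⟩, rfl⟩
  rw [nsmul_eq_mul, norm_mul, Nat.cast_pow, norm_pow, Padic.norm_p, inv_pow,
    inv_mul_le_iff₀ hp0, mul_one]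
  exact hs.le

end AN

open AN in
theorem stAN1 : St_AN1.{u} := by
  intro p A A' _ _ φ hφ
  refine ⟨transfer hφ _ AddMonoidAlgebra.coeffAddEquiv AddMonoidAlgebra.coeffAddEquiv
    fun x m => AddMonoidAlgebra.coeff_mapRingHom φ x m,
    transfer hφ _ ((Polynomial.toFinsuppIso A).toAddEquiv.trans AddMonoidAlgebra.coeffAddEquiv)
      ((Polynomial.toFinsuppIso A').toAddEquiv.trans AddMonoidAlgebra.coeffAddEquiv)
      fun x m => Polynomial.coeff_map φ m⟩

open AN in
theorem stAN2 : St_AN2.{u} := by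
  intro p hp G _
  refine ⟨transfer (anZ p) _ MonoidAlgebra.coeffAddEquiv MonoidAlgebra.coeffAddEquiv
    fun x m => MonoidAlgebra.coeff_mapRingHom _ x m, ⟨?_, fun y => ?_, ?_⟩, fun q hq => ?_,
    fun hG => ⟨tf MonoidAlgebra.coeffAddEquiv (tfZp p), fun y hy => ?_, fun x hx => ?_⟩⟩
  · intro x y h
    apply MonoidAlgebra.coeff_injective
    ext m
    have := congrArg (fun z => MonoidAlgebra.coeff z m) h
    simp only [cq, MonoidAlgebra.coeff_mapRingHom] at this
    exact Subtype.ext this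
  · induction y using MonoidAlgebra.induction_linear with
    | zero => exact ⟨0, 0, by simp⟩
    | add a b ha hb =>
      obtain ⟨s, x, hx⟩ := ha
      obtain ⟨t, z, hz⟩ := hb
      refine ⟨s + t, p ^ t • x + p ^ s • z, ?_⟩
      rw [map_add, map_nsmul, map_nsmul, hx, hz, smul_smul, smul_smul, smul_add, pow_add,
        mul_comm (p ^ t)]
    | single g c =>
      obtain ⟨s, x, hx⟩ := surjQp p c
      refine ⟨s, MonoidAlgebra.single g x, ?_⟩
      rw [cq, MonoidAlgebra.mapRingHom_single, MonoidAlgebra.smul_single, ← hx]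
      rfl
  · have h1 : IsUnit ((p : ℕ) : ℚ_[p]) := (Nat.cast_ne_zero.2 hp.out.ne_zero).isUnit
    simpa using h1.map (algebraMap ℚ_[p] (MonoidAlgebra ℚ_[p] G))
  · have h1 : IsUnit ((q : ℕ) : ℤ_[p]) :=
      PadicInt.isUnit_iff.2 (PadicInt.norm_natCast_eq_one_iff.2 hq.symm)
    have h2 := (h1.map (algebraMap ℤ_[p] (MonoidAlgebra ℤ_[p] G))).map
      (LaurentPolynomial.C (R := MonoidAlgebra ℤ_[p] G))
    rwa [map_natCast, map_natCast] at h2
  · apply MonoidAlgebra.coeff_injective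
    ext m
    refine sepZp p _ fun K => ?_
    obtain ⟨z, hz⟩ := hy K
    exact ⟨z.coeff m, by rw [hz]; rfl⟩
  · choose L hL using fun m : G => complZp p (fun K => (x K).coeff m) fun K => by
      obtain ⟨z, hz⟩ := hx K
      exact ⟨z.coeff m, congrArg (fun y => MonoidAlgebra.coeff y m) hz⟩
    refine ⟨MonoidAlgebra.ofCoeff (Finsupp.equivFunOnFinite.symm L), fun K => ?_⟩
    exact div (p ^ K) MonoidAlgebra.coeffAddEquiv _ fun m => hL m K

end Pool.Agent.Lib.KM1
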