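import Pool.Agent.Lib.KM1.Blue

/-! Integrality and anisotropy of the character pairing on `K0` of a group algebra. -/

namespace Pool.Agent.Lib.KM1

open Matrix

universe u

namespace ANISO

/-- matrices over a semisimple ring are regular -/
theorem exists_reg {A : Type u} [Ring A] [IsSemisimpleRing A] {ι κ : Type} [Fintype ι] [Fintype κ]
    (x : Matrix ι κ A) : ∃ y : Matrix κ ι A, x * y * x = x := by
  classical
  let f := x.toLinearMapRight'
  obtain ⟨s, hs⟩ := IsSemisimpleModule.lifting_property f.rangeRestrict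
    f.surjective_rangeRestrict LinearMap.id
  obtain ⟨g, hg⟩ := IsSemisimpleModule.extension_property (LinearMap.range f).subtype
    (Submodule.injective_subtype _) s
  refine ⟨toLinearMapRight'.symm g, toLinearMapRight'.injective (LinearMap.ext fun v => ?_)⟩
  rw [toLinearMapRight'_mul_apply, toLinearMapRight'_mul_apply, LinearEquiv.apply_symm_apply]
  have h1 : g (f v) = s (f.rangeRestrict v) := DFunLike.congr_fun hg (f.rangeRestrict v)
  exact (congrArg f h1).trans (congrArg Subtype.val (DFunLike.congr_fun hs (f.rangeRestrict v)))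

variable {F : Type} [Field F] {H : Type u} [Group H] [Fintype H]

theorem pairing_comm (a b : H → F) : pairing a b = pairing b a := by
  unfold pairing
  rw [← Equiv.sum_comp (Equiv.inv H)]
  simp [mul_comm]

theorem pairing_add (a a' b : H → F) : pairing (a + a') b = pairing a b + pairing a' b := by
  simp only [pairing, Pi.add_apply, add_mul, Finset.sum_add_distrib, mul_add]

theorem pairing_neg (a b : H → F) : pairing (-a) b = -pairing a b := by
  simp only [pairing, Pi.neg_apply, neg_mul, Finset.sum_neg_distrib, mul_neg]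

theorem pairing_sub (a a' b : H → F) : pairing (a - a') b = pairing a b - pairing a' b := by
  rw [sub_eq_add_neg, pairing_add, pairing_neg, sub_eq_add_neg]

theorem pairing_zero (b : H → F) : pairing 0 b = 0 := by simp [pairing]

theorem pairing_chi0 [CharZero F] (r s : MonoidAlgebra F H) :
    pairing (chi0 r) (chi0 s) = ∑ z : H, ∑ g : H, r.coeff g * s.coeff (z⁻¹ * g⁻¹ * z) := by
  have h : ∀ x : H, ∑ g : H, r.coeff (x * g * x⁻¹) * ∑ y : H, s.coeff (y * g⁻¹ * y⁻¹) =
      ∑ z : H, ∑ g : H, r.coeff g * s.coeff (z⁻¹ * g⁻¹ * z) := fun x => by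
    rw [Finset.sum_comm]
    refine Fintype.sum_equiv (MulAut.conj x).toEquiv _ _ fun g => ?_
    rw [Finset.mul_sum]
    refine Fintype.sum_equiv ((Equiv.inv H).trans (Equiv.mulLeft x)) _ _ fun y => ?_
    simp [mul_assoc]
  unfold pairing chi0
  simp only [Finset.sum_mul]
  rw [Finset.sum_comm]
  simp only [h, Finset.sum_const, Finset.card_univ, nsmul_eq_mul]
  rw [← mul_assoc, inv_mul_cancel₀ (Nat.cast_ne_zero.2 Fintype.card_ne_zero), one_mul]

variable {ι κ : Type} [Fintype ι] [Fintype κ]

/-- the map `x ↦ e x f` -/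
noncomputable def lr (e : Matrix ι ι (MonoidAlgebra F H)) (f : Matrix κ κ (MonoidAlgebra F H)) :
    Matrix ι κ (MonoidAlgebra F H) →ₗ[F] Matrix ι κ (MonoidAlgebra F H) where
  toFun x := e * x * f
  map_add' x y := by rw [Matrix.mul_add, Matrix.add_mul]
  map_smul' c x := by rw [Matrix.mul_smul, Matrix.smul_mul, RingHom.id_apply]

theorem trace_lr [CharZero F] (e : Matrix ι ι (MonoidAlgebra F H))
    (f : Matrix κ κ (MonoidAlgebra F H)) :
    LinearMap.trace F _ (lr e f) = pairing (chi0 e.trace) (chi0 f.trace) := by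
  classical
  rw [LinearMap.trace_eq_matrix_trace F ((MonoidAlgebra.basis H F).matrix ι κ), pairing_chi0]
  have h : ∀ (i : ι) (j : κ) (z : H), ((MonoidAlgebra.basis H F).matrix ι κ).repr
      (lr e f ((MonoidAlgebra.basis H F).matrix ι κ (i, j, z))) (i, j, z) =
        ∑ g : H, (e i i).coeff g * (f j j).coeff (z⁻¹ * g⁻¹ * z) := fun i j z => by
    rw [Module.Basis.matrix_apply, MonoidAlgebra.basis_apply]
    change ((e * single i j (MonoidAlgebra.single z (1 : F)) * f) i j).coeff z = _
    have h1 : (e * single i j (MonoidAlgebra.single z (1 : F)) * f) i j =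
        e i i * (MonoidAlgebra.single z 1 * f j j) := by
      rw [Matrix.mul_assoc, Matrix.mul_apply, Finset.sum_eq_single i]
      · rw [single_mul_apply_same]
      · intro k _ hk
        rw [single_mul_apply_of_ne _ _ _ _ _ hk, mul_zero]
      · simp
    rw [h1, MonoidAlgebra.coeff_mul_apply_left, Finsupp.sum_fintype _ _ (by simp)]
    simp [mul_assoc]
  simp only [Matrix.trace, diag_apply, LinearMap.toMatrix_apply, Fintype.sum_prod_type, h,
    MonoidAlgebra.coeff_sum, Finsupp.finsetSum_apply, Finset.sum_mul_sum]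
  symm
  rw [Finset.sum_comm]
  simp only [Finset.sum_comm (s := (Finset.univ : Finset H)) (t := (Finset.univ : Finset ι)),
    Finset.sum_comm (s := (Finset.univ : Finset H)) (t := (Finset.univ : Finset κ))]
  refine Finset.sum_congr rfl fun i _ => Finset.sum_congr rfl fun j _ => Finset.sum_comm

theorem exists_nat [CharZero F] {e : Matrix ι ι (MonoidAlgebra F H)}
    {f : Matrix κ κ (MonoidAlgebra F H)} (he : e * e = e) (hf : f * f = f) :
    ∃ n : ℕ, pairing (chi0 e.trace) (chi0 f.trace) = n ∧
      (n = 0 ↔ ∀ x : Matrix ι κ (MonoidAlgebra F H), e * x * f = 0) := by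
  have h : IsIdempotentElem (lr e f) := LinearMap.ext fun x => by
    change e * (e * x * f) * f = e * x * f
    rw [← Matrix.mul_assoc, ← Matrix.mul_assoc, he, Matrix.mul_assoc _ f, hf]
  refine ⟨_, (trace_lr e f).symm.trans (LinearMap.IsIdempotentElem.isProj_range _ h).trace, ?_⟩
  rw [Submodule.finrank_eq_zero, LinearMap.range_eq_bot]
  exact LinearMap.ext_iff

end ANISO

open ANISO in
theorem stANISO : St_ANISO.{u} := by
  intro F _ _ H _ _ χ hχ
  classical
  have int : ∀ x y, ∃ n : ℤ, pairing (χ x) (χ y) = n := by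
    have gen : ∀ (b : H → F), (∀ (n : ℕ) (e : Matrix (Fin n) (Fin n) (MonoidAlgebra F H)),
        e * e = e → ∃ k : ℤ, pairing (χ (cls e)) b = k) → ∀ x, ∃ k : ℤ, pairing (χ x) b = k := by
      intro b hb x
      induction x using K0.induction with
      | h0 => exact ⟨0, by rw [map_zero, pairing_zero, Int.cast_zero]⟩
      | hc n e he => exact hb n e he
      | hn y hy =>
        obtain ⟨k, hk⟩ := hy
        exact ⟨-k, by rw [map_neg, pairing_neg, hk, Int.cast_neg]⟩
      | ha y z hy hz =>
        obtain ⟨k, hk⟩ := hy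
        obtain ⟨l, hl⟩ := hz
        exact ⟨k + l, by rw [map_add, pairing_add, hk, hl, Int.cast_add]⟩
    intro x y
    refine gen _ (fun n e he => ?_) x
    rw [pairing_comm]
    refine gen _ (fun m f hf => ?_) y
    obtain ⟨k, hk, -⟩ := exists_nat hf he
    exact ⟨k, by rw [hχ _ _ hf, hχ _ _ he, hk, Int.cast_natCast]⟩
  refine ⟨int, fun y hy => ?_⟩
  have : NeZero (Nat.card H : F) := ⟨Nat.cast_ne_zero.2 Nat.card_pos.ne'⟩
  have main : ∀ (n k d : ℕ) (e : Matrix (Fin n) (Fin n) (MonoidAlgebra F H))
      (f : Matrix (Fin k) (Fin k) (MonoidAlgebra F H)), e * e = e → f * f = f →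
      pairing (χ (cls e)) (chi0 (1 : Matrix (Fin n) (Fin n) (MonoidAlgebra F H)).trace) = d →
      y = cls e - cls f → y = 0 := by
    intro n k d
    induction d using Nat.strong_induction_on with
    | _ d ih =>
    intro e f he hf hd hef
    by_cases h0 : ∀ x : Matrix (Fin n) (Fin k) (MonoidAlgebra F H), e * x * f = 0
    · obtain ⟨a, a1, a2⟩ := exists_nat he he
      obtain ⟨b, b1, b2⟩ := exists_nat hf hf
      obtain ⟨c, c1, c2⟩ := exists_nat he hf
      rw [c2.2 h0, Nat.cast_zero] at c1
      rw [hef, map_sub, hχ _ _ he, hχ _ _ hf, pairing_sub, pairing_comm, pairing_sub,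
        pairing_comm (chi0 f.trace) (_ - _), pairing_sub, pairing_comm (chi0 f.trace), a1, b1, c1,
        sub_zero, zero_sub, sub_neg_eq_add, ← Nat.cast_add, Nat.cast_eq_zero] at hy
      have e0 : e = 0 := by simpa [he] using a2.1 (by omega) e
      have f0 : f = 0 := by simpa [hf] using b2.1 (by omega) f
      rw [hef, e0, f0, cls_zero, cls_zero, sub_zero]
    · obtain ⟨m, hm⟩ := not_forall.1 h0
      obtain ⟨x, hx⟩ : ∃ x, x = e * m * f := ⟨_, rfl⟩
      have ex : e * x = x := by rw [hx, ← Matrix.mul_assoc, ← Matrix.mul_assoc, he]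
      have xf : x * f = x := by rw [hx, Matrix.mul_assoc _ f, hf]
      obtain ⟨w, hw⟩ := exists_reg x
      obtain ⟨v, hv⟩ : ∃ v, v = f * w * e := ⟨_, rfl⟩
      have fv : f * v = v := by rw [hv, ← Matrix.mul_assoc, ← Matrix.mul_assoc, hf]
      have ve : v * e = v := by rw [hv, Matrix.mul_assoc _ e, he]
      have xv : x * v * x = x := by
        rw [hv, ← Matrix.mul_assoc, ← Matrix.mul_assoc, xf, Matrix.mul_assoc _ e, ex, hw]
      have split : ∀ {l : ℕ} (p q : Matrix (Fin l) (Fin l) (MonoidAlgebra F H)), p * p = p →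
          q * q = q → p * q = q → q * p = q →
          (p - q) * (p - q) = p - q ∧ cls p = cls (p - q) + cls q := fun p q h1 h2 h3 h4 => by
        have h5 : (p - q) * (p - q) = p - q := by
          rw [Matrix.sub_mul, Matrix.mul_sub, Matrix.mul_sub, h1, h2, h3, h4, sub_self, sub_zero]
        refine ⟨h5, ?_⟩
        rw [← cls_add_orth h5 h2 (by rw [Matrix.sub_mul, h3, h2, sub_self])
          (by rw [Matrix.mul_sub, h4, h2, sub_self]), sub_add_cancel]
      have i1 : x * v * (x * v) = x * v := by rw [← Matrix.mul_assoc, xv]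
      have i2 : v * x * (v * x) = v * x := by
        rw [Matrix.mul_assoc, ← Matrix.mul_assoc x, xv]
      obtain ⟨p1, p2⟩ := split e (x * v) he i1 (by rw [← Matrix.mul_assoc, ex])
        (by rw [Matrix.mul_assoc, ve])
      obtain ⟨q1, q2⟩ := split f (v * x) hf i2 (by rw [← Matrix.mul_assoc, fv])
        (by rw [Matrix.mul_assoc, xf])
      have one : (1 : Matrix (Fin n) (Fin n) (MonoidAlgebra F H)) * 1 = 1 := Matrix.mul_one _
      obtain ⟨a, a1, -⟩ := exists_nat p1 one
      obtain ⟨b, b1, b2⟩ := exists_nat i1 one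
      have b0 : b ≠ 0 := fun h => hm (by
        have h1 := b2.1 h 1
        rw [Matrix.mul_one, Matrix.mul_one] at h1
        rw [← hx, ← xv, h1, Matrix.zero_mul])
      rw [p2, map_add, pairing_add, hχ _ _ p1, hχ _ _ i1, a1, b1, ← Nat.cast_add,
        Nat.cast_inj] at hd
      refine ih a (by omega) _ _ p1 q1 (by rw [hχ _ _ p1, a1]) ?_
      rw [hef, p2, q2, cls_equiv i1 i2 ⟨x, v, rfl, rfl⟩, add_sub_add_right_eq_sub]
  obtain ⟨n, k, e, he, hy'⟩ := K0.exists_rep y
  obtain ⟨d, hd, -⟩ := exists_nat he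
    (Matrix.mul_one (1 : Matrix (Fin n) (Fin n) (MonoidAlgebra F H)))
  exact main n k d e 1 he (Matrix.mul_one _) (by rw [hχ _ _ he, hd]) hy'

end Pool.Agent.Lib.KM1
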