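import Mathlib

/-!
Idempotent matrices over `B[t,t⁻¹]` with `B` Artinian are equivalent to constant ones.
-/

noncomputable section

namespace Pool.Agent.Lib.KM1.CONST

open LaurentPolynomial Matrix

theorem chain_proj {B E : Type*} [Ring B] [AddCommGroup E] [Module B E] [IsSemisimpleModule B E]
    (L : ℕ → Submodule B E) (h0 : L 0 = ⊥) (hm : Monotone L) (D : ℕ) :
    ∃ p : ℕ → E →ₗ[B] E, (∀ u ∈ L D, ∑ d ∈ Finset.range D, p d u = u) ∧
      (∀ d u, p d u ∈ L (d + 1)) ∧ (∀ d, ∀ u ∈ L d, p d u = 0) ∧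
      (∀ d < D, ∀ d' < D, ∀ u, p d' (p d u) = if d' = d then p d u else 0) := by
  have hq : ∀ d, ∃ q : E →ₗ[B] E, (∀ u, q u ∈ L d) ∧ ∀ u ∈ L d, q u = u := fun d => by
    obtain ⟨W, hW⟩ := exists_isCompl (L d)
    exact ⟨(L d).projection W hW, fun u => Submodule.projection_apply_mem hW u,
      fun u hu => Submodule.projection_apply_left hW ⟨u, hu⟩⟩
  choose q hq1 hq2 using hq
  induction D with
  | zero => exact ⟨fun _ => 0, by simp [h0], by simp, by simp, by simp⟩
  | succ D ih =>
    obtain ⟨p, h1, h2, h3, h4⟩ := ih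
    refine ⟨fun d => if d < D then p d ∘ₗ q D else if d = D then
      (LinearMap.id - q D) ∘ₗ q (D + 1) else 0, ?_, ?_, ?_, ?_⟩
    · intro u hu
      rw [Finset.sum_range_succ, Finset.sum_congr rfl
        (g := fun d => p d (q D u)) (fun d hd => by simp [Finset.mem_range.1 hd]), h1 _ (hq1 D u)]
      simp [hq2 _ u hu]
    · intro d u
      beta_reduce
      split_ifs with a b
      · exact h2 _ _
      · subst b
        exact sub_mem (hq1 _ _) (hm (Nat.le_succ _) (hq1 _ _))
      · simp
    · intro d u hu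
      beta_reduce
      split_ifs with a b
      · simp [hq2 D u (hm a.le hu), h3 d u hu]
      · subst b
        simp [hq2 _ u (hm (Nat.le_succ _) hu), hq2 _ u hu]
      · simp
    · intro d hd d' hd' u
      rcases Nat.lt_succ_iff_lt_or_eq.1 hd with a | a
      · have hmem : p d (q D u) ∈ L D := hm a (h2 _ _)
        rcases Nat.lt_succ_iff_lt_or_eq.1 hd' with b | b
        · simp [a, b, hq2 D _ hmem, h4 d a d' b]
        · subst b
          simp [a, a.ne', hq2 _ _ hmem, hq2 _ _ (hm (Nat.le_succ _) hmem)]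
      · subst a
        have hqq : q d (q (d + 1) u - q d (q (d + 1) u)) = 0 := by
          rw [map_sub, hq2 d _ (hq1 _ _), sub_self]
        rcases Nat.lt_succ_iff_lt_or_eq.1 hd' with b | b
        · simp only [lt_irrefl, b, if_true, if_false, b.ne, LinearMap.comp_apply,
            LinearMap.sub_apply, LinearMap.id_apply, hqq, map_zero]
        · subst b
          have hmem : q (d' + 1) u - q d' (q (d' + 1) u) ∈ L (d' + 1) :=
            sub_mem (hq1 _ _) (hm (Nat.le_succ _) (hq1 _ _))
          simp only [lt_irrefl, if_true, if_false, LinearMap.comp_apply,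
            LinearMap.sub_apply, LinearMap.id_apply, hq2 _ _ hmem, hqq, sub_zero]

theorem filt {B E P : Type*} [Ring B] [AddCommGroup E] [Module B E] [IsSemisimpleModule B E]
    [IsNoetherian B E] [Module.Projective B E] [AddCommGroup P] [Module B P]
    (cf : ℤ → P →ₗ[B] E) (sh : ℤ → P →ₗ[B] P) (hsh : ∀ j k v, cf k (sh j v) = cf (k - j) v)
    (hext : ∀ v, (∀ k, cf k v = 0) → v = 0)
    (hfin : ∀ v, ∃ (a : ℤ) (N : ℕ), ∀ k, (k < a ∨ a + N ≤ k) → cf k v = 0) :
    ∃ (π : E →ₗ[B] E) (σ : E →ₗ[B] P), (∀ u, π (π u) = π u) ∧ (∀ u, σ (π u) = σ u) ∧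
      (∀ w : ℤ →₀ E, w.sum (fun j u => sh j (σ u)) = 0 → ∀ j, π (w j) = 0) ∧
      ∀ v, ∃ w : ℤ →₀ E, w.sum (fun j u => sh j (σ u)) = v := by
  classical
  let M : ℕ → Submodule B P := fun d =>
    { carrier := {v | ∀ k : ℤ, (k < 0 ∨ (d : ℤ) ≤ k) → cf k v = 0}
      add_mem' := fun ha hb k hk => by rw [map_add, ha k hk, hb k hk, add_zero]
      zero_mem' := fun k _ => map_zero _
      smul_mem' := fun c x hx k hk => by rw [map_smul, hx k hk, smul_zero] }
  have hM : ∀ d v, v ∈ M d ↔ ∀ k : ℤ, (k < 0 ∨ (d : ℤ) ≤ k) → cf k v = 0 := fun _ _ => Iff.rfl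
  let L : ℕ → Submodule B E := fun d => (M d).map (cf ((d : ℤ) - 1))
  have h0 : L 0 = ⊥ := by
    rw [eq_bot_iff]
    rintro _ ⟨v, hv, rfl⟩
    exact hv _ (by omega)
  have hm : Monotone L := monotone_nat_of_le_succ fun d => by
    rintro _ ⟨v, hv, rfl⟩
    refine ⟨sh 1 v, fun k hk => ?_, ?_⟩
    · rw [hsh]; exact hv _ (by push_cast at hk; omega)
    · rw [hsh]; congr 2; push_cast; ring
  obtain ⟨D, hD⟩ := monotone_stabilizes_iff_noetherian.2 (inferInstance : IsNoetherian B E)
    ⟨L, hm⟩
  have hLD : ∀ n, L n ≤ L D := fun n => by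
    rcases le_total n D with h | h
    · exact hm h
    · exact (hD n h).ge
  obtain ⟨p, h1, h2, h3, h4⟩ := chain_proj L h0 hm D
  have hs : ∀ d : ℕ, ∃ s : E →ₗ[B] P, (∀ u, s u ∈ M (d + 1)) ∧
      ∀ u ∈ L (d + 1), cf d (s u) = u := fun d => by
    obtain ⟨W, hW⟩ := exists_isCompl (L (d + 1))
    obtain ⟨h, hh⟩ := Module.projective_lifting_property
      ((cf (((d + 1 : ℕ) : ℤ) - 1)).submoduleMap (M (d + 1))) ((L (d + 1)).projectionOnto W hW)
      (LinearMap.submoduleMap_surjective _ _)
    refine ⟨(M (d + 1)).subtype ∘ₗ h, fun u => (h u).2, fun u hu => ?_⟩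
    have := congrArg (fun φ => ((φ u : L (d + 1)) : E)) hh
    simp only [LinearMap.comp_apply] at this
    rw [show u = ((⟨u, hu⟩ : L (d + 1)) : E) from rfl, Submodule.projectionOnto_apply_left] at this
    simpa using this
  choose s hs1 hs2 using hs
  let σ : E →ₗ[B] P := ∑ d ∈ Finset.range D, s d ∘ₗ p d
  have hσ : ∀ u, σ u = ∑ d ∈ Finset.range D, s d (p d u) := fun u => by simp [σ]
  have hσp : ∀ d < D, ∀ u, σ (p d u) = s d (p d u) := fun d hd u => by
    rw [hσ, Finset.sum_eq_single d]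
    · rw [h4 d hd d hd, if_pos rfl]
    · intro b hb hbd
      rw [h4 d hd b (Finset.mem_range.1 hb), if_neg hbd, map_zero]
    · intro h; exact absurd (Finset.mem_range.2 hd) h
  have hπ : ∀ u, (∑ d ∈ Finset.range D, p d) u = ∑ d ∈ Finset.range D, p d u := fun u => by simp
  refine ⟨∑ d ∈ Finset.range D, p d, σ, fun u => ?_, fun u => ?_, fun w hw => ?_, fun v => ?_⟩
  · rw [hπ]
    exact h1 _ (by rw [hπ]; exact Submodule.sum_mem _ fun d _ => hLD _ (h2 _ _))
  · rw [hπ, map_sum, hσ u]
    exact Finset.sum_congr rfl fun d hd => hσp d (Finset.mem_range.1 hd) u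
  · by_contra hne
    push Not at hne
    obtain ⟨j0, hj0⟩ := hne
    rw [hπ] at hj0
    obtain ⟨d0, hd0, hd0'⟩ := Finset.exists_ne_zero_of_sum_ne_zero hj0
    let S := (w.support ×ˢ Finset.range D).filter fun x => p x.2 (w x.1) ≠ 0
    have hS : ∀ j d, d < D → p d (w j) ≠ 0 → (j, d) ∈ S := fun j d hd h => by
      simp only [S, Finset.mem_filter, Finset.mem_product, Finsupp.mem_support_iff,
        Finset.mem_range]
      exact ⟨⟨fun h' => h (by rw [h', map_zero]), hd⟩, h⟩
    obtain ⟨⟨j1, d1⟩, hx, hmax⟩ := S.exists_max_image (fun x => x.1 + (x.2 : ℤ))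
      ⟨_, hS j0 d0 (Finset.mem_range.1 hd0) hd0'⟩
    simp only [S, Finset.mem_filter, Finset.mem_product, Finset.mem_range] at hx
    have key := congrArg (fun v => p d1 (cf (j1 + d1) v)) hw
    simp only [Finsupp.sum, map_sum, hsh, hσ, map_zero] at key
    have hterm : ∀ j, ∀ d < D, p d1 (cf (j1 + d1 - j) (s d (p d (w j)))) =
        if j = j1 ∧ d = d1 then p d1 (w j1) else 0 := fun j d hd => by
      rcases lt_trichotomy (j + d) (j1 + (d1 : ℤ)) with h | h | h
      · rw [hs1 d _ _ (Or.inr (by push_cast; omega)), map_zero, if_neg]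
        rintro ⟨rfl, rfl⟩; omega
      · rw [show j1 + (d1 : ℤ) - j = d by omega, hs2 d _ (h2 _ _), h4 d hd d1 hx.1.2]
        by_cases hdd : d1 = d
        · subst hdd
          obtain rfl : j = j1 := by omega
          simp
        · rw [if_neg hdd, if_neg fun h => hdd h.2.symm]
      · have : p d (w j) = 0 := by
          by_contra hne
          have := hmax _ (hS j d hd hne)
          simp only at this
          omega
        rw [this, map_zero, map_zero, map_zero, if_neg]
        rintro ⟨rfl, rfl⟩; omega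
    rw [Finset.sum_eq_single j1, Finset.sum_eq_single d1, hterm _ _ hx.1.2] at key
    · exact hx.2 (by simpa using key)
    · intro d hd hdd
      rw [hterm _ _ (Finset.mem_range.1 hd), if_neg fun h => hdd h.2]
    · intro h; exact absurd (Finset.mem_range.2 hx.1.2) h
    · intro j _ hj
      exact Finset.sum_eq_zero fun d hd => by
        rw [hterm _ _ (Finset.mem_range.1 hd), if_neg fun h => hj h.1]
    · intro h; exact absurd hx.1.1 h
  · let Φ : (ℤ →₀ E) →+ P :=
      Finsupp.liftAddHom fun j => (sh j).toAddMonoidHom.comp σ.toAddMonoidHom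
    have hΦ : ∀ w, Φ w = w.sum (fun j u => sh j (σ u)) := fun w => rfl
    have hΦ1 : ∀ j u, sh j (σ u) ∈ Φ.range := fun j u => ⟨Finsupp.single j u, by simp [Φ]⟩
    have hext' : ∀ x y, (∀ k, cf k x = cf k y) → x = y := fun x y h =>
      sub_eq_zero.1 (hext _ fun k => by rw [map_sub, h, sub_self])
    have hΦs : ∀ a, ∀ x ∈ Φ.range, sh a x ∈ Φ.range := by
      rintro a _ ⟨w, rfl⟩
      rw [hΦ, Finsupp.sum, map_sum]
      refine AddSubgroup.sum_mem _ fun j _ => ?_
      rw [hext' (sh a (sh j (σ (w j)))) (sh (j + a) (σ (w j))) fun k => by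
        rw [hsh, hsh, hsh]; congr 2; ring]
      exact hΦ1 _ _
    have hMN : ∀ N : ℕ, ∀ v ∈ M N, v ∈ Φ.range := by
      intro N
      induction N with
      | zero =>
        intro v hv
        rw [hext v fun k => hv k (by omega)]
        exact zero_mem _
      | succ N ih =>
        intro v hv
        have hu : cf N v ∈ L (N + 1) := ⟨v, hv, by simp⟩
        have : v - ∑ d ∈ Finset.range D, sh (N - d) (σ (p d (cf N v))) ∈ M N := by
          intro k hk
          rw [map_sub, map_sum]
          by_cases hkN : k = N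
          · subst hkN
            rw [sub_eq_zero]
            refine (h1 _ (hLD _ hu)).symm.trans (Finset.sum_congr rfl fun d hd => ?_)
            rw [hsh, hσp d (Finset.mem_range.1 hd), show (N : ℤ) - (N - d) = d by ring,
              hs2 d _ (h2 _ _)]
          · rw [hv k (by push_cast; omega), Finset.sum_eq_zero, sub_zero]
            intro d hd
            rw [hsh, hσp d (Finset.mem_range.1 hd)]
            by_cases hdN : d ≤ N
            · exact hs1 d _ _ (by push_cast; omega)
            · rw [h3 d _ (hm (by omega) hu), map_zero, map_zero]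
        have h' := add_mem (ih _ this)
          (AddSubgroup.sum_mem _ fun d (_ : d ∈ Finset.range D) => hΦ1 (N - d) (p d (cf N v)))
        simpa using h'
    obtain ⟨a, N, hN⟩ := hfin v
    have := hΦs a _ (hMN N (sh (-a) v) fun k hk => by rw [hsh]; exact hN _ (by omega))
    rw [hext' (sh a (sh (-a) v)) v fun k => by rw [hsh, hsh]; congr 2; ring] at this
    exact this

theorem coeff_T_mul {B : Type*} [Ring B] (j k : ℤ) (x : B[T;T⁻¹]) :
    (T j * x).coeff k = x.coeff (k - j) := by
  have := AddMonoidAlgebra.coeff_single_mul_add x (1 : B) j (k - j)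
  rw [show j + (k - j) = k by ring, one_mul] at this
  exact this

theorem semisimple {B ι : Type*} [Ring B] [IsSemisimpleRing B] [Fintype ι] [DecidableEq ι]
    (e : Matrix ι ι B[T;T⁻¹]) (he : e * e = e) :
    ∃ (f : Matrix ι ι B) (x y : Matrix ι ι B[T;T⁻¹]), f * f = f ∧ x * y = e ∧ y * x = f.map C := by
  classical
  let P : Submodule B (ι → B[T;T⁻¹]) :=
    { carrier := {v | v ᵥ* e = v}
      add_mem' := fun {a b} ha hb => by
        show (a + b) ᵥ* e = a + b
        rw [Matrix.add_vecMul, ha, hb]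
      zero_mem' := Matrix.zero_vecMul _
      smul_mem' := fun c v hv => by
        show (c • v) ᵥ* e = c • v
        rw [Matrix.smul_vecMul, hv] }
  have hP : ∀ v, v ∈ P ↔ v ᵥ* e = v := fun _ => Iff.rfl
  let cf : ℤ → P →ₗ[B] (ι → B) := fun k =>
    { toFun := fun v i => (v.1 i).coeff k
      map_add' := fun a b => by ext i; simp
      map_smul' := fun c a => by ext i; simp }
  have hT : ∀ (j : ℤ) (v : P), (T j : B[T;T⁻¹]) • v.1 ∈ P := fun j v => by
    show (_ • v.1) ᵥ* e = _
    rw [Matrix.smul_vecMul, v.2]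
  let sh : ℤ → P →ₗ[B] P := fun j =>
    { toFun := fun v => ⟨(T j : B[T;T⁻¹]) • v.1, hT j v⟩
      map_add' := fun a b => Subtype.ext (smul_add _ _ _)
      map_smul' := fun c a => Subtype.ext (by
        ext i k
        show (T j * (c • a.1 i)).coeff k = (c • (T j * a.1 i)).coeff k
        rw [coeff_T_mul]
        simp only [AddMonoidAlgebra.coeff_smul, Finsupp.smul_apply, coeff_T_mul]) }
  obtain ⟨π, σ, h1, h2, h3, h4⟩ := filt cf sh
    (fun j k v => by ext i; exact coeff_T_mul j k _)
    (fun v hv => Subtype.ext (by ext i k; exact congrFun (hv k) i))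
    (fun v => by
      obtain ⟨N, hN⟩ := (Finset.univ.biUnion fun i => (v.1 i).coeff.support).exists_le
        (α := ℤ)
      obtain ⟨a, ha⟩ := (Finset.univ.biUnion fun i => (v.1 i).coeff.support).exists_le
        (α := ℤᵒᵈ)
      refine ⟨OrderDual.ofDual a, (N + 1 - OrderDual.ofDual a).toNat, fun k hk => ?_⟩
      ext i
      by_contra hne
      have hk' : k ∈ Finset.univ.biUnion fun i => (v.1 i).coeff.support :=
        Finset.mem_biUnion.2 ⟨i, Finset.mem_univ _, Finsupp.mem_support_iff.2 hne⟩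
      have b1 := hN k hk'
      have b2 : OrderDual.ofDual a ≤ k := ha k hk'
      omega)
  let f : Matrix ι ι B := Matrix.of fun k => π (Pi.single k 1)
  let X : Matrix ι ι B[T;T⁻¹] := Matrix.of fun k => (σ (Pi.single k 1)).1
  have hu : ∀ u : ι → B, u = ∑ k, u k • (Pi.single k 1 : ι → B) := fun u => by
    ext i; simp [Pi.single_apply]
  have hf : ∀ u : ι → B, u ᵥ* f = π u := fun u => by
    conv_rhs => rw [hu u, map_sum]
    ext i
    simp [Matrix.vecMul, dotProduct, f]
  let emb : (ℤ →₀ (ι → B)) → ι → B[T;T⁻¹] := fun w i =>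
    w.sum fun j u => AddMonoidAlgebra.single j (u i)
  have hemb : ∀ w i k, (emb w i).coeff k = w k i := fun w i k => by
    simp only [emb, Finsupp.sum, AddMonoidAlgebra.coeff_sum, Finsupp.coe_finsetSum,
      Finset.sum_apply, AddMonoidAlgebra.coeff_single, Finsupp.single_apply]
    rw [Finset.sum_ite_eq']
    split_ifs with h
    · rfl
    · rw [Finsupp.notMem_support_iff.1 h]; rfl
  have hsurj : ∀ v : ι → B[T;T⁻¹], ∃ w, emb w = v := fun v =>
    ⟨Finsupp.onFinset (Finset.univ.biUnion fun i => (v i).coeff.support)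
      (fun k i => (v i).coeff k) (fun k hk => by
        obtain ⟨i, hi⟩ := Function.ne_iff.1 hk
        exact Finset.mem_biUnion.2 ⟨i, Finset.mem_univ _, Finsupp.mem_support_iff.2 hi⟩),
      by ext i k; rw [hemb]; rfl⟩
  have hX : ∀ w, emb w ᵥ* X = (w.sum (fun j u => sh j (σ u)) : P).1 := fun w => by
    ext1 i
    simp only [Matrix.vecMul, dotProduct, emb, Finsupp.sum, Finset.sum_mul, Submodule.coe_sum,
      Finset.sum_apply]
    rw [Finset.sum_comm]
    refine Finset.sum_congr rfl fun j _ => ?_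
    conv_rhs => rw [hu (w j), map_sum, map_sum]
    simp only [Submodule.coe_sum, Finset.sum_apply, map_smul]
    refine Finset.sum_congr rfl fun k _ => ?_
    show _ = w j k • (T j * X k i)
    rw [smul_eq_C_mul, ← mul_assoc, single_eq_C_mul_T]
  have hF : ∀ (v : ι → B[T;T⁻¹]) (k : ℤ),
      (fun i => ((v ᵥ* f.map C) i).coeff k) = π fun i => (v i).coeff k := fun v k => by
    rw [← hf]
    ext i
    simp [Matrix.vecMul, dotProduct, ← single_eq_C, -single_eq_C_mul_T]
  have hff : f * f = f := by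
    ext k i
    exact congrFun ((hf (f k)).trans (h1 _)) i
  have hFX : f.map C * X = X := by
    ext1 k i
    have := congrFun (hX (Finsupp.single 0 (f k))) i
    rw [Finsupp.sum_single_index (by simp)] at this
    have h5 : emb (Finsupp.single 0 (f k)) = f.map C k := by
      ext i' n
      rw [hemb]
      simp [Finsupp.single_apply, eq_comm, apply_ite (fun u : ι → B => u i')]
    rw [h5] at this
    refine this.trans ?_
    show T 0 * (σ (π (Pi.single k 1))).1 i = _
    rw [h2, T_zero, one_mul]; rfl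
  have hXe : X * e = X := by
    ext1 k i
    exact congrFun (σ (Pi.single k 1)).2 i
  have hinj : ∀ v : ι → B[T;T⁻¹], v ᵥ* X = 0 → v ᵥ* f.map C = 0 := fun v hv => by
    obtain ⟨w, rfl⟩ := hsurj v
    have := h3 w (Subtype.ext ((hX w).symm.trans hv))
    ext i k
    refine (congrFun (hF (emb w) k) i).trans ?_
    simp only [hemb]
    exact congrFun (this k) i
  have hY : ∀ k, ∃ v, v ᵥ* X = e k := fun k => by
    obtain ⟨w, hw⟩ := h4 ⟨e k, by ext1 i; exact congrFun (congrFun he k) i⟩
    exact ⟨emb w, by rw [hX, hw]⟩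
  choose Y hY using hY
  have hYX : Matrix.of Y * X = e := by
    ext1 k i
    exact congrFun (hY k) i
  refine ⟨f, Matrix.of Y * f.map C, X, hff, by rw [Matrix.mul_assoc, hFX, hYX], ?_⟩
  have : (X * Matrix.of Y - 1) * f.map C = 0 := by
    ext1 k i
    refine congrFun (hinj ((X * Matrix.of Y - 1) k) ?_) i
    have : (X * Matrix.of Y - 1) * X = 0 := by
      rw [Matrix.sub_mul, Matrix.mul_assoc, hYX, hXe, Matrix.one_mul, sub_self]
    ext1 i'
    exact congrFun (congrFun this k) i'
  rwa [Matrix.sub_mul, Matrix.one_mul, sub_eq_zero, Matrix.mul_assoc] at this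

/-- Equivalences of idempotents lift along surjections with nil kernel. -/
theorem lift_equiv {A A' : Type*} [Ring A] [Ring A'] (π : A →+* A') (hπ : Function.Surjective π)
    (hnil : ∀ z, π z = 0 → IsNilpotent z) {e f : A} (he : e * e = e) (hf : f * f = f)
    {x' y' : A'} (h1 : x' * y' = π e) (h2 : y' * x' = π f) :
    ∃ x y, x * y = e ∧ y * x = f ∧ e * x = x ∧ f * y = y ∧ π x = π e * x' ∧ π y = π f * y' := by
  obtain ⟨a, rfl⟩ := hπ x'
  obtain ⟨b, rfl⟩ := hπ y'
  have he' : π e * π e = π e := by rw [← map_mul, he]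
  have hf' : π f * π f = π f := by rw [← map_mul, hf]
  have k1 : π a * π f = π e * π a := by rw [← h1, ← h2, mul_assoc]
  have k2 : π b * π e = π f * π b := by rw [← h1, ← h2, mul_assoc]
  have hx : π (e * a * f) = π e * π a := by
    rw [map_mul, map_mul, mul_assoc, k1, ← mul_assoc, he']
  have hy : π (f * b * e) = π f * π b := by
    rw [map_mul, map_mul, mul_assoc, k2, ← mul_assoc, hf']
  set x := e * a * f with hxd
  set y := f * b * e with hyd
  have ex : e * x = x := by rw [hxd, ← mul_assoc, ← mul_assoc, he]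
  have xf : x * f = x := by rw [hxd, mul_assoc _ f, hf]
  have fy : f * y = y := by rw [hyd, ← mul_assoc, ← mul_assoc, hf]
  have ye : y * e = y := by rw [hyd, mul_assoc _ e, he]
  clear_value x y
  have hn : π (e - x * y) = 0 := by
    rw [map_sub, map_mul, hx, hy, mul_assoc, ← mul_assoc (π a), k1, mul_assoc, h1, he', he',
      sub_self]
  obtain ⟨u, hu⟩ := (hnil _ hn).isUnit_one_sub
  have hc : Commute e (u : A) := by
    rw [hu]
    refine (Commute.one_right e).sub_right ((Commute.refl e).sub_right ?_)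
    show e * (x * y) = x * y * e
    rw [← mul_assoc, ex, mul_assoc, ye]
  have hc' : Commute e ((u⁻¹ : Aˣ) : A) := hc.units_inv_right
  have hπu : π ((u⁻¹ : Aˣ) : A) = 1 := by
    have : π (u : A) = 1 := by rw [hu, map_sub, hn, map_one, sub_zero]
    have h3 : π (u : A) * π ((u⁻¹ : Aˣ) : A) = 1 := by rw [← map_mul, Units.mul_inv, map_one]
    rwa [this, one_mul] at h3
  have hxy : x * (y * ((u⁻¹ : Aˣ) : A)) = e := by
    have : x * y = e * u := by
      rw [hu, mul_sub, mul_sub, he, ← mul_assoc, ex, mul_one, sub_sub_cancel]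
    rw [← mul_assoc, this, mul_assoc, Units.mul_inv, mul_one]
  set y₁ := y * ((u⁻¹ : Aˣ) : A) with hy₁
  have fy₁ : f * y₁ = y₁ := by rw [hy₁, ← mul_assoc, fy]
  have hπy : π y₁ = π f * π b := by rw [hy₁, map_mul, hπu, mul_one, hy]
  clear_value y₁
  refine ⟨x, y₁, hxy, ?_, ex, fy₁, hx, hπy⟩
  have hg : y₁ * x * (y₁ * x) = y₁ * x := by
    rw [mul_assoc, ← mul_assoc x, hxy, ex]
  have hid : IsIdempotentElem (f - y₁ * x) := by
    show (f - y₁ * x) * (f - y₁ * x) = _
    rw [mul_sub, sub_mul, sub_mul, hf, hg, ← mul_assoc f, fy₁, mul_assoc y₁, xf, sub_self,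
      sub_zero]
  have hz : π (f - y₁ * x) = 0 := by
    rw [map_sub, map_mul, hπy, hx, mul_assoc, ← mul_assoc (π b), k2, mul_assoc, h2, hf', hf',
      sub_self]
  obtain ⟨n, hn⟩ := hnil _ hz
  rcases n with _ | n
  · have : Subsingleton A := subsingleton_of_zero_eq_one (by simpa using hn.symm)
    exact Subsingleton.elim _ _
  · rw [hid.pow_succ_eq, sub_eq_zero] at hn
    exact hn.symm

/-- A matrix over `B[t,t⁻¹]` with all coefficients in a nilpotent ideal is nilpotent. -/
theorem nil_matrix {B ι : Type*} [Ring B] [Fintype ι] [DecidableEq ι] (J : Ideal B)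
    (hJ : IsNilpotent J) (z : Matrix ι ι B[T;T⁻¹]) (hz : ∀ i j k, (z i j).coeff k ∈ J) :
    IsNilpotent z := by
  classical
  obtain ⟨m, hm⟩ := hJ
  have : ∀ n : ℕ, ∀ i j k, ((z ^ n) i j).coeff k ∈ J ^ n := by
    intro n
    induction n with
    | zero => intro i j k; rw [Submodule.pow_zero, Ideal.one_eq_top]; trivial
    | succ n ih =>
      intro i j k
      rw [pow_succ, Matrix.mul_apply, AddMonoidAlgebra.coeff_sum, Finsupp.finsetSum_apply,
        Submodule.pow_succ]
      refine Submodule.sum_mem _ fun l _ => ?_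
      rw [AddMonoidAlgebra.coeff_mul]
      refine Submodule.sum_mem _ fun a _ => Submodule.sum_mem _ fun b _ => ?_
      beta_reduce
      split_ifs
      · exact Submodule.mul_mem_mul (ih _ _ _) (hz _ _ _)
      · exact zero_mem _
  refine ⟨m, ?_⟩
  ext i j k
  have h := this m i j k
  rw [hm] at h
  simpa using h

/-- Evaluation at `t = 1`. -/
def ev1 (B : Type*) [Ring B] : B[T;T⁻¹] →+* B :=
  AddMonoidAlgebra.liftNCRingHom (RingHom.id B) 1 fun _ _ => Commute.one_right _

@[simp] theorem ev1_single {B : Type*} [Ring B] (k : ℤ) (b : B) :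
    ev1 B (AddMonoidAlgebra.single k b) = b := by
  simp [ev1, AddMonoidAlgebra.liftNCRingHom, -single_eq_C_mul_T]

@[simp] theorem ev1_C {B : Type*} [Ring B] (b : B) : ev1 B (C b) = b := ev1_single 0 b

theorem ev1_map {B B' : Type*} [Ring B] [Ring B'] (φ : B →+* B') (x : B[T;T⁻¹]) :
    ev1 B' (AddMonoidAlgebra.mapRingHom ℤ φ x) = φ (ev1 B x) := by
  induction x using AddMonoidAlgebra.induction_linear with
  | zero => simp
  | add x y hx hy => simp only [map_add, hx, hy]
  | single k b => rw [AddMonoidAlgebra.mapRingHom_single, ev1_single, ev1_single]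

/-- CONST, strong form: `e` is equivalent to the constant idempotent `e(1)`. -/
theorem const_ev1 {B ι : Type*} [Ring B] [IsSemiprimaryRing B] [Fintype ι] [DecidableEq ι]
    (e : Matrix ι ι B[T;T⁻¹]) (he : e * e = e) :
    ∃ x y : Matrix ι ι B[T;T⁻¹], x * y = e ∧ y * x = (e.map (ev1 B)).map C ∧ e * x = x ∧
      (e.map (ev1 B)).map C * y = y := by
  let q := Ideal.Quotient.mk (Ring.jacobson B)
  let Q : B[T;T⁻¹] →+* (B ⧸ Ring.jacobson B)[T;T⁻¹] := AddMonoidAlgebra.mapRingHom ℤ q
  let c : (B ⧸ Ring.jacobson B)[T;T⁻¹] →+* (B ⧸ Ring.jacobson B)[T;T⁻¹] := C.comp (ev1 _)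
  obtain ⟨f, x, y, hf, hxy, hyx⟩ := semisimple (Q.mapMatrix e) (by rw [← map_mul, he])
  have hcf : c.mapMatrix (f.map C) = f.map C := by ext1 i j; simp [c]
  have hce : c.mapMatrix (Q.mapMatrix e) = Q.mapMatrix ((e.map (ev1 B)).map C) := by
    ext1 i j
    simp only [c, Q, RingHom.mapMatrix_apply, Matrix.map_apply, RingHom.comp_apply, ev1_map]
    exact (AddMonoidAlgebra.mapRingHom_single q 0 _).symm
  have hff : f.map C * f.map C = (f.map C : Matrix ι ι (B ⧸ Ring.jacobson B)[T;T⁻¹]) := by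
    rw [← Matrix.map_mul, hf]
  have hee : Q.mapMatrix e * Q.mapMatrix e = Q.mapMatrix e := by rw [← map_mul, he]
  obtain ⟨a, b, h1, h2, h3, h4, -⟩ := lift_equiv Q.mapMatrix
    (fun z => by
      choose g hg using fun i j => AddMonoidAlgebra.map_surjective (M := ℤ) q.toAddMonoidHom
        Ideal.Quotient.mk_surjective (z i j)
      exact ⟨Matrix.of g, by ext1 i j; exact hg i j⟩)
    (fun z hz => nil_matrix _ IsSemiprimaryRing.isNilpotent z fun i j k =>
      Ideal.Quotient.eq_zero_iff_mem.1 (by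
        have := congrArg (fun w => (w i j).coeff k) hz
        simpa [Q] using this))
    he (f := (e.map (ev1 B)).map C) (by rw [← Matrix.map_mul, ← Matrix.map_mul, he])
    (x' := x * c.mapMatrix y) (y' := c.mapMatrix x * y)
    (by rw [mul_assoc, ← mul_assoc (c.mapMatrix y), ← map_mul, hyx, hcf, ← hyx, mul_assoc,
      ← mul_assoc, hxy, hee])
    (by rw [mul_assoc, ← mul_assoc y, hyx, ← hcf, ← map_mul, ← map_mul, ← hyx, mul_assoc,
      ← mul_assoc x, hxy, hee, hce])
  exact ⟨a, b, h1, h2, h3, h4⟩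

/-- CONST. -/
theorem const {B ι : Type*} [Ring B] [IsArtinianRing B] [Fintype ι] [DecidableEq ι]
    (e : Matrix ι ι B[T;T⁻¹]) (he : e * e = e) :
    ∃ (f : Matrix ι ι B) (x y : Matrix ι ι B[T;T⁻¹]), f * f = f ∧ x * y = e ∧ y * x = f.map C := by
  obtain ⟨x, y, h1, h2, -⟩ := const_ev1 e he
  exact ⟨e.map (ev1 B), x, y, by rw [← Matrix.map_mul, he], h1, h2⟩

end Pool.Agent.Lib.KM1.CONST
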