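import Pool.Agent.Lib.KM1.Blue
import Pool.Agent.Lib.KM1.CONST

namespace Pool.Agent.Lib.KM1

universe u

theorem stCONST : St_CONST.{u} := by
  intro B _ _ ι _ _ e he
  obtain ⟨f, x, y, hf, h1, h2⟩ := CONST.const e he
  exact ⟨f, hf, x, y, h1, h2⟩

end Pool.Agent.Lib.KM1
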