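import Pool.Agent.Lib.KM1.Defs

/-! Working interface for `K0`: classes of idempotent matrices over arbitrary finite index types. -/

namespace Pool.Agent.Lib.KM1

open Matrix

universe u v

variable {R : Type u} [Ring R]

/-- Algebraic equivalence of (idempotent) matrices. -/
def MEq {ι κ : Type} [Fintype ι] [Fintype κ] (e : Matrix ι ι R) (f : Matrix κ κ R) : Prop :=
  ∃ (x : Matrix ι κ R) (y : Matrix κ ι R), x * y = e ∧ y * x = f

theorem reindex_idem {ι κ : Type} [Fintype ι] [Fintype κ] (σ : ι ≃ κ) {e : Matrix ι ι R}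
    (he : e * e = e) : reindex σ σ e * reindex σ σ e = reindex σ σ e := by
  simp [Matrix.submatrix_mul_equiv, he]

open Classical in
/-- The class in `K0` of an idempotent matrix (zero if the matrix is not idempotent). -/
noncomputable def cls {ι : Type} [Fintype ι] (e : Matrix ι ι R) : K0 R :=
  if h : e * e = e then
    QuotientAddGroup.mk (FreeAbelianGroup.of
      (⟨Fintype.card ι, reindex (Fintype.equivFin ι) (Fintype.equivFin ι) e,
        reindex_idem _ h⟩ : Idem R))
  else 0

section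
variable {ι κ μ : Type} [Fintype ι] [Fintype κ] [Fintype μ]

theorem MEq.symm {e : Matrix ι ι R} {f : Matrix κ κ R} (h : MEq e f) : MEq f e := by
  obtain ⟨x, y, h1, h2⟩ := h
  exact ⟨y, x, h2, h1⟩

theorem MEq.refl {e : Matrix ι ι R} (he : e * e = e) : MEq e e := ⟨e, e, he, he⟩

theorem MEq.trans {e : Matrix ι ι R} {f : Matrix κ κ R} {g : Matrix μ μ R}
    (he : e * e = e) (_hf : f * f = f) (hg : g * g = g) (h : MEq e f) (h' : MEq f g) : MEq e g := by
  obtain ⟨x, y, h1, h2⟩ := h
  obtain ⟨z, w, h3, h4⟩ := h'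
  refine ⟨x * z, w * y, ?_, ?_⟩
  · rw [Matrix.mul_assoc, ← Matrix.mul_assoc z, h3, ← h2, Matrix.mul_assoc, ← Matrix.mul_assoc x,
      h1, he]
  · rw [Matrix.mul_assoc, ← Matrix.mul_assoc y, h2, ← h3, Matrix.mul_assoc, ← Matrix.mul_assoc w,
      h4, hg]

/-- An equivalence can be chosen normalised. -/
theorem MEq.norm {e : Matrix ι ι R} {f : Matrix κ κ R} (he : e * e = e) (hf : f * f = f)
    (h : MEq e f) : ∃ (x : Matrix ι κ R) (y : Matrix κ ι R),
      x * y = e ∧ y * x = f ∧ e * x = x ∧ x * f = x ∧ f * y = y ∧ y * e = y := by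
  obtain ⟨x, y, h1, h2⟩ := h
  have hx : e * x = x * f := by rw [← h1, ← h2, Matrix.mul_assoc]
  have hy : f * y = y * e := by rw [← h1, ← h2, Matrix.mul_assoc]
  refine ⟨e * x, f * y, ?_, ?_, ?_, ?_, ?_, ?_⟩
  · rw [hy, Matrix.mul_assoc, ← Matrix.mul_assoc x, h1, he, he]
  · rw [hx, Matrix.mul_assoc, ← Matrix.mul_assoc y, h2, hf, hf]
  · rw [← Matrix.mul_assoc, he]
  · rw [hx, Matrix.mul_assoc, hf]
  · rw [← Matrix.mul_assoc, hf]
  · rw [hy, Matrix.mul_assoc, he]

theorem MEq.map {S : Type v} [Ring S] (φ : R →+* S) {e : Matrix ι ι R} {f : Matrix κ κ R}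
    (h : MEq e f) : MEq (e.map φ) (f.map φ) := by
  obtain ⟨x, y, h1, h2⟩ := h
  exact ⟨x.map φ, y.map φ, by rw [← Matrix.map_mul, h1], by rw [← Matrix.map_mul, h2]⟩

theorem idem_map {S : Type v} [Ring S] (φ : R →+* S) {e : Matrix ι ι R} (he : e * e = e) :
    e.map φ * e.map φ = e.map φ := by rw [← Matrix.map_mul, he]

theorem idem_blocks {e : Matrix ι ι R} {f : Matrix κ κ R} (he : e * e = e) (hf : f * f = f) :
    fromBlocks e 0 0 f * fromBlocks e 0 0 f = fromBlocks e 0 0 f := by
  simp [Matrix.fromBlocks_multiply, he, hf]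

theorem MEq.blocks {ι' κ' : Type} [Fintype ι'] [Fintype κ'] {e : Matrix ι ι R} {f : Matrix κ κ R}
    {e' : Matrix ι' ι' R} {f' : Matrix κ' κ' R} (h : MEq e f) (h' : MEq e' f') :
    MEq (fromBlocks e 0 0 e') (fromBlocks f 0 0 f') := by
  obtain ⟨x, y, h1, h2⟩ := h
  obtain ⟨z, w, h3, h4⟩ := h'
  exact ⟨fromBlocks x 0 0 z, fromBlocks y 0 0 w, by simp [Matrix.fromBlocks_multiply, h1, h3],
    by simp [Matrix.fromBlocks_multiply, h2, h4]⟩

theorem MEq.reindex (σ : ι ≃ κ) {e : Matrix ι ι R} (he : e * e = e) :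
    MEq e (reindex σ σ e) :=
  ⟨e.submatrix id σ.symm, e.submatrix σ.symm id, by
    simp [Matrix.submatrix_mul_equiv, he], by
    rw [← Matrix.submatrix_mul _ _ _ id _ Function.bijective_id, he]; rfl⟩

theorem cls_eq_mk (a : Idem R) : cls a.e = QuotientAddGroup.mk (FreeAbelianGroup.of a) := by
  rw [cls, dif_pos a.idem, QuotientAddGroup.eq_iff_sub_mem]
  obtain ⟨x, y, h1, h2⟩ := (MEq.reindex (Fintype.equivFin (Fin a.n)) a.idem).symm
  exact AddSubgroup.subset_closure (Or.inl ⟨⟨_, _, reindex_idem _ a.idem⟩, a, x, y, h1, h2, rfl⟩)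

theorem cls_equiv {e : Matrix ι ι R} {f : Matrix κ κ R} (he : e * e = e) (hf : f * f = f)
    (h : MEq e f) : cls e = cls f := by
  rw [cls, cls, dif_pos he, dif_pos hf, QuotientAddGroup.eq_iff_sub_mem]
  obtain ⟨x, y, h1, h2⟩ := MEq.trans (reindex_idem _ he) he (reindex_idem _ hf)
    (MEq.reindex (Fintype.equivFin ι) he).symm
    (MEq.trans he hf (reindex_idem _ hf) h (MEq.reindex (Fintype.equivFin κ) hf))
  exact AddSubgroup.subset_closure
    (Or.inl ⟨⟨_, _, reindex_idem _ he⟩, ⟨_, _, reindex_idem _ hf⟩, x, y, h1, h2, rfl⟩)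

theorem cls_reindex (σ : ι ≃ κ) {e : Matrix ι ι R} (he : e * e = e) :
    cls (reindex σ σ e) = cls e :=
  (cls_equiv he (reindex_idem σ he) (MEq.reindex σ he)).symm

theorem cls_blocks {e : Matrix ι ι R} {f : Matrix κ κ R} (he : e * e = e) (hf : f * f = f) :
    cls (fromBlocks e 0 0 f) = cls e + cls f := by
  let a : Idem R := ⟨_, _, reindex_idem (Fintype.equivFin ι) he⟩
  let b : Idem R := ⟨_, _, reindex_idem (Fintype.equivFin κ) hf⟩
  let c : Idem R := ⟨_, _, reindex_idem finSumFinEquiv (idem_blocks a.idem b.idem)⟩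
  have h1 : cls e = QuotientAddGroup.mk (FreeAbelianGroup.of a) := by rw [cls, dif_pos he]
  have h2 : cls f = QuotientAddGroup.mk (FreeAbelianGroup.of b) := by rw [cls, dif_pos hf]
  have h3 : cls (fromBlocks e 0 0 f) = QuotientAddGroup.mk (FreeAbelianGroup.of c) := by
    rw [← cls_eq_mk]
    refine cls_equiv (idem_blocks he hf) c.idem (MEq.trans (idem_blocks he hf)
      (idem_blocks a.idem b.idem) c.idem
      ((MEq.reindex _ he).blocks (MEq.reindex _ hf)) (MEq.reindex _ (idem_blocks a.idem b.idem)))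
  rw [h1, h2, h3, ← QuotientAddGroup.mk_add, QuotientAddGroup.eq_iff_sub_mem, ← sub_sub]
  exact AddSubgroup.subset_closure (Or.inr ⟨a, b, c, finSumFinEquiv, rfl, rfl⟩)

theorem map_cls {S : Type v} [Ring S] (φ : R →+* S) {e : Matrix ι ι R} (he : e * e = e) :
    K0.map φ (cls e) = cls (e.map φ) := by
  rw [cls, cls, dif_pos he, dif_pos (idem_map φ he)]
  rfl

theorem map_cls_one [DecidableEq ι] {S : Type v} [Ring S] (φ : R →+* S) :
    K0.map φ (cls (1 : Matrix ι ι R)) = cls (1 : Matrix ι ι S) := by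
  rw [map_cls φ (by simp), Matrix.map_one _ (map_zero φ) (map_one φ)]

theorem cls_zero : cls (0 : Matrix ι ι R) = 0 := by
  have h := cls_blocks (e := (0 : Matrix ι ι R)) (f := (0 : Matrix ι ι R)) (by simp) (by simp)
  have h2 : cls (fromBlocks (0 : Matrix ι ι R) 0 0 (0 : Matrix ι ι R)) = cls (0 : Matrix ι ι R) :=
    cls_equiv (by simp) (by simp) ⟨0, 0, by simp, by simp⟩
  rw [h2] at h
  simpa using h

/-- Orthogonal idempotents add. -/
theorem cls_add_orth {e f : Matrix ι ι R} (he : e * e = e) (hf : f * f = f) (hef : e * f = 0)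
    (hfe : f * e = 0) : cls (e + f) = cls e + cls f := by
  rw [← cls_blocks he hf]
  refine cls_equiv (by simp [Matrix.mul_add, Matrix.add_mul, he, hf, hef, hfe]) (idem_blocks he hf)
    ⟨fromCols e f, fromRows e f, ?_, ?_⟩
  · simp [Matrix.fromCols_mul_fromRows, he, hf]
  · simp [he, hf, hef, hfe]

theorem idem_compl [DecidableEq ι] {e : Matrix ι ι R} (he : e * e = e) :
    (1 - e) * (1 - e) = 1 - e := by
  simp [Matrix.mul_sub, Matrix.sub_mul, he]

theorem cls_add_compl [DecidableEq ι] {e : Matrix ι ι R} (he : e * e = e) :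
    cls e + cls (1 - e) = cls (1 : Matrix ι ι R) := by
  rw [← cls_add_orth he (idem_compl he) (by simp [Matrix.mul_sub, he])
    (by simp [Matrix.sub_mul, he])]
  simp

theorem cls_one_sum [DecidableEq ι] [DecidableEq κ] :
    cls (1 : Matrix (ι ⊕ κ) (ι ⊕ κ) R) = cls (1 : Matrix ι ι R) + cls (1 : Matrix κ κ R) := by
  rw [← cls_blocks (by simp) (by simp), Matrix.fromBlocks_one]

end

/-- Induction on `K0`. -/
theorem K0.induction {P : K0 R → Prop} (h0 : P 0)
    (hc : ∀ (n : ℕ) (e : Matrix (Fin n) (Fin n) R), e * e = e → P (cls e))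
    (hn : ∀ y, P y → P (-y)) (ha : ∀ y z, P y → P z → P (y + z)) (y : K0 R) : P y := by
  induction y using QuotientAddGroup.induction_on with
  | H z =>
    induction z using FreeAbelianGroup.induction_on with
    | zero => simpa using h0
    | of a => rw [← cls_eq_mk]; exact hc _ _ a.idem
    | neg a ih => rw [QuotientAddGroup.mk_neg]; exact hn _ ih
    | add x y hx hy => rw [QuotientAddGroup.mk_add]; exact ha _ _ hx hy

theorem K0.hom_ext {A : Type*} [AddCommGroup A] {f g : K0 R →+ A}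
    (h : ∀ (n : ℕ) (e : Matrix (Fin n) (Fin n) R), e * e = e → f (cls e) = g (cls e)) : f = g := by
  refine AddMonoidHom.ext (fun y => ?_)
  induction y using K0.induction with
  | h0 => simp
  | hc n e he => exact h n e he
  | hn y hy => simp [hy]
  | ha y z hy hz => simp [hy, hz]

/-- Every element of `K0` is `[e] - [1_k]`. -/
theorem K0.exists_rep (y : K0 R) : ∃ (n k : ℕ) (e : Matrix (Fin n) (Fin n) R),
    e * e = e ∧ y = cls e - cls (1 : Matrix (Fin k) (Fin k) R) := by
  induction y using K0.induction with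
  | h0 => exact ⟨0, 0, 1, by simp, by simp⟩
  | hc n e he =>
    refine ⟨n, 0, e, he, ?_⟩
    rw [show (1 : Matrix (Fin 0) (Fin 0) R) = 0 from Subsingleton.elim _ _, cls_zero, sub_zero]
  | hn y hy =>
    obtain ⟨n, k, e, he, rfl⟩ := hy
    have h1 : (1 : Matrix (Fin k) (Fin k) R) * 1 = 1 := by simp
    refine ⟨k + n, n + 0, reindex finSumFinEquiv finSumFinEquiv (fromBlocks 1 0 0 (1 - e)),
      reindex_idem _ (idem_blocks h1 (idem_compl he)), ?_⟩
    rw [cls_reindex _ (idem_blocks h1 (idem_compl he)), cls_blocks h1 (idem_compl he)]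
    change _ = _ - cls (1 : Matrix (Fin n) (Fin n) R)
    rw [← cls_add_compl he]
    abel
  | ha y z hy hz =>
    obtain ⟨n, k, e, he, rfl⟩ := hy
    obtain ⟨n', k', e', he', rfl⟩ := hz
    refine ⟨n + n', k + k', reindex finSumFinEquiv finSumFinEquiv (fromBlocks e 0 0 e'),
      reindex_idem _ (idem_blocks he he'), ?_⟩
    have : cls (1 : Matrix (Fin (k + k')) (Fin (k + k')) R) =
        cls (1 : Matrix (Fin k ⊕ Fin k') (Fin k ⊕ Fin k') R) := by
      rw [← cls_reindex finSumFinEquiv (e := (1 : Matrix (Fin k ⊕ Fin k') (Fin k ⊕ Fin k') R))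
        (by simp)]
      simp
    rw [cls_reindex _ (idem_blocks he he'), cls_blocks he he', this, cls_one_sum]
    abel

/-- Universal property of `K0`. -/
theorem K0.exists_lift {A : Type*} [AddCommGroup A]
    (F : ∀ (ι : Type) [Fintype ι] [DecidableEq ι], Matrix ι ι R → A)
    (h1 : ∀ (ι κ : Type) [Fintype ι] [DecidableEq ι] [Fintype κ] [DecidableEq κ]
      (e : Matrix ι ι R) (f : Matrix κ κ R), e * e = e → f * f = f → MEq e f → F ι e = F κ f)
    (h2 : ∀ (ι κ : Type) [Fintype ι] [DecidableEq ι] [Fintype κ] [DecidableEq κ]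
      (e : Matrix ι ι R) (f : Matrix κ κ R), e * e = e → f * f = f →
        F (ι ⊕ κ) (fromBlocks e 0 0 f) = F ι e + F κ f) :
    ∃ D : K0 R →+ A, ∀ (ι : Type) [Fintype ι] [DecidableEq ι] (e : Matrix ι ι R), e * e = e →
      D (cls e) = F ι e := by
  refine ⟨QuotientAddGroup.lift _ (FreeAbelianGroup.lift (fun a : Idem R => F (Fin a.n) a.e)) ?_,
    fun ι _ _ e he => ?_⟩
  · rw [AddSubgroup.closure_le]
    rintro z (⟨a, b, x, y, hx, hy, rfl⟩ | ⟨a, b, c, σ, h, rfl⟩)
    · simp only [SetLike.mem_coe, AddMonoidHom.mem_ker, map_sub, FreeAbelianGroup.lift_apply_of]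
      rw [h1 _ _ _ _ a.idem b.idem ⟨x, y, hx, hy⟩, sub_self]
    · simp only [SetLike.mem_coe, AddMonoidHom.mem_ker, map_sub, FreeAbelianGroup.lift_apply_of]
      rw [h, ← h1 _ _ _ _ (idem_blocks a.idem b.idem) (reindex_idem σ (idem_blocks a.idem b.idem))
        (MEq.reindex σ (idem_blocks a.idem b.idem)), h2 _ _ _ _ a.idem b.idem]
      abel
  · rw [cls, dif_pos he, QuotientAddGroup.lift_mk, FreeAbelianGroup.lift_apply_of]
    exact (h1 _ _ _ _ he (reindex_idem _ he) (MEq.reindex _ he)).symm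

/-- A trace function on `R` induces a homomorphism on `K0`. -/
theorem K0.exists_trace {A : Type*} [AddCommGroup A] (τ : R →+ A)
    (hτ : ∀ x y, τ (x * y) = τ (y * x)) :
    ∃ D : K0 R →+ A, ∀ (ι : Type) [Fintype ι] (e : Matrix ι ι R), e * e = e →
      D (cls e) = τ e.trace := by
  have key : ∀ (ι κ : Type) [Fintype ι] [Fintype κ] (x : Matrix ι κ R) (y : Matrix κ ι R),
      τ (x * y).trace = τ (y * x).trace := by
    intro ι κ _ _ x y
    simp only [Matrix.trace, Matrix.diag, Matrix.mul_apply, map_sum]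
    rw [Finset.sum_comm]
    exact Finset.sum_congr rfl fun i _ => Finset.sum_congr rfl fun j _ => hτ _ _
  obtain ⟨D, hD⟩ := K0.exists_lift (R := R) (fun ι _ _ e => τ e.trace)
    (by rintro ι κ _ _ _ _ e f - - ⟨x, y, rfl, rfl⟩; exact key _ _ x y)
    (by
      intro ι κ _ _ _ _ e f _ _
      simp [Matrix.trace, Fintype.sum_sum_type])
  refine ⟨D, fun ι _ e he => ?_⟩
  classical
  exact hD ι e he

theorem trace_comm_of {A : Type*} [AddCommGroup A] (τ : R →+ A)
    (hτ : ∀ x y, τ (x * y) = τ (y * x)) {ι κ : Type} [Fintype ι] [Fintype κ]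
    (x : Matrix ι κ R) (y : Matrix κ ι R) : τ (x * y).trace = τ (y * x).trace := by
  simp only [Matrix.trace, Matrix.diag, Matrix.mul_apply, map_sum]
  rw [Finset.sum_comm]
  exact Finset.sum_congr rfl fun i _ => Finset.sum_congr rfl fun j _ => hτ _ _

section Stab

instance idemSetoid (R : Type u) [Ring R] : Setoid (Idem R) :=
  ⟨fun a b => MEq a.e b.e, fun a => MEq.refl a.idem, MEq.symm,
    fun {a b c} h h' => MEq.trans a.idem b.idem c.idem h h'⟩

/-- Block sum of bundled idempotents. -/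
def Idem.add (a b : Idem R) : Idem R :=
  ⟨a.n + b.n, reindex finSumFinEquiv finSumFinEquiv (fromBlocks a.e 0 0 b.e),
    reindex_idem _ (idem_blocks a.idem b.idem)⟩

theorem Idem.add_meq (a b : Idem R) : MEq (fromBlocks a.e 0 0 b.e) (a.add b).e :=
  MEq.reindex _ (idem_blocks a.idem b.idem)

theorem meq_blocks_comm {ι κ : Type} [Fintype ι] [Fintype κ] {e : Matrix ι ι R}
    {f : Matrix κ κ R} (he : e * e = e) (hf : f * f = f) :
    MEq (fromBlocks e 0 0 f) (fromBlocks f 0 0 e) :=
  ⟨fromBlocks 0 e f 0, fromBlocks 0 f e 0, by simp [Matrix.fromBlocks_multiply, he, hf],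
    by simp [Matrix.fromBlocks_multiply, he, hf]⟩

theorem meq_blocks_assoc {ι κ μ : Type} [Fintype ι] [Fintype κ] [Fintype μ] {e : Matrix ι ι R}
    {f : Matrix κ κ R} {g : Matrix μ μ R} (he : e * e = e) (hf : f * f = f) (hg : g * g = g) :
    MEq (fromBlocks (fromBlocks e 0 0 f) 0 0 g) (fromBlocks e 0 0 (fromBlocks f 0 0 g)) := by
  have h := MEq.reindex (Equiv.sumAssoc ι κ μ) (idem_blocks (idem_blocks he hf) hg)
  convert h using 1
  ext i j
  rcases i with i | i | i <;> rcases j with j | j | j <;> simp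

/-- The monoid of equivalence classes of idempotents. -/
def VM (R : Type u) [Ring R] : Type u := Quotient (idemSetoid R)

noncomputable instance : Add (VM R) where
  add := Quotient.map₂ Idem.add (fun a a' ha b b' hb =>
    MEq.trans (a.add b).idem (idem_blocks a.idem b.idem) (a'.add b').idem (a.add_meq b).symm
      (MEq.trans (idem_blocks a.idem b.idem) (idem_blocks a'.idem b'.idem) (a'.add b').idem
        (MEq.blocks ha hb) (a'.add_meq b')))

instance : Zero (VM R) := ⟨Quotient.mk _ ⟨0, 0, by simp⟩⟩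

noncomputable instance : AddCommMonoid (VM R) where
  nsmul := nsmulRec
  add_comm := by
    rintro ⟨a⟩ ⟨b⟩
    refine Quotient.sound ?_
    exact MEq.trans (a.add b).idem (idem_blocks a.idem b.idem) (b.add a).idem (a.add_meq b).symm
      (MEq.trans (idem_blocks a.idem b.idem) (idem_blocks b.idem a.idem) (b.add a).idem
        (meq_blocks_comm a.idem b.idem) (b.add_meq a))
  add_assoc := by
    rintro ⟨a⟩ ⟨b⟩ ⟨c⟩
    refine Quotient.sound ?_
    have i1 := idem_blocks (a.add b).idem c.idem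
    have i2 := idem_blocks (idem_blocks a.idem b.idem) c.idem
    have i3 := idem_blocks a.idem (idem_blocks b.idem c.idem)
    have i4 := idem_blocks a.idem (b.add c).idem
    exact MEq.trans ((a.add b).add c).idem i1 (a.add (b.add c)).idem ((a.add b).add_meq c).symm
      (MEq.trans i1 i2 (a.add (b.add c)).idem ((a.add_meq b).symm.blocks (MEq.refl c.idem))
        (MEq.trans i2 i3 (a.add (b.add c)).idem (meq_blocks_assoc a.idem b.idem c.idem)
          (MEq.trans i3 i4 (a.add (b.add c)).idem ((MEq.refl a.idem).blocks (b.add_meq c))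
            (a.add_meq (b.add c)))))
  zero_add := by
    rintro ⟨a⟩
    refine Quotient.sound ?_
    let z : Idem R := ⟨0, 0, by simp⟩
    refine MEq.trans (z.add a).idem (idem_blocks z.idem a.idem) a.idem (z.add_meq a).symm
      ⟨fromRows 0 a.e, fromCols 0 a.e, ?_, ?_⟩
    · rw [Matrix.fromRows_mul_fromCols]; simp [a.idem, z]
    · simp [Matrix.fromCols_mul_fromRows, a.idem]
  add_zero := by
    rintro ⟨a⟩
    refine Quotient.sound ?_
    let z : Idem R := ⟨0, 0, by simp⟩
    refine MEq.trans (a.add z).idem (idem_blocks a.idem z.idem) a.idem (a.add_meq z).symm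
      ⟨fromRows a.e 0, fromCols a.e 0, ?_, ?_⟩
    · rw [Matrix.fromRows_mul_fromCols]; simp [a.idem, z]
    · simp [Matrix.fromCols_mul_fromRows, a.idem]

/-- Equality in `K0` is stable equivalence. -/
theorem stab {ι κ : Type} [Fintype ι] [Fintype κ] {e : Matrix ι ι R} {f : Matrix κ κ R}
    (he : e * e = e) (hf : f * f = f) (h : cls e = cls f) :
    ∃ k : ℕ, MEq (fromBlocks e 0 0 (1 : Matrix (Fin k) (Fin k) R))
      (fromBlocks f 0 0 (1 : Matrix (Fin k) (Fin k) R)) := by
  let q : Idem R → VM R := fun a => Quotient.mk _ a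
  have qadd : ∀ a b, q (a.add b) = q a + q b := fun a b => rfl
  let D : K0 R →+ Algebra.GrothendieckAddGroup (VM R) :=
    QuotientAddGroup.lift _ (FreeAbelianGroup.lift
      (fun a : Idem R => Algebra.GrothendieckAddGroup.of (q a))) (by
      rw [AddSubgroup.closure_le]
      rintro z (⟨a, b, x, y, hx, hy, rfl⟩ | ⟨a, b, c, σ, h, rfl⟩)
      · simp only [SetLike.mem_coe, AddMonoidHom.mem_ker, map_sub, FreeAbelianGroup.lift_apply_of]
        rw [show q a = q b from Quotient.sound ⟨x, y, hx, hy⟩, sub_self]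
      · simp only [SetLike.mem_coe, AddMonoidHom.mem_ker, map_sub, FreeAbelianGroup.lift_apply_of]
        have : q c = q (a.add b) := by
          refine Quotient.sound ?_
          refine MEq.trans c.idem (idem_blocks a.idem b.idem) (a.add b).idem ?_ (a.add_meq b)
          rw [h]
          exact (MEq.reindex σ (idem_blocks a.idem b.idem)).symm
        rw [this, qadd, map_add]
        abel)
  let a : Idem R := ⟨_, _, reindex_idem (Fintype.equivFin ι) he⟩
  let b : Idem R := ⟨_, _, reindex_idem (Fintype.equivFin κ) hf⟩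
  have h1 : cls e = QuotientAddGroup.mk (FreeAbelianGroup.of a) := by rw [cls, dif_pos he]
  have h2 : cls f = QuotientAddGroup.mk (FreeAbelianGroup.of b) := by rw [cls, dif_pos hf]
  have h3 : Algebra.GrothendieckAddGroup.of (q a) = Algebra.GrothendieckAddGroup.of (q b) := by
    have := congrArg D h
    rwa [h1, h2, QuotientAddGroup.lift_mk, QuotientAddGroup.lift_mk,
      FreeAbelianGroup.lift_apply_of, FreeAbelianGroup.lift_apply_of] at this
  obtain ⟨c, hc⟩ := (AddSubmonoid.LocalizationMap.eq_iff_exists _).1 h3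
  obtain ⟨c, hc'⟩ : ∃ c' : Idem R, q c' = c.1 := Quotient.exists_rep c.1
  let d : Idem R := ⟨c.n, 1 - c.e, idem_compl c.idem⟩
  let o : Idem R := ⟨c.n, 1, by simp⟩
  have ho : q c + q d = q o := by
    rw [← qadd]
    refine Quotient.sound ?_
    refine MEq.trans (c.add d).idem (idem_blocks c.idem d.idem) o.idem (c.add_meq d).symm
      ⟨fromRows c.e d.e, fromCols c.e d.e, ?_, ?_⟩
    · rw [Matrix.fromRows_mul_fromCols]; simp [d, c.idem, Matrix.mul_sub, Matrix.sub_mul]
    · simp [Matrix.fromCols_mul_fromRows, d, o, c.idem, Matrix.mul_sub, Matrix.sub_mul]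
  have h4 : q (a.add o) = q (b.add o) := by
    rw [qadd, qadd, ← ho, ← add_assoc, ← add_assoc, add_comm (q a), add_comm (q b), hc', hc]
  have h5 : MEq (a.add o).e (b.add o).e := Quotient.exact h4
  have i1 := idem_blocks he o.idem
  have i2 := idem_blocks a.idem o.idem
  have i3 := idem_blocks b.idem o.idem
  have i4 := idem_blocks hf o.idem
  exact ⟨c.n, MEq.trans i1 i2 i4 ((MEq.reindex _ he).blocks (MEq.refl o.idem))
    (MEq.trans i2 (a.add o).idem i4 (a.add_meq o)
      (MEq.trans (a.add o).idem (b.add o).idem i4 h5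
        (MEq.trans (b.add o).idem i3 i4 (b.add_meq o).symm
          ((MEq.reindex _ hf).symm.blocks (MEq.refl o.idem)))))⟩

end Stab

end Pool.Agent.Lib.KM1
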