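import Pool.Agent.Lib.KM1.Basic

/-! Blueprint for the rational injectivity of `colim K₋₁(ℤH) → K₋₁(ℤG)`.
Each `St_X` is a block; proofs are in `/team-store/km1_PLAN.md`. -/

namespace Pool.Agent.Lib.KM1

open Matrix LaurentPolynomial

universe u

instance primesFact (p : Nat.Primes) : Fact p.1.Prime := ⟨p.2⟩

/-- `φ` is an analytic isomorphism along `p` between `p`-torsion-free rings. -/
structure AnIso (p : ℕ) {S S' : Type u} [Ring S] [Ring S'] (φ : S →+* S') : Prop where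
  tf : ∀ x : S, p • x = 0 → x = 0
  tf' : ∀ y : S', p • y = 0 → y = 0
  dense : ∀ (y : S') (K : ℕ), ∃ x z, y = φ x + p ^ K • z
  pure : ∀ (x : S) (K : ℕ) (z : S'), φ x = p ^ K • z → ∃ x', x = p ^ K • x'

/-- `ψ` is the localisation at `p`. -/
structure PLoc (p : ℕ) {A B : Type u} [Ring A] [Ring B] (ψ : A →+* B) : Prop where
  inj : Function.Injective ψ
  surj : ∀ y : B, ∃ (s : ℕ) (x : A), ψ x = p ^ s • y
  unit : IsUnit ((p : ℕ) : B)

/-- `p`-torsion-free, `p`-adically separated and complete. -/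
structure PCompl (p : ℕ) (A : Type u) [Ring A] : Prop where
  tf : ∀ x : A, p • x = 0 → x = 0
  sep : ∀ y : A, (∀ K : ℕ, ∃ z, y = p ^ K • z) → y = 0
  compl : ∀ x : ℕ → A, (∀ K, ∃ z, x (K + 1) - x K = p ^ K • z) →
    ∃ L, ∀ K, ∃ z, L - x K = p ^ K • z

section Defs
variable {ι κ : Type} [Fintype ι] [DecidableEq ι] [Fintype κ]

/-- `a` is invertible over the `p`-completion with `p` inverted. -/
def PInv (p : ℕ) {S : Type u} [Ring S] (a : Matrix ι ι S) : Prop :=
  ∃ (s : ℕ) (a' c c' : Matrix ι ι S), a * a' = p ^ s • (1 + p • c) ∧ a' * a = p ^ s • (1 + p • c')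

/-- `i` embeds the projective module `im ε` into the free module `S^ι`, with image containing
`m S^ι`. -/
structure Lat (m : ℕ) {S : Type u} [Ring S] (ε : Matrix κ κ S) (i : Matrix ι κ S)
    (j : Matrix κ ι S) : Prop where
  idem : ε * ε = ε
  i_e : i * ε = i
  e_j : ε * j = j
  ij : i * j = m • (1 : Matrix ι ι S)
  ji : j * i = m • ε

/-- `h : S^ι → im ε` is an isomorphism modulo `p`. -/
def IsoMod (p : ℕ) {S : Type u} [Ring S] (ε : Matrix κ κ S) (h : Matrix κ ι S) : Prop :=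
  ε * h = h ∧ ∃ (h' : Matrix ι κ S) (u : Matrix κ κ S) (v : Matrix ι ι S),
    h * h' = ε + p • u ∧ h' * h = 1 + p • v

/-- `ε` represents the lattice `a S'^ι + p^s S'^ι` pulled back to `S`. -/
def Rep (p : ℕ) {S S' : Type u} [Ring S] [Ring S'] (φ : S →+* S') (a : Matrix ι ι S')
    (ε : Matrix κ κ S) : Prop :=
  ∃ (s : ℕ) (i : Matrix ι κ S) (j : Matrix κ ι S) (h : Matrix κ ι S'),
    Lat (p ^ s) ε i j ∧ IsoMod p (ε.map φ) h ∧ i.map φ * h = a

open Classical in
/-- The boundary class `[S^ι] - [lattice of a]`. -/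
noncomputable def delta (p : ℕ) {S S' : Type u} [Ring S] [Ring S'] (φ : S →+* S')
    (a : Matrix ι ι S') : K0 S :=
  if h : ∃ (n : ℕ) (ε : Matrix (Fin n) (Fin n) S), Rep p φ a ε then
    cls (1 : Matrix ι ι S) - cls h.choose_spec.choose
  else 0

/-- `m + x (t - 1)`; for `x = m e` this is `m (1 - e + t e)`. -/
noncomputable def uMat {A : Type u} [Ring A] (m : ℕ) (x : Matrix ι ι A) :
    Matrix ι ι (LaurentPolynomial A) :=
  m • (1 : Matrix ι ι (LaurentPolynomial A)) + x.map (fun r => C r * (T 1 - 1))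

/-- `α + β t`. -/
noncomputable def lin {A : Type u} [Ring A] (α β : Matrix ι ι A) :
    Matrix ι ι (LaurentPolynomial A) :=
  α.map C + β.map (fun r => C r * T 1)

/-- `∑ₙ n fₙ g₋ₙ`, the residue of `df · g`. -/
noncomputable def res2 {A : Type u} [Ring A] (f g : LaurentPolynomial A) : A :=
  f.coeff.sum (fun n r => n • (r * g.coeff (-n)))

/-- The residue of `tr (db · a)`. -/
noncomputable def lres {A : Type u} [Ring A] (b : Matrix ι κ (LaurentPolynomial A))
    (a : Matrix κ ι (LaurentPolynomial A)) : A :=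
  ∑ i, ∑ k, res2 (b i k) (a k i)

theorem PInv.map {p : ℕ} {S T : Type u} [Ring S] [Ring T] (f : S →+* T) {a : Matrix ι ι S}
    (h : PInv p a) : PInv p (a.map f) := by
  obtain ⟨s, a', c, c', h1, h2⟩ := h
  refine ⟨s, a'.map f, c.map f, c'.map f, ?_, ?_⟩
  · have := congrArg (f.mapMatrix (m := ι)) h1
    simpa only [map_mul, map_nsmul, map_add, map_one, RingHom.mapMatrix_apply] using this
  · have := congrArg (f.mapMatrix (m := ι)) h2
    simpa only [map_mul, map_nsmul, map_add, map_one, RingHom.mapMatrix_apply] using this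

theorem map_nsmul' {α β : Type} {S T : Type u} [Ring S] [Ring T] (f : S →+* T) (n : ℕ)
    (a : Matrix α β S) : (n • a).map f = n • a.map f := by
  ext i j; simp

theorem map_add' {α β : Type} {S T : Type u} [Ring S] [Ring T] (f : S →+* T)
    (a b : Matrix α β S) : (a + b).map f = a.map f + b.map f := by
  ext i j; simp

theorem map_one' {α : Type} [DecidableEq α] {S T : Type u} [Ring S] [Ring T] (f : S →+* T) :
    (1 : Matrix α α S).map f = 1 := Matrix.map_one _ (map_zero f) (map_one f)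

theorem Lat.map {m : ℕ} {S T : Type u} [Ring S] [Ring T] (f : S →+* T) {ε : Matrix κ κ S}
    {i : Matrix ι κ S} {j : Matrix κ ι S} (h : Lat m ε i j) :
    Lat m (ε.map f) (i.map f) (j.map f) :=
  ⟨by rw [← Matrix.map_mul, h.idem], by rw [← Matrix.map_mul, h.i_e],
    by rw [← Matrix.map_mul, h.e_j], by rw [← Matrix.map_mul, h.ij, map_nsmul', map_one'],
    by rw [← Matrix.map_mul, h.ji, map_nsmul']⟩

theorem IsoMod.map {p : ℕ} {S T : Type u} [Ring S] [Ring T] (f : S →+* T) {ε : Matrix κ κ S}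
    {h : Matrix κ ι S} (H : IsoMod p ε h) : IsoMod p (ε.map f) (h.map f) := by
  obtain ⟨h0, h', a, b, h1, h2⟩ := H
  exact ⟨by rw [← Matrix.map_mul, h0], h'.map f, a.map f, b.map f,
    by rw [← Matrix.map_mul, h1, map_add', map_nsmul'],
    by rw [← Matrix.map_mul, h2, map_add', map_nsmul', map_one']⟩

omit [Fintype ι] in
theorem uMat_map {A A' : Type u} [Ring A] [Ring A'] (f : A →+* A') (m : ℕ) (x : Matrix ι ι A) :
    (uMat m x).map (lau f) = uMat m (x.map f) := by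
  rw [uMat, uMat, map_add', map_nsmul', map_one']
  congr 1
  ext1 i j
  simp [lau_C, lau_T]

end Defs

/-- `D [e] = δ_p (p^s (1 - e + t e))`. -/
def IsPD (p : ℕ) {A A' B : Type u} [Ring A] [Ring A'] [Ring B] (φ : A →+* A') (ψ : A' →+* B)
    (D : K0 B →+ Kneg A) : Prop :=
  ∀ (ι : Type) [Fintype ι] [DecidableEq ι] (e : Matrix ι ι B) (s : ℕ) (x : Matrix ι ι A'),
    e * e = e → x.map ψ = p ^ s • e →
      D (cls e) = QuotientAddGroup.mk (delta p (lau φ) (uMat (p ^ s) x))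

/-- Evaluation at `t = 1`. -/
noncomputable def ev1 (R : Type u) [Ring R] : LaurentPolynomial R →+* R :=
  AddMonoidAlgebra.liftNCRingHom (RingHom.id R) 1 (fun _ _ => Commute.one_right _)

theorem ev1_C {R : Type u} [Ring R] (r : R) : ev1 R (C r) = r :=
  (AddMonoidAlgebra.liftNCRingHom_single _ _ _ 0 r).trans (by simp)

theorem ev1_T {R : Type u} [Ring R] (n : ℤ) : ev1 R (T n) = 1 :=
  (AddMonoidAlgebra.liftNCRingHom_single _ _ _ n 1).trans (by simp)

/-- `ℤG → ℤ_p G`. -/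
noncomputable def cz (p : ℕ) [Fact p.Prime] (G : Type u) [Group G] :
    MonoidAlgebra ℤ G →+* MonoidAlgebra ℤ_[p] G :=
  MonoidAlgebra.mapRingHom G (Int.castRingHom ℤ_[p])

/-- `ℤ_p G → ℚ_p G`. -/
noncomputable def cq (p : ℕ) [Fact p.Prime] (G : Type u) [Group G] :
    MonoidAlgebra ℤ_[p] G →+* MonoidAlgebra ℚ_[p] G :=
  MonoidAlgebra.mapRingHom G (PadicInt.Coe.ringHom (p := p))

/-- `hs n (∑ a_g g) = ∑ a_g [gⁿ]`; `hs 1` is the Hattori-Stallings trace. -/
noncomputable def hs {k : Type} [CommRing k] {G : Type u} [Group G] (n : ℕ) :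
    MonoidAlgebra k G →+ (ConjClasses G →₀ k) :=
  (Finsupp.mapDomain.addMonoidHom (fun g : G => ConjClasses.mk (g ^ n))).comp
    MonoidAlgebra.coeffAddEquiv.toAddMonoidHom

theorem hs_single {k : Type} [CommRing k] {G : Type u} [Group G] (n : ℕ) (g : G) (c : k) :
    hs n (MonoidAlgebra.single g c) = Finsupp.single (ConjClasses.mk (g ^ n)) c := by
  simp [hs, Finsupp.mapDomain_single]

theorem hs_comm {k : Type} [CommRing k] {G : Type u} [Group G] (n : ℕ)
    (x y : MonoidAlgebra k G) : hs n (x * y) = hs n (y * x) := by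
  induction x using MonoidAlgebra.induction_linear with
  | zero => simp
  | add a b ha hb => simp only [add_mul, mul_add, map_add, ha, hb]
  | single g c =>
    induction y using MonoidAlgebra.induction_linear with
    | zero => simp
    | add a b ha hb => simp only [add_mul, mul_add, map_add, ha, hb]
    | single h d =>
      rw [MonoidAlgebra.single_mul_single, MonoidAlgebra.single_mul_single, hs_single, hs_single,
        mul_comm c d]
      congr 1
      rw [ConjClasses.mk_eq_mk_iff_isConj]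
      refine IsConj.pow n ?_
      exact isConj_iff.2 ⟨h, by group⟩

/-- The Hattori-Stallings rank on `K0`. -/
noncomputable def hsK (k : Type) [CommRing k] (G : Type u) [Group G] :
    K0 (MonoidAlgebra k G) →+ (ConjClasses G →₀ k) :=
  (K0.exists_trace (hs (k := k) (G := G) 1) (hs_comm 1)).choose

theorem hsK_cls {k : Type} [CommRing k] {G : Type u} [Group G] {ι : Type} [Fintype ι]
    {e : Matrix ι ι (MonoidAlgebra k G)} (he : e * e = e) : hsK k G (cls e) = hs 1 e.trace :=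
  (K0.exists_trace (hs (k := k) (G := G) 1) (hs_comm 1)).choose_spec ι e he

/-- The norm idempotent of `h` with `h ^ L = 1`, as a `1 × 1` matrix. -/
noncomputable def nrm (k : Type) [Field k] {G : Type u} [Group G] (h : G) (L : ℕ) :
    Matrix Unit Unit (MonoidAlgebra k G) :=
  fun _ _ => ∑ j ∈ Finset.range L, MonoidAlgebra.single (h ^ j) ((L : k)⁻¹)

/-- The character of a trace element. -/
noncomputable def chi0 {F : Type} [Field F] {H : Type u} [Group H] [Fintype H]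
    (r : MonoidAlgebra F H) : H → F := fun g => ∑ x : H, r.coeff (x * g * x⁻¹)

/-- The pairing of characters. -/
noncomputable def pairing {F : Type} [Field F] {H : Type u} [Group H] [Fintype H]
    (a b : H → F) : F := (Fintype.card H : F)⁻¹ * ∑ g : H, a g * b g⁻¹

/-- `χ` is the character map. -/
def IsChi {F : Type} [Field F] {H : Type u} [Group H] [Fintype H]
    (χ : K0 (MonoidAlgebra F H) →+ (H → F)) : Prop :=
  ∀ (ι : Type) [Fintype ι] (e : Matrix ι ι (MonoidAlgebra F H)), e * e = e →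
    χ (cls e) = chi0 e.trace

/-- A class in `K0 (ℤG[t,t⁻¹])` with trivialisations over `ℤ[1/m]` and over each `ℤ_p`, whose
comparison at `p` has residue `E p`. -/
def Triv (G : Type u) [Group G] (P : Finset Nat.Primes)
    (w : K0 (LaurentPolynomial (MonoidAlgebra ℤ G)))
    (E : ∀ p : Nat.Primes, ConjClasses G →₀ ℚ_[p]) : Prop :=
  ∃ (ι κ : Type) (_ : Fintype ι) (_ : DecidableEq ι) (_ : Fintype κ)
    (ε : Matrix κ κ (LaurentPolynomial (MonoidAlgebra ℤ G)))
    (i : Matrix ι κ (LaurentPolynomial (MonoidAlgebra ℤ G)))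
    (j : Matrix κ ι (LaurentPolynomial (MonoidAlgebra ℤ G))) (m : ℕ),
    0 < m ∧ (∀ q : Nat.Primes, q.1 ∣ m → q ∈ P) ∧ Lat m ε i j ∧
    w = cls (1 : Matrix ι ι (LaurentPolynomial (MonoidAlgebra ℤ G))) - cls ε ∧
    ∀ p ∈ P, ∃ (h : Matrix κ ι (LaurentPolynomial (MonoidAlgebra ℤ_[p] G)))
      (h' : Matrix ι κ (LaurentPolynomial (MonoidAlgebra ℤ_[p] G))),
      h * h' = ε.map (lau (cz p G)) ∧ h' * h = 1 ∧
      hs 1 (cq p G (lres (i.map (lau (cz p G)) * h) (h' * j.map (lau (cz p G))))) = m • E p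

/-! ### Blocks -/

/-- AN1: analytic isomorphisms pass to (Laurent) polynomial rings. -/
def St_AN1 : Prop :=
  ∀ (p : ℕ) (A A' : Type u) [Ring A] [Ring A'] (φ : A →+* A'), AnIso p φ →
    AnIso p (lau φ) ∧ AnIso p (Polynomial.mapRingHom φ)

/-- AN2: the concrete rings. -/
def St_AN2 : Prop :=
  ∀ (p : ℕ) [Fact p.Prime] (G : Type u) [Group G],
    AnIso p (cz p G) ∧ PLoc p (cq p G) ∧
    (∀ q : ℕ, q.Coprime p → IsUnit ((q : ℕ) : LaurentPolynomial (MonoidAlgebra ℤ_[p] G))) ∧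
    (Finite G → PCompl p (MonoidAlgebra ℤ_[p] G))

/-- LAT1: existence and uniqueness of representing lattices. -/
def St_LAT1 : Prop :=
  ∀ (p : ℕ) (S S' : Type u) [Ring S] [Ring S'] (φ : S →+* S'), AnIso p φ →
    ∀ (ι : Type) [Fintype ι] [DecidableEq ι] (a : Matrix ι ι S'),
      (PInv p a → ∃ ε : Matrix (ι ⊕ ι) (ι ⊕ ι) S, Rep p φ a ε) ∧
      ∀ (κ : Type) [Fintype κ] (ε : Matrix κ κ S), Rep p φ a ε →
        delta p φ a = cls (1 : Matrix ι ι S) - cls ε ∧ PInv p a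

/-- LAT3: an exactly `p`-invertible matrix gives an exact trivialisation. -/
def St_LAT3 : Prop :=
  ∀ (p : ℕ) (S : Type u) [Ring S], (∀ x : S, p • x = 0 → x = 0) →
    ∀ (ι κ : Type) [Fintype ι] [DecidableEq ι] [Fintype κ] (s t : ℕ) (ε : Matrix κ κ S)
      (i : Matrix ι κ S) (j h : Matrix κ ι S) (a' : Matrix ι ι S),
      Lat (p ^ s) ε i j → IsoMod p ε h → i * h * a' = p ^ t • (1 : Matrix ι ι S) →
      a' * (i * h) = p ^ t • (1 : Matrix ι ι S) →
      ∃ h' : Matrix ι κ S, h * h' = ε ∧ h' * h = 1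

/-- LAT2: calculus of `delta` (uses LAT1). -/
def St_LAT2 : Prop :=
  ∀ (p : ℕ) (S S' : Type u) [Ring S] [Ring S'] (φ : S →+* S'), AnIso p φ →
    ∀ (ι κ : Type) [Fintype ι] [DecidableEq ι] [Fintype κ] [DecidableEq κ],
      (∀ a b : Matrix ι ι S', PInv p a → PInv p b →
        PInv p (a * b) ∧ delta p φ (a * b) = delta p φ a + delta p φ b) ∧
      (∀ (a : Matrix ι ι S') (b : Matrix κ κ S'), PInv p a → PInv p b →
        PInv p (fromBlocks a 0 0 b) ∧
          delta p φ (fromBlocks a 0 0 b) = delta p φ a + delta p φ b) ∧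
      (∀ a a' c c' : Matrix ι ι S', a * a' = 1 + p • c → a' * a = 1 + p • c' →
        PInv p a ∧ delta p φ a = 0) ∧
      (∀ (s : ℕ) (a a' : Matrix ι ι S), a * a' = p ^ s • (1 : Matrix ι ι S) →
        a' * a = p ^ s • (1 : Matrix ι ι S) → PInv p (a.map φ) ∧ delta p φ (a.map φ) = 0) ∧
      (∀ (σ : ι ≃ κ) (a : Matrix ι ι S'), PInv p a →
        PInv p (reindex σ σ a) ∧ delta p φ (reindex σ σ a) = delta p φ a)

/-- NAT: naturality of `delta` (uses LAT1). -/
def St_NAT : Prop :=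
  ∀ (p : ℕ) (S S' U U' : Type u) [Ring S] [Ring S'] [Ring U] [Ring U'] (φ : S →+* S')
    (ψ : U →+* U') (f : S →+* U) (f' : S' →+* U'), AnIso p φ → AnIso p ψ →
    ψ.comp f = f'.comp φ → ∀ (ι : Type) [Fintype ι] [DecidableEq ι] (a : Matrix ι ι S'),
      PInv p a → K0.map f (delta p φ a) = delta p ψ (a.map f')

/-- MP: splitting a lattice into its primary parts (uses LAT1). -/
def St_MP : Prop :=
  ∀ (S : Type u) [Ring S] (S' : Nat.Primes → Type u) [∀ p, Ring (S' p)] (φ : ∀ p, S →+* S' p),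
    (∀ p : Nat.Primes, AnIso p.1 (φ p)) →
    (∀ (p : Nat.Primes) (q : ℕ), q.Coprime p.1 → IsUnit ((q : ℕ) : S' p)) →
    ∀ (P : Finset Nat.Primes) (ι κ : Type) [Fintype ι] [DecidableEq ι] [Fintype κ] (m : ℕ)
      (ε : Matrix κ κ S) (i : Matrix ι κ S) (j : Matrix κ ι S) (h : ∀ p, Matrix κ ι (S' p)),
      0 < m → (∀ q : Nat.Primes, q.1 ∣ m → q ∈ P) → Lat m ε i j →
      (∀ p ∈ P, IsoMod p.1 (ε.map (φ p)) (h p)) →
      cls (1 : Matrix ι ι S) - cls ε = ∑ p ∈ P, delta p.1 (φ p) (i.map (φ p) * h p) ∧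
        ∀ p ∈ P, PInv p.1 (i.map (φ p) * h p)

/-- CONST: idempotents over the Laurent ring of an Artinian ring are constant. -/
def St_CONST : Prop :=
  ∀ (B : Type u) [Ring B] [IsArtinianRing B] (ι : Type) [Fintype ι] [DecidableEq ι]
    (e : Matrix ι ι (LaurentPolynomial B)), e * e = e →
    ∃ f : Matrix ι ι B, f * f = f ∧ MEq e (f.map C)

/-- HIG1: Higman linearisation (uses LAT2). -/
def St_HIG1 : Prop :=
  ∀ (p : ℕ) (A A' : Type u) [Ring A] [Ring A'] (φ : A →+* A'), AnIso p (lau φ) →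
    ∀ (ι : Type) [Fintype ι] [DecidableEq ι] (a : Matrix ι ι (LaurentPolynomial A')), PInv p a →
      ∃ (κ : Type) (_ : Fintype κ) (_ : DecidableEq κ) (α β : Matrix κ κ A'),
        PInv p (lin α β) ∧ delta p (lau φ) a = delta p (lau φ) (lin α β)

/-- HIG2a: normalisation of a linear matrix. -/
def St_HIG2a : Prop :=
  ∀ (p : ℕ) (A : Type u) [Ring A], PCompl p A →
    ∀ (ι : Type) [Fintype ι] [DecidableEq ι] (α β : Matrix ι ι A), PInv p (lin α β) →
      ∃ (s : ℕ) (g b : Matrix ι ι A), PInv p g ∧ lin α β * g.map C = uMat (p ^ s) b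

/-- HIG2b: spectral idempotent and factorisation. -/
def St_HIG2b : Prop :=
  ∀ (p : ℕ) (A : Type u) [Ring A], PCompl p A →
    ∀ (ι : Type) [Fintype ι] [DecidableEq ι] (s : ℕ) (b : Matrix ι ι A), PInv p (uMat (p ^ s) b) →
      ∃ (t k : ℕ) (x : Matrix ι ι A) (Ap Am : Matrix ι ι (Polynomial A)),
        x * x = p ^ t • x ∧ PInv p Ap ∧ PInv p Am ∧
        p ^ k • uMat (p ^ s) b = uMat (p ^ t) x * Am.map (incNeg A) * Ap.map (incPos A)

/-- PD: existence of the boundary homomorphism (uses AN1 LAT2 NAT). -/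
def St_PD : Prop :=
  ∀ (p : ℕ) (A A' B : Type u) [Ring A] [Ring A'] [Ring B] (φ : A →+* A') (ψ : A' →+* B),
    AnIso p φ → PLoc p ψ → ∃ D : K0 B →+ Kneg A, IsPD p φ ψ D

/-- PDN: it kills integral classes and is natural (uses AN1 LAT2 NAT). -/
def St_PDN : Prop :=
  ∀ (p : ℕ) (A A' B : Type u) [Ring A] [Ring A'] [Ring B] (φ : A →+* A') (ψ : A' →+* B)
    (D : K0 B →+ Kneg A), AnIso p φ → PLoc p ψ → IsPD p φ ψ D →
    (∀ y : K0 A', D (K0.map ψ y) = 0) ∧
    ∀ (A₁ A₁' B₁ : Type u) [Ring A₁] [Ring A₁'] [Ring B₁] (φ₁ : A₁ →+* A₁') (ψ₁ : A₁' →+* B₁)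
      (D₁ : K0 B₁ →+ Kneg A₁) (f : A →+* A₁) (f' : A' →+* A₁') (g : B →+* B₁),
      AnIso p φ₁ → PLoc p ψ₁ → IsPD p φ₁ ψ₁ D₁ → φ₁.comp f = f'.comp φ → ψ₁.comp f' = g.comp ψ →
      ∀ y, Kneg.map f (D y) = D₁ (K0.map g y)

/-- HIG: every `delta` is a boundary class (uses AN1 LAT2 NAT HIG1 HIG2a HIG2b). -/
def St_HIG : Prop :=
  ∀ (p : ℕ) (A A' B : Type u) [Ring A] [Ring A'] [Ring B] (φ : A →+* A') (ψ : A' →+* B)
    (D : K0 B →+ Kneg A), AnIso p φ → PLoc p ψ → PCompl p A' → IsPD p φ ψ D →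
    ∀ (ι : Type) [Fintype ι] [DecidableEq ι] (a : Matrix ι ι (LaurentPolynomial A')), PInv p a →
      (QuotientAddGroup.mk (delta p (lau φ) a) : Kneg A) ∈ D.range

/-- SUR: Carter surjectivity (uses AN1 AN2 MP CONST HIG). -/
def St_SUR : Prop :=
  ∀ (H : Type u) [Group H] [Finite H]
    (D : ∀ p : Nat.Primes, K0 (MonoidAlgebra ℚ_[p] H) →+ Kneg (MonoidAlgebra ℤ H)),
    (∀ p : Nat.Primes, IsPD p.1 (cz p H) (cq p H) (D p)) →
    ∀ w : Kneg (MonoidAlgebra ℤ H), ∃ (P : Finset Nat.Primes)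
      (y : ∀ p : Nat.Primes, K0 (MonoidAlgebra ℚ_[p] H)), w = ∑ p ∈ P, D p (y p)

/-- R2: the product formula for norm idempotents (uses AN1 AN2 MP LAT2). -/
def St_R2 : Prop :=
  ∀ (G : Type u) [Group G] (h : G) (L : ℕ), 0 < L → h ^ L = 1 →
    (∀ (k : Type) [Field k] [CharZero k], nrm k h L * nrm k h L = nrm k h L) ∧
    ∀ (D : ∀ p : Nat.Primes, K0 (MonoidAlgebra ℚ_[p] G) →+ Kneg (MonoidAlgebra ℤ G)),
      (∀ p : Nat.Primes, IsPD p.1 (cz p G) (cq p G) (D p)) →
      ∀ P : Finset Nat.Primes, (∀ q : Nat.Primes, q.1 ∣ L → q ∈ P) →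
        ∑ p ∈ P, D p (cls (nrm ℚ_[p] h L)) = 0

/-- R1: for `p ∤ |H|` every projective `ℚ_p H`-module comes from `ℤ_p H`. -/
def St_R1 : Prop :=
  ∀ (p : ℕ) [Fact p.Prime] (H : Type u) [Group H] [Finite H], ¬ p ∣ Nat.card H →
    Function.Surjective (K0.map (cq p H))

/-- LRES: calculus of residues. -/
def St_LRES : Prop :=
  ∀ (A : Type u) [Ring A] (ι κ μ : Type) [Fintype ι] [DecidableEq ι] [Fintype κ] [Fintype μ],
    (∀ (V : Type u) [AddCommGroup V] (τ : A →+ V), (∀ x y, τ (x * y) = τ (y * x)) →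
      ∀ (b₁ : Matrix ι κ (LaurentPolynomial A)) (b₂ : Matrix κ μ (LaurentPolynomial A))
        (c : Matrix μ ι (LaurentPolynomial A)),
        τ (lres (b₁ * b₂) c) = τ (lres b₁ (b₂ * c)) + τ (lres b₂ (c * b₁))) ∧
    (∀ (b : Matrix ι κ (LaurentPolynomial A)) (a : Matrix κ ι (LaurentPolynomial A)) (n : ℕ),
      lres b (n • a) = n • lres b a) ∧
    (∀ (A' : Type u) [Ring A'] (f : A →+* A') (b : Matrix ι κ (LaurentPolynomial A))
      (a : Matrix κ ι (LaurentPolynomial A)),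
      lres (b.map (lau f)) (a.map (lau f)) = f (lres b a)) ∧
    (∀ (κ' : Type) [Fintype κ'] (b : Matrix ι κ (LaurentPolynomial A))
      (a : Matrix κ ι (LaurentPolynomial A)) (b' : Matrix μ κ' (LaurentPolynomial A))
      (a' : Matrix κ' μ (LaurentPolynomial A)),
      lres (fromBlocks b 0 0 b') (fromBlocks a 0 0 a') = lres b a + lres b' a') ∧
    (∀ a : Matrix ι ι (LaurentPolynomial A), lres 1 a = 0) ∧
    (∀ (b : Matrix ι κ (Polynomial A)) (a : Matrix κ ι (Polynomial A)),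
      lres (b.map (incPos A)) (a.map (incPos A)) = 0) ∧
    (∀ (m : ℕ) (x : Matrix ι ι A), x * x = m • x →
      ∃ a' : Matrix ι ι (LaurentPolynomial A),
        uMat m x * a' = (m * m) • (1 : Matrix ι ι (LaurentPolynomial A)) ∧
        a' * uMat m x = (m * m) • (1 : Matrix ι ι (LaurentPolynomial A)) ∧
        lres (uMat m x) a' = m • x.trace)

/-- IDX: the residue is the trace of a virtual idempotent. -/
def St_IDX : Prop :=
  ∀ (A : Type u) [Ring A] (ι κ : Type) [Fintype ι] [Fintype κ]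
    (q : Matrix ι ι (Polynomial A)) (q' : Matrix κ κ (Polynomial A))
    (b : Matrix ι κ (LaurentPolynomial A)) (a : Matrix κ ι (LaurentPolynomial A)),
    q * q = q → q' * q' = q' → b * a = q.map (incPos A) → a * b = q'.map (incNeg A) →
    q.map (incPos A) * b = b → a * q.map (incPos A) = a →
    ∃ (μ : Type) (_ : Fintype μ) (z : Matrix μ μ A) (k : ℕ), z * z = z ∧
      z.trace = k • (q.map (fun f => f.coeff 0)).trace + lres b a

/-- FROB: the trace of an idempotent is fixed by the `p`-th power map. -/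
def St_FROB : Prop :=
  ∀ (p : ℕ) [Fact p.Prime] (G : Type u) [Group G] (ι : Type) [Fintype ι]
    (z : Matrix ι ι (MonoidAlgebra ℤ_[p] G)), z * z = z → hs p z.trace = hs 1 z.trace

/-- VAN: consequences of power invariance. -/
def St_VAN : Prop :=
  ∀ (k : Type) [CommRing k] (G : Type u) [Group G] (r : MonoidAlgebra k G),
    (∀ a b : ℕ, hs a r = hs 1 r → hs b r = hs 1 r → hs (a * b) r = hs 1 r) ∧
    ∀ l : ℕ, l.Prime → hs l r = hs 1 r → ∀ g : G, IsOfFinOrder g → l ∣ orderOf g →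
      hs 1 r (ConjClasses.mk g) = 0

/-- TRIV: sums of boundary classes carry trivialisations (uses AN1 AN2 LAT1 LAT2 LAT3 LRES). -/
def St_TRIV : Prop :=
  ∀ (G : Type u) [Group G]
    (D : ∀ p : Nat.Primes, K0 (MonoidAlgebra ℚ_[p] G) →+ Kneg (MonoidAlgebra ℤ G)),
    (∀ p : Nat.Primes, IsPD p.1 (cz p G) (cq p G) (D p)) →
    ∀ (P : Finset Nat.Primes) (y : ∀ p : Nat.Primes, K0 (MonoidAlgebra ℚ_[p] G)),
      ∃ (w : K0 (LaurentPolynomial (MonoidAlgebra ℤ G)))
        (E : ∀ p : Nat.Primes, ConjClasses G →₀ ℚ_[p]),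
        (QuotientAddGroup.mk w : Kneg (MonoidAlgebra ℤ G)) = ∑ p ∈ P, D p (y p) ∧ Triv G P w E ∧
        ∀ p ∈ P, ∀ c, c ≠ ConjClasses.mk 1 → E p c = hsK ℚ_[p] G (y p) c

/-- CORE: detection (uses AN2 LRES IDX FROB VAN). -/
def St_CORE : Prop :=
  ∀ (G : Type u) [Group G] (P : Finset Nat.Primes)
    (w : K0 (LaurentPolynomial (MonoidAlgebra ℤ G)))
    (E : ∀ p : Nat.Primes, ConjClasses G →₀ ℚ_[p]), Triv G P w E →
    w ∈ halves (MonoidAlgebra ℤ G) →
    ∃ r : MonoidAlgebra ℚ G,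
      (∀ l : Nat.Primes, l ∉ P → hs l.1 r = hs 1 r) ∧
      ∀ p ∈ P, ∀ g : G, IsOfFinOrder g → p.1 ∣ orderOf g →
        E p (ConjClasses.mk g) = ((hs 1 r (ConjClasses.mk g) : ℚ) : ℚ_[p])

/-- ANISO: integrality and anisotropy of the character pairing on `K0`. -/
def St_ANISO : Prop :=
  ∀ (F : Type) [Field F] [CharZero F] (H : Type u) [Group H] [Fintype H]
    (χ : K0 (MonoidAlgebra F H) →+ (H → F)), IsChi χ →
    (∀ x y, ∃ n : ℤ, pairing (χ x) (χ y) = n) ∧ ∀ y, pairing (χ y) (χ y) = 0 → y = 0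

/-- RES: existence of the character map; restriction of characters. -/
def St_RES : Prop :=
  ∀ (F : Type) [Field F] (H : Type u) [Group H] [Fintype H],
    (∃ χ : K0 (MonoidAlgebra F H) →+ (H → F), IsChi χ) ∧
    ∀ (D : Type u) [Group D] [Fintype D] (φ : D →* H), Function.Injective φ →
      ∀ (χ : K0 (MonoidAlgebra F H) →+ (H → F)) (χ' : K0 (MonoidAlgebra F D) →+ (D → F)),
        IsChi χ → IsChi χ' → ∀ y, ∃ y', χ' y' = χ y ∘ φ

/-- LIN: representing a rational functional. -/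
def St_LIN : Prop :=
  ∀ (F : Type) [Field F] [CharZero F] (U : Type u) [AddCommGroup U] [Module F U]
    [FiniteDimensional F U] (B : U →ₗ[F] U →ₗ[F] F) (Y : Type u) [AddCommGroup Y] (χ : Y →+ U),
    (∀ x y, ∃ n : ℤ, B (χ x) (χ y) = n) → (∀ y, B (χ y) (χ y) = 0 → y = 0) →
    ∀ l : Y →+ ℚ, ∃! w : U, w ∈ Submodule.span F (Set.range χ) ∧ ∀ y, B w (χ y) = (l y : F)

/-- REP: a compatible family of functionals is given by one class function
(uses ANISO RES LIN). -/
def St_REP : Prop :=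
  ∀ (F : Type) [Field F] [CharZero F] (G : Type u) [Group G]
    (l : ∀ H : FinSub G, K0 (MonoidAlgebra F H.1) →+ ℚ),
    (∀ (H K : FinSub G) (g : G) (φ : H.1 →* K.1), (∀ h : H.1, (φ h : G) = g * h * g⁻¹) →
      ∀ y, l K (K0.map (grp F φ) y) = l H y) →
    ∃ ω : ConjClasses G → F,
      (∀ (H : FinSub G) (y : K0 (MonoidAlgebra F H.1)), ((l H y : ℚ) : F) =
        (hsK F G (K0.map (grp F H.1.subtype) y)).sum (fun c a => a * ω c)) ∧
      (∀ g : G, ¬ IsOfFinOrder g → ω (ConjClasses.mk g) = 0) ∧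
      ∀ H : FinSub G, l H = 0 → ∀ g ∈ H.1, ω (ConjClasses.mk g) = 0

/-- The theorem (uses AN2 PD PDN SUR R1 R2 VAN TRIV CORE REP). -/
def St_MAIN : Prop :=
  ∀ (G : Type u) [Group G] (x : Colim G), assembly G x = 0 → IsOfFinAddOrder x

end Pool.Agent.Lib.KM1
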