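import Pool.Agent.Lib.KM1.Blue

/-! Block CORE: detection of boundary classes by residues. -/

set_option linter.unusedSectionVars false

namespace Pool.Agent.Lib.KM1

open Matrix LaurentPolynomial

universe u

namespace CORE

theorem hs_map {k k' : Type} [CommRing k] [CommRing k'] {G : Type u} [Group G] (f : k →+* k')
    (n : ℕ) (r : MonoidAlgebra k G) (c : ConjClasses G) :
    hs n (MonoidAlgebra.mapRingHom G f r) c = f (hs n r c) := by
  classical
  induction r using MonoidAlgebra.induction_linear with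
  | zero => simp
  | add a b ha hb => simp only [map_add, Finsupp.add_apply, ha, hb]
  | single g a =>
    rw [MonoidAlgebra.mapRingHom_single, hs_single, hs_single, Finsupp.single_apply,
      Finsupp.single_apply]
    split_ifs <;> simp

theorem hs_smul {k : Type} [CommRing k] {G : Type u} [Group G] (n : ℕ) (s : k)
    (r : MonoidAlgebra k G) (c : ConjClasses G) : hs n (s • r) c = s * hs n r c := by
  classical
  induction r using MonoidAlgebra.induction_linear with
  | zero => simp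
  | add a b ha hb => simp only [smul_add, map_add, Finsupp.add_apply, ha, hb, mul_add]
  | single g a =>
    rw [MonoidAlgebra.smul_single, hs_single, hs_single, Finsupp.single_apply,
      Finsupp.single_apply]
    split_ifs <;> simp

theorem map_blocks {α β γ δ : Type} {S T : Type u} [Ring S] [Ring T] (f : S →+* T)
    (a : Matrix α β S) (b : Matrix γ δ S) :
    (fromBlocks a 0 0 b).map f = fromBlocks (a.map f) 0 0 (b.map f) := by
  rw [Matrix.fromBlocks_map, Matrix.map_zero _ (map_zero f), Matrix.map_zero _ (map_zero f)]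

theorem mul_blocks {α β γ α' β' γ' : Type} [Fintype β] [Fintype β'] {S : Type u} [Ring S]
    (a : Matrix α β S) (b : Matrix β γ S) (a' : Matrix α' β' S) (b' : Matrix β' γ' S) :
    fromBlocks a 0 0 a' * fromBlocks b 0 0 b' = fromBlocks (a * b) 0 0 (a' * b') := by
  simp [Matrix.fromBlocks_multiply]

theorem smul_blocks {α β α' β' : Type} {S : Type u} [Ring S] (m : ℕ)
    (a : Matrix α β S) (a' : Matrix α' β' S) :
    fromBlocks (m • a) 0 0 (m • a') = m • fromBlocks a 0 0 a' := by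
  simp [Matrix.fromBlocks_smul]

theorem map_pos {α β : Type} {A B : Type u} [Ring A] [Ring B] (f : A →+* B)
    (q : Matrix α β (Polynomial A)) :
    (q.map (incPos A)).map (lau f) = (q.map (Polynomial.mapRingHom f)).map (incPos B) := by
  ext1 i j
  exact DFunLike.congr_fun (lau_incPos f) (q i j)

theorem map_ng {α β : Type} {A B : Type u} [Ring A] [Ring B] (f : A →+* B)
    (q : Matrix α β (Polynomial A)) :
    (q.map (incNeg A)).map (lau f) = (q.map (Polynomial.mapRingHom f)).map (incNeg B) := by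
  ext1 i j
  exact DFunLike.congr_fun (lau_incNeg f) (q i j)

/-- A class in `halves` gives a stable equivalence. -/
theorem exists_equiv {A : Type u} [Ring A] {ι κ : Type} [Fintype ι] [DecidableEq ι] [Fintype κ]
    {ε : Matrix κ κ (LaurentPolynomial A)} (hε : ε * ε = ε)
    (hw : cls (1 : Matrix ι ι (LaurentPolynomial A)) - cls ε ∈ halves A) :
    ∃ (μ ν : Type) (_ : Fintype μ) (_ : DecidableEq μ) (_ : Fintype ν)
      (q : Matrix μ μ (Polynomial A)) (q' : Matrix ν ν (Polynomial A)), q * q = q ∧ q' * q' = q' ∧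
      MEq (fromBlocks ε 0 0 (q.map (incPos A))) (q'.map (incNeg A)) := by
  obtain ⟨_, ⟨y₁, rfl⟩, _, ⟨y₂, rfl⟩, h⟩ := AddSubgroup.mem_sup.1 hw
  obtain ⟨n₁, k₁, e₁, he₁, rfl⟩ := K0.exists_rep y₁
  obtain ⟨n₂, k₂, e₂, he₂, h₂⟩ := K0.exists_rep (-y₂)
  rw [← neg_neg y₂, h₂] at h
  have o : ∀ (R : Type u) [Ring R] (α : Type) [Fintype α] [DecidableEq α],
      (1 : Matrix α α R) * 1 = 1 := fun R _ α _ _ => Matrix.one_mul _
  have i₁ := idem_blocks he₁ (o _ (Fin k₂))
  have i₂ := idem_blocks (o _ (ι ⊕ Fin k₁)) he₂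
  have p₁ := idem_map (incPos A) i₁
  have p₂ := idem_map (incNeg A) i₂
  have h3 : cls (fromBlocks ε 0 0 ((fromBlocks e₁ 0 0 (1 : Matrix (Fin k₂) (Fin k₂) _)).map
      (incPos A))) = cls ((fromBlocks (1 : Matrix (ι ⊕ Fin k₁) (ι ⊕ Fin k₁) _) 0 0 e₂).map
        (incNeg A)) := by
    rw [cls_blocks hε p₁, map_blocks, map_blocks, map_one', map_one',
      cls_blocks (idem_map _ he₁) (o _ _), cls_blocks (o _ _) (idem_map _ he₂), cls_one_sum]
    rw [map_neg, map_sub, map_sub, map_cls _ he₁, map_cls _ he₂, map_cls_one, map_cls_one] at h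
    rw [← sub_eq_zero] at h ⊢
    rw [← h]
    abel
  obtain ⟨k, hk⟩ := stab (idem_blocks hε p₁) p₂ h3
  refine ⟨_, _, inferInstance, inferInstance, inferInstance, _, _, idem_blocks i₁ (o _ (Fin k)),
    idem_blocks i₂ (o _ (Fin k)), ?_⟩
  rw [map_blocks (incPos A) _ 1, map_blocks (incNeg A) _ 1, map_one', map_one']
  exact MEq.trans (idem_blocks hε (idem_blocks p₁ (o _ _)))
    (idem_blocks (idem_blocks hε p₁) (o _ _)) (idem_blocks p₂ (o _ _))
    (meq_blocks_assoc hε p₁ (o _ _)).symm hk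

variable {ι κ μ ν : Type} [Fintype ι] [DecidableEq ι] [Fintype κ] [Fintype μ] [DecidableEq μ]
  [Fintype ν]

/-- The data of a lattice together with a normalised stable equivalence. -/
structure Dat {A : Type u} [Ring A] (m : ℕ) (ε : Matrix κ κ (LaurentPolynomial A))
    (i : Matrix ι κ (LaurentPolynomial A)) (j : Matrix κ ι (LaurentPolynomial A))
    (q : Matrix μ μ (Polynomial A)) (q' : Matrix ν ν (Polynomial A))
    (x : Matrix (κ ⊕ μ) ν (LaurentPolynomial A)) (y : Matrix ν (κ ⊕ μ) (LaurentPolynomial A)) :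
    Prop where
  lat : Lat m ε i j
  qq : q * q = q
  qq' : q' * q' = q'
  xy : x * y = fromBlocks ε 0 0 (q.map (incPos A))
  yx : y * x = q'.map (incNeg A)
  ex : fromBlocks ε 0 0 (q.map (incPos A)) * x = x

variable {A B : Type u} [Ring A] [Ring B] {m : ℕ} {ε : Matrix κ κ (LaurentPolynomial A)}
  {i : Matrix ι κ (LaurentPolynomial A)} {j : Matrix κ ι (LaurentPolynomial A)}
  {q : Matrix μ μ (Polynomial A)} {q' : Matrix ν ν (Polynomial A)}
  {x : Matrix (κ ⊕ μ) ν (LaurentPolynomial A)} {y : Matrix ν (κ ⊕ μ) (LaurentPolynomial A)}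

theorem Dat.map (D : Dat m ε i j q q' x y) (f : A →+* B) :
    Dat m (ε.map (lau f)) (i.map (lau f)) (j.map (lau f)) (q.map (Polynomial.mapRingHom f))
      (q'.map (Polynomial.mapRingHom f)) (x.map (lau f)) (y.map (lau f)) :=
  ⟨D.lat.map _, idem_map _ D.qq, idem_map _ D.qq',
    by rw [← Matrix.map_mul, D.xy, map_blocks, map_pos],
    by rw [← Matrix.map_mul, D.yx, map_ng],
    by rw [← map_pos, ← map_blocks, ← Matrix.map_mul, D.ex]⟩

/-- The global residue. -/
noncomputable def rs (m : ℕ) (i : Matrix ι κ (LaurentPolynomial A))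
    (j : Matrix κ ι (LaurentPolynomial A)) (q : Matrix μ μ (Polynomial A))
    (x : Matrix (κ ⊕ μ) ν (LaurentPolynomial A)) (y : Matrix ν (κ ⊕ μ) (LaurentPolynomial A)) : A :=
  lres (fromBlocks i 0 0 (q.map (incPos A)) * x) (y * fromBlocks j 0 0 (m • q.map (incPos A)))

theorem rs_map (hL : St_LRES.{u}) (f : A →+* B) :
    f (rs m i j q x y) = rs m (i.map (lau f)) (j.map (lau f)) (q.map (Polynomial.mapRingHom f))
      (x.map (lau f)) (y.map (lau f)) := by
  rw [rs, ← (hL A (ι ⊕ μ) ν Unit).2.2.1 B f, Matrix.map_mul, Matrix.map_mul, map_blocks,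
    map_blocks, map_nsmul', map_pos, rs]

end CORE

namespace CORE

variable {ι κ μ ν : Type} [Fintype ι] [DecidableEq ι] [Fintype κ] [Fintype μ] [DecidableEq μ]
  [Fintype ν] {p : ℕ} [Fact p.Prime] {G : Type u} [Group G] {m : ℕ}
  {ε : Matrix κ κ (LaurentPolynomial (MonoidAlgebra ℤ_[p] G))}
  {i : Matrix ι κ (LaurentPolynomial (MonoidAlgebra ℤ_[p] G))}
  {j : Matrix κ ι (LaurentPolynomial (MonoidAlgebra ℤ_[p] G))}
  {q : Matrix μ μ (Polynomial (MonoidAlgebra ℤ_[p] G))}
  {q' : Matrix ν ν (Polynomial (MonoidAlgebra ℤ_[p] G))}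
  {x : Matrix (κ ⊕ μ) ν (LaurentPolynomial (MonoidAlgebra ℤ_[p] G))}
  {y : Matrix ν (κ ⊕ μ) (LaurentPolynomial (MonoidAlgebra ℤ_[p] G))}

/-- The residue of an integral trivialisation is fixed by the power map. -/
theorem fix (hI : St_IDX.{u}) (hF : St_FROB.{u}) (D : Dat m ε i j q q' x y)
    {h : Matrix κ ι (LaurentPolynomial (MonoidAlgebra ℤ_[p] G))}
    {h' : Matrix ι κ (LaurentPolynomial (MonoidAlgebra ℤ_[p] G))}
    (h1 : h * h' = ε) (h2 : h' * h = 1) :
    hs p (lres (fromBlocks h' 0 0 (q.map (incPos _)) * x)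
      (y * fromBlocks h 0 0 (q.map (incPos _)))) =
    hs 1 (lres (fromBlocks h' 0 0 (q.map (incPos _)) * x)
      (y * fromBlocks h 0 0 (q.map (incPos _)))) := by
  have hq := idem_map (incPos _) D.qq
  have hQ := idem_blocks (Matrix.one_mul (1 : Matrix ι ι _)) D.qq
  have hQ' : (fromBlocks (1 : Matrix ι ι _) 0 0 q).map (incPos _) =
      fromBlocks 1 0 0 (q.map (incPos _)) := by rw [map_blocks, map_one']
  obtain ⟨τ, _, z, k, hz, ht⟩ := hI _ _ _ _ q' (fromBlocks h' 0 0 (q.map (incPos _)) * x)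
    (y * fromBlocks h 0 0 (q.map (incPos _))) hQ D.qq'
    (by
      rw [hQ', Matrix.mul_assoc, ← Matrix.mul_assoc x, D.xy, mul_blocks, mul_blocks, hq, hq, ← h1,
        Matrix.mul_assoc, h2, Matrix.mul_one, h2])
    (by
      rw [Matrix.mul_assoc, ← Matrix.mul_assoc _ _ x, mul_blocks, hq, h1, D.ex, D.yx])
    (by rw [hQ', ← Matrix.mul_assoc, mul_blocks, hq, Matrix.one_mul])
    (by rw [hQ', Matrix.mul_assoc, mul_blocks, hq, Matrix.mul_one])
  have f1 := hF p G _ z hz
  have f2 := hF p G _ _ (idem_map Polynomial.constantCoeff hQ)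
  rw [ht, map_add, map_add, map_nsmul, map_nsmul] at f1
  have f3 : hs p ((fromBlocks (1 : Matrix ι ι _) 0 0 q).map fun f => f.coeff 0).trace =
      hs 1 ((fromBlocks (1 : Matrix ι ι _) 0 0 q).map fun f => f.coeff 0).trace := f2
  rw [f3] at f1
  exact add_left_cancel f1

/-- Comparison of the global residue with the local one. -/
theorem split (hL : St_LRES.{u}) (D : Dat m ε i j q q' x y)
    {h : Matrix κ ι (LaurentPolynomial (MonoidAlgebra ℤ_[p] G))}
    {h' : Matrix ι κ (LaurentPolynomial (MonoidAlgebra ℤ_[p] G))}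
    (h1 : h * h' = ε) (h2 : h' * h = 1) :
    hs 1 (rs m i j q x y) = hs 1 (lres (i * h) (h' * j)) +
      m • hs 1 (lres (fromBlocks h' 0 0 (q.map (incPos _)) * x)
        (y * fromBlocks h 0 0 (q.map (incPos _)))) := by
  have hq := idem_map (incPos _) D.qq
  have e0 : ε * h = h := by rw [← h1, Matrix.mul_assoc, h2, Matrix.mul_one]
  have e1 : fromBlocks i 0 0 (q.map (incPos _)) * x = fromBlocks (i * h) 0 0 (q.map (incPos _)) *
      (fromBlocks h' 0 0 (q.map (incPos _)) * x) := by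
    rw [← Matrix.mul_assoc, mul_blocks, hq, Matrix.mul_assoc i, h1, D.lat.i_e]
  have e2 : fromBlocks h' 0 0 (q.map (incPos _)) * x * (y * fromBlocks j 0 0 (m • q.map (incPos _))) =
      fromBlocks (h' * j) 0 0 (m • q.map (incPos _)) := by
    rw [Matrix.mul_assoc, ← Matrix.mul_assoc x, D.xy, mul_blocks, mul_blocks, D.lat.e_j,
      Matrix.mul_smul, hq, Matrix.mul_smul, hq]
  have e3 : y * fromBlocks j 0 0 (m • q.map (incPos _)) * fromBlocks (i * h) 0 0 (q.map (incPos _)) =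
      m • (y * fromBlocks h 0 0 (q.map (incPos _))) := by
    rw [Matrix.mul_assoc, mul_blocks, ← Matrix.mul_assoc j, D.lat.ji, Matrix.smul_mul, e0,
      Matrix.smul_mul, hq, smul_blocks, Matrix.mul_smul]
  rw [rs, e1]
  refine ((hL _ (ι ⊕ μ) (ι ⊕ μ) ν).1 (ConjClasses G →₀ ℤ_[p]) (hs 1) (hs_comm 1) _ _ _).trans ?_
  rw [e2, e3, (hL _ ι ι μ).2.2.2.1, (hL _ μ μ μ).2.1, (hL _ μ μ μ).2.2.2.2.2.1, smul_zero,
    add_zero, (hL _ (ι ⊕ μ) ν μ).2.1, map_nsmul]

/-- Primes not dividing `m`. -/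
theorem away (hL : St_LRES.{u}) (hI : St_IDX.{u}) (hF : St_FROB.{u}) (D : Dat m ε i j q q' x y)
    (hm : ¬p ∣ m) : hs p (rs m i j q x y) = hs 1 (rs m i j q x y) := by
  have hu : IsUnit (m : ℤ_[p]) := by
    rw [PadicInt.isUnit_iff, PadicInt.norm_natCast_eq_one_iff]
    exact (Nat.Prime.coprime_iff_not_dvd Fact.out).2 hm
  obtain ⟨v, hv⟩ := hu.exists_left_inv
  have k : ∀ {α β : Type} (a : Matrix α β (LaurentPolynomial (MonoidAlgebra ℤ_[p] G))),
      v • m • a = a := fun a => by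
    rw [← Nat.cast_smul_eq_nsmul ℤ_[p], smul_smul, hv, one_smul]
  have e := fix hI hF D (h := v • j) (h' := i) (by rw [Matrix.smul_mul, D.lat.ji, k])
    (by rw [Matrix.mul_smul, D.lat.ij, k])
  have e3 : y * fromBlocks j 0 0 (m • q.map (incPos _)) =
      m • (y * fromBlocks (v • j) 0 0 (q.map (incPos _))) := by
    rw [← Matrix.mul_smul, ← smul_blocks, smul_comm m v, k]
  rw [rs, e3, (hL _ (ι ⊕ μ) ν μ).2.1, map_nsmul, map_nsmul, e]

end CORE

open CORE

theorem stCORE (hL : St_LRES.{u}) (hI : St_IDX.{u}) (hF : St_FROB.{u}) (hV : St_VAN.{u}) :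
    St_CORE.{u} := by
  rintro G _ P w E ⟨ι, κ, _, _, _, ε, i, j, m, hm, hP, hl, rfl, hT⟩ hw
  obtain ⟨μ, ν, _, _, _, q, q', hq, hq', he⟩ := exists_equiv hl.idem hw
  obtain ⟨x, y, h1, h2, h3, -⟩ := he.norm (idem_blocks hl.idem (idem_map _ hq)) (idem_map _ hq')
  have D : Dat m ε i j q q' x y := ⟨hl, hq, hq', h1, h2, h3⟩
  have hr : ∀ n c, hs n ((m : ℚ)⁻¹ • MonoidAlgebra.mapRingHom G (Int.castRingHom ℚ)
      (rs m i j q x y)) c = (m : ℚ)⁻¹ * (hs n (rs m i j q x y) c : ℤ) := fun n c => by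
    rw [hs_smul, hs_map]
    rfl
  have hz : ∀ (p : Nat.Primes) n c, hs n (cz p.1 G (rs m i j q x y)) c =
      (hs n (rs m i j q x y) c : ℤ) := fun p n c => hs_map _ n _ c
  refine ⟨(m : ℚ)⁻¹ • MonoidAlgebra.mapRingHom G (Int.castRingHom ℚ) (rs m i j q x y),
    fun l hl' => ?_, fun p hp g hg hpg => ?_⟩
  · ext c
    have e := DFunLike.congr_fun (away hL hI hF (D.map (cz l.1 G)) fun h => hl' (hP l h)) c
    rw [← rs_map hL, hz, hz] at e
    rw [hr, hr, Int.cast_injective e]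
  · obtain ⟨h, h', k1, k2, k3⟩ := hT p hp
    have e := DFunLike.congr_fun (split hL (D.map (cz p.1 G)) k1 k2) (ConjClasses.mk g)
    rw [← rs_map hL, hz, Finsupp.add_apply, Finsupp.smul_apply,
      (hV _ G _).2 p.1 p.2 (fix hI hF (D.map (cz p.1 G)) k1 k2) g hg hpg, smul_zero, add_zero] at e
    have e' := DFunLike.congr_fun k3 (ConjClasses.mk g)
    rw [cq, hs_map, ← e, map_intCast, Finsupp.smul_apply, nsmul_eq_mul] at e'
    have hm' : (m : ℚ_[p.1]) ≠ 0 := Nat.cast_ne_zero.2 hm.ne'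
    rw [hr]
    push_cast
    rw [e', inv_mul_cancel_left₀ hm']

end Pool.Agent.Lib.KM1
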