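import Mathlib

/-! Algebraic `K₀` (idempotent matrices) and Bass' `K₋₁` of a ring, with their functoriality. -/

namespace Pool.Agent.Lib.KM1

open Matrix

universe u v

/-- An idempotent square matrix over `R`. -/
structure Idem (R : Type u) [Ring R] where
  n : ℕ
  e : Matrix (Fin n) (Fin n) R
  idem : e * e = e

/-- Entrywise image of an idempotent matrix under a ring homomorphism. -/
def Idem.map {R : Type u} {S : Type v} [Ring R] [Ring S] (f : R →+* S) (a : Idem R) : Idem S :=
  ⟨a.n, a.e.map f, by rw [← Matrix.map_mul, a.idem]⟩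

/-- Generators of the relations of `K₀`: equivalent idempotents (`e = xy`, `f = yx`, that is,
isomorphic projective modules) are identified, and block sums are sums. -/
def K0Gen (R : Type u) [Ring R] : Set (FreeAbelianGroup (Idem R)) :=
  {z | ∃ (a b : Idem R) (x : Matrix (Fin a.n) (Fin b.n) R) (y : Matrix (Fin b.n) (Fin a.n) R),
      x * y = a.e ∧ y * x = b.e ∧ z = FreeAbelianGroup.of a - FreeAbelianGroup.of b} ∪
  {z | ∃ (a b c : Idem R) (σ : Fin a.n ⊕ Fin b.n ≃ Fin c.n),
      c.e = Matrix.reindex σ σ (Matrix.fromBlocks a.e 0 0 b.e) ∧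
      z = FreeAbelianGroup.of c - FreeAbelianGroup.of a - FreeAbelianGroup.of b}

/-- `K₀(R)`. -/
abbrev K0 (R : Type u) [Ring R] : Type u :=
  FreeAbelianGroup (Idem R) ⧸ AddSubgroup.closure (K0Gen R)

theorem K0Gen_map {R : Type u} {S : Type v} [Ring R] [Ring S] (f : R →+* S) :
    AddSubgroup.closure (K0Gen R) ≤
      (AddSubgroup.closure (K0Gen S)).comap (FreeAbelianGroup.map (Idem.map f)) := by
  rw [AddSubgroup.closure_le]
  rintro z (⟨a, b, x, y, h1, h2, rfl⟩ | ⟨a, b, c, σ, h, rfl⟩)
  · refine AddSubgroup.subset_closure (Or.inl ⟨a.map f, b.map f, x.map f, y.map f, ?_, ?_, ?_⟩)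
    · exact (Matrix.map_mul.symm).trans (congrArg (fun M => M.map f) h1)
    · exact (Matrix.map_mul.symm).trans (congrArg (fun M => M.map f) h2)
    · simp
  · refine AddSubgroup.subset_closure (Or.inr ⟨a.map f, b.map f, c.map f, σ, ?_, ?_⟩)
    · change c.e.map f = Matrix.reindex σ σ (Matrix.fromBlocks (a.e.map f) 0 0 (b.e.map f))
      rw [h]
      ext i j
      simp only [Matrix.reindex_apply, Matrix.map_apply, Matrix.submatrix_apply]
      rcases σ.symm i with i | i <;> rcases σ.symm j with j | j <;> simp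
    · simp

/-- The map induced on `K₀` by a ring homomorphism. -/
def K0.map {R : Type u} {S : Type v} [Ring R] [Ring S] (f : R →+* S) : K0 R →+ K0 S :=
  QuotientAddGroup.map _ _ (FreeAbelianGroup.map (Idem.map f)) (K0Gen_map f)

theorem K0.map_map {R : Type*} {S : Type*} {U : Type*} [Ring R] [Ring S] [Ring U]
    (f : R →+* S) (g : S →+* U) (y : K0 R) : K0.map g (K0.map f y) = K0.map (g.comp f) y := by
  induction y using QuotientAddGroup.induction_on with
  | H z =>
    change QuotientAddGroup.mk (FreeAbelianGroup.map _ (FreeAbelianGroup.map _ z)) =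
      QuotientAddGroup.mk (FreeAbelianGroup.map _ z)
    rw [← FreeAbelianGroup.map_comp_apply]
    rfl

theorem K0.map_conj {R : Type u} {S : Type v} [Ring R] [Ring S] (f g : R →+* S) (a b : S)
    (hba : b * a = 1) (h : ∀ r, g r = a * f r * b) (y : K0 R) : K0.map g y = K0.map f y := by
  induction y using QuotientAddGroup.induction_on with
  | H z =>
    induction z using FreeAbelianGroup.induction_on with
    | zero => simp
    | of e =>
      change QuotientAddGroup.mk (FreeAbelianGroup.of (e.map g)) =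
        QuotientAddGroup.mk (FreeAbelianGroup.of (e.map f))
      rw [QuotientAddGroup.eq_iff_sub_mem]
      have hf : e.e.map f * e.e.map f = e.e.map f := (e.map f).idem
      have h1 : (Matrix.diagonal (fun _ : Fin e.n => a) * e.e.map f) *
          (e.e.map f * Matrix.diagonal (fun _ : Fin e.n => b)) = e.e.map g := by
        rw [Matrix.mul_assoc, ← Matrix.mul_assoc (e.e.map f), hf]
        ext i j
        rw [← Matrix.mul_assoc]
        simp [h]
      have h2 : (e.e.map f * Matrix.diagonal (fun _ : Fin e.n => b)) *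
          (Matrix.diagonal (fun _ : Fin e.n => a) * e.e.map f) = e.e.map f := by
        rw [Matrix.mul_assoc, ← Matrix.mul_assoc (Matrix.diagonal _), Matrix.diagonal_mul_diagonal]
        simp [hba, hf]
      exact AddSubgroup.subset_closure (Or.inl ⟨e.map g, e.map f, _, _, h1, h2, rfl⟩)
    | neg e ih => simpa using ih
    | add x y hx hy => simp [hx, hy]

/-- `R[t] → R[t,t⁻¹]`, `t ↦ t`. -/
noncomputable def incPos (R : Type u) [Ring R] : Polynomial R →+* LaurentPolynomial R :=
  Polynomial.toLaurent

/-- `R[t] → R[t,t⁻¹]`, `t ↦ t⁻¹`. -/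
noncomputable def incNeg (R : Type u) [Ring R] : Polynomial R →+* LaurentPolynomial R :=
  (AddMonoidAlgebra.mapDomainRingHom R (negAddMonoidHom : ℤ →+ ℤ)).comp Polynomial.toLaurent

/-- The coefficientwise map `R[t,t⁻¹] → S[t,t⁻¹]`. -/
noncomputable def lau {R : Type u} {S : Type v} [Ring R] [Ring S] (f : R →+* S) :
    LaurentPolynomial R →+* LaurentPolynomial S :=
  AddMonoidAlgebra.mapRingHom ℤ f

/-- The subgroup of `K₀(R[t,t⁻¹])` generated by the images of `K₀(R[t])` and `K₀(R[t⁻¹])`. -/
noncomputable def halves (R : Type u) [Ring R] : AddSubgroup (K0 (LaurentPolynomial R)) :=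
  (K0.map (incPos R)).range ⊔ (K0.map (incNeg R)).range

/-- Bass' `K₋₁(R) = coker (K₀(R[t]) ⊕ K₀(R[t⁻¹]) → K₀(R[t,t⁻¹]))`. -/
abbrev Kneg (R : Type u) [Ring R] : Type u := K0 (LaurentPolynomial R) ⧸ halves R

theorem lau_C {R : Type u} {S : Type v} [Ring R] [Ring S] (f : R →+* S) (a : R) :
    lau f (LaurentPolynomial.C a) = LaurentPolynomial.C (f a) :=
  AddMonoidAlgebra.mapRingHom_single f 0 a

theorem lau_T {R : Type u} {S : Type v} [Ring R] [Ring S] (f : R →+* S) (n : ℤ) :
    lau f (LaurentPolynomial.T n) = LaurentPolynomial.T n :=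
  (AddMonoidAlgebra.mapRingHom_single f n 1).trans (by rw [map_one]; rfl)

theorem incPos_C {R : Type u} [Ring R] (a : R) :
    incPos R (Polynomial.C a) = LaurentPolynomial.C a := Polynomial.toLaurent_C a

theorem incPos_X {R : Type u} [Ring R] :
    incPos R Polynomial.X = LaurentPolynomial.T 1 := Polynomial.toLaurent_X

theorem incNeg_C {R : Type u} [Ring R] (a : R) :
    incNeg R (Polynomial.C a) = LaurentPolynomial.C a := by
  change AddMonoidAlgebra.mapDomainRingHom R _ (Polynomial.toLaurent _) = _
  rw [Polynomial.toLaurent_C]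
  exact AddMonoidAlgebra.mapDomain_single

theorem incNeg_X {R : Type u} [Ring R] :
    incNeg R Polynomial.X = LaurentPolynomial.T (-1) := by
  change AddMonoidAlgebra.mapDomainRingHom R _ (Polynomial.toLaurent _) = _
  rw [Polynomial.toLaurent_X]
  exact AddMonoidAlgebra.mapDomain_single

theorem lau_incPos {R : Type u} {S : Type v} [Ring R] [Ring S] (f : R →+* S) :
    (lau f).comp (incPos R) = (incPos S).comp (Polynomial.mapRingHom f) := by
  refine Polynomial.ringHom_ext (fun a => ?_) ?_
  · simp [incPos_C, lau_C]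
  · simp [incPos_X, lau_T]

theorem lau_incNeg {R : Type u} {S : Type v} [Ring R] [Ring S] (f : R →+* S) :
    (lau f).comp (incNeg R) = (incNeg S).comp (Polynomial.mapRingHom f) := by
  refine Polynomial.ringHom_ext (fun a => ?_) ?_
  · simp [incNeg_C, lau_C]
  · simp [incNeg_X, lau_T]

theorem halves_map {R : Type u} {S : Type v} [Ring R] [Ring S] (f : R →+* S) :
    halves R ≤ (halves S).comap (K0.map (lau f)) := by
  refine sup_le ?_ ?_
  · rintro _ ⟨y, rfl⟩
    refine AddSubgroup.mem_sup_left ⟨K0.map (Polynomial.mapRingHom f) y, ?_⟩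
    rw [K0.map_map, K0.map_map, lau_incPos]
  · rintro _ ⟨y, rfl⟩
    refine AddSubgroup.mem_sup_right ⟨K0.map (Polynomial.mapRingHom f) y, ?_⟩
    rw [K0.map_map, K0.map_map, lau_incNeg]

/-- The map induced on `K₋₁` by a ring homomorphism. -/
noncomputable def Kneg.map {R : Type u} {S : Type v} [Ring R] [Ring S] (f : R →+* S) :
    Kneg R →+ Kneg S :=
  QuotientAddGroup.map _ _ (K0.map (lau f)) (halves_map f)

theorem lau_comp {R : Type*} {S : Type*} {U : Type*} [Ring R] [Ring S] [Ring U]
    (f : R →+* S) (g : S →+* U) : (lau g).comp (lau f) = lau (g.comp f) :=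
  (AddMonoidAlgebra.mapRingHom_comp g f).symm

theorem Kneg.map_map {R : Type*} {S : Type*} {U : Type*} [Ring R] [Ring S] [Ring U]
    (f : R →+* S) (g : S →+* U) (y : Kneg R) :
    Kneg.map g (Kneg.map f y) = Kneg.map (g.comp f) y := by
  induction y using QuotientAddGroup.induction_on with
  | H z =>
    change QuotientAddGroup.mk (K0.map _ (K0.map _ z)) = QuotientAddGroup.mk (K0.map _ z)
    rw [K0.map_map, lau_comp]

theorem Kneg.map_conj {R : Type u} {S : Type v} [Ring R] [Ring S] (f g : R →+* S) (a b : S)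
    (hba : b * a = 1) (h : ∀ r, g r = a * f r * b) (y : Kneg R) :
    Kneg.map g y = Kneg.map f y := by
  induction y using QuotientAddGroup.induction_on with
  | H z =>
    change QuotientAddGroup.mk (K0.map _ z) = QuotientAddGroup.mk (K0.map _ z)
    rw [K0.map_conj (lau f) (lau g) (LaurentPolynomial.C a) (LaurentPolynomial.C b)
      (by rw [← map_mul, hba, map_one])]
    intro r
    induction r using LaurentPolynomial.induction_on' with
    | add p q hp hq => simp only [map_add, hp, hq, mul_add, add_mul]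
    | C_mul_T n c =>
      simp only [map_mul, lau_C, lau_T, h, mul_assoc]
      rw [← (LaurentPolynomial.commute_T n (LaurentPolynomial.C b)).eq]

/-- The ring homomorphism `k[G] → k[G']` induced by a group homomorphism. -/
noncomputable def grp (k : Type v) [Ring k] {G G' : Type u} [Group G] [Group G'] (φ : G →* G') :
    MonoidAlgebra k G →+* MonoidAlgebra k G' :=
  MonoidAlgebra.mapDomainRingHom k φ

/-- The finite subgroups of `G`. -/
abbrev FinSub (G : Type u) [Group G] : Type u := {H : Subgroup G // Finite H}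

/-- `⨁_{H ≤ G finite} K₋₁(ℤH)`. -/
abbrev Src (G : Type u) [Group G] : Type u :=
  DirectSum (FinSub G) (fun H => Kneg (MonoidAlgebra ℤ H.1))

open Classical in
/-- The relations of the colimit over the finite subgroups: `y ∈ K₋₁(ℤH)` is identified with its
image in `K₋₁(ℤK)` under `h ↦ g h g⁻¹` whenever `g H g⁻¹ ≤ K`. -/
noncomputable def colimRel (G : Type u) [Group G] : AddSubgroup (Src G) :=
  AddSubgroup.closure
    {z | ∃ (H K : FinSub G) (g : G) (φ : H.1 →* K.1) (y : Kneg (MonoidAlgebra ℤ H.1)),
      (∀ h : H.1, (φ h : G) = g * h * g⁻¹) ∧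
      z = DirectSum.of (fun H : FinSub G => Kneg (MonoidAlgebra ℤ H.1)) H y -
        DirectSum.of (fun H : FinSub G => Kneg (MonoidAlgebra ℤ H.1)) K (Kneg.map (grp ℤ φ) y)}

open Classical in
/-- The sum of the maps `K₋₁(ℤH) → K₋₁(ℤG)` induced by the inclusions. -/
noncomputable def sumMap (G : Type u) [Group G] : Src G →+ Kneg (MonoidAlgebra ℤ G) :=
  DirectSum.toAddMonoid (fun H : FinSub G => Kneg.map (grp ℤ H.1.subtype))

theorem colimRel_le_ker (G : Type u) [Group G] : colimRel G ≤ (sumMap G).ker := by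
  rw [colimRel, AddSubgroup.closure_le]
  rintro _ ⟨H, K, g, φ, y, hφ, rfl⟩
  simp only [SetLike.mem_coe, AddMonoidHom.mem_ker, map_sub, sumMap, DirectSum.toAddMonoid_of,
    Kneg.map_map]
  rw [sub_eq_zero]
  symm
  refine Kneg.map_conj _ _ (MonoidAlgebra.single g 1) (MonoidAlgebra.single g⁻¹ 1)
    (by simp [MonoidAlgebra.single_mul_single, MonoidAlgebra.one_def]) (fun r => ?_) y
  induction r using MonoidAlgebra.induction_linear with
  | zero => simp
  | add p q hp hq => simp only [map_add, hp, hq, mul_add, add_mul]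
  | single h c => simp [grp, MonoidAlgebra.single_mul_single, hφ]

/-- `colim_{H ≤ G finite} K₋₁(ℤH)`, over inclusions and conjugations by elements of `G`. -/
abbrev Colim (G : Type u) [Group G] : Type u := Src G ⧸ colimRel G

/-- The canonical map `colim_{H ≤ G finite} K₋₁(ℤH) → K₋₁(ℤG)`. -/
noncomputable def assembly (G : Type u) [Group G] : Colim G →+ Kneg (MonoidAlgebra ℤ G) :=
  QuotientAddGroup.lift _ (sumMap G) (colimRel_le_ker G)

end Pool.Agent.Lib.KM1
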