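import Pool.Agent.Lib.KM1.Blue
import Pool.Agent.Lib.MP_63c928_gt.WH.Log

/-! FROB: the necklace congruence and the power invariance of the trace of an idempotent. -/

namespace Pool.Agent.Lib.KM1

open Matrix Pool.Agent.WhDet

universe u

namespace FROB

theorem pow_sum {T S : Type*} [Semiring T] [Fintype S] (x : S → T) (n : ℕ) :
    (∑ a, x a) ^ n = ∑ w : Fin n → S, (List.ofFn fun j => x (w j)).prod := by
  induction n with
  | zero => simp
  | succ n ih =>
    rw [pow_succ', ih, Finset.sum_mul_sum, ← Finset.sum_product', Finset.univ_product_univ]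
    refine Fintype.sum_equiv (Fin.consEquiv fun _ => S) _ _ fun q => ?_
    simp [List.ofFn_succ, Fin.consEquiv]

theorem pow_word {T S : Type*} [Semiring T] [Fintype S] (x : S → T) (n : ℕ) [NeZero n] :
    (∑ a, x a) ^ n = ∑ w : ZMod n → S, word (x ∘ w) := by
  rw [pow_sum]
  refine Fintype.sum_equiv ((ZMod.finEquiv n).toEquiv.arrowCongr (Equiv.refl S)) _ _ fun w => ?_
  rw [word, List.ofFn_eq_map, ← List.map_coe_finRange_eq_range, List.map_map]
  congr 2
  funext j
  have : (ZMod.finEquiv n).symm ((j : ℕ) : ZMod n) = j := by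
    obtain ⟨m, rfl⟩ := Nat.exists_eq_add_one_of_ne_zero (NeZero.ne n)
    exact ZMod.natCast_zmod_val (n := m + 1) j
  simp [Equiv.arrowCongr, this]

theorem prod_periodic {T : Type*} [Monoid T] (y : ℕ → T) (m : ℕ) (h : ∀ j, y (m + j) = y j)
    (q : ℕ) : ((List.range (m * q)).map y).prod = ((List.range m).map y).prod ^ q := by
  have h' : ∀ q j, y (m * q + j) = y j := fun q j => by
    induction q with
    | zero => simp
    | succ q ih => rw [Nat.mul_succ, Nat.add_comm (m * q), Nat.add_assoc, h, ih]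
  induction q with
  | zero => simp
  | succ q ih =>
    rw [Nat.mul_succ, List.range_add, List.map_append, List.prod_append, ih, List.map_map, pow_succ]
    congr 2
    exact List.map_congr_left fun j _ => h' q j

theorem neck {T S M : Type*} [Ring T] [Fintype S] [AddCommGroup M] (τ : T →+ M)
    (hτ : ∀ a b, τ (a * b) = τ (b * a)) (x : S → T) (p k : ℕ) [hp : Fact p.Prime] :
    ∃ m, τ ((∑ a, x a) ^ p ^ (k + 1)) =
      ∑ u : ZMod (p ^ k) → S, τ (word (x ∘ u) ^ p) + p ^ (k + 1) • m := by
  classical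
  let := shAct (ZMod (p ^ (k + 1))) S
  let f : (ZMod (p ^ (k + 1)) → S) → M := fun w => τ (word (x ∘ w))
  have h1 : ∀ w, f ((1 : ZMod (p ^ (k + 1))) +ᵥ w) = f w := fun w => by
    have := word_mul (f := τ) hτ (x ∘ w) 1
    rw [mul_one, one_mul] at this
    exact this.symm
  have h2 : ∀ (i : ZMod (p ^ (k + 1))) w, f (i +ᵥ w) = f w := fun i w => by
    rw [← ZMod.natCast_zmod_val i]
    induction i.val with
    | zero => rw [Nat.cast_zero, zero_vadd]
    | succ j ih => rw [Nat.cast_succ, add_comm (j : ZMod (p ^ (k + 1))), add_vadd, h1, ih]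
  let c : ZMod (p ^ (k + 1)) := (p ^ k : ℕ)
  let P : (ZMod (p ^ (k + 1)) → S) → Prop := fun w => c +ᵥ w = w
  let t : MonoidAlgebra ℤ (ZMod (p ^ (k + 1)) → S) :=
    ∑ w with ¬ P w, MonoidAlgebra.single w 1
  have ht : ∀ w, t.coeff w = if P w then 0 else 1 := fun w => by
    simp only [t, MonoidAlgebra.coeff_sum, Finsupp.finsetSum_apply, MonoidAlgebra.coeff_single,
      Finsupp.single_apply, Finset.sum_ite_eq', Finset.mem_filter, Finset.mem_univ, true_and]
    split_ifs <;> rfl
  obtain ⟨y, hy⟩ := exists_norm_eq (I := ZMod (p ^ (k + 1))) t (fun i => by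
    ext w
    rw [coeff_shift, ht, ht]
    congr 1
    change (c +ᵥ (-i +ᵥ w) = -i +ᵥ w) = (c +ᵥ w = w)
    rw [← add_vadd, add_comm c, add_vadd, vadd_left_cancel_iff]) fun w => by
      rw [ht]
      split_ifs with h
      · exact dvd_zero _
      · have : AddAction.stabilizer (ZMod (p ^ (k + 1))) w = ⊥ := by
          by_contra h'
          exact h ((K0_le p k _ h').1 (AddSubgroup.mem_zmultiples _))
        simp [this]
  let L : MonoidAlgebra ℤ (ZMod (p ^ (k + 1)) → S) →ₗ[ℤ] M :=
    (Finsupp.linearCombination ℤ f).comp (MonoidAlgebra.coeffLinearEquiv ℤ).toLinearMap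
  have hL : ∀ w a, L (MonoidAlgebra.single w a) = a • f w := fun w a => by simp [L]
  have hLs : ∀ (i : ZMod (p ^ (k + 1))) y,
      L (MonoidAlgebra.mapDomain (fun w => i +ᵥ w) y) = L y := fun i y => by
    induction y using MonoidAlgebra.induction_linear with
    | zero => simp [MonoidAlgebra.mapDomain_zero]
    | add a b ha hb => rw [MonoidAlgebra.mapDomain_add, map_add, map_add, ha, hb]
    | single w a => rw [MonoidAlgebra.mapDomain_single, hL, hL, h2]
  have h3 : ∑ w with ¬ P w, f w = p ^ (k + 1) • L y := by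
    have := congrArg L hy
    rw [map_sum, map_sum] at this
    simp only [hLs, hL, one_smul, Finset.sum_const, Finset.card_univ, ZMod.card] at this
    exact this.symm
  refine ⟨L y, ?_⟩
  rw [pow_word, map_sum, ← h3, ← Finset.sum_filter_add_sum_filter_not Finset.univ P]
  congr 1
  have hper : ∀ w, P w → ∀ j : ℕ, w ((p ^ k + j : ℕ) : ZMod _) = w j := fun w hw j => by
    rw [Nat.cast_add, add_comm]
    exact congrFun hw _
  have hlt : ∀ j : ZMod (p ^ k), j.val < p ^ (k + 1) := fun j =>
    j.val_lt.trans_le (Nat.pow_le_pow_right hp.out.pos k.le_succ)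
  refine Finset.sum_nbij' (fun w j => w j.val) (fun u i => u i.val) (fun _ _ => Finset.mem_univ _)
    (fun u _ => ?_) (fun w hw => ?_) (fun u _ => ?_) fun w hw => ?_
  · refine Finset.mem_filter.2 ⟨Finset.mem_univ _, funext fun i => ?_⟩
    change u ((i + c).val) = u i.val
    rw [ZMod.val_add, ZMod.val_natCast, Nat.add_mod_mod]
    congr 1
    rw [ZMod.natCast_eq_natCast_iff]
    refine ((Nat.mod_modEq _ _).of_dvd (pow_dvd_pow p k.le_succ)).trans ?_
    simp [Nat.ModEq]
  · funext i
    have hw' := hper w (Finset.mem_filter.1 hw).2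
    have : ∀ q j : ℕ, w ((p ^ k * q + j : ℕ) : ZMod _) = w j := fun q j => by
      induction q with
      | zero => simp
      | succ q ih => rw [Nat.mul_succ, Nat.add_comm (p ^ k * q), Nat.add_assoc, hw', ih]
    change w ((i.val : ZMod (p ^ k)).val) = w i
    rw [ZMod.val_natCast, ← this (i.val / p ^ k), Nat.div_add_mod, ZMod.natCast_zmod_val]
  · funext j
    change u ((j.val : ZMod (p ^ (k + 1))).val) = u j
    rw [ZMod.val_natCast, Nat.mod_eq_of_lt (hlt j), ZMod.natCast_zmod_val]
  · have hw' := hper w (Finset.mem_filter.1 hw).2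
    congr 1
    have := prod_periodic (fun j : ℕ => x (w j)) (p ^ k) (fun j => congrArg x (hw' j)) p
    rw [← pow_succ] at this
    refine this.trans ?_
    congr 2
    refine List.map_congr_left fun j hj => ?_
    change _ = x (w ((j : ZMod (p ^ k)).val))
    rw [ZMod.val_natCast, Nat.mod_eq_of_lt (List.mem_range.1 hj)]

variable {k : Type} [CommRing k] {G : Type u} [Group G] {ι : Type} [Fintype ι] [DecidableEq ι]

/-- monomial matrices -/
def Mon (y : Matrix ι ι (MonoidAlgebra k G)) : Prop :=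
  y = 0 ∨ ∃ i j g, y = Matrix.single i j (MonoidAlgebra.single g 1)

theorem Mon.mul {y y' : Matrix ι ι (MonoidAlgebra k G)} (h : Mon y) (h' : Mon y') :
    Mon (y * y') := by
  rcases h with rfl | ⟨i, j, g, rfl⟩
  · exact .inl (zero_mul _)
  rcases h' with rfl | ⟨i', j', g', rfl⟩
  · exact .inl (mul_zero _)
  by_cases e : j = i'
  · subst e
    exact .inr ⟨i, j', g * g', by
      rw [Matrix.single_mul_single_same, MonoidAlgebra.single_mul_single, mul_one]⟩
  · exact .inl (Matrix.single_mul_single_of_ne _ _ _ _ e _)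

theorem Mon.pow {y : Matrix ι ι (MonoidAlgebra k G)} (h : Mon y) (n : ℕ) :
    hs 1 (y ^ (n + 2)).trace = hs (n + 2) y.trace := by
  rcases h with rfl | ⟨i, j, g, rfl⟩
  · simp
  by_cases e : j = i
  · subst e
    have : ∀ m : ℕ, Matrix.single j j (MonoidAlgebra.single g (1 : k)) ^ (m + 1) =
        Matrix.single j j (MonoidAlgebra.single (g ^ (m + 1)) 1) := fun m => by
      induction m with
      | zero => simp
      | succ m ih =>
        rw [pow_succ, ih, Matrix.single_mul_single_same, MonoidAlgebra.single_mul_single, mul_one,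
          ← pow_succ]
    rw [this, Matrix.trace_single_eq_same, Matrix.trace_single_eq_same, hs_single, hs_single,
      pow_one]
  · rw [pow_succ, pow_succ, mul_assoc, Matrix.single_mul_single_of_ne _ _ _ _ e, mul_zero,
      Matrix.trace_single_eq_of_ne _ _ _ (Ne.symm e)]
    simp

theorem pow_add {T : Type*} [Ring T] (a y : T) (m n : ℕ) : ∃ y', (a + m • y) ^ n = a ^ n + m • y' := by
  induction n with
  | zero => exact ⟨0, by simp⟩
  | succ n ih =>
    obtain ⟨y', h⟩ := ih
    refine ⟨y' * (a + m • y) + a ^ n * y, ?_⟩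
    rw [pow_succ, h, add_mul, mul_add, pow_succ, smul_add, smul_mul_assoc, mul_smul_comm]
    abel

theorem approx (p : ℕ) [Fact p.Prime] (K : ℕ) (z : Matrix ι ι (MonoidAlgebra ℤ_[p] G)) :
    ∃ a ∈ AddSubmonoid.closure {y | Mon y}, ∃ y, z = a + p ^ K • y := by
  have hadd : ∀ z z' : Matrix ι ι (MonoidAlgebra ℤ_[p] G),
      (∃ a ∈ AddSubmonoid.closure {y | Mon y}, ∃ y, z = a + p ^ K • y) →
      (∃ a ∈ AddSubmonoid.closure {y | Mon y}, ∃ y, z' = a + p ^ K • y) →
      ∃ a ∈ AddSubmonoid.closure {y | Mon y}, ∃ y, z + z' = a + p ^ K • y := by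
    rintro _ _ ⟨a, ha, y, rfl⟩ ⟨a', ha', y', rfl⟩
    exact ⟨a + a', add_mem ha ha', y + y', by rw [smul_add]; abel⟩
  induction z using Matrix.induction_on' with
  | h_zero => exact ⟨0, zero_mem _, 0, by simp⟩
  | h_add a b ha hb => exact hadd _ _ ha hb
  | h_std_basis i j r =>
    induction r using MonoidAlgebra.induction_linear with
    | zero => exact ⟨0, zero_mem _, 0, by simp⟩
    | add a b ha hb => rw [Matrix.single_add]; exact hadd _ _ ha hb
    | single g c =>
      obtain ⟨d, hd⟩ := Ideal.mem_span_singleton'.1 (PadicInt.appr_spec K c)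
      refine ⟨c.appr K • Matrix.single i j (MonoidAlgebra.single g 1),
        nsmul_mem (AddSubmonoid.subset_closure (.inr ⟨i, j, g, rfl⟩)) _,
        Matrix.single i j (MonoidAlgebra.single g d), ?_⟩
      rw [Matrix.smul_single, Matrix.smul_single, ← Matrix.single_add, MonoidAlgebra.smul_single,
        MonoidAlgebra.smul_single, ← MonoidAlgebra.single_add]
      congr 2
      simp only [nsmul_eq_mul, mul_one, Nat.cast_pow]
      linear_combination -hd

end FROB

open FROB in
theorem stFROB : St_FROB.{u} := fun p hp G _ ι _ z hz => by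
  classical
  let τ : ℕ → Matrix ι ι (MonoidAlgebra ℤ_[p] G) →+ (ConjClasses G →₀ ℤ_[p]) := fun n =>
    (hs n).comp (Matrix.traceAddMonoidHom ι _)
  have key : ∀ K : ℕ, ∃ m, τ 1 z = τ p z + p ^ (K + 1) • m := fun K => by
    obtain ⟨a, ha, y, e⟩ := approx p (K + 1) z
    obtain ⟨l, hl, rfl⟩ := AddSubmonoid.exists_list_of_mem_closure ha
    have hs' : l.sum = ∑ i : Fin l.length, l[i.1] := (Fin.sum_univ_getElem l).symm
    obtain ⟨m, hm⟩ := neck (τ 1) (fun a b => trace_comm_of (hs 1) (hs_comm 1) a b)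
      (fun i : Fin l.length => l[i.1]) p K
    have h1 : ∀ u : ZMod (p ^ K) → Fin l.length,
        τ 1 (word ((fun i : Fin l.length => l[i.1]) ∘ u) ^ p) =
          τ p (word ((fun i : Fin l.length => l[i.1]) ∘ u)) := fun u => by
      have hM : Mon (word ((fun i : Fin l.length => l[i.1]) ∘ u)) :=
        List.prod_induction_nonempty _ (fun _ _ => Mon.mul) (by simp [hp.out.ne_zero]) fun x hx => by
          obtain ⟨j, -, rfl⟩ := List.mem_map.1 hx
          exact hl _ (List.getElem_mem _)
      obtain ⟨n, hn⟩ := Nat.exists_eq_add_of_le' hp.out.two_le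
      have := hM.pow n
      rw [← hn] at this
      exact this
    simp only [h1] at hm
    rw [← map_sum, ← pow_word, ← hs'] at hm
    have hzz : ∀ n, n ≠ 0 → z ^ n = z := fun n hn => (IsIdempotentElem.pow_eq hz hn)
    obtain ⟨y₁, e₁⟩ := FROB.pow_add l.sum y (p ^ (K + 1)) (p ^ (K + 1))
    obtain ⟨y₂, e₂⟩ := FROB.pow_add l.sum y (p ^ (K + 1)) (p ^ K)
    rw [← e, hzz _ (pow_ne_zero _ hp.out.ne_zero)] at e₁ e₂
    refine ⟨m + τ 1 y₁ - τ p y₂, ?_⟩
    conv_lhs => rw [e₁]
    conv_rhs => rw [e₂]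
    rw [map_add, map_add, hm, map_nsmul, map_nsmul, smul_sub, smul_add]
    abel
  ext c
  refine PadicInt.ext_of_toZModPow.1 fun K => ?_
  obtain ⟨m, hm⟩ := key K
  change PadicInt.toZModPow K (τ p z c) = PadicInt.toZModPow K (τ 1 z c)
  rw [hm, Finsupp.add_apply, Finsupp.smul_apply, map_add, map_nsmul, pow_succ', mul_nsmul',
    nsmul_eq_mul (p ^ K), ZMod.natCast_self]
  simp

end Pool.Agent.Lib.KM1
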