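import Pool.Agent.Lib.KM1.Blue

/-! Every `delta` is a boundary class. -/

namespace Pool.Agent.Lib.KM1

open Matrix LaurentPolynomial

universe u

namespace HIG

variable {ι : Type} [Fintype ι] [DecidableEq ι] {A : Type u} [Ring A]

omit [DecidableEq ι] in
theorem cmul (x y : Matrix ι ι A) (f g : LaurentPolynomial A) (hf : ∀ r, f * C r = C r * f) :
    x.map (fun r => C r * f) * y.map (fun r => C r * g) = (x * y).map fun r => C r * (f * g) := by
  ext1 i j
  simp only [mul_apply, map_apply, map_sum, Finset.sum_mul, map_mul]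
  refine Finset.sum_congr rfl fun k _ => ?_
  rw [mul_assoc, ← mul_assoc f, hf, mul_assoc, mul_assoc]

theorem comm (n : ℤ) (r : A) : (T n - 1) * C r = C r * (T n - 1) := by
  rw [sub_mul, mul_sub, one_mul, mul_one, (commute_T n (C r)).eq]

theorem inv_aux (m : ℕ) (x : Matrix ι ι A) (hx : x * x = m • x) (n : ℤ) :
    (m • (1 : Matrix ι ι (LaurentPolynomial A)) + x.map fun r => C r * (T n - 1)) *
      (m • 1 + x.map fun r => C r * (T (-n) - 1)) = (m * m) • 1 := by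
  have h1 : (T n - 1 : LaurentPolynomial A) * (T (-n) - 1) = -((T n - 1) + (T (-n) - 1)) := by
    rw [sub_mul, mul_sub, ← T_add, add_neg_cancel, T_zero, one_mul, mul_one]
    abel
  rw [add_mul, mul_add, mul_add, cmul _ _ _ _ (comm n), hx, h1]
  simp only [smul_mul_assoc, mul_smul_comm, one_mul, mul_one, smul_smul]
  ext1 i j
  simp only [Matrix.add_apply, Matrix.smul_apply, map_apply, map_nsmul, smul_mul_assoc,
    mul_neg, mul_add]
  abel

theorem pinv_uMat (p t : ℕ) (x : Matrix ι ι A) (hx : x * x = p ^ t • x) :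
    PInv p (uMat (p ^ t) x) := by
  refine ⟨t + t, p ^ t • 1 + x.map fun r => C r * (T (-1) - 1), 0, 0, ?_, ?_⟩
  · rw [smul_zero, add_zero, pow_add]
    exact inv_aux _ x hx 1
  · rw [smul_zero, add_zero, pow_add]
    simpa only [neg_neg, uMat] using inv_aux _ x hx (-1)

theorem exists_idem {p : ℕ} {B : Type u} [Ring B] (ψ : A →+* B) (hu : IsUnit ((p : ℕ) : B))
    (t : ℕ) (x : Matrix ι ι A) (hx : x * x = p ^ t • x) :
    ∃ e : Matrix ι ι B, e * e = e ∧ x.map ψ = p ^ t • e := by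
  have h1 : IsUnit ((p ^ t : ℕ) : B) := by
    rw [Nat.cast_pow]
    exact hu.pow t
  have h2 : ∀ a b : Matrix ι ι B, p ^ t • a = p ^ t • b → a = b := fun a b h => by
    ext i j
    have h3 := congrFun (congrFun h i) j
    rw [Matrix.smul_apply, Matrix.smul_apply, nsmul_eq_mul, nsmul_eq_mul] at h3
    exact h1.mul_left_cancel h3
  have h3 : x.map ψ = p ^ t • Matrix.of fun i j => (h1.unit⁻¹ : Bˣ) * ψ (x i j) := by
    ext i j
    rw [Matrix.smul_apply, nsmul_eq_mul, of_apply, ← mul_assoc, IsUnit.mul_val_inv, one_mul, map_apply]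
  refine ⟨_, h2 _ _ (h2 _ _ ?_), h3⟩
  rw [← smul_mul_assoc, ← mul_smul_comm, ← h3, ← Matrix.map_mul, hx, map_nsmul']

end HIG

open HIG

theorem stHIG (h1 : St_AN1.{u}) (h2 : St_LAT2.{u}) (h3 : St_NAT.{u}) (h4 : St_HIG1.{u})
    (h5 : St_HIG2a.{u}) (h6 : St_HIG2b.{u}) : St_HIG.{u} := by
  intro p A A' B _ _ _ φ ψ D hφ hψ hc hD ι _ _ a ha
  obtain ⟨l1, l2⟩ := h1 p A A' φ hφ
  obtain ⟨κ, _, _, α, β, k1, k2⟩ := h4 p A A' φ l1 ι a ha
  obtain ⟨s, g, b, k3, k4⟩ := h5 p A' hc κ α β k1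
  obtain ⟨m1, -, -, m2, -⟩ := h2 p _ _ (lau φ) l1 κ κ
  have pos : ∀ q : Matrix κ κ (Polynomial A'), PInv p q →
      (QuotientAddGroup.mk (delta p (lau φ) (q.map (incPos A'))) : Kneg A) = 0 := fun q hq => by
    rw [← h3 p _ _ _ _ _ _ (incPos A) (incPos A') l2 l1 (lau_incPos φ) κ q hq,
      QuotientAddGroup.eq_zero_iff]
    exact AddSubgroup.mem_sup_left ⟨_, rfl⟩
  have neg : ∀ q : Matrix κ κ (Polynomial A'), PInv p q →
      (QuotientAddGroup.mk (delta p (lau φ) (q.map (incNeg A'))) : Kneg A) = 0 := fun q hq => by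
    rw [← h3 p _ _ _ _ _ _ (incNeg A) (incNeg A') l2 l1 (lau_incNeg φ) κ q hq,
      QuotientAddGroup.eq_zero_iff]
    exact AddSubgroup.mem_sup_right ⟨_, rfl⟩
  have k5 : g.map C = (g.map Polynomial.C).map (incPos A') := by
    ext1 i j
    exact (incPos_C _).symm
  obtain ⟨k6, k7⟩ := m1 _ _ k1 (k3.map C)
  rw [k4] at k6 k7
  obtain ⟨t, k, x, Ap, Am, j1, j2, j3, j4⟩ := h6 p A' hc κ s b k6
  obtain ⟨j5, j6⟩ := m2 k (p ^ k • 1) 1 (mul_one _) (one_mul _)
  rw [map_nsmul', map_one'] at j5 j6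
  have j7 := (m1 _ _ j5 k6).2
  obtain ⟨j8, j9⟩ := m1 _ _ (pinv_uMat p t x j1) (j3.map (incNeg A'))
  rw [smul_mul_assoc, one_mul, j4, (m1 _ _ j8 (j2.map (incPos A'))).2, j9, j6, zero_add, k7] at j7
  obtain ⟨e, e1, e2⟩ := exists_idem ψ hψ.unit t x j1
  have j10 := congrArg (QuotientAddGroup.mk : _ → Kneg A) j7
  rw [QuotientAddGroup.mk_add, QuotientAddGroup.mk_add, QuotientAddGroup.mk_add, pos _ j2,
    neg _ j3, k5, pos _ (k3.map Polynomial.C), add_zero, add_zero, add_zero] at j10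
  exact ⟨cls e, by rw [hD κ e t x e1 e2, j10, k2]⟩

end Pool.Agent.Lib.KM1
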