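import Pool.Agent.Lib.KM1.Blue

/-! Higman linearisation. -/

namespace Pool.Agent.Lib.KM1

open Matrix LaurentPolynomial

universe u

namespace HIG1

variable {ι : Type} [Fintype ι] [DecidableEq ι] {R : Type u} [Ring R]

theorem up_inv (c : Matrix ι ι R) :
    fromBlocks 1 c 0 1 * fromBlocks 1 (-c) 0 1 = (1 : Matrix (ι ⊕ ι) (ι ⊕ ι) R) := by
  rw [fromBlocks_multiply, ← fromBlocks_one]
  simp

theorem low_inv (c : Matrix ι ι R) :
    fromBlocks 1 0 c 1 * fromBlocks 1 0 (-c) 1 = (1 : Matrix (ι ⊕ ι) (ι ⊕ ι) R) := by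
  rw [fromBlocks_multiply, ← fromBlocks_one]
  simp

theorem fact (b c x : Matrix ι ι R) :
    fromBlocks 1 c 0 1 * fromBlocks (c * x + b) 0 0 1 * fromBlocks 1 0 (-x) 1 =
      (fromBlocks b c (-x) 1 : Matrix (ι ⊕ ι) (ι ⊕ ι) R) := by
  rw [fromBlocks_multiply, fromBlocks_multiply]
  simp

end HIG1

open HIG1 in
theorem stHIG1 (hL : St_LAT2.{u}) : St_HIG1.{u} := by
  intro p A A' _ _ φ hφ
  have L := hL p _ _ (lau φ) hφ
  have unit : ∀ {ι : Type} [Fintype ι] [DecidableEq ι] (a a' : Matrix ι ι (LaurentPolynomial A')),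
      a * a' = 1 → a' * a = 1 → PInv p a ∧ delta p (lau φ) a = 0 := fun {ι} _ _ a a' h h' =>
    (L ι ι).2.2.1 a a' 0 0 (by rw [h, smul_zero, add_zero]) (by rw [h', smul_zero, add_zero])
  have step : ∀ {ι : Type} [Fintype ι] [DecidableEq ι]
      (b c x : Matrix ι ι (LaurentPolynomial A')), PInv p (c * x + b) →
      PInv p (fromBlocks b c (-x) 1) ∧
        delta p (lau φ) (c * x + b) = delta p (lau φ) (fromBlocks b c (-x) 1) := by
    intro ι _ _ b c x h
    obtain ⟨u1, u2⟩ := unit _ _ (up_inv c) (by simpa only [neg_neg] using up_inv (-c))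
    obtain ⟨v1, v2⟩ := unit _ _ (by simpa only [neg_neg] using low_inv (-x)) (low_inv x)
    obtain ⟨o1, o2⟩ := unit (1 : Matrix ι ι (LaurentPolynomial A')) 1 (one_mul _) (one_mul _)
    obtain ⟨s1, s2⟩ := (L ι ι).2.1 _ _ h o1
    obtain ⟨m1, m2⟩ := (L (ι ⊕ ι) ι).1 _ _ u1 s1
    obtain ⟨n1, n2⟩ := (L (ι ⊕ ι) ι).1 _ _ m1 v1
    rw [fact] at n1 n2
    exact ⟨n1, by rw [n2, m2, s2, u2, v2, o2, zero_add, add_zero, add_zero]⟩
  have key : ∀ (d : ℕ) (ι : Type) [Fintype ι] [DecidableEq ι] (b : Matrix ι ι (Polynomial A')),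
      (∀ i j, (b i j).natDegree ≤ d + 1) → PInv p (b.map (incPos A')) →
      ∃ (κ : Type) (_ : Fintype κ) (_ : DecidableEq κ) (α β : Matrix κ κ A'),
        PInv p (lin α β) ∧ delta p (lau φ) (b.map (incPos A')) = delta p (lau φ) (lin α β) := by
    intro d
    induction d with
    | zero =>
      intro ι _ _ b hb h
      have e : b.map (incPos A') = lin (b.map fun f => f.coeff 0) (b.map fun f => f.coeff 1) := by
        ext1 i j
        rw [map_apply, Polynomial.eq_X_add_C_of_natDegree_le_one (hb i j), map_add, map_mul,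
          incPos_C, incPos_C, incPos_X, add_comm]
        rfl
      exact ⟨ι, _, _, _, _, e ▸ h, by rw [e]⟩
    | succ d ih =>
      intro ι _ _ b hb h
      have e : b.map (incPos A') = (b.map Polynomial.divX).map (incPos A') *
          (diagonal fun _ => Polynomial.X).map (incPos A') +
          (b.map fun f => Polynomial.C (f.coeff 0)).map (incPos A') := by
        rw [← Matrix.map_mul, ← map_add']
        congr 1
        ext1 i j
        rw [Matrix.add_apply, mul_diagonal]
        exact (Polynomial.divX_mul_X_add _).symm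
      rw [e] at h ⊢
      obtain ⟨h1, h2⟩ := step _ _ _ h
      have e' : (fromBlocks (b.map fun f => Polynomial.C (f.coeff 0)) (b.map Polynomial.divX)
          (-diagonal fun _ => Polynomial.X) 1).map (incPos A') =
          fromBlocks ((b.map fun f => Polynomial.C (f.coeff 0)).map (incPos A'))
            ((b.map Polynomial.divX).map (incPos A'))
            (-(diagonal fun _ => Polynomial.X).map (incPos A')) 1 := by
        rw [fromBlocks_map, map_one', Matrix.map_neg _ (map_neg _)]
      rw [h2, ← e']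
      refine ih _ _ ?_ (e' ▸ h1)
      rintro (i | i) (j | j)
      · exact (Polynomial.natDegree_C _).trans_le (Nat.zero_le _)
      · have := hb i j
        rw [fromBlocks_apply₁₂, map_apply, Polynomial.natDegree_divX_eq_natDegree_tsub_one]
        omega
      · rw [fromBlocks_apply₂₁, Matrix.neg_apply, Polynomial.natDegree_neg, diagonal_apply]
        split_ifs
        · exact Polynomial.natDegree_X_le.trans (by omega)
        · exact Polynomial.natDegree_zero.trans_le (Nat.zero_le _)
      · rw [fromBlocks_apply₂₂, one_apply]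
        split_ifs
        · exact Polynomial.natDegree_one.trans_le (Nat.zero_le _)
        · exact Polynomial.natDegree_zero.trans_le (Nat.zero_le _)
  intro ι _ _ a ha
  choose n f hf using fun q : ι × ι => exists_T_pow (a q.1 q.2)
  set N := Finset.univ.sup n with hN
  have hle : ∀ q, n q ≤ N := fun q => Finset.le_sup (Finset.mem_univ q)
  set b : Matrix ι ι (Polynomial A') := of fun i j => f (i, j) * Polynomial.X ^ (N - n (i, j))
    with hb
  have e : a * diagonal (fun _ => T (N : ℤ)) = b.map (incPos A') := by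
    ext1 i j
    rw [mul_diagonal, map_apply, hb, of_apply, map_mul, map_pow, incPos_X, T_pow, mul_one]
    change _ = Polynomial.toLaurent (f (i, j)) * _
    rw [hf, mul_assoc, ← T_add, Nat.cast_sub (hle _), add_sub_cancel]
  obtain ⟨t1, t2⟩ := unit (diagonal fun _ : ι => (T (N : ℤ) : LaurentPolynomial A'))
    (diagonal fun _ => T (-(N : ℤ)))
    (by rw [diagonal_mul_diagonal]; simp only [← T_add, add_neg_cancel, T_zero, diagonal_one])
    (by rw [diagonal_mul_diagonal]; simp only [← T_add, neg_add_cancel, T_zero, diagonal_one])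
  obtain ⟨m1, m2⟩ := (L ι ι).1 _ _ ha t1
  rw [t2, add_zero, e] at m2
  rw [← m2]
  refine key (Finset.univ.sup fun q : ι × ι => (b q.1 q.2).natDegree) ι b (fun i j => ?_) (e ▸ m1)
  exact (Finset.le_sup (f := fun q : ι × ι => (b q.1 q.2).natDegree)
    (Finset.mem_univ (i, j))).trans (Nat.le_succ _)

end Pool.Agent.Lib.KM1
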