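import Pool.Agent.Lib.KM1.Blue

/-! Normalisation of a linear matrix. -/

namespace Pool.Agent.Lib.KM1

open Matrix LaurentPolynomial

universe u

namespace HIG2a

variable {p : ℕ} {A : Type u} [Ring A]

theorem pcompl_matrix (h : PCompl p A) (ι : Type) [Fintype ι] [DecidableEq ι] :
    PCompl p (Matrix ι ι A) where
  tf x hx := Matrix.ext fun i j => h.tf _ (congrFun (congrFun hx i) j)
  sep y hy := Matrix.ext fun i j => h.sep _ fun K =>
    let ⟨z, hz⟩ := hy K
    ⟨z i j, congrFun (congrFun hz i) j⟩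
  compl x hx := by
    choose z hz using hx
    choose L w hw using fun i j => h.compl (fun K => x K i j) fun K =>
      ⟨z K i j, congrFun (congrFun (hz K) i) j⟩
    exact ⟨Matrix.of L, fun K => ⟨Matrix.of fun i j => w i j K, Matrix.ext fun i j => hw i j K⟩⟩

theorem tf_pow (h : PCompl p A) (s : ℕ) {x y : A} (hx : p ^ s • x = p ^ s • y) : x = y := by
  induction s with
  | zero => simpa using hx
  | succ s ih =>
    refine ih (sub_eq_zero.1 (h.tf _ ?_))
    rw [smul_sub, smul_smul, smul_smul, ← pow_succ', hx, sub_self]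

theorem exists_inv (h : PCompl p A) (c : A) :
    ∃ w : A, (1 + p • c) * w = 1 ∧ w * (1 + p • c) = 1 := by
  have h1 : ∀ K : ℕ, (-(p • c)) ^ K = p ^ K • (-c) ^ K := fun K => by rw [← smul_neg, smul_pow]
  obtain ⟨L, hL⟩ := h.compl (fun K => ∑ k ∈ Finset.range K, (-(p • c)) ^ k) fun K =>
    ⟨(-c) ^ K, by rw [Finset.sum_range_succ, add_sub_cancel_left, h1]⟩
  refine ⟨L, sub_eq_zero.1 (h.sep _ fun K => ?_), sub_eq_zero.1 (h.sep _ fun K => ?_)⟩
  · obtain ⟨z, hz⟩ := hL K
    have h2 := mul_neg_geom_sum (-(p • c)) K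
    rw [sub_neg_eq_add] at h2
    refine ⟨(1 + p • c) * z - (-c) ^ K, ?_⟩
    rw [eq_add_of_sub_eq hz, mul_add, h2, h1, mul_smul_comm, smul_sub]
    abel
  · obtain ⟨z, hz⟩ := hL K
    have h2 := geom_sum_mul_neg (-(p • c)) K
    rw [sub_neg_eq_add] at h2
    refine ⟨z * (1 + p • c) - (-c) ^ K, ?_⟩
    rw [eq_add_of_sub_eq hz, add_mul, h2, h1, smul_mul_assoc, smul_sub]
    abel

end HIG2a

open HIG2a

theorem stHIG2a : St_HIG2a.{u} := by
  intro p A _ hc ι _ _ α β h
  have hM := pcompl_matrix hc ι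
  have h0 : (lin α β).map (ev1 A) = α + β := by
    ext i j
    simp [lin, ev1_C, ev1_T]
  obtain ⟨s, γ, c, c', h1, h2⟩ := h0 ▸ h.map (ev1 A)
  obtain ⟨w, w1, w2⟩ := exists_inv hM c
  obtain ⟨w', w1', -⟩ := exists_inv hM c'
  have h3 : (α + β) * (γ * w) = p ^ s • 1 := by rw [← mul_assoc, h1, smul_mul_assoc, w1]
  have h4 : (1 + p • c) * (α + β) = (α + β) * (1 + p • c') := tf_pow hM s (by
    rw [← smul_mul_assoc, ← h1, ← mul_smul_comm, ← h2, mul_assoc])
  have h5 : w * (α + β) = (α + β) * w' := by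
    rw [← mul_one (w * _), ← w1', mul_assoc, ← mul_assoc (α + β), ← h4, mul_assoc, ← mul_assoc,
      w2, one_mul]
  refine ⟨s, γ * w, β * (γ * w), ⟨s, α + β, 0, 0, ?_, by rw [h3, smul_zero, add_zero]⟩, ?_⟩
  · rw [mul_assoc, h5, ← mul_assoc, h2, smul_mul_assoc, w1', smul_zero, add_zero]
  · have h6 : β.map (fun r => C r * T 1) * (γ * w).map C =
        (β * (γ * w)).map fun r => (C r * T 1 : LaurentPolynomial A) := by
      generalize γ * w = g
      ext1 i j
      simp only [mul_apply, map_apply, map_sum, Finset.sum_mul, map_mul]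
      exact Finset.sum_congr rfl fun k _ => by
        rw [mul_assoc, (commute_T 1 (C (g k j))).eq, mul_assoc]
    rw [lin, add_mul, h6, ← Matrix.map_mul, uMat, ← map_one' (C : A →+* _), ← map_nsmul', ← h3,
      add_mul, map_add']
    ext1 i j
    simp only [Matrix.add_apply, map_apply, mul_sub, mul_one]
    abel

end Pool.Agent.Lib.KM1
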