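import Pool.Agent.Lib.KM1.HIG2a

/-! Spectral idempotent and factorisation. -/

namespace Pool.Agent.Lib.KM1

open Matrix LaurentPolynomial

universe u

namespace HIG2b

/-- Congruence modulo `n`. -/
def cg (n : ℕ) (S : Type u) [Ring S] : RingCon S where
  r a b := ∃ z, a - b = n • z
  iseqv := ⟨fun a => ⟨0, by simp⟩, fun ⟨z, h⟩ => ⟨-z, by rw [smul_neg, ← h, neg_sub]⟩,
    fun ⟨z, h⟩ ⟨w, k⟩ => ⟨z + w, by rw [smul_add, ← h, ← k, sub_add_sub_cancel]⟩⟩
  add' := fun ⟨z, h⟩ ⟨w, k⟩ => ⟨z + w, by rw [smul_add, ← h, ← k, add_sub_add_comm]⟩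
  mul' := fun {a b c d} ⟨z, h⟩ ⟨w, k⟩ => ⟨z * c + b * w, by
    rw [smul_add, ← smul_mul_assoc, ← mul_smul_comm, ← h, ← k, sub_mul, mul_sub,
      sub_add_sub_cancel]⟩

/-- Reduction modulo `n`. -/
abbrev rd (n : ℕ) {S : Type u} [Ring S] : S →+* (cg n S).Quotient := (cg n S).mk'

theorem rd_eq {n : ℕ} {S : Type u} [Ring S] {a b : S} : rd n a = rd n b ↔ ∃ z, a - b = n • z :=
  (cg n S).eq

theorem rd_map {n : ℕ} {S S' : Type u} [Ring S] [Ring S'] (f : S →+* S') {a b : S}
    (h : rd n a = rd n b) : rd n (f a) = rd n (f b) :=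
  let ⟨z, hz⟩ := rd_eq.1 h
  rd_eq.2 ⟨f z, by rw [← map_sub, hz, map_nsmul]⟩

theorem geom {R : Type u} [Ring R] (p K : ℕ) (c : R) :
    rd (p ^ K) ((1 + p • c) * ∑ k ∈ Finset.range K, (-(p • c)) ^ k) = 1 ∧
      rd (p ^ K) ((∑ k ∈ Finset.range K, (-(p • c)) ^ k) * (1 + p • c)) = 1 := by
  have h1 : (-(p • c)) ^ K = p ^ K • (-c) ^ K := by rw [← smul_neg, smul_pow]
  have h2 := mul_neg_geom_sum (-(p • c)) K
  have h3 := geom_sum_mul_neg (-(p • c)) K
  rw [sub_neg_eq_add] at h2 h3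
  rw [h2, h3, and_self, ← map_one (rd (p ^ K))]
  exact rd_eq.2 ⟨-(-c) ^ K, by rw [h1, smul_neg, sub_sub_cancel_left]⟩

theorem approx {R : Type u} [Ring R] {p t : ℕ} {U a c c' : R} (h1 : U * a = p ^ t • (1 + p • c))
    (h2 : a * U = p ^ t • (1 + p • c')) : ∃ W : ℕ → R, ∀ K,
      rd (p ^ K) U * rd (p ^ K) (W K) = p ^ (t + t) • 1 ∧
      rd (p ^ K) (W K) * rd (p ^ K) U = p ^ (t + t) • 1 ∧
      rd (p ^ K) (W (K + 1)) = rd (p ^ K) (W K) := by
  refine ⟨fun K => p ^ t • (a * ∑ k ∈ Finset.range K, (-(p • c)) ^ k), fun K => ?_⟩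
  have e1 : rd (p ^ K) U * rd (p ^ K) (a * ∑ k ∈ Finset.range K, (-(p • c)) ^ k) = p ^ t • 1 := by
    rw [← map_mul, ← mul_assoc, h1, smul_mul_assoc, map_nsmul, (geom p K c).1]
  have e2 : rd (p ^ K) ((∑ k ∈ Finset.range K, (-(p • c')) ^ k) * a) * rd (p ^ K) U =
      p ^ t • 1 := by
    rw [← map_mul, mul_assoc, h2, mul_smul_comm, map_nsmul, (geom p K c').2]
  have e3 : p ^ t • rd (p ^ K) (a * ∑ k ∈ Finset.range K, (-(p • c)) ^ k) =
      p ^ t • rd (p ^ K) ((∑ k ∈ Finset.range K, (-(p • c')) ^ k) * a) := by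
    rw [← one_mul (rd _ (a * _)), ← smul_mul_assoc, ← e2, mul_assoc, e1, mul_smul_comm, mul_one]
  refine ⟨?_, ?_, rd_eq.2 ⟨p ^ t • (a * (-c) ^ K), ?_⟩⟩
  · rw [map_nsmul, mul_smul_comm, e1, smul_smul, pow_add]
  · rw [map_nsmul, e3, smul_mul_assoc, e2, smul_smul, pow_add]
  · beta_reduce
    rw [Finset.sum_range_succ, mul_add, smul_add, add_sub_cancel_left, ← smul_neg, smul_pow,
      mul_smul_comm, smul_comm]

theorem alg {Q : Type u} [Ring Q] (m q : ℕ) (u w G H x y : Q) (hx : x * x = m • x)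
    (hu : x * u = u * x) (hw : x * w = w * x) (h1 : u * G = m • 1 - x) (h2 : G * u = m • 1 - y)
    (h3 : w * H = x) (h4 : H * w = y) (h5 : G * x = 0) (h6 : H * x = m • H) (h7 : y * G = 0)
    (h8 : y * H = m • H) (h9 : m • x = m • y) :
    (u * (m • 1 - x) + q • x) * (m • (q • G + x)) = (q * m ^ 3) • 1 ∧
    (m • (q • G + x)) * (u * (m • 1 - x) + q • x) = (q * m ^ 3) • 1 ∧
    (q • (m • 1 - x) + w * x) * (m • (m • 1 - x + q • H)) = (q * m ^ 3) • 1 ∧
    (m • (m • 1 - x + q • H)) * (q • (m • 1 - x) + w * x) = (q * m ^ 3) • 1 := by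
  have k1 : m • (x * G) = 0 := by rw [← smul_mul_assoc, h9, smul_mul_assoc, h7, smul_zero]
  have k2 : m • (x * H) = (m * m) • H := by
    rw [← smul_mul_assoc, h9, smul_mul_assoc, h8, smul_smul]
  have k3 : m • (y * x) = (m * m) • x := by
    rw [← smul_mul_assoc, ← h9, smul_mul_assoc, hx, smul_smul]
  refine ⟨?_, ?_, ?_, ?_⟩
  · linear_combination (norm := (simp only [mul_add, add_mul, mul_sub, sub_mul, mul_smul_comm,
      smul_mul_assoc, mul_one, one_mul, mul_assoc, mul_zero]; module))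
      (q * m * m) • h1 - q • u * k1 - m • u * hx + (q * q) • k1 + (m * q) • hx
  · linear_combination (norm := (simp only [mul_add, add_mul, mul_sub, sub_mul, mul_smul_comm,
      smul_mul_assoc, mul_one, one_mul, mul_assoc, mul_zero]; module))
      (q * m) • h2 * (m • 1 - x) + (m * q * q) • h5 + m • hu * (m • 1 - x) - m • u * hx +
        (m * q) • hx - (q * m) • h9.symm + q • k3
  · linear_combination (norm := (simp only [mul_add, add_mul, mul_sub, sub_mul, mul_smul_comm,
      smul_mul_assoc, mul_one, one_mul, mul_assoc, mul_zero]; module))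
      (q * m) • hx - (q * q) • k2 - m • w * hx + q • w * k2 + (q * m * m) • h3
  · linear_combination (norm := (simp only [mul_add, add_mul, mul_sub, sub_mul, mul_smul_comm,
      smul_mul_assoc, mul_one, one_mul, mul_assoc, mul_zero]; module))
      (q * m) • hx - m • hw * x - m • w * hx - (m * q * q) • h6 + (m * q) • h4 * x + q • k3

theorem pinv {S : Type u} [Ring S] {p r : ℕ} {a b : S} (h : rd (p ^ (r + 1)) a * rd (p ^ (r + 1)) b =
    p ^ r • 1) : ∃ z, a * b = p ^ r • (1 + p • z) := by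
  rw [← map_mul, ← map_one (rd _), ← map_nsmul] at h
  obtain ⟨z, hz⟩ := rd_eq.1 h
  exact ⟨z, by rw [smul_add, smul_smul, ← pow_succ, ← hz, add_sub_cancel]⟩

theorem main {M N R : Type u} [Ring M] [Ring N] [Ring R] {p : ℕ} (hM : PCompl p M)
    (c : M →+* N) (e : N →+* M) (jp jm : N →+* R) (X : N) (T T' : R)
    (ec : ∀ a, e (c a) = a) (hX : ∀ a, X * a = a * X) (hT' : ∀ a, T' * a = a * T')
    (TT : T * T' = 1) (jpX : jp X = T) (jmX : jm X = T') (jc : ∀ a, jm (c a) = jp (c a))
    (dec0 : ∀ H, ∃ H₁, H = c (e H) + X * H₁) (dec : ∀ V, ∃ G H, V = jp G + T' * jm H)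
    (orth : ∀ (n : ℕ) G H z, jp G + T' * jm H = n • z → (∃ z, G = n • z) ∧ ∃ z, H = n • z)
    (q t : ℕ) (b : M) (a k k' : R)
    (h1 : jp (c (q • 1 - b) + c b * X) * a = p ^ t • (1 + p • k))
    (h2 : a * jp (c (q • 1 - b) + c b * X) = p ^ t • (1 + p • k')) :
    ∃ x : M, x * x = p ^ (t + t) • x ∧ x * b = b * x ∧ ∀ K, ∃ G H y : N,
      rd (p ^ K) (c (q • 1 - b) + c b * X) * rd (p ^ K) G = p ^ (t + t) • 1 - rd (p ^ K) (c x) ∧
      rd (p ^ K) G * rd (p ^ K) (c (q • 1 - b) + c b * X) = p ^ (t + t) • 1 - rd (p ^ K) y ∧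
      rd (p ^ K) (c b + c (q • 1 - b) * X) * rd (p ^ K) H = rd (p ^ K) (c x) ∧
      rd (p ^ K) H * rd (p ^ K) (c b + c (q • 1 - b) * X) = rd (p ^ K) y ∧
      rd (p ^ K) G * rd (p ^ K) (c x) = 0 ∧
      rd (p ^ K) H * rd (p ^ K) (c x) = p ^ (t + t) • rd (p ^ K) H ∧
      rd (p ^ K) y * rd (p ^ K) G = 0 ∧ rd (p ^ K) y * rd (p ^ K) H = p ^ (t + t) • rd (p ^ K) H ∧
      p ^ (t + t) • rd (p ^ K) (c x) = p ^ (t + t) • rd (p ^ K) y := by
  obtain ⟨W, hW⟩ := approx h1 h2
  choose G H hV using fun K => dec (W K)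
  choose H₁ hH using fun K => dec0 (H K)
  have or : ∀ (n : ℕ) G H G' H', rd n (jp G + T' * jm H) = rd n (jp G' + T' * jm H') →
      rd n G = rd n G' ∧ rd n H = rd n H' := fun n G H G' H' h => by
    obtain ⟨z, hz⟩ := rd_eq.1 h
    rw [add_sub_add_comm, ← mul_sub, ← map_sub, ← map_sub] at hz
    exact ⟨rd_eq.2 (orth n _ _ z hz).1, rd_eq.2 (orth n _ _ z hz).2⟩
  obtain ⟨x, hx⟩ := hM.compl (fun K => b * e (H K)) fun K => by
    have h := (hW K).2.2
    rw [hV, hV] at h
    exact rd_eq.1 (by rw [map_mul, map_mul, rd_map e (or _ _ _ _ _ h).2])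
  generalize hm : p ^ (t + t) = m at hW ⊢
  set α := c (q • 1 - b) with hα
  set β := c b with hβ
  have ab : α * β = β * α := by
    rw [← map_mul, ← map_mul, sub_mul, mul_sub, smul_mul_assoc, mul_smul_comm, one_mul, mul_one]
  have U1 : T' * jp (α + β * X) = jm (β + α * X) := by
    rw [map_add, map_add, map_mul, map_mul, jpX, jmX, jc, jc, hT', add_mul, mul_assoc, TT, mul_one,
      add_comm]
  have key : ∀ K, rd (p ^ K) (α + β * X) * rd (p ^ K) (G K) = m • 1 - rd (p ^ K) (c x) ∧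
      rd (p ^ K) (G K) * rd (p ^ K) (α + β * X) = m • 1 - rd (p ^ K) (c (e (H K)) * β) ∧
      rd (p ^ K) (β + α * X) * rd (p ^ K) (H K) = rd (p ^ K) (c x) ∧
      rd (p ^ K) (H K) * rd (p ^ K) (β + α * X) = rd (p ^ K) (c (e (H K)) * β) ∧
      rd (p ^ K) (G K) * rd (p ^ K) (c x) = 0 ∧
      rd (p ^ K) (H K) * rd (p ^ K) (c x) = m • rd (p ^ K) (H K) ∧
      rd (p ^ K) (c (e (H K)) * β) * rd (p ^ K) (G K) = 0 ∧
      rd (p ^ K) (c (e (H K)) * β) * rd (p ^ K) (H K) = m • rd (p ^ K) (H K) ∧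
      m • (rd (p ^ K) β * rd (p ^ K) (H K)) = m • (rd (p ^ K) (H K) * rd (p ^ K) β) := fun K => by
    obtain ⟨w1, w2, -⟩ := hW K
    have hx' : rd (p ^ K) (c x) = rd (p ^ K) (β * c (e (H K))) := by
      rw [← map_mul c]; exact rd_map c (rd_eq.2 (hx K))
    have jh : jm (c (e (H K))) = jp (c (e (H K))) := jc _
    have ja : jm α = jp α := jc _
    have jb : jm β = jp β := jc _
    have hH := hH K
    have hV := hV K
    rw [hx']
    generalize c (e (H K)) = h at hH jh ⊢
    generalize H K = H at hH hV ⊢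
    generalize G K = G at hV ⊢
    generalize H₁ K = H₁ at hH
    generalize W K = V at hV w1 w2
    generalize p ^ K = n at w1 w2 ⊢
    have a1 : (β + α * X) * H = β * h + X * (β * H₁ + α * H) := by
      rw [add_mul, mul_add, ← mul_assoc, ← mul_assoc, hX, hX, mul_assoc β, ← add_assoc, ← mul_add,
        ← hH]
    have a2 : H * (β + α * X) = h * β + X * (H₁ * β + H * α) := by
      rw [mul_add, mul_add, ← mul_assoc X, ← add_assoc, ← add_mul, ← hH, hX, mul_assoc]
    have b1 : jp (α + β * X) * (T' * jm H) = jm ((β + α * X) * H) := by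
      rw [← mul_assoc, ← hT', U1, map_mul]
    have b2 : T' * jm H * jp (α + β * X) = jm (H * (β + α * X)) := by
      rw [hT', mul_assoc, U1, map_mul]
    have one : (m • 1 : (cg n R).Quotient) = rd n (jp (m • 1) + T' * jm 0) := by
      rw [map_zero, mul_zero, add_zero, map_nsmul, map_nsmul, map_one, map_one]
    have two : m • rd n (T' * jm H) = rd n (jp 0 + T' * jm (m • H)) := by
      rw [map_zero, zero_add, map_nsmul, mul_smul_comm, map_nsmul]
    obtain ⟨c1, c2⟩ := or n ((α + β * X) * G + β * h) (β * H₁ + α * H) (m • 1) 0 (by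
      rw [← one, ← w1, ← map_mul, hV, mul_add, b1, a1, map_add jm (β * h), map_mul jm, map_mul jm X,
        jmX, jh, jb, map_add jp (_ * _), map_mul jp, map_mul jp β h, add_assoc])
    obtain ⟨d1, d2⟩ := or n (G * (α + β * X) + h * β) (H₁ * β + H * α) (m • 1) 0 (by
      rw [← one, ← w2, ← map_mul, hV, add_mul, b2, a2, map_add jm (h * β), map_mul jm, map_mul jm X,
        jmX, jh, jb, map_add jp (_ * _), map_mul jp, map_mul jp h β, add_assoc])
    have c3 : rd n ((β + α * X) * H) = rd n (β * h) := by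
      rw [a1, map_add, map_mul _ X, c2, map_zero, mul_zero, add_zero]
    have d3 : rd n (H * (β + α * X)) = rd n (h * β) := by
      rw [a2, map_add, map_mul _ X, d2, map_zero, mul_zero, add_zero]
    have j1 : jm (β * h) = jp (β * h) := by rw [map_mul, map_mul, jh, jb]
    have j2 : jm (h * β) = jp (h * β) := by rw [map_mul, map_mul, jh, jb]
    obtain ⟨e1, e2⟩ := or n (G * (β * h)) (H * (β * h)) 0 (m • H) (by
      rw [← two, ← one_mul (rd n (T' * jm H)), ← smul_mul_assoc, ← w2, mul_assoc, ← map_mul (rd n),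
        b1, rd_map jm c3, ← map_mul, hV, add_mul, map_mul jp G, map_mul jm H, j1, mul_assoc])
    obtain ⟨f1, f2⟩ := or n (h * β * G) (h * β * H) 0 (m • H) (by
      rw [← two, ← mul_one (rd n (T' * jm H)), ← mul_smul_comm, ← w1, ← mul_assoc,
        ← map_mul (rd n), b2, rd_map jm d3, ← map_mul, hV, mul_add, map_mul jp _ G, map_mul jm _ H,
        j2, ← mul_assoc, hT', ← mul_assoc])
    have bu : jp β * jp (α + β * X) = jp (α + β * X) * jp β := by
      rw [← map_mul, ← map_mul, mul_add, add_mul, ab, mul_assoc, hX]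
    obtain ⟨-, g2⟩ := or n (m • (β * G)) (m • (β * H)) (m • (G * β)) (m • (H * β)) (by
      have k1 : jp (m • (β * G)) + T' * jm (m • (β * H)) = m • (jp β * V) := by
        rw [hV, map_nsmul, map_nsmul, mul_smul_comm, ← smul_add, map_mul, map_mul, jb, mul_add,
          ← mul_assoc, hT', mul_assoc]
      have k2 : jp (m • (G * β)) + T' * jm (m • (H * β)) = m • (V * jp β) := by
        rw [hV, map_nsmul, map_nsmul, mul_smul_comm, ← smul_add, map_mul, map_mul, jb, add_mul,
          mul_assoc]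
      rw [k1, k2, map_nsmul, map_nsmul, ← one_mul (rd n (jp β * V)), ← smul_mul_assoc, ← w2,
        ← mul_one (rd n (V * jp β)), ← mul_smul_comm, ← w1, map_mul (rd n) _ V,
        map_mul (rd n) V, mul_assoc, mul_assoc, ← mul_assoc _ (rd n (jp β)), ← map_mul (rd n),
        ← bu, map_mul (rd n), mul_assoc])
    rw [map_add, map_nsmul, map_one, map_mul] at c1 d1
    rw [map_nsmul, map_mul] at e2 f2
    rw [map_zero, map_mul] at e1 f1
    rw [map_mul] at c3 d3
    rw [map_nsmul, map_nsmul, map_mul, map_mul] at g2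
    exact ⟨eq_sub_of_add_eq c1, eq_sub_of_add_eq d1, c3, d3, e1, e2, f1, f2, g2⟩
  have ex : ∀ y z : M, (∀ K, rd (p ^ K) (c y) = rd (p ^ K) (c z)) → y = z := fun y z h =>
    sub_eq_zero.1 (hM.sep _ fun K => rd_eq.1 (by simpa only [ec] using rd_map e (h K)))
  have bw : β * (β + α * X) = (β + α * X) * β := by
    rw [mul_add, add_mul, ← mul_assoc, ← ab, mul_assoc, mul_assoc, hX]
  refine ⟨x, ex _ _ fun K => ?_, HIG2a.tf_pow hM (t + t) (hm ▸ ex _ _ fun K => ?_), fun K => ?_⟩
  · obtain ⟨-, -, k3, -, -, k6, -⟩ := key K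
    rw [map_mul, map_mul, map_nsmul, map_nsmul]
    nth_rw 1 [← k3]
    rw [mul_assoc, k6, mul_smul_comm, k3]
  · obtain ⟨-, -, k3, -, -, -, -, -, k9⟩ := key K
    rw [map_nsmul, map_nsmul, map_nsmul, map_nsmul, map_mul, map_mul, map_mul, map_mul, ← k3, ← hβ,
      mul_assoc, ← mul_smul_comm, ← k9, mul_smul_comm, ← mul_assoc, ← map_mul, ← bw, map_mul,
      mul_assoc]
  · obtain ⟨k1, k2, k3, k4, k5, k6, k7, k8, k9⟩ := key K
    refine ⟨_, _, _, k1, k2, k3, k4, k5, k6, k7, k8, ?_⟩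
    have k0 : rd (p ^ K) X * rd (p ^ K) (H K) = rd (p ^ K) (H K) * rd (p ^ K) X := by
      rw [← map_mul, hX, map_mul]
    rw [← k3, ← k4, hα, map_sub, map_nsmul, map_one, ← hβ, map_add, map_mul, map_sub, map_nsmul,
      map_one]
    linear_combination (norm := (simp only [mul_add, add_mul, mul_sub, sub_mul, mul_smul_comm,
      smul_mul_assoc, mul_one, one_mul, mul_assoc]; module))
      k9 + (m * q) • k0 - m • rd (p ^ K) β * k0 - k9 * rd (p ^ K) X

variable {A : Type u} [Ring A]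

theorem incNeg_mon (n : ℕ) (r : A) : incNeg A (Polynomial.monomial n r) = C r * T (-n) := by
  rw [← Polynomial.C_mul_X_pow_eq_monomial, map_mul, map_pow, incNeg_C, incNeg_X, T_pow, mul_neg,
    mul_one]

theorem dec (f : LaurentPolynomial A) : ∃ g h, f = incPos A g + T (-1) * incNeg A h := by
  induction f using LaurentPolynomial.induction_on' with
  | add f f' h h' =>
    obtain ⟨g, k, rfl⟩ := h
    obtain ⟨g', k', rfl⟩ := h'
    exact ⟨g + g', k + k', by rw [map_add, map_add, mul_add, add_add_add_comm]⟩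
  | C_mul_T n r =>
    rcases n with n | n
    · exact ⟨Polynomial.monomial n r, 0, by
        rw [map_zero, mul_zero, add_zero]; exact (Polynomial.toLaurent_C_mul_T n r).symm⟩
    · refine ⟨0, Polynomial.monomial n r, ?_⟩
      rw [map_zero, zero_add, incNeg_mon, (commute_T _ _).eq, mul_assoc, ← T_add, Int.negSucc_eq]
      congr 2
      ring

theorem trunc_neg (h : Polynomial A) : trunc (T (-1) * incNeg A h) = 0 := by
  induction h using Polynomial.induction_on' with
  | add f f' h h' => rw [map_add, mul_add, map_add, h, h', add_zero]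
  | monomial n r =>
    rw [incNeg_mon, (commute_T _ _).eq, mul_assoc, ← T_add, trunc_C_mul_T, if_neg (by omega)]

theorem trunc_neg' (h : Polynomial A) : trunc (AddMonoidAlgebra.mapDomainRingHom A
    (negAddMonoidHom : ℤ →+ ℤ) (incNeg A h)) = h := by
  induction h using Polynomial.induction_on' with
  | add f f' h h' => rw [map_add, map_add, map_add, h, h']
  | monomial n r =>
    rw [incNeg_mon, ← single_eq_C_mul_T]
    change trunc (AddMonoidAlgebra.mapDomain _ _) = _
    rw [AddMonoidAlgebra.mapDomain_single, single_eq_C_mul_T, trunc_C_mul_T]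
    simp

theorem orth (n : ℕ) (g h : Polynomial A) (z : LaurentPolynomial A)
    (k : incPos A g + T (-1) * incNeg A h = n • z) : (∃ z, g = n • z) ∧ ∃ z, h = n • z := by
  have k1 : g = n • trunc z := by
    rw [← map_nsmul, ← k, map_add, trunc_neg, add_zero]
    exact (Polynomial.trunc_toLaurent g).symm
  refine ⟨⟨_, k1⟩, trunc (AddMonoidAlgebra.mapDomainRingHom A (negAddMonoidHom : ℤ →+ ℤ)
    (T 1 * (z - incPos A (trunc z)))), ?_⟩
  rw [← map_nsmul, ← map_nsmul, ← mul_smul_comm, smul_sub, ← map_nsmul, ← k1, ← k,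
    add_sub_cancel_left, ← mul_assoc, ← T_add, add_neg_cancel, T_zero, one_mul, trunc_neg']

end HIG2b

open HIG2b in
theorem stHIG2b : St_HIG2b.{u} := by
  intro p A _ hc ι _ _ s b ⟨t, a, k, k', h1, h2⟩
  let c : Matrix ι ι A →+* Matrix ι ι (Polynomial A) := (Polynomial.C).mapMatrix
  let jp : Matrix ι ι (Polynomial A) →+* _ := (incPos A).mapMatrix
  let jm : Matrix ι ι (Polynomial A) →+* _ := (incNeg A).mapMatrix
  let X : Matrix ι ι (Polynomial A) := scalar ι Polynomial.X
  let τ : ℤ → Matrix ι ι (LaurentPolynomial A) := fun n => scalar ι (T n)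
  have hX : ∀ a, X * a = a * X := scalar_comm _ fun r => Polynomial.commute_X r
  have hτ : ∀ n a, τ n * a = a * τ n := fun n => scalar_comm _ (commute_T n)
  have TT : τ 1 * τ (-1) = 1 := by
    simp only [τ]
    rw [← map_mul, ← T_add, add_neg_cancel, T_zero, map_one]
  have jpX : jp X = τ 1 := by
    ext1 i j
    simp only [jp, X, τ, RingHom.mapMatrix_apply, map_apply, scalar_apply, diagonal_apply]
    split_ifs
    exacts [incPos_X, map_zero _]
  have jmX : jm X = τ (-1) := by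
    ext1 i j
    simp only [jm, X, τ, RingHom.mapMatrix_apply, map_apply, scalar_apply, diagonal_apply]
    split_ifs
    exacts [incNeg_X, map_zero _]
  have jc : ∀ a, jm (c a) = jp (c a) := fun a => Matrix.ext fun i j =>
    (incNeg_C _).trans (incPos_C _).symm
  have τm : ∀ n (a : Matrix ι ι (LaurentPolynomial A)) i j, (τ n * a) i j = T n * a i j :=
    fun n a i j => diagonal_mul _ _ _ _
  have uM : ∀ (m : ℕ) x, uMat m x = jp (c (m • 1 - x) + c x * X) := fun m x => by
    rw [uMat, map_sub, map_nsmul, map_one, map_add, map_sub, map_nsmul, map_one, map_mul, jpX,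
      sub_add, sub_eq_add_neg (m • 1) (_ - _), neg_sub]
    congr 1
    ext1 i j
    rw [Matrix.sub_apply, ← hτ, τm, (commute_T _ _).eq, map_apply, mul_sub, mul_one]
    exact congrArg₂ (fun a b => a * T 1 - b) (incPos_C _).symm (incPos_C _).symm
  rw [uM] at h1 h2
  obtain ⟨x, x1, x2, HH⟩ := main (HIG2a.pcompl_matrix hc ι) c
    (Polynomial.constantCoeff (R := A)).mapMatrix jp jm X (τ 1) (τ (-1))
    (fun a => Matrix.ext fun i j => by simp [c]) hX (hτ _) TT jpX jmX jc
    (fun H => ⟨H.map Polynomial.divX, Matrix.ext fun i j => by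
      rw [Matrix.add_apply, show (X * H.map Polynomial.divX) i j = _ from diagonal_mul _ _ _ _,
        add_comm]
      exact (Polynomial.X_mul_divX_add _).symm⟩)
    (fun V => by
      choose g h e using fun i j => dec (V i j)
      exact ⟨Matrix.of g, Matrix.of h, Matrix.ext fun i j => by
        rw [Matrix.add_apply, τm]; exact e i j⟩)
    (fun n G H z e => by
      have e' := fun i j => orth n (G i j) (H i j) (z i j) (by
        have := congrFun (congrFun e i) j
        rwa [Matrix.add_apply, τm] at this)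
      choose g hg using fun i j => (e' i j).1
      choose h hh using fun i j => (e' i j).2
      exact ⟨⟨Matrix.of g, Matrix.ext hg⟩, Matrix.of h, Matrix.ext hh⟩)
    (p ^ s) t b a k k' h1 h2
  obtain ⟨G, H, y, k1, k2, k3, k4, k5, k6, k7, k8, k9⟩ := HH (s + (t + t) * 3 + 1)
  clear HH h1 h2
  have xx : c x * c x = p ^ (t + t) • c x := by rw [← map_mul, x1, map_nsmul]
  have xb : c x * c b = c b * c x := by rw [← map_mul, x2, map_mul]
  have xa : c x * c (p ^ s • 1 - b) = c (p ^ s • 1 - b) * c x := by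
    rw [← map_mul, mul_sub, x2, mul_smul_comm, mul_one, ← map_mul, sub_mul, smul_mul_assoc, one_mul]
  have xu : c x * (c (p ^ s • 1 - b) + c b * X) = (c (p ^ s • 1 - b) + c b * X) * c x := by
    rw [mul_add, add_mul, xa, ← mul_assoc, xb, mul_assoc, mul_assoc, hX]
  have xw : c x * (c b + c (p ^ s • 1 - b) * X) = (c b + c (p ^ s • 1 - b) * X) * c x := by
    rw [mul_add, add_mul, xb, ← mul_assoc, xa, mul_assoc, mul_assoc, hX]
  have U1 : τ 1 * jm (c b + c (p ^ s • 1 - b) * X) = jp (c (p ^ s • 1 - b) + c b * X) := by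
    rw [map_add, map_add, map_mul, map_mul, jpX, jmX, jc, jc, mul_add, ← hτ (-1), ← mul_assoc, TT,
      one_mul, hτ, add_comm]
  rw [uM (p ^ s)]
  generalize c (p ^ s • 1 - b) + c b * X = u at *
  generalize c b + c (p ^ s • 1 - b) * X = w at *
  obtain ⟨a1, a2, a3, a4⟩ := alg (p ^ (t + t)) (p ^ s) _ _ _ _ _ _
    (by rw [← map_mul, xx, map_nsmul]) (by rw [← map_mul, xu, map_mul])
    (by rw [← map_mul, xw, map_mul]) k1 k2 k3 k4 k5 k6 k7 k8 k9
  rw [← pow_mul, ← pow_add] at a1 a2 a3 a4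
  have P : ∀ a a' : Matrix ι ι (Polynomial A),
      rd (p ^ (s + (t + t) * 3 + 1)) a * rd _ a' = p ^ (s + (t + t) * 3) • 1 →
      rd (p ^ (s + (t + t) * 3 + 1)) a' * rd _ a = p ^ (s + (t + t) * 3) • 1 → PInv p a :=
    fun a a' e e' => let ⟨z, hz⟩ := pinv e; let ⟨z', hz'⟩ := pinv e'; ⟨_, a', z, z', hz, hz'⟩
  refine ⟨t + t, s + (t + t) * 3, x, u * (p ^ (t + t) • 1 - c x) + p ^ s • c x,
    p ^ s • (p ^ (t + t) • 1 - c x) + w * c x, x1,
    P _ (p ^ (t + t) • (p ^ s • G + c x)) ?_ ?_,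
    P _ (p ^ (t + t) • (p ^ (t + t) • 1 - c x + p ^ s • H)) ?_ ?_, ?_⟩
  · simpa only [map_add, map_mul, map_sub, map_nsmul, map_one] using a1
  · simpa only [map_add, map_mul, map_sub, map_nsmul, map_one] using a2
  · simpa only [map_add, map_mul, map_sub, map_nsmul, map_one] using a3
  · simpa only [map_add, map_mul, map_sub, map_nsmul, map_one] using a4
  · have y1 : jp (c x) * jp (c x) = p ^ (t + t) • jp (c x) := by rw [← map_mul, xx, map_nsmul]
    have y2 : jp (c x) * jp u = jp u * jp (c x) := by rw [← map_mul, xu, map_mul]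
    have y3 : jp (c x) * jm w = jm w * jp (c x) := by rw [← jc, ← map_mul, xw, map_mul]
    have y4 := hτ 1 (jp (c x))
    change _ = _ * jm _ * jp _
    rw [uM, pow_add p s, pow_mul]
    simp only [map_add, map_mul, map_sub, map_nsmul, map_one, jc, jpX]
    generalize jp (c x) = e at *
    generalize p ^ (t + t) = m at *
    generalize p ^ s = q at *
    have z1 : (m • 1 - e + e * τ 1) * (q • (m • 1 - e) + jm w * e) =
        m • (q • (m • 1 - e) + jp u * e) := by
      linear_combination (norm := (simp only [mul_add, add_mul, mul_sub, sub_mul, mul_smul_comm,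
        smul_mul_assoc, mul_one, one_mul, mul_assoc]; module))
        q • y1 - y3 * e - jm w * y1 + q • y4 * e - (q * m) • y4 - q • τ 1 * y1 + e * U1 * e +
          y2 * e + jp u * y1
    rw [z1]
    linear_combination (norm := (simp only [mul_add, add_mul, mul_sub, sub_mul, mul_smul_comm,
      smul_mul_assoc, mul_one, one_mul, mul_assoc]; module))
      (m * q) • y2 * (m • 1 - e) - (m * q) • jp u * y1 + (m * q * q) • y1 -
        m • jp u * y2 * (m • 1 - e) + m • jp u * jp u * y1 - (m * q) • jp u * y1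

end Pool.Agent.Lib.KM1
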