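import Pool.Agent.Lib.KM1.Blue

/-! Block IDX: the residue is the trace of a virtual idempotent. -/

namespace Pool.Agent.Lib.KM1.IDX

open Matrix LaurentPolynomial

universe u

variable {A : Type u} [Ring A]

/-- Right `A`-linear endomorphisms of the Laurent ring. -/
abbrev En (A : Type u) [Ring A] : Type u := Module.End Aᵐᵒᵖ (LaurentPolynomial A)

/-- Left multiplication. -/
noncomputable def lm : LaurentPolynomial A →+* En A :=
  Module.toModuleEnd Aᵐᵒᵖ (LaurentPolynomial A)

theorem lm_apply (f x : LaurentPolynomial A) : lm f x = f * x := rfl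

/-- Truncation to degrees `≥ k`. -/
noncomputable def pr (k : ℤ) : En A where
  toFun x := AddMonoidAlgebra.ofCoeff (x.coeff.filter (fun n => k ≤ n))
  map_add' x y := by
    apply LaurentPolynomial.ext
    intro n
    simp only [AddMonoidAlgebra.coeff_add, Finsupp.filter_apply, Finsupp.add_apply]
    split_ifs <;> simp
  map_smul' c x := by
    apply LaurentPolynomial.ext
    intro n
    simp only [AddMonoidAlgebra.coeff_smul, Finsupp.filter_apply, Finsupp.smul_apply,
      RingHom.id_apply]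
    split_ifs <;> simp

theorem pr_coeff (k : ℤ) (x : LaurentPolynomial A) (n : ℤ) :
    (pr k x).coeff n = if k ≤ n then x.coeff n else 0 :=
  Finsupp.filter_apply _ _ _

theorem coeff_mul' (f x : LaurentPolynomial A) (n : ℤ) :
    (f * x).coeff n = ∑ j ∈ f.coeff.support, f.coeff j * x.coeff (-j + n) :=
  AddMonoidAlgebra.coeff_mul_apply_left f x n

theorem pr_lm_pr_lo {f : LaurentPolynomial A} {d k l : ℤ} (hf : ∀ n, n < d → f.coeff n = 0)
    (h : l ≤ k + d) : pr l * lm f * pr k = lm f * pr k := by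
  refine LinearMap.ext fun x => LaurentPolynomial.ext fun n => ?_
  simp only [Module.End.mul_apply, lm_apply, pr_coeff]
  split_ifs with hn
  · rfl
  · rw [coeff_mul']
    refine (Finset.sum_eq_zero fun j _ => ?_).symm
    rw [pr_coeff]
    split_ifs with hj
    · rw [hf j (by omega), zero_mul]
    · rw [mul_zero]

theorem pr_lm_pr_hi {f : LaurentPolynomial A} {d k l : ℤ} (hf : ∀ n, d < n → f.coeff n = 0)
    (h : l + d ≤ k) : pr k * lm f * pr l = pr k * lm f := by
  refine LinearMap.ext fun x => LaurentPolynomial.ext fun n => ?_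
  simp only [Module.End.mul_apply, lm_apply, pr_coeff]
  split_ifs with hn
  · rw [coeff_mul', coeff_mul']
    refine Finset.sum_congr rfl fun j _ => ?_
    rw [pr_coeff]
    split_ifs with hj
    · rfl
    · rw [hf j (by omega), zero_mul, zero_mul]
  · rfl

/-- The diagonal truncation matrix. -/
noncomputable def dg (A : Type u) [Ring A] (ι : Type) [DecidableEq ι] (k : ℤ) :
    Matrix ι ι (En A) :=
  diagonal (fun _ => pr k)

section
variable {ι κ : Type} [Fintype ι] [Fintype κ] [DecidableEq ι] [DecidableEq κ]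

theorem dg_lo {f : Matrix ι κ (LaurentPolynomial A)} {d k l : ℤ}
    (hf : ∀ i j n, n < d → (f i j).coeff n = 0) (h : l ≤ k + d) :
    dg A ι l * f.map lm * dg A κ k = f.map lm * dg A κ k := by
  ext1 i j
  simp only [dg, Matrix.mul_diagonal, Matrix.diagonal_mul, Matrix.map_apply]
  exact pr_lm_pr_lo (hf i j) h

theorem dg_hi {f : Matrix ι κ (LaurentPolynomial A)} {d k l : ℤ}
    (hf : ∀ i j n, d < n → (f i j).coeff n = 0) (h : l + d ≤ k) :
    dg A ι k * f.map lm * dg A κ l = dg A ι k * f.map lm := by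
  ext1 i j
  simp only [dg, Matrix.mul_diagonal, Matrix.diagonal_mul, Matrix.map_apply]
  exact pr_lm_pr_hi (hf i j) h

omit [DecidableEq ι] [DecidableEq κ] in
theorem bound (f : Matrix ι κ (LaurentPolynomial A)) :
    ∃ d : ℕ, ∀ i j n, d < n.natAbs → (f i j).coeff n = 0 := by
  refine ⟨Finset.univ.sup (fun p : ι × κ => (f p.1 p.2).coeff.support.sup Int.natAbs), ?_⟩
  intro i j n hn
  by_contra h0
  have h1 : n.natAbs ≤ (f i j).coeff.support.sup Int.natAbs :=
    Finset.le_sup (f := Int.natAbs) (Finsupp.mem_support_iff.2 h0)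
  have h2 : (f i j).coeff.support.sup Int.natAbs ≤
      Finset.univ.sup (fun p : ι × κ => (f p.1 p.2).coeff.support.sup Int.natAbs) :=
    Finset.le_sup (f := fun p : ι × κ => (f p.1 p.2).coeff.support.sup Int.natAbs)
      (Finset.mem_univ (i, j))
  omega

end

theorem incPos_monomial (n : ℕ) (r : A) :
    incPos A (Polynomial.monomial n r) = AddMonoidAlgebra.single (n : ℤ) r := by
  rw [single_eq_C_mul_T, ← Polynomial.C_mul_X_pow_eq_monomial, map_mul, map_pow, incPos_C,
    incPos_X, T_pow, mul_one]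

theorem incNeg_monomial (n : ℕ) (r : A) :
    incNeg A (Polynomial.monomial n r) = AddMonoidAlgebra.single (-(n : ℤ)) r := by
  rw [single_eq_C_mul_T, ← Polynomial.C_mul_X_pow_eq_monomial, map_mul, map_pow, incNeg_C,
    incNeg_X, T_pow, mul_neg, mul_one]

theorem incPos_neg (f : Polynomial A) (n : ℤ) (hn : n < 0) : (incPos A f).coeff n = 0 := by
  induction f using Polynomial.induction_on' with
  | add p q hp hq => simp [hp, hq]
  | monomial m r =>
    rw [incPos_monomial, AddMonoidAlgebra.coeff_single, Finsupp.single_apply, if_neg (by omega)]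

theorem incNeg_pos (f : Polynomial A) (n : ℤ) (hn : 0 < n) : (incNeg A f).coeff n = 0 := by
  induction f using Polynomial.induction_on' with
  | add p q hp hq => simp [hp, hq]
  | monomial m r =>
    rw [incNeg_monomial, AddMonoidAlgebra.coeff_single, Finsupp.single_apply, if_neg (by omega)]

theorem incPos_zero (f : Polynomial A) : (incPos A f).coeff 0 = f.coeff 0 := by
  induction f using Polynomial.induction_on' with
  | add p q hp hq => simp [hp, hq]
  | monomial m r =>
    rw [incPos_monomial, AddMonoidAlgebra.coeff_single, Finsupp.single_apply,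
      Polynomial.coeff_monomial]
    simp

theorem coeff_mul_T (f : LaurentPolynomial A) (m n : ℤ) :
    (f * T m).coeff n = f.coeff (n - m) := by
  have := AddMonoidAlgebra.coeff_mul_single_apply f (1 : A) m n
  rw [mul_one, ← sub_eq_add_neg] at this
  exact this

theorem window (N : ℕ) (y : LaurentPolynomial A) (h0 : pr 0 y = y) (hN : pr N y = 0) :
    y = ∑ p : Fin N, MulOpposite.op (y.coeff ((p : ℕ) : ℤ)) • (T ((p : ℕ) : ℤ) : LaurentPolynomial A) := by
  apply LaurentPolynomial.ext
  intro n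
  rw [AddMonoidAlgebra.coeff_sum, Finsupp.finsetSum_apply]
  simp only [AddMonoidAlgebra.coeff_smul, Finsupp.smul_apply, T_apply, smul_ite, smul_zero,
    MulOpposite.smul_eq_mul_unop, MulOpposite.unop_op, one_mul]
  by_cases h1 : 0 ≤ n ∧ n < N
  · rw [Finset.sum_eq_single (⟨n.toNat, by omega⟩ : Fin N)]
    · have : ((n.toNat : ℕ) : ℤ) = n := by omega
      simp [this]
    · intro p _ hp
      rw [if_neg]
      intro h
      apply hp
      apply Fin.ext
      simp only
      omega
    · simp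
  · rw [Finset.sum_eq_zero]
    · by_cases h2 : 0 ≤ n
      · have := congrArg (fun w => w.coeff n) hN
        simp only [pr_coeff] at this
        rw [if_pos (by omega)] at this
        simpa using this
      · rw [← h0, pr_coeff, if_neg h2]
    · intro p _
      rw [if_neg]
      have := p.2
      omega

theorem count (N : ℕ) (t : ℤ) (h0 : 0 ≤ t) (hN : t ≤ N) (c : A) :
    ∑ m : Fin N, (if t ≤ ((m : ℕ) : ℤ) then c else 0) = ((N : ℤ) - t) • c := by
  obtain ⟨s, rfl⟩ := Int.eq_ofNat_of_zero_le h0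
  have hs : s ≤ N := by omega
  rw [Fin.sum_univ_eq_sum_range (fun m => if (s : ℤ) ≤ ((m : ℕ) : ℤ) then c else 0) N,
    ← Finset.sum_filter, Finset.sum_const]
  have : (Finset.range N).filter (fun m : ℕ => (s : ℤ) ≤ (m : ℤ)) = Finset.Ico s N := by
    ext m
    simp only [Finset.mem_filter, Finset.mem_range, Finset.mem_Ico]
    omega
  rw [this, Nat.card_Ico, ← natCast_zsmul, Nat.cast_sub hs]

theorem diag_sum (d : ℕ) (f g : LaurentPolynomial A) (hf : ∀ n : ℤ, d < n.natAbs → f.coeff n = 0) :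
    ∑ m : Fin (2 * d), ((lm f * pr d * lm g : En A) (T ((m : ℕ) : ℤ))).coeff ((m : ℕ) : ℤ) =
      d • (f * g).coeff 0 - res2 f g := by
  simp only [Module.End.mul_apply, lm_apply, coeff_mul' f, pr_coeff, coeff_mul_T]
  rw [Finset.sum_comm, res2, Finsupp.sum, Finset.smul_sum, ← Finset.sum_sub_distrib]
  refine Finset.sum_congr rfl fun j hj => ?_
  have hj' : j.natAbs ≤ d := by
    by_contra h
    exact Finsupp.mem_support_iff.1 hj (hf j (by omega))
  have h1 : ∀ m : Fin (2 * d), (f.coeff j * if (d : ℤ) ≤ -j + ((m : ℕ) : ℤ) then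
      g.coeff (-j + ((m : ℕ) : ℤ) - ((m : ℕ) : ℤ)) else 0) =
      if (d : ℤ) + j ≤ ((m : ℕ) : ℤ) then f.coeff j * g.coeff (-j) else 0 := by
    intro m
    rw [add_sub_cancel_right]
    by_cases h : (d : ℤ) + j ≤ ((m : ℕ) : ℤ)
    · rw [if_pos h, if_pos (by omega)]
    · rw [if_neg h, if_neg (by omega), mul_zero]
  rw [Finset.sum_congr rfl (fun m _ => h1 m), count _ _ (by omega) (by omega), add_zero,
    ← natCast_zsmul, ← sub_smul]
  congr 1
  push_cast
  ring

theorem finite_idem {ι : Type} [Fintype ι] [DecidableEq ι] (N : ℕ) (Z : Matrix ι ι (En A))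
    (hZ : Z * Z = Z) (h0 : dg A ι 0 * Z = Z) (hN : dg A ι N * Z = 0) :
    ∃ z : Matrix (ι × Fin N) (ι × Fin N) A, z * z = z ∧
      z.trace = ∑ i, ∑ m : Fin N, (Z i i (T ((m : ℕ) : ℤ))).coeff ((m : ℕ) : ℤ) := by
  refine ⟨Matrix.of fun x y => (Z x.1 y.1 (T ((y.2 : ℕ) : ℤ))).coeff ((x.2 : ℕ) : ℤ), ?_, ?_⟩
  · ext ⟨i, m⟩ ⟨j, n⟩
    rw [Matrix.mul_apply, Fintype.sum_prod_type]
    simp only [Matrix.of_apply]
    conv_rhs => rw [← hZ, Matrix.mul_apply, LinearMap.sum_apply, AddMonoidAlgebra.coeff_sum,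
      Finsupp.finsetSum_apply]
    refine Finset.sum_congr rfl fun l _ => ?_
    have e0 : pr 0 (Z l j (T ((n : ℕ) : ℤ))) = Z l j (T ((n : ℕ) : ℤ)) := by
      have := congrFun (congrFun h0 l) j
      rw [dg, Matrix.diagonal_mul] at this
      exact LinearMap.congr_fun this _
    have eN : pr N (Z l j (T ((n : ℕ) : ℤ))) = 0 := by
      have := congrFun (congrFun hN l) j
      rw [dg, Matrix.diagonal_mul] at this
      exact LinearMap.congr_fun this _
    rw [Module.End.mul_apply]
    conv_rhs => rw [window N _ e0 eN, map_sum, AddMonoidAlgebra.coeff_sum,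
      Finsupp.finsetSum_apply]
    refine Finset.sum_congr rfl fun p _ => ?_
    rw [map_smul, AddMonoidAlgebra.coeff_smul, Finsupp.smul_apply, MulOpposite.smul_eq_mul_unop,
      MulOpposite.unop_op]
  · rw [Matrix.trace, Fintype.sum_prod_type]
    rfl

end Pool.Agent.Lib.KM1.IDX

namespace Pool.Agent.Lib.KM1

open Matrix LaurentPolynomial IDX

universe u

theorem stIDX : St_IDX.{u} := by
  intro A _ ι κ _ _ q q' b a hq _ hba hab hqb haq
  classical
  obtain ⟨d₁, h₁⟩ := bound b
  obtain ⟨d₂, h₂⟩ := bound a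
  obtain ⟨d₃, h₃⟩ := bound (q.map (incPos A))
  obtain ⟨d, hd₁, hd₂, hd₃⟩ : ∃ d : ℕ, d₁ ≤ d ∧ d₂ ≤ d ∧ d₃ ≤ d :=
    ⟨d₁ + d₂ + d₃, by omega, by omega, by omega⟩
  set Q : Matrix ι ι (En A) := (q.map (incPos A)).map lm with hQ
  set Q' : Matrix κ κ (En A) := (q'.map (incNeg A)).map lm with hQ'
  set B : Matrix ι κ (En A) := b.map lm with hB
  set B' : Matrix κ ι (En A) := a.map lm with hB'
  have eQQ : Q * Q = Q := by rw [hQ, ← Matrix.map_mul, ← Matrix.map_mul, hq]
  have eBA : B * B' = Q := by rw [hB, hB', ← Matrix.map_mul, hba]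
  have eAB : B' * B = Q' := by rw [hB, hB', ← Matrix.map_mul, hab]
  have eQB : Q * B = B := by rw [hB, hQ, ← Matrix.map_mul, hqb]
  have eAQ : B' * Q = B' := by rw [hB', hQ, ← Matrix.map_mul, haq]
  have k1 : dg A ι 0 * Q * dg A ι 0 = Q * dg A ι 0 :=
    dg_lo (d := 0) (fun i j n hn => incPos_neg _ n hn) (by omega)
  have k2 : dg A ι 0 * B * dg A κ d = B * dg A κ d :=
    dg_lo (d := -(d : ℤ)) (fun i j n hn => h₁ i j n (by omega)) (by omega)
  have k3 : dg A κ d * B' * dg A ι 0 = dg A κ d * B' :=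
    dg_hi (d := d) (fun i j n hn => h₂ i j n (by omega)) (by omega)
  have k4 : dg A κ d * Q' * dg A κ d = dg A κ d * Q' :=
    dg_hi (d := 0) (fun i j n hn => incNeg_pos _ n hn) (by omega)
  have k5 : dg A ι ((2 * d : ℕ) : ℤ) * Q * dg A ι 0 = dg A ι ((2 * d : ℕ) : ℤ) * Q :=
    dg_hi (d := d) (fun i j n hn => h₃ i j n (by omega)) (by omega)
  have k6 : dg A ι ((2 * d : ℕ) : ℤ) * B * dg A κ d = dg A ι ((2 * d : ℕ) : ℤ) * B :=
    dg_hi (d := d) (fun i j n hn => h₁ i j n (by omega)) (by omega)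
  have m1 : Q * dg A ι 0 * (Q * dg A ι 0) = Q * dg A ι 0 := by
    rw [Matrix.mul_assoc, ← Matrix.mul_assoc (dg A ι 0), k1, ← Matrix.mul_assoc, eQQ]
  have m2 : Q * dg A ι 0 * (B * dg A κ d * B') = B * dg A κ d * B' := by
    rw [Matrix.mul_assoc, ← Matrix.mul_assoc (dg A ι 0), ← Matrix.mul_assoc (dg A ι 0), k2,
      ← Matrix.mul_assoc, ← Matrix.mul_assoc, eQB]
  have m3 : B * dg A κ d * B' * (Q * dg A ι 0) = B * dg A κ d * B' := by
    rw [← Matrix.mul_assoc, Matrix.mul_assoc _ B' Q, eAQ, Matrix.mul_assoc B, Matrix.mul_assoc B,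
      k3]
  have m4 : B * dg A κ d * B' * (B * dg A κ d * B') = B * dg A κ d * B' := by
    have : Q' * B' = B' := by rw [← eAB, Matrix.mul_assoc, eBA, eAQ]
    calc B * dg A κ d * B' * (B * dg A κ d * B') = B * (dg A κ d * (B' * B) * dg A κ d) * B' := by
          simp only [Matrix.mul_assoc]
      _ = B * dg A κ d * B' := by
          rw [eAB, k4, Matrix.mul_assoc, Matrix.mul_assoc, this, Matrix.mul_assoc]
  obtain ⟨z, hz, htr⟩ := finite_idem (2 * d) (Q * dg A ι 0 - B * dg A κ d * B')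
    (by rw [Matrix.mul_sub, Matrix.sub_mul, Matrix.sub_mul, m1, m2, m3, m4, sub_self, sub_zero])
    (by rw [Matrix.mul_sub, ← Matrix.mul_assoc, k1, ← Matrix.mul_assoc, ← Matrix.mul_assoc, k2])
    (by rw [Matrix.mul_sub, ← Matrix.mul_assoc, k5, ← Matrix.mul_assoc, ← Matrix.mul_assoc, k6,
      Matrix.mul_assoc _ B, eBA, sub_self])
  refine ⟨ι × Fin (2 * d), inferInstance, z, d, hz, ?_⟩
  rw [htr, Matrix.trace, Finset.smul_sum, lres, ← Finset.sum_add_distrib]
  refine Finset.sum_congr rfl fun i _ => ?_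
  have t1 : ∀ m : Fin (2 * d), (((Q * dg A ι 0 - B * dg A κ d * B') i i)
      (T ((m : ℕ) : ℤ))).coeff ((m : ℕ) : ℤ) = (q i i).coeff 0 -
      ∑ l, ((lm (b i l) * pr d * lm (a l i) : En A) (T ((m : ℕ) : ℤ))).coeff ((m : ℕ) : ℤ) := by
    intro m
    rw [Matrix.sub_apply, LinearMap.sub_apply, AddMonoidAlgebra.coeff_sub, Finsupp.sub_apply]
    congr 1
    · have : pr 0 (T ((m : ℕ) : ℤ) : LaurentPolynomial A) = T ((m : ℕ) : ℤ) := by
        apply LaurentPolynomial.ext
        intro n
        rw [pr_coeff, T_apply]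
        split_ifs with h h' h'
        · rfl
        · rfl
        · omega
        · rfl
      rw [dg, Matrix.mul_diagonal, Module.End.mul_apply, this, hQ, Matrix.map_apply,
        Matrix.map_apply, lm_apply, coeff_mul_T, sub_self, incPos_zero]
    · rw [Matrix.mul_apply, LinearMap.sum_apply, AddMonoidAlgebra.coeff_sum,
        Finsupp.finsetSum_apply]
      refine Finset.sum_congr rfl fun l _ => ?_
      rw [dg, Matrix.mul_diagonal]
      rfl
  have t2 : ∑ l, (b i l * a l i).coeff 0 = (q i i).coeff 0 := by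
    rw [← incPos_zero, ← Finsupp.finsetSum_apply, ← AddMonoidAlgebra.coeff_sum,
      ← Matrix.mul_apply, hba, Matrix.map_apply]
  rw [Finset.sum_congr rfl (fun m _ => t1 m), Finset.sum_sub_distrib, Finset.sum_comm,
    Finset.sum_congr rfl (fun l _ => diag_sum d (b i l) (a l i)
      (fun n hn => h₁ i l n (by omega))),
    Finset.sum_sub_distrib, ← Finset.smul_sum, t2, Finset.sum_const, Finset.card_univ,
    Fintype.card_fin, Matrix.diag_apply, Matrix.map_apply, two_mul, add_nsmul]
  abel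

end Pool.Agent.Lib.KM1
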