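import Pool.Agent.Lib.KM1.Blue

/-! Existence, uniqueness and naturality of representing lattices. -/

set_option linter.unusedSectionVars false

namespace Pool.Agent.Lib.KM1

open Matrix

universe u

namespace LAT1

variable {S S' : Type u} [Ring S] [Ring S'] {p : ℕ} {φ : S →+* S'} {α β ι κ μ : Type} [Fintype ι]
  [DecidableEq ι] [Fintype κ] [Fintype μ]

theorem canc (tf : ∀ x : S, p • x = 0 → x = 0) (K : ℕ) {M N : Matrix α β S}
    (h : p ^ K • M = p ^ K • N) : M = N := by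
  induction K with
  | zero => simpa using h
  | succ K ih =>
    refine ih (Matrix.ext fun i j => sub_eq_zero.1 (tf _ ?_))
    rw [pow_succ', mul_smul, mul_smul] at h
    rw [smul_sub]
    exact sub_eq_zero.2 (congrFun (congrFun h i) j)

theorem dense (H : AnIso p φ) (y : Matrix α β S') (K : ℕ) :
    ∃ (x : Matrix α β S) (z : Matrix α β S'), y = x.map φ + p ^ K • z := by
  choose x z h using fun i j => H.dense (y i j) K
  exact ⟨of x, of z, Matrix.ext h⟩

theorem pure (H : AnIso p φ) {x : Matrix α β S} {K : ℕ} {z : Matrix α β S'}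
    (h : x.map φ = p ^ K • z) : ∃ x' : Matrix α β S, x = p ^ K • x' := by
  choose x' h' using fun i j => H.pure (x i j) K (z i j) (congrFun (congrFun h i) j)
  exact ⟨of x', Matrix.ext h'⟩

theorem geo {ε : Matrix κ κ S} {h : Matrix κ ι S} (he : ε * ε = ε) (H : IsoMod p ε h) (K : ℕ) :
    ∃ (h' : Matrix ι κ S) (u : Matrix κ κ S) (v : Matrix ι ι S),
      h * h' = ε + p ^ (K + 1) • u ∧ h' * h = 1 + p ^ (K + 1) • v := by
  induction K with
  | zero => simpa using H.2
  | succ K ih =>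
    obtain ⟨h', u, v, h1, h2⟩ := ih
    have k1 : p ^ (K + 1) • (ε * u) = p ^ (K + 1) • u := by
      have := Matrix.mul_assoc ε h h'
      rw [H.1, h1, Matrix.mul_add, he, Matrix.mul_smul] at this
      exact (add_left_cancel this).symm
    have k2 : p ^ (K + 1) • (u * h) = p ^ (K + 1) • (h * v) := by
      have := Matrix.mul_assoc h h' h
      rw [h1, h2, Matrix.add_mul, Matrix.mul_add, H.1, Matrix.mul_one, Matrix.smul_mul,
        Matrix.mul_smul] at this
      exact add_left_cancel this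
    refine ⟨h' - p ^ (K + 1) • (h' * u), -(p ^ K • (u * u)), -(p ^ K • (v * v)), ?_, ?_⟩
    · rw [Matrix.mul_sub, Matrix.mul_smul, ← Matrix.mul_assoc, h1, Matrix.add_mul, smul_add, k1,
        Matrix.smul_mul]
      module
    · rw [Matrix.sub_mul, Matrix.smul_mul, Matrix.mul_assoc, ← Matrix.mul_smul, k2,
        Matrix.mul_smul, ← Matrix.mul_assoc, h2, add_mul, one_mul, smul_mul_assoc]
      module

theorem geo2 (tf : ∀ x : S, p • x = 0 → x = 0) {a : Matrix ι ι S} (H : PInv p a) :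
    ∃ s : ℕ, ∀ K : ℕ, ∃ a' c c' : Matrix ι ι S,
      a * a' = p ^ s • (1 + p ^ (K + 1) • c) ∧ a' * a = p ^ s • (1 + p ^ (K + 1) • c') := by
  obtain ⟨s, H⟩ := H
  refine ⟨s, fun K => ?_⟩
  induction K with
  | zero => simpa using H
  | succ K ih =>
    obtain ⟨a', c, c', h1, h2⟩ := ih
    have k : c * a = a * c' := canc tf (s + (K + 1)) (by
      have := mul_assoc a a' a
      rw [h1, h2] at this
      simp only [smul_add, add_mul, mul_add, smul_mul_assoc, mul_smul_comm, mul_one,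
        one_mul] at this
      rw [pow_add, mul_smul, mul_smul]
      exact add_left_cancel this)
    refine ⟨a' - p ^ (K + 1) • (a' * c), -(p ^ K • (c * c)), -(p ^ K • (c' * c')), ?_, ?_⟩
    · rw [mul_sub, mul_smul_comm, ← mul_assoc, h1, smul_mul_assoc, add_mul, one_mul,
        smul_mul_assoc]
      module
    · rw [sub_mul, smul_mul_assoc, mul_assoc, k, ← mul_assoc, h2, smul_mul_assoc, add_mul, one_mul,
        smul_mul_assoc]
      module

theorem perturb {ε : Matrix κ κ S} {h z : Matrix κ ι S} (H : IsoMod p ε h) (hz : ε * z = z) :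
    IsoMod p ε (h + p • z) := by
  obtain ⟨h0, h', u, v, h1, h2⟩ := H
  refine ⟨by rw [Matrix.mul_add, Matrix.mul_smul, h0, hz], h', u + z * h', v + h' * z, ?_, ?_⟩
  · rw [Matrix.add_mul, Matrix.smul_mul, h1, smul_add, add_assoc]
  · rw [Matrix.mul_add, Matrix.mul_smul, h2, smul_add, add_assoc]

theorem core {m : ℕ} {a a' w w' : Matrix ι ι S} (h1 : a * a' = m • 1 - m • m • p • w)
    (h2 : a' * a = m • 1 - m • m • p • w') (h3 : w * a = a * w') (h4 : a' * w = w' * a') :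
    ∃ (ε : Matrix (ι ⊕ ι) (ι ⊕ ι) S) (i : Matrix ι (ι ⊕ ι) S) (j h : Matrix (ι ⊕ ι) ι S),
      Lat m ε i j ∧ IsoMod p ε h ∧ i * h = a := by
  have h5 : a' * (a * w') = (m • 1 - m • m • p • w') * w' := by rw [← mul_assoc, h2]
  have h6 : a * (w' * a') = w * (m • 1 - m • m • p • w) := by
    rw [← mul_assoc, ← h3, mul_assoc, h1]
  have h7 : w * (a * w') = a * (w' * w') := by rw [← mul_assoc, h3, mul_assoc]
  refine ⟨fromBlocks (1 - m • p • w') a' (p • (a * w')) (m • p • w), fromCols a (m • 1),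
    fromRows a' (m • p • w), fromRows (1 - m • p • w') (p • (a * w')), ⟨?_, ?_, ?_, ?_, ?_⟩,
    ⟨?_, fromCols 1 a', fromBlocks 0 (-(m • (w' * a'))) 0 (-(m • m • p • (w * w))),
      -(m • m • p • (w' * w')), ?_, ?_⟩, ?_⟩ <;>
    simp only [fromBlocks_multiply, fromCols_mul_fromBlocks, fromBlocks_mul_fromRows,
      fromCols_mul_fromRows, fromRows_mul_fromCols, fromBlocks_smul, fromBlocks_add, fromBlocks_inj,
      fromCols_ext_iff, fromRows_ext_iff, mul_sub, sub_mul, mul_one, one_mul, smul_mul_assoc,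
      mul_smul_comm, mul_assoc, h1, h2, h3, h4, h5, h6, h7] <;>
    and_intros <;> first | trivial | module

theorem ex (H : AnIso p φ) {a : Matrix ι ι S'} (ha : PInv p a) :
    ∃ ε : Matrix (ι ⊕ ι) (ι ⊕ ι) S, Rep p φ a ε := by
  obtain ⟨s, hs⟩ := geo2 H.tf' ha
  obtain ⟨a', c, c', h1, h2⟩ := hs s
  obtain ⟨b, y, hb⟩ := dense H a (s + s + 1)
  obtain ⟨b', y', hb'⟩ := dense H a' (s + s + 1)
  have k : ∀ {a a' y y' c : Matrix ι ι S'} {b b' : Matrix ι ι S},
      a = b.map φ + p ^ (s + s + 1) • y → a' = b'.map φ + p ^ (s + s + 1) • y' →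
      a * a' = p ^ s • (1 + p ^ (s + 1) • c) →
      ∃ w, b * b' = p ^ s • 1 - p ^ s • p ^ s • p • w := by
    intro a a' y y' c b b' e e' h
    obtain ⟨w, hw⟩ := pure H (x := p ^ s • 1 - b * b') (K := s + s + 1)
      (z := y * a' + b.map φ * y' - c) (by
        have e1 : y * a' = y * b'.map φ + p ^ (s + s + 1) • (y * y') := by
          rw [e', mul_add, mul_smul_comm]
        rw [e, e'] at h
        simp only [add_mul, mul_add, smul_mul_assoc, mul_smul_comm] at h
        rw [Matrix.map_sub _ (map_sub φ), map_nsmul', map_one', Matrix.map_mul, e1]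
        linear_combination (norm := module) -h)
    exact ⟨w, by linear_combination (norm := module) -hw⟩
  obtain ⟨w, k1⟩ := k hb hb' h1
  obtain ⟨w', k2⟩ := k hb' hb h2
  have k3 : ∀ {b b' w w' : Matrix ι ι S}, b * b' = p ^ s • 1 - p ^ s • p ^ s • p • w →
      b' * b = p ^ s • 1 - p ^ s • p ^ s • p • w' → w * b = b * w' := by
    intro b b' w w' e e'
    refine canc H.tf (s + s + 1) ?_
    have := mul_assoc b b' b
    rw [e, e'] at this
    simp only [mul_sub, sub_mul, smul_mul_assoc, mul_smul_comm, mul_one, one_mul] at this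
    linear_combination (norm := module) -this
  obtain ⟨ε, i, j, h, l1, l2, l3⟩ := core k1 k2 (k3 k1 k2) (k3 k2 k1).symm
  have l4 := l1.map φ
  refine ⟨ε, s, i, j, _, l1, perturb (z := p ^ s • (j.map φ * y)) (l2.map φ) ?_, ?_⟩
  · rw [Matrix.mul_smul, ← Matrix.mul_assoc, l4.e_j]
  · rw [Matrix.mul_add, Matrix.mul_smul, Matrix.mul_smul, ← Matrix.mul_assoc, l4.ij,
      ← Matrix.map_mul, l3, hb, smul_mul_assoc, one_mul]
    module

theorem pinv {a : Matrix ι ι S'} {ε : Matrix κ κ S} (h : Rep p φ a ε) : PInv p a := by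
  obtain ⟨s, i, j, h, l1, l2, rfl⟩ := h
  have l := l1.map φ
  obtain ⟨h', u, v, h1, h2⟩ := geo l.idem l2 s
  refine ⟨s, h' * j.map φ, i.map φ * u * j.map φ, p ^ s • v, ?_, ?_⟩
  · rw [Matrix.mul_assoc, ← Matrix.mul_assoc h, h1, Matrix.add_mul, l.e_j, Matrix.mul_add, l.ij,
      Matrix.smul_mul, Matrix.mul_smul, Matrix.mul_assoc]
    module
  · rw [Matrix.mul_assoc, ← Matrix.mul_assoc (j.map φ), l.ji, Matrix.smul_mul, l2.1,
      Matrix.mul_smul, h2]
    module

theorem half (H : AnIso p φ) {s t : ℕ} {ε : Matrix κ κ S} {i : Matrix ι κ S} {j : Matrix κ ι S}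
    {h : Matrix κ ι S'} {ε' : Matrix μ μ S} {i' : Matrix ι μ S} {j' : Matrix μ ι S}
    {g : Matrix μ ι S'} (l : Lat (p ^ s) ε i j) (l' : Lat (p ^ t) ε' i' j')
    (m : IsoMod p (ε.map φ) h) (e : i.map φ * h = i'.map φ * g) :
    ∃ x : Matrix μ κ S, i' * x = i ∧ ε' * x = x := by
  obtain ⟨h', u, -, h1, -⟩ := geo (l.map φ).idem m t
  obtain ⟨x, hx⟩ := pure H (x := j' * i) (K := t)
    (z := ε'.map φ * g * h' - p • (j'.map φ * (i.map φ * u))) (by
      have := congrArg (fun M => j'.map φ * (M * h')) e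
      simp only [Matrix.mul_assoc, h1, Matrix.mul_add, (l.map φ).i_e, Matrix.mul_smul] at this
      rw [← Matrix.mul_assoc _ (i'.map φ), (l'.map φ).ji, Matrix.smul_mul] at this
      rw [Matrix.map_mul, Matrix.mul_assoc]
      linear_combination (norm := module) this)
  refine ⟨x, canc H.tf t ?_, canc H.tf t ?_⟩
  · rw [← Matrix.mul_smul, ← hx, ← Matrix.mul_assoc, l'.ij, Matrix.smul_mul, Matrix.one_mul]
  · rw [← Matrix.mul_smul, ← hx, ← Matrix.mul_assoc, l'.e_j]

theorem back (tf : ∀ x : S, p • x = 0 → x = 0) {s : ℕ} {ε x : Matrix κ κ S} {i : Matrix ι κ S}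
    {j : Matrix κ ι S} (l : Lat (p ^ s) ε i j) (h : i * x = i) (h' : ε * x = x) : x = ε :=
  canc tf s (by rw [← h', ← Matrix.smul_mul, ← l.ji, Matrix.mul_assoc, h])

theorem uniq (H : AnIso p φ) {a : Matrix ι ι S'} {ε : Matrix κ κ S} {ε' : Matrix μ μ S}
    (h : Rep p φ a ε) (h' : Rep p φ a ε') : MEq ε ε' := by
  obtain ⟨s, i, j, h, l1, l2, l3⟩ := h
  obtain ⟨t, i', j', g, m1, m2, m3⟩ := h'
  obtain ⟨x, x1, x2⟩ := half H l1 m1 l2 (l3.trans m3.symm)
  obtain ⟨y, y1, y2⟩ := half H m1 l1 m2 (m3.trans l3.symm)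
  exact ⟨y, x, back H.tf l1 (by rw [← Matrix.mul_assoc, y1, x1]) (by rw [← Matrix.mul_assoc, y2]),
    back H.tf m1 (by rw [← Matrix.mul_assoc, x1, y1]) (by rw [← Matrix.mul_assoc, x2])⟩

theorem idem {a : Matrix ι ι S'} {ε : Matrix κ κ S} (h : Rep p φ a ε) : ε * ε = ε :=
  h.choose_spec.choose_spec.choose_spec.choose_spec.1.idem

theorem of_meq {a : Matrix ι ι S'} {ε : Matrix κ κ S} {ε' : Matrix μ μ S} (h : Rep p φ a ε)
    (he : ε' * ε' = ε') (e : MEq ε ε') : Rep p φ a ε' := by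
  obtain ⟨s, i, j, h, l, ⟨l1, h', u, v, l2, l3⟩, rfl⟩ := h
  obtain ⟨x, y, e1, e2, e3, e4, e5, -⟩ := e.norm l.idem he
  have e6 : y.map φ * (ε.map φ * x.map φ) = ε'.map φ := by simp only [← Matrix.map_mul, e3, e2]
  have e7 : x.map φ * (y.map φ * h) = h := by rw [← Matrix.mul_assoc, ← Matrix.map_mul, e1, l1]
  refine ⟨s, i * x, y * j, y.map φ * h, ⟨he, ?_, ?_, ?_, ?_⟩,
    ⟨?_, h' * x.map φ, y.map φ * (u * x.map φ), v, ?_, ?_⟩, ?_⟩
  · rw [Matrix.mul_assoc, e4]
  · rw [← Matrix.mul_assoc, e5]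
  · rw [Matrix.mul_assoc, ← Matrix.mul_assoc x, e1, l.e_j, l.ij]
  · rw [Matrix.mul_assoc, ← Matrix.mul_assoc j, l.ji, Matrix.smul_mul, e3, Matrix.mul_smul, e2]
  · rw [← Matrix.mul_assoc, ← Matrix.map_mul, e5]
  · rw [Matrix.mul_assoc, ← Matrix.mul_assoc h, l2, Matrix.add_mul, Matrix.mul_add, e6,
      Matrix.smul_mul, Matrix.mul_smul]
  · rw [Matrix.mul_assoc, e7, l3]
  · rw [Matrix.map_mul, Matrix.mul_assoc, e7]

end LAT1

open LAT1

theorem stLAT1 : St_LAT1.{u} := by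
  intro p S S' _ _ φ H ι _ _ a
  refine ⟨ex H, fun κ _ ε h => ⟨?_, pinv h⟩⟩
  have h1 : ∃ (n : ℕ) (ε : Matrix (Fin n) (Fin n) S), Rep p φ a ε :=
    ⟨_, _, of_meq h (reindex_idem (Fintype.equivFin κ) (idem h)) (MEq.reindex _ (idem h))⟩
  have h2 := h1.choose_spec.choose_spec
  rw [delta, dif_pos h1, cls_equiv (idem h2) (idem h) (uniq H h2 h)]

theorem stLAT3 : St_LAT3.{u} := by
  intro p S _ tf ι κ _ _ _ s t ε i j h a' l m h1 h2
  obtain ⟨h', u, -, k1, -⟩ := geo l.idem m t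
  have k2 : a' * i = p ^ t • (h' - p • (a' * (i * u))) := by
    have := congrArg (· * h') h2
    simp only [Matrix.mul_assoc, k1, Matrix.mul_add, l.i_e, Matrix.mul_smul, Matrix.smul_mul,
      Matrix.one_mul] at this
    linear_combination (norm := module) this
  refine ⟨h' - p • (a' * (i * u)), back tf l (canc tf t ?_) ?_, canc tf t ?_⟩
  · rw [← Matrix.mul_assoc, ← Matrix.mul_smul, ← k2, ← Matrix.mul_assoc, h1, Matrix.smul_mul,
      Matrix.one_mul]
  · rw [← Matrix.mul_assoc, m.1]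
  · rw [← Matrix.smul_mul, ← k2, Matrix.mul_assoc, h2]

theorem stNAT (hL : St_LAT1.{u}) : St_NAT.{u} := by
  intro p S S' U U' _ _ _ _ φ ψ f f' H H' e ι _ _ a ha
  obtain ⟨ε, hε⟩ := (hL p S S' φ H ι a).1 ha
  have k : ∀ {α β : Type} (M : Matrix α β S), (M.map f).map ψ = (M.map φ).map f' := fun M =>
    Matrix.ext fun i j => RingHom.congr_fun e (M i j)
  have h1 : Rep p ψ (a.map f') (ε.map f) := by
    obtain ⟨s, i, j, h, l1, l2, l3⟩ := hε
    exact ⟨s, i.map f, j.map f, h.map f', l1.map f, k ε ▸ l2.map f',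
      by rw [k, ← Matrix.map_mul, l3]⟩
  rw [((hL p S S' φ H ι a).2 _ ε hε).1, ((hL p U U' ψ H' ι _).2 _ _ h1).1, map_sub, map_cls_one,
    map_cls f (idem hε)]

end Pool.Agent.Lib.KM1
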