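import Pool.Agent.Lib.KM1.Blue

/-! Block LAT2: calculus of `delta`. -/

set_option linter.unusedSectionVars false

namespace Pool.Agent.Lib.KM1

open Matrix

universe u

namespace LAT2

variable {p : ℕ} {S S' : Type u} [Ring S] [Ring S'] {φ : S →+* S'}
  {ι κ ι' κ' : Type} [Fintype ι] [DecidableEq ι] [Fintype κ] [Fintype ι'] [DecidableEq ι']
  [Fintype κ']

theorem dense (hφ : AnIso p φ) {α β : Type} (y : Matrix α β S') (K : ℕ) :
    ∃ (x : Matrix α β S) (z : Matrix α β S'), y = x.map φ + p ^ K • z := by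
  choose x z h using fun a b => hφ.dense (y a b) K
  exact ⟨Matrix.of x, Matrix.of z, by ext a b; simpa using h a b⟩

theorem geom {R : Type u} [Ring R] (v : R) (K : ℕ) :
    ∃ g w : R, g * (1 + p • v) = 1 + p ^ K • w := by
  induction K with
  | zero => exact ⟨0, -1, by simp⟩
  | succ K ih =>
    obtain ⟨g, w, h⟩ := ih
    refine ⟨g - p ^ K • w, -(w * v), ?_⟩
    rw [sub_mul, h, mul_add, mul_one, smul_mul_assoc, mul_smul_comm, smul_smul, ← pow_succ,
      smul_neg]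
    abel

theorem right {a g g' c c' : Matrix ι ι S'} {ε : Matrix κ κ S} (h : Rep p φ a ε)
    (h1 : g * g' = 1 + p • c) (h2 : g' * g = 1 + p • c') : Rep p φ (a * g) ε := by
  obtain ⟨s, i, j, h, hL, ⟨e1, h', u, v, e2, e3⟩, rfl⟩ := h
  refine ⟨s, i, j, h * g, hL, ⟨by rw [← Matrix.mul_assoc, e1], g' * h', u + h * c * h',
    c' + g' * v * g, ?_, ?_⟩, by rw [Matrix.mul_assoc]⟩
  · rw [Matrix.mul_assoc, ← Matrix.mul_assoc g, h1, Matrix.add_mul, Matrix.one_mul, Matrix.mul_add,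
      e2, Matrix.smul_mul, Matrix.mul_smul, smul_add, add_assoc, Matrix.mul_assoc]
  · rw [Matrix.mul_assoc, ← Matrix.mul_assoc h', e3, Matrix.add_mul, Matrix.one_mul, Matrix.mul_add,
      h2, Matrix.smul_mul, Matrix.mul_smul, smul_add, add_assoc, Matrix.mul_assoc]

theorem left {a g : Matrix ι ι S'} {ε : Matrix κ κ S} (h : Rep p φ a ε)
    (hg : ∀ K : ℕ, ∃ (g0 g1 : Matrix ι ι S) (y : Matrix ι ι S'), g0 * g1 = 1 ∧ g1 * g0 = 1 ∧
      g = g0.map φ + p ^ K • y) : Rep p φ (g * a) ε := by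
  obtain ⟨s, i, j, h, hL, ⟨e1, h', u, v, e2, e3⟩, ha⟩ := h
  obtain ⟨g0, g1, y, h1, h2, rfl⟩ := hg (s + 1)
  have e4 : ε.map φ * j.map φ = j.map φ := by rw [← Matrix.map_mul, hL.e_j]
  have e5 : (g0 * i) * (j * g1) = p ^ s • (1 : Matrix ι ι S) := by
    rw [Matrix.mul_assoc, ← Matrix.mul_assoc i, hL.ij, Matrix.smul_mul, Matrix.one_mul,
      Matrix.mul_smul, h1]
  refine ⟨s, g0 * i, j * g1, h + p • ((j * g1).map φ * (y * a)),
    ⟨hL.idem, by rw [Matrix.mul_assoc, hL.i_e], by rw [← Matrix.mul_assoc, hL.e_j], e5, ?_⟩,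
    ⟨?_, h', u + (j * g1).map φ * (y * a) * h', v + h' * ((j * g1).map φ * (y * a)), ?_, ?_⟩, ?_⟩
  · rw [Matrix.mul_assoc, ← Matrix.mul_assoc g1, h2, Matrix.one_mul, hL.ji]
  · rw [Matrix.mul_add, e1, Matrix.mul_smul, ← Matrix.mul_assoc, Matrix.map_mul,
      ← Matrix.mul_assoc (ε.map φ), e4]
  · rw [Matrix.add_mul, e2, Matrix.smul_mul, smul_add, add_assoc]
  · rw [Matrix.mul_add, e3, Matrix.mul_smul, smul_add, add_assoc]
  · rw [Matrix.mul_add, Matrix.mul_smul, ← Matrix.mul_assoc, ← Matrix.map_mul, e5, map_nsmul',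
      map_one', Matrix.smul_mul, Matrix.one_mul, smul_smul, ← pow_succ', Matrix.map_mul,
      Matrix.mul_assoc, ha, Matrix.add_mul, Matrix.smul_mul]

theorem tri (hφ : AnIso p φ) {a : Matrix ι ι S'} {b : Matrix ι' ι' S'} {ε : Matrix κ κ S}
    {η : Matrix κ' κ' S} (ha : Rep p φ a ε) (hb : Rep p φ b η) (x : Matrix ι ι' S') :
    Rep p φ (fromBlocks a x 0 b) (fromBlocks ε 0 0 η) := by
  obtain ⟨s, i, j, h, hL, ⟨e1, h', u, v, e2, e3⟩, rfl⟩ := ha
  obtain ⟨t, i2, j2, k, hM, ⟨f1, k', u2, v2, f2, f3⟩, rfl⟩ := hb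
  obtain ⟨g, w, hg⟩ := geom (p := p) v2 s
  obtain ⟨z1, y1, hz⟩ := dense hφ (x * (g * k')) s
  set y := y1 * k - x * w with hy
  have e4 : ε.map φ * j.map φ = j.map φ := by rw [← Matrix.map_mul, hL.e_j]
  have key : i.map φ * (j.map φ * y) + (z1 * η).map φ * k = x := by
    rw [← Matrix.mul_assoc, ← Matrix.map_mul, hL.ij, map_nsmul', map_one', Matrix.smul_mul,
      Matrix.one_mul, Matrix.map_mul, Matrix.mul_assoc, f1, eq_sub_of_add_eq hz.symm,
      Matrix.sub_mul, Matrix.mul_assoc x, Matrix.mul_assoc g, f3, hg, Matrix.mul_add,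
      Matrix.mul_one, Matrix.smul_mul, Matrix.mul_smul, hy, smul_sub]
    abel
  have ew : ε.map φ * (j.map φ * y) = j.map φ * y := by rw [← Matrix.mul_assoc, e4]
  generalize j.map φ * y = w0 at key ew
  have ez : z1 * η * η = z1 * η := by rw [Matrix.mul_assoc, hM.idem]
  generalize z1 * η = z at key ez
  refine ⟨s + t, fromBlocks i z 0 i2, fromBlocks (p ^ t • j) (-(j * z * j2)) 0 (p ^ s • j2),
    fromBlocks h w0 0 k, ⟨idem_blocks hL.idem hM.idem, ?_, ?_, ?_, ?_⟩,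
    ⟨?_, fromBlocks h' (-(h' * w0 * k')) 0 k', fromBlocks u (-(u * w0 * k')) 0 u2,
      fromBlocks v (-(h' * w0 * v2)) 0 v2, ?_, ?_⟩, ?_⟩
  · simp [fromBlocks_multiply, hL.i_e, hM.i_e, ez]
  · simp [fromBlocks_multiply, hL.e_j, hM.e_j, ← Matrix.mul_assoc]
  · rw [← fromBlocks_one, fromBlocks_smul, fromBlocks_multiply]
    simp only [Matrix.mul_zero, Matrix.zero_mul, add_zero, zero_add, Matrix.mul_smul,
      Matrix.mul_neg, ← Matrix.mul_assoc, hL.ij, hM.ij, smul_smul, Matrix.smul_mul, Matrix.one_mul,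
      smul_zero, neg_add_cancel, ← pow_add, add_comm t s, neg_zero]
  · rw [fromBlocks_smul, fromBlocks_multiply]
    simp only [Matrix.mul_zero, Matrix.zero_mul, add_zero, zero_add, Matrix.mul_smul,
      Matrix.neg_mul, Matrix.mul_assoc, hL.ji, hM.ji, smul_smul, Matrix.smul_mul, ez,
      smul_zero, add_neg_cancel, ← pow_add, add_comm t s]
  · simp [fromBlocks_map, fromBlocks_multiply, e1, f1, ew]
  · rw [fromBlocks_map, fromBlocks_smul, fromBlocks_add, fromBlocks_multiply]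
    simp only [Matrix.mul_zero, Matrix.zero_mul, add_zero, zero_add, Matrix.mul_neg,
      ← Matrix.mul_assoc, e2, f2, Matrix.add_mul, ew, Matrix.smul_mul, smul_zero, smul_neg,
      Matrix.map_zero _ (map_zero φ), neg_add_rev, neg_add_cancel_right, neg_zero]
  · rw [← fromBlocks_one, fromBlocks_smul, fromBlocks_add, fromBlocks_multiply]
    simp only [Matrix.mul_zero, Matrix.zero_mul, add_zero, zero_add, Matrix.neg_mul,
      Matrix.mul_assoc, e3, f3, Matrix.mul_add, Matrix.mul_one, Matrix.mul_smul, smul_zero,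
      smul_neg, neg_add, add_neg_cancel_left]
  · rw [fromBlocks_map, fromBlocks_multiply]
    simp only [Matrix.mul_zero, Matrix.zero_mul, add_zero, zero_add, key,
      Matrix.map_zero _ (map_zero φ)]

theorem unit {a a' c c' : Matrix ι ι S'} (h1 : a * a' = 1 + p • c) (h2 : a' * a = 1 + p • c') :
    Rep p φ a (1 : Matrix ι ι S) :=
  ⟨0, 1, 1, a, ⟨by simp, by simp, by simp, by simp, by simp⟩,
    ⟨by simp, a', c, c', by simpa using h1, h2⟩, by simp⟩

theorem pinv22 {m : Matrix ι' ι' S'} (h : PInv p (fromBlocks (1 : Matrix ι ι S') 0 0 m)) :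
    PInv p m := by
  obtain ⟨s, a', c, c', h1, h2⟩ := h
  rw [← fromBlocks_toBlocks a', ← fromBlocks_toBlocks c] at h1
  rw [← fromBlocks_toBlocks a', ← fromBlocks_toBlocks c'] at h2
  rw [← fromBlocks_one, fromBlocks_smul, fromBlocks_add, fromBlocks_smul, fromBlocks_multiply,
    fromBlocks_inj] at h1 h2
  exact ⟨s, a'.toBlocks₂₂, c.toBlocks₂₂, c'.toBlocks₂₂, by simpa using h1.2.2.2,
    by simpa using h2.2.2.2⟩

theorem mul (hφ : AnIso p φ) {a b : Matrix ι ι S'} {ε : Matrix κ κ S} {η : Matrix κ' κ' S}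
    (ha : Rep p φ a ε) (hb : Rep p φ b η) :
    Rep p φ (fromBlocks (1 : Matrix ι ι S') 0 0 (a * b)) (fromBlocks η 0 0 ε) := by
  have h1 := left (g := fromBlocks 1 0 (-a) 1) (tri hφ hb ha 1) fun K => by
    obtain ⟨x, z, h⟩ := dense hφ (-a) K
    refine ⟨fromBlocks 1 0 x 1, fromBlocks 1 0 (-x) 1, fromBlocks 0 0 z 0, ?_, ?_, ?_⟩
    · simp [fromBlocks_multiply]
    · simp [fromBlocks_multiply]
    · rw [fromBlocks_map, fromBlocks_smul, fromBlocks_add, ← h]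
      simp
  have h2 := right (g := fromBlocks 0 (-1) 1 b) (g' := fromBlocks b 1 (-1) 0) (c := 0) (c' := 0) h1
    (by simp [fromBlocks_multiply]) (by simp [fromBlocks_multiply])
  simpa [fromBlocks_multiply] using h2

theorem rdx [DecidableEq κ] (σ : ι ≃ κ) {a : Matrix ι ι S'} {ε : Matrix κ' κ' S}
    (h : Rep p φ a ε) : Rep p φ (reindex σ σ a) ε := by
  obtain ⟨s, i, j, h, hL, ⟨e1, h', u, v, e2, e3⟩, rfl⟩ := h
  have m1 : ∀ {R : Type u} [Ring R] (x : Matrix ι κ' R) (y : Matrix κ' ι R),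
      x.submatrix σ.symm id * y.submatrix id σ.symm = (x * y).submatrix σ.symm σ.symm :=
    fun x y => (Matrix.submatrix_mul _ _ _ id _ Function.bijective_id).symm
  have m2 : ∀ {R : Type u} [Ring R] (x : Matrix κ' ι R) (y : Matrix ι κ' R),
      x.submatrix id σ.symm * y.submatrix σ.symm id = x * y :=
    fun x y => by simp [Matrix.submatrix_mul_equiv]
  have m3 : ∀ {R : Type u} [Ring R] (x : Matrix ι κ' R) (y : Matrix κ' κ' R),
      x.submatrix σ.symm id * y = (x * y).submatrix σ.symm id := fun x y => rfl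
  have m4 : ∀ {R : Type u} [Ring R] (x : Matrix κ' κ' R) (y : Matrix κ' ι R),
      x * y.submatrix id σ.symm = (x * y).submatrix id σ.symm := fun x y => rfl
  refine ⟨s, i.submatrix σ.symm id, j.submatrix id σ.symm, h.submatrix id σ.symm,
    ⟨hL.idem, by rw [m3, hL.i_e], by rw [m4, hL.e_j], ?_, by rw [m2, hL.ji]⟩,
    ⟨by rw [m4, e1], h'.submatrix σ.symm id, u, v.submatrix σ.symm σ.symm, by rw [m2, e2], ?_⟩,
    m1 (i.map φ) h⟩
  · rw [m1, hL.ij, Matrix.submatrix_smul]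
    simp
  · rw [m1, e3, Matrix.submatrix_add, Matrix.submatrix_smul]
    simp

end LAT2

open LAT2 in
theorem stLAT2 (h1 : St_LAT1.{u}) : St_LAT2.{u} := by
  intro p S S' _ _ φ hφ ι κ _ _ _ _
  have idem : ∀ {α β : Type} [Fintype α] [DecidableEq α] [Fintype β] {a : Matrix α α S'}
      {ε : Matrix β β S}, Rep p φ a ε → ε * ε = ε := fun ⟨_, _, _, _, h, _⟩ => h.idem
  have one : Rep p φ (1 : Matrix ι ι S') (1 : Matrix ι ι S) :=
    unit (a' := 1) (c := 0) (c' := 0) (by simp) (by simp)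
  refine ⟨fun a b ha hb => ?_, fun a b ha hb => ?_, fun a a' c c' e1 e2 => ?_,
    fun s a a' e1 e2 => ?_, fun σ a ha => ?_⟩
  · obtain ⟨ε, ha⟩ := (h1 p S S' φ hφ ι a).1 ha
    obtain ⟨η, hb⟩ := (h1 p S S' φ hφ ι b).1 hb
    have h2 := (h1 p S S' φ hφ _ _).2 _ _ (mul hφ ha hb)
    have hab := pinv22 h2.2
    obtain ⟨ζ, hc⟩ := (h1 p S S' φ hφ ι _).1 hab
    have h3 := ((h1 p S S' φ hφ _ _).2 _ _ (tri hφ one hc 0)).1
    rw [h2.1, cls_blocks (idem hb) (idem ha), cls_blocks (by simp) (idem hc), sub_right_inj] at h3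
    refine ⟨hab, ?_⟩
    rw [((h1 p S S' φ hφ _ _).2 _ _ ha).1, ((h1 p S S' φ hφ _ _).2 _ _ hb).1,
      ((h1 p S S' φ hφ _ _).2 _ _ hc).1, eq_sub_of_add_eq' h3.symm]
    abel
  · obtain ⟨ε, ha⟩ := (h1 p S S' φ hφ ι a).1 ha
    obtain ⟨η, hb⟩ := (h1 p S S' φ hφ κ b).1 hb
    have h2 := (h1 p S S' φ hφ _ _).2 _ _ (tri hφ ha hb 0)
    refine ⟨h2.2, ?_⟩
    rw [h2.1, ((h1 p S S' φ hφ _ _).2 _ _ ha).1, ((h1 p S S' φ hφ _ _).2 _ _ hb).1,
      cls_blocks (idem ha) (idem hb), cls_one_sum]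
    abel
  · have h2 := (h1 p S S' φ hφ _ _).2 _ _ (unit (φ := φ) e1 e2)
    exact ⟨h2.2, by rw [h2.1, sub_self]⟩
  · have h2 := (h1 p S S' φ hφ ι (a.map φ)).2 ι 1 ⟨s, a, a', 1,
      ⟨by simp, by simp, by simp, e1, e2⟩, ⟨by simp, 1, 0, 0, by simp, by simp⟩, by simp⟩
    exact ⟨h2.2, by rw [h2.1, sub_self]⟩
  · obtain ⟨ε, ha⟩ := (h1 p S S' φ hφ ι a).1 ha
    have h2 := (h1 p S S' φ hφ _ _).2 _ _ (rdx σ ha)
    refine ⟨h2.2, ?_⟩
    rw [h2.1, ((h1 p S S' φ hφ _ _).2 _ _ ha).1, ← cls_reindex σ (e := 1) (by simp)]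
    simp

end Pool.Agent.Lib.KM1
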