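import Pool.Agent.Lib.KM1.Blue

/-! Representing a rational functional. -/

namespace Pool.Agent.Lib.KM1

open Matrix

universe u

namespace LIN

variable {F : Type} [Field F] [CharZero F] {U : Type u} [AddCommGroup U] [Module F U]
  {B : U →ₗ[F] U →ₗ[F] F} {Y : Type u} [AddCommGroup Y] {χ : Y →+ U}

theorem clear {ι : Type*} [Fintype ι] (c : ι → ℚ) :
    ∃ (N : ℕ) (z : ι → ℤ), 0 < N ∧ ∀ i, (z i : ℚ) = N * c i := by
  classical
  refine ⟨∏ i, (c i).den, fun i => (∏ j ∈ Finset.univ.erase i, ((c j).den : ℤ)) * (c i).num,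
    Finset.prod_pos fun i _ => (c i).den_pos, fun i => ?_⟩
  rw [← Finset.prod_erase_mul _ _ (Finset.mem_univ i)]
  push_cast
  rw [mul_assoc, Rat.den_mul_eq_num]

end LIN

open LIN

theorem stLIN : St_LIN.{u} := by
  intro F _ _ U _ _ _ B Y _ χ hint han l
  classical
  obtain ⟨s, hs, hsp, hli⟩ := exists_linearIndependent F (Set.range χ)
  have hfin : s.Finite := hli.set_finite_of_isNoetherian
  have := hfin.fintype
  choose y hy using fun i : s => hs i.2
  choose g hg using hint
  let M : Matrix s s ℚ := fun i j => g (y i) (y j)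
  have hM : ∀ i j, B (χ (y i)) (χ (y j)) = (M i j : F) := fun i j => by
    rw [hg]
    simp [M]
  have hχ : ∀ z : s → ℤ, χ (∑ i, z i • y i) = ∑ i, (z i : F) • χ (y i) := fun z => by
    simp [Int.cast_smul_eq_zsmul]
  have hli' : LinearIndependent F fun i => χ (y i) := by simpa only [hy] using hli
  have inj : ∀ x, χ x = 0 → x = 0 := fun x hx => han x (by simp [hx])
  have hdet : M.det ≠ 0 := fun h0 => by
    obtain ⟨c, hc, h1⟩ := Matrix.exists_mulVec_eq_zero_iff.2 h0
    obtain ⟨N, z, hN, hz⟩ := clear c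
    have h2 : ∀ i, B (χ (y i)) (χ (∑ j, z j • y j)) = 0 := fun i => by
      have h3 : ∑ j, (z j : ℚ) * M i j = 0 := by
        have h4 := congrFun h1 i
        simp only [hz, mul_assoc, ← Finset.mul_sum]
        simp only [mulVec, dotProduct, Pi.zero_apply, mul_comm (M _ _)] at h4
        rw [h4, mul_zero]
      rw [hχ, map_sum]
      simp only [map_smul, hM, smul_eq_mul]
      exact_mod_cast congrArg (Rat.cast : ℚ → F) h3
    have h5 := han (∑ j, z j • y j) (by
      conv_lhs => arg 1; rw [hχ, map_sum]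
      rw [LinearMap.sum_apply]
      exact Finset.sum_eq_zero fun i _ => by rw [map_smul, LinearMap.smul_apply, h2, smul_zero])
    have h6 := Fintype.linearIndependent_iff.1 hli' (fun i => (z i : F))
      (by rw [← hχ, h5, map_zero])
    refine hc (funext fun i => ?_)
    have h7 := hz i
    rw [Int.cast_eq_zero.1 (h6 i), Int.cast_zero] at h7
    exact (mul_eq_zero.1 h7.symm).resolve_left (Nat.cast_ne_zero.2 hN.ne')
  let M' : Matrix s s F := M.map (Rat.castHom F)
  have hdet' : M'.det ≠ 0 := by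
    exact (RingHom.map_det (Rat.castHom F) M) ▸ (map_ne_zero _).2 hdet
  have mem : ∀ w ∈ Submodule.span F (Set.range χ), ∃ c : s → F, ∑ i, c i • χ (y i) = w := by
    intro w hw
    rw [← hsp, ← Subtype.range_coe (s := s)] at hw
    simpa only [hy] using (Submodule.mem_span_range_iff_exists_fun F).1 hw
  have left : ∀ (c : s → F) j, B (∑ i, c i • χ (y i)) (χ (y j)) = (c ᵥ* M') j := fun c j => by
    simp [hM, vecMul, dotProduct, M']
  have right : ∀ (c : s → F) j, B (χ (y j)) (∑ i, c i • χ (y i)) = (M' *ᵥ c) j := fun c j => by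
    simp [hM, mulVec, dotProduct, M', mul_comm]
  obtain ⟨a, ha⟩ := (Matrix.vecMul_surjective_iff_isUnit.2
    ((Matrix.isUnit_iff_isUnit_det M').2 hdet'.isUnit)) fun j => (l (y j) : F)
  refine ⟨∑ i, a i • χ (y i), ⟨Submodule.sum_mem _ fun i _ => Submodule.smul_mem _ _
    (Submodule.subset_span ⟨_, rfl⟩), fun x => ?_⟩, ?_⟩
  · obtain ⟨c, hc⟩ := (Matrix.mulVec_surjective_iff_isUnit.2
      ((Matrix.isUnit_iff_isUnit_det M).2 hdet.isUnit)) fun j => (g (y j) x : ℚ)
    obtain ⟨c', hc'⟩ := mem _ (Submodule.subset_span ⟨x, rfl⟩)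
    have h1 : c' = fun i => (c i : F) := by
      refine Matrix.mulVec_injective_iff_isUnit.2
        ((Matrix.isUnit_iff_isUnit_det M').2 hdet'.isUnit) (funext fun j => ?_)
      have h2 := congrArg (Rat.cast : ℚ → F) (congrFun hc j)
      change (M' *ᵥ c') j = _
      rw [← right, hc', hg]
      simpa [mulVec, dotProduct, M'] using h2.symm
    obtain ⟨N, z, hN, hz⟩ := clear c
    have h3 : N • x = ∑ i, z i • y i := by
      refine sub_eq_zero.1 (inj _ ?_)
      rw [map_sub, hχ, map_nsmul, ← hc', h1, Finset.smul_sum, sub_eq_zero]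
      refine Finset.sum_congr rfl fun i _ => ?_
      rw [← Nat.cast_smul_eq_nsmul F, smul_smul]
      congr 1
      simpa using congrArg (Rat.cast : ℚ → F) (hz i).symm
    have h4 : l x = ∑ i, c i * l (y i) := by
      have h5 := congrArg l h3
      simp only [map_nsmul, map_sum, map_zsmul, nsmul_eq_mul, zsmul_eq_mul, hz, mul_assoc,
        ← Finset.mul_sum] at h5
      exact mul_left_cancel₀ (Nat.cast_ne_zero.2 hN.ne') h5
    rw [← hc', map_sum, h4, h1]
    push_cast
    refine Finset.sum_congr rfl fun i _ => ?_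
    rw [map_smul, left, smul_eq_mul]
    exact congrArg _ (congrFun ha i)
  · rintro w ⟨hw, hw'⟩
    obtain ⟨c, rfl⟩ := mem w hw
    rw [Matrix.vecMul_injective_iff_isUnit.2 ((Matrix.isUnit_iff_isUnit_det M').2 hdet'.isUnit)
      (a₁ := c) (a₂ := a) (funext fun j => ?_)]
    change (c ᵥ* M') j = (a ᵥ* M') j
    rw [← left, hw']
    exact (congrFun ha j).symm

end Pool.Agent.Lib.KM1
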