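import Pool.Agent.Lib.KM1.Blue

/-! Calculus of residues over a Laurent ring. -/

namespace Pool.Agent.Lib.KM1

open Matrix LaurentPolynomial AddMonoidAlgebra

universe u

namespace LRES

variable {A : Type u} [Ring A]

/-- The derivation `t d/dt`. -/
noncomputable def th : LaurentPolynomial A →+ LaurentPolynomial A :=
  (Finsupp.liftAddHom fun n : ℤ => (singleAddHom n : A →+ LaurentPolynomial A).comp
    (zsmulAddGroupHom n)).comp AddMonoidAlgebra.coeffAddEquiv.toAddMonoidHom

/-- The constant coefficient. -/
noncomputable def c0 : LaurentPolynomial A →+ A :=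
  (Finsupp.applyAddHom 0).comp AddMonoidAlgebra.coeffAddEquiv.toAddMonoidHom

theorem c0_apply (f : LaurentPolynomial A) : c0 f = f.coeff 0 := rfl

theorem th_single (n : ℤ) (r : A) :
    th (single n r : LaurentPolynomial A) = single n (n • r) := by
  change Finsupp.liftAddHom _ (Finsupp.single n r) = _
  rw [Finsupp.liftAddHom_apply_single]
  rfl

theorem c0_single (n : ℤ) (r : A) :
    c0 (single n r : LaurentPolynomial A) = if n = 0 then r else 0 := by
  rw [c0_apply, coeff_single, Finsupp.single_apply]

theorem th_mul (f g : LaurentPolynomial A) : th (f * g) = th f * g + f * th g := by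
  induction f using AddMonoidAlgebra.induction_linear with
  | zero => simp
  | add a b ha hb => simp only [add_mul, map_add, ha, hb]; abel
  | single n r =>
    induction g using AddMonoidAlgebra.induction_linear with
    | zero => simp
    | add a b ha hb => simp only [mul_add, map_add, ha, hb]; abel
    | single m s =>
      simp only [single_mul_single, th_single, AddMonoidAlgebra.single_add, add_smul, smul_mul_assoc,
        mul_smul_comm]

theorem th_C (r : A) : th (C r : LaurentPolynomial A) = 0 := by
  rw [← single_eq_C, th_single, zero_smul, AddMonoidAlgebra.single_zero]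

theorem th_one : th (1 : LaurentPolynomial A) = 0 := by
  rw [← map_one (C : A →+* _), th_C]

theorem th_T : th (T 1 : LaurentPolynomial A) = T 1 := by
  rw [T, th_single, one_smul]

theorem res2_add (f g h : LaurentPolynomial A) : res2 (f + g) h = res2 f h + res2 g h := by
  unfold res2
  rw [coeff_add, Finsupp.sum_add_index'] <;> simp [add_mul]

theorem res2_eq (f g : LaurentPolynomial A) : res2 f g = c0 (th f * g) := by
  induction f using AddMonoidAlgebra.induction_linear with
  | zero => simp [res2]
  | add a b ha hb => rw [res2_add, map_add, add_mul, map_add, ha, hb]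
  | single n r =>
    rw [res2, coeff_single, Finsupp.sum_single_index (by simp), th_single, c0_apply,
      coeff_single_mul_apply, smul_mul_assoc, add_zero]

theorem c0_comm {V : Type u} [AddCommGroup V] (τ : A →+ V) (h : ∀ x y, τ (x * y) = τ (y * x))
    (f g : LaurentPolynomial A) : τ (c0 (f * g)) = τ (c0 (g * f)) := by
  induction f using AddMonoidAlgebra.induction_linear with
  | zero => simp
  | add a b ha hb => simp only [add_mul, mul_add, map_add, ha, hb]
  | single n r =>
    induction g using AddMonoidAlgebra.induction_linear with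
    | zero => simp
    | add a b ha hb => simp only [add_mul, mul_add, map_add, ha, hb]
    | single m s =>
      rw [single_mul_single, single_mul_single, c0_single, c0_single, add_comm m n]
      split_ifs
      exacts [h r s, rfl]

theorem c0_lau {A' : Type u} [Ring A'] (f : A →+* A') (g : LaurentPolynomial A) :
    c0 (lau f g) = f (c0 g) := coeff_mapRingHom f g 0

theorem th_lau {A' : Type u} [Ring A'] (f : A →+* A') (g : LaurentPolynomial A) :
    th (lau f g) = lau f (th g) := by
  induction g using AddMonoidAlgebra.induction_linear with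
  | zero => simp
  | add a b ha hb => simp only [map_add, ha, hb]
  | single n r => simp only [lau, mapRingHom_single, th_single, map_zsmul]

theorem res2_pos (f g : Polynomial A) : res2 (incPos A f) (incPos A g) = 0 := by
  rw [res2_eq]
  induction f using Polynomial.induction_on' with
  | add a b ha hb => simp only [add_mul, map_add, ha, hb, add_zero]
  | monomial n r =>
    induction g using Polynomial.induction_on' with
    | add a b ha hb => simp only [mul_add, map_add, ha, hb, add_zero]
    | monomial m s =>
      rw [incPos, Polynomial.toLaurent_C_mul_T, Polynomial.toLaurent_C_mul_T, ← single_eq_C_mul_T,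
        ← single_eq_C_mul_T, th_single, single_mul_single, c0_single]
      split_ifs with h
      · rw [show (n : ℤ) = 0 by omega, zero_smul, zero_mul]
      · rfl

variable {ι κ μ : Type} [Fintype ι] [Fintype κ] [Fintype μ]

theorem lres_eq (b : Matrix ι κ (LaurentPolynomial A)) (a : Matrix κ ι (LaurentPolynomial A)) :
    lres b a = c0 (b.map th * a).trace := by
  simp only [lres, res2_eq, trace, diag_apply, Matrix.mul_apply, Matrix.map_apply, map_sum]

omit [Fintype ι] [Fintype μ] in
theorem map_th_mul (b : Matrix ι κ (LaurentPolynomial A)) (a : Matrix κ μ (LaurentPolynomial A)) :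
    (b * a).map th = b.map th * a + b * a.map th := by
  ext1 i j
  simp only [Matrix.mul_apply, Matrix.map_apply, Matrix.add_apply, map_sum, th_mul, Finset.sum_add_distrib]

theorem trace_comm {V : Type u} [AddCommGroup V] (τ : A →+ V) (h : ∀ x y, τ (x * y) = τ (y * x))
    (b : Matrix ι κ (LaurentPolynomial A)) (a : Matrix κ ι (LaurentPolynomial A)) :
    τ (c0 (b * a).trace) = τ (c0 (a * b).trace) := by
  simp only [trace, diag_apply, Matrix.mul_apply, map_sum]
  rw [Finset.sum_comm]
  exact Finset.sum_congr rfl fun _ _ => Finset.sum_congr rfl fun _ _ => c0_comm τ h _ _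

theorem key {R : Type*} [Ring R] {m : ℕ} {X t s : R} (h : X * X = m • X) (ht : t * X = X * t)
    (e : t * s = 1) : (m • 1 + X * (t - 1)) * (m • 1 + X * (s - 1)) = (m * m) • 1 ∧
      X * t * (m • 1 + X * (s - 1)) = m • X := by
  have k : X * t * X = m • (X * t) := by rw [mul_assoc, ht, ← mul_assoc, h, smul_mul_assoc]
  have l : X * t * (m • 1 + X * (s - 1)) = m • X := by
    rw [mul_add, ← mul_assoc, k, smul_mul_assoc, mul_smul_comm, mul_one, ← smul_add, mul_sub,
      mul_assoc X t s, e, mul_one, mul_one, add_sub_cancel]
  refine ⟨?_, l⟩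
  rw [add_mul, mul_sub X t, mul_one, sub_mul, l, mul_add X, ← mul_assoc X X, h, smul_mul_assoc,
    smul_mul_assoc, one_mul, mul_smul_comm, mul_one, smul_add, smul_smul]
  abel

end LRES

open LRES in
theorem stLRES : St_LRES.{u} := by
  intro A _ ι κ μ _ _ _ _
  refine ⟨fun V _ τ h b₁ b₂ c => ?_, fun b a n => ?_, fun A' _ f b a => ?_,
    fun κ' _ b a b' a' => ?_, fun a => ?_, fun b a => ?_, fun m x h => ?_⟩
  · rw [lres_eq, lres_eq, lres_eq, map_th_mul, Matrix.add_mul, trace_add, map_add, map_add,
      Matrix.mul_assoc, Matrix.mul_assoc b₁, trace_comm τ h b₁, Matrix.mul_assoc]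
  · rw [lres_eq, lres_eq, Matrix.mul_smul, trace_smul, map_nsmul]
  · simp only [lres, res2_eq, Matrix.map_apply, th_lau, ← map_mul, c0_lau, map_sum]
  · simp [lres, Fintype.sum_sum_type, res2_eq]
  · have : (1 : Matrix ι ι (LaurentPolynomial A)).map th = 0 := by
      ext1 i j
      simp only [Matrix.map_apply, Matrix.one_apply, Matrix.zero_apply]
      split_ifs
      exacts [th_one, map_zero _]
    rw [lres_eq, this, Matrix.zero_mul, trace_zero, map_zero]
  · simp only [lres, Matrix.map_apply, res2_pos, Finset.sum_const_zero]
  · have hX : x.map (C : A →+* LaurentPolynomial A) * x.map C = m • x.map C := by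
      rw [← Matrix.map_mul, h, map_nsmul']
    have hc : ∀ n : ℤ, scalar ι (T n : LaurentPolynomial A) * x.map C = x.map C * scalar ι (T n) :=
      fun n => (scalar_commute _ (commute_T n) _).eq
    have e : ∀ n : ℤ, scalar ι (T n : LaurentPolynomial A) * scalar ι (T (-n)) = 1 := fun n => by
      rw [← map_mul, ← T_add, add_neg_cancel, T_zero, map_one]
    have hu : uMat m x = m • 1 + x.map C * (scalar ι (T 1) - 1) := by
      rw [uMat, ← map_one (scalar ι), ← map_sub, map_one]
      congr 1
      ext1 i j
      simp only [scalar_apply, mul_diagonal, Matrix.map_apply]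
    have ht : (uMat m x).map th = x.map C * scalar ι (T 1) := by
      ext1 i j
      simp only [uMat, scalar_apply, mul_diagonal, Matrix.map_apply, Matrix.add_apply, Matrix.smul_apply, map_add,
        map_nsmul, th_mul, th_C, map_sub, th_T, th_one, zero_mul, zero_add, sub_zero, Matrix.one_apply]
      split_ifs
      · rw [th_one, smul_zero, zero_add]
      · rw [map_zero, smul_zero, zero_add]
    refine ⟨m • 1 + x.map C * (scalar ι (T (-1)) - 1), ?_, ?_, ?_⟩
    · rw [hu, (key hX (hc 1) (e 1)).1]
    · rw [hu, (key hX (hc (-1)) (by have := e (-1); rwa [neg_neg] at this)).1]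
    · rw [lres_eq, ht, (key hX (hc 1) (e 1)).2, trace_smul, map_nsmul]
      congr 1
      simp [trace, c0_apply]

end Pool.Agent.Lib.KM1
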