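import Pool.Agent.Lib.KM1.Blue

namespace Pool.Agent.Lib.KM1

open Matrix

universe u

namespace MAIN

theorem tors {A : Type u} [AddCommGroup A] (a : A) (h : ∀ l : A →+ ℚ, l a = 0) :
    IsOfFinAddOrder a := by
  by_contra hn
  have hinj : Function.Injective (zmultiplesHom A a) := by
    intro m n hmn
    exact (injective_zsmul_iff_not_isOfFinAddOrder.2 hn) hmn
  obtain ⟨l, hl⟩ := (Module.Baer.of_divisible ℚ).extension_property_addMonoidHom
    (zmultiplesHom A a) hinj (Int.castAddHom ℚ)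
  have := DFunLike.congr_fun hl 1
  simp [h] at this

theorem moeb {F : Type*} [CommRing F] (M : ℕ) (hM : 0 < M) (f : ℕ → F) :
    ∑ k ∈ (Finset.range M).filter (fun k => k.Coprime M), f k =
      ∑ d ∈ M.divisors, (ArithmeticFunction.moebius d : F) *
        ∑ j ∈ Finset.range (M / d), f (d * j) := by
  have key : ∀ n : ℕ, ∑ d ∈ n.divisors, (ArithmeticFunction.moebius d : F) =
      if n = 1 then 1 else 0 := by
    intro n
    have := congrArg (fun f : ArithmeticFunction ℤ => ((f n : ℤ) : F))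
      ArithmeticFunction.moebius_mul_coe_zeta
    simp only [ArithmeticFunction.coe_mul_zeta_apply, ArithmeticFunction.one_apply] at this
    push_cast at this
    exact this
  have h1 : ∀ d ∈ M.divisors, ∑ j ∈ Finset.range (M / d), f (d * j) =
      ∑ k ∈ Finset.range M, if d ∣ k then f k else 0 := by
    intro d hd
    obtain ⟨e, rfl⟩ := Nat.dvd_of_mem_divisors hd
    have hd0 : 0 < d := Nat.pos_of_mul_pos_right hM
    rw [Nat.mul_div_cancel_left _ hd0, ← Finset.sum_filter]
    refine Finset.sum_bij (fun j _ => d * j) ?_ ?_ ?_ ?_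
    · intro j hj
      simp only [Finset.mem_range, Finset.mem_filter] at hj ⊢
      exact ⟨Nat.mul_lt_mul_of_pos_left hj hd0, Dvd.intro _ rfl⟩
    · intro a _ b _ h
      exact Nat.eq_of_mul_eq_mul_left hd0 h
    · intro k hk
      simp only [Finset.mem_range, Finset.mem_filter] at hk
      obtain ⟨hk, j, rfl⟩ := hk
      exact ⟨j, Finset.mem_range.2 (Nat.lt_of_mul_lt_mul_left hk), rfl⟩
    · intro j _; rfl
  have h0 : ∑ d ∈ M.divisors, (ArithmeticFunction.moebius d : F) *
        ∑ j ∈ Finset.range (M / d), f (d * j) = ∑ d ∈ M.divisors, ∑ k ∈ Finset.range M,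
          (ArithmeticFunction.moebius d : F) * (if d ∣ k then f k else 0) :=
    Finset.sum_congr rfl (fun d hd => by rw [h1 d hd, Finset.mul_sum])
  rw [h0, Finset.sum_comm, Finset.sum_filter]
  refine Finset.sum_congr rfl fun k _ => ?_
  have h2 : ∑ d ∈ M.divisors, (ArithmeticFunction.moebius d : F) * (if d ∣ k then f k else 0) =
      (∑ d ∈ (Nat.gcd k M).divisors, (ArithmeticFunction.moebius d : F)) * f k := by
    rw [Finset.sum_mul]
    simp only [mul_ite, mul_zero]
    rw [← Finset.sum_filter]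
    refine Finset.sum_congr ?_ fun _ _ => rfl
    ext d
    simp only [Finset.mem_filter, Nat.mem_divisors, Nat.dvd_gcd_iff, ne_eq, Nat.gcd_eq_zero_iff]
    constructor
    · rintro ⟨⟨h1, h2⟩, h3⟩; exact ⟨⟨h3, h1⟩, fun h => h2 h.2⟩
    · rintro ⟨⟨h1, h2⟩, _⟩; exact ⟨⟨h2, hM.ne'⟩, h1⟩
  rw [h2, key]
  by_cases hc : k.Coprime M
  · rw [if_pos hc, if_pos hc, one_mul]
  · rw [if_neg hc, if_neg hc, zero_mul]

variable {G : Type u} [Group G]

theorem hs_eq_mapDomain {k : Type} [CommRing k] (n : ℕ) (r : MonoidAlgebra k G) :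
    hs n r = Finsupp.mapDomain (fun c : ConjClasses G => ConjClasses.mk (c.out ^ n)) (hs 1 r) := by
  induction r using MonoidAlgebra.induction_linear with
  | zero => simp
  | add a b ha hb => rw [map_add, map_add, Finsupp.mapDomain_add, ha, hb]
  | single g c =>
    rw [hs_single, hs_single, Finsupp.mapDomain_single, pow_one]
    congr 1
    rw [ConjClasses.mk_eq_mk_iff_isConj]
    refine IsConj.pow n ?_
    exact ConjClasses.mk_eq_mk_iff_isConj.1 (Quotient.out_eq (ConjClasses.mk g)).symm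

theorem hs_grp {k : Type} [CommRing k] {H : Type u} [Group H] (φ : H →* G) (h : H) (c : k) :
    hs 1 (grp k φ (MonoidAlgebra.single h c)) = Finsupp.single (ConjClasses.mk (φ h)) c := by
  have : grp k φ (MonoidAlgebra.single h c) = MonoidAlgebra.single (φ h) c :=
    MonoidAlgebra.mapDomain_single
  rw [this, hs_single, pow_one]

/-- Families of rational numbers with sum zero. -/
def Good (P : Finset Nat.Primes) (a : ∀ p : Nat.Primes, ℚ_[p]) : Prop :=
  ∃ ρ : Nat.Primes → ℚ, (∀ p ∈ P, (ρ p : ℚ_[p]) = a p) ∧ ∑ p ∈ P, ρ p = 0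

theorem Good.zero (P : Finset Nat.Primes) : Good P (fun _ => 0) := ⟨0, by simp, by simp⟩

theorem Good.add {P : Finset Nat.Primes} {a b : ∀ p : Nat.Primes, ℚ_[p]} (ha : Good P a)
    (hb : Good P b) : Good P (fun p => a p + b p) := by
  obtain ⟨ρ, h1, h2⟩ := ha
  obtain ⟨σ, h3, h4⟩ := hb
  exact ⟨ρ + σ, fun p hp => by simp [h1 p hp, h3 p hp], by simp [Finset.sum_add_distrib, h2, h4]⟩

theorem Good.mul {P : Finset Nat.Primes} {a : ∀ p : Nat.Primes, ℚ_[p]} (ha : Good P a) (q : ℚ) :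
    Good P (fun p => (q : ℚ_[p]) * a p) := by
  obtain ⟨ρ, h1, h2⟩ := ha
  exact ⟨fun p => q * ρ p, fun p hp => by simp [h1 p hp], by simp [← Finset.mul_sum, h2]⟩

theorem Good.sum {P : Finset Nat.Primes} {ι : Type*} (s : Finset ι)
    (a : ι → ∀ p : Nat.Primes, ℚ_[p]) (h : ∀ i ∈ s, Good P (a i)) :
    Good P (fun p => ∑ i ∈ s, a i p) := by
  classical
  induction s using Finset.induction_on with
  | empty => simpa using Good.zero P
  | insert i s hi ih =>
    simp only [Finset.sum_insert hi]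
    exact (h i (Finset.mem_insert_self _ _)).add
      (ih fun j hj => h j (Finset.mem_insert_of_mem hj))

theorem Good.congr {P : Finset Nat.Primes} {a b : ∀ p : Nat.Primes, ℚ_[p]} (ha : Good P a)
    (h : ∀ p ∈ P, a p = b p) : Good P b := by
  obtain ⟨ρ, h1, h2⟩ := ha
  exact ⟨ρ, fun p hp => (h1 p hp).trans (h p hp), h2⟩

/-- The arithmetic end of the proof. -/
theorem avg (hVAN : St_VAN.{u}) (P : Finset Nat.Primes) (r : MonoidAlgebra ℚ G)
    (hr : ∀ l : Nat.Primes, l ∉ P → hs l.1 r = hs 1 r)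
    (ω : ∀ p : Nat.Primes, ConjClasses G → ℚ_[p])
    (hω0 : ∀ p g, ¬ IsOfFinOrder g → ω p (ConjClasses.mk g) = 0)
    (hω : ∀ (g : G) (L : ℕ), 0 < L → g ^ L = 1 → (∀ q : Nat.Primes, q.1 ∣ L → q ∈ P) →
      Good P (fun p => ∑ j ∈ Finset.range L, ω p (ConjClasses.mk (g ^ j))))
    (Λ : Nat.Primes → ℚ)
    (hΛ : ∀ p ∈ P, (Λ p : ℚ_[p]) = (hs 1 r).sum (fun c a => (a : ℚ_[p]) * ω p c)) :
    ∑ p ∈ P, Λ p = 0 := by
  classical
  set rb := hs 1 r with hrb
  let M : ℕ := (∏ c ∈ rb.support, if IsOfFinOrder c.out then orderOf c.out else 1) *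
    ∏ p ∈ P, p.1
  have hM : 0 < M := by
    refine Nat.mul_pos (Finset.prod_pos fun c _ => ?_) (Finset.prod_pos fun p _ => p.2.pos)
    split_ifs with h
    · exact h.orderOf_pos
    · exact one_pos
  have hpow : ∀ c ∈ rb.support, IsOfFinOrder c.out → c.out ^ M = 1 := by
    intro c hc hf
    rw [← orderOf_dvd_iff_pow_eq_one]
    refine Dvd.dvd.mul_right ?_ _
    have := Finset.dvd_prod_of_mem
      (fun c : ConjClasses G => if IsOfFinOrder c.out then orderOf c.out else 1) hc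
    simpa [hf] using this
  have hP : ∀ q : Nat.Primes, q.1 ∣ M → q ∈ P := by
    intro q hq
    by_contra hn
    rcases (Nat.Prime.dvd_mul q.2).1 hq with h | h
    · obtain ⟨c, hc, hd⟩ := (Prime.dvd_finsetProd_iff q.2.prime _).1 h
      split_ifs at hd with hf
      · have := (hVAN ℚ G r).2 q.1 q.2 (hr q hn) c.out hf hd
        rw [show ConjClasses.mk c.out = c from Quotient.out_eq c] at this
        exact Finsupp.mem_support_iff.1 hc this
      · exact q.2.one_lt.ne' (Nat.dvd_one.1 hd)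
    · obtain ⟨p, hp, hd⟩ := (Prime.dvd_finsetProd_iff q.2.prime _).1 h
      have : q = p := Subtype.ext ((Nat.prime_dvd_prime_iff_eq q.2 p.2).1 hd)
      exact hn (this ▸ hp)
  have hk : ∀ k : ℕ, k ≠ 0 → k.Coprime M → hs k r = hs 1 r := by
    intro k
    induction k using induction_on_primes with
    | zero => intro h; exact absurd rfl h
    | one => intro _ _; rfl
    | prime_mul p a hp ih =>
      intro h0 hc
      refine (hVAN ℚ G r).1 p a (hr ⟨p, hp⟩ fun hp' => ?_)
        (ih (right_ne_zero_of_mul h0) (Nat.Coprime.coprime_mul_left hc))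
      have h1 : p ∣ M := Dvd.dvd.mul_left (Finset.dvd_prod_of_mem (fun p : Nat.Primes => p.1) hp') _
      have h2 : p.Coprime M := Nat.Coprime.coprime_mul_right hc
      exact (Nat.Prime.coprime_iff_not_dvd hp).1 h2 h1
  let K := (Finset.range M).filter (fun k => k.Coprime M)
  have hK : K.Nonempty := by
    refine ⟨1 % M, Finset.mem_filter.2 ⟨Finset.mem_range.2 (Nat.mod_lt _ hM), ?_⟩⟩
    rw [Nat.Coprime, ← Nat.gcd_rec, Nat.gcd_one_right]
  have h1 : ∀ p ∈ P, ∀ k ∈ K, (Λ p : ℚ_[p]) =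
      ∑ c ∈ rb.support, (rb c : ℚ_[p]) * ω p (ConjClasses.mk (c.out ^ (k + M))) := by
    intro p hp k hkK
    have hc : (k + M).Coprime M := by
      simpa using (Finset.mem_filter.1 hkK).2
    have h5 : rb = Finsupp.mapDomain
        (fun c : ConjClasses G => ConjClasses.mk (c.out ^ (k + M))) rb :=
      (hk (k + M) (by omega) hc).symm.trans (hs_eq_mapDomain _ r)
    have h6 := congrArg (fun f : ConjClasses G →₀ ℚ => f.sum (fun c a => (a : ℚ_[p]) * ω p c)) h5
    rw [Finsupp.sum_mapDomain_index (by simp) (by intro c a b; push_cast; ring)] at h6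
    exact (hΛ p hp).trans h6
  have h2 : Good P (fun p => ∑ c ∈ rb.support, (rb c : ℚ_[p]) *
      ∑ k ∈ K, ω p (ConjClasses.mk (c.out ^ (k + M)))) := by
    refine Good.sum _ _ fun c hc => Good.mul ?_ _
    by_cases hf : IsOfFinOrder c.out
    · have hcM := hpow c hc hf
      have : Good P (fun p => ∑ d ∈ M.divisors, ((ArithmeticFunction.moebius d : ℚ) : ℚ_[p]) *
          ∑ j ∈ Finset.range (M / d), ω p (ConjClasses.mk ((c.out ^ d) ^ j))) := by
        refine Good.sum _ _ fun d hd => Good.mul ?_ _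
        have hdM := Nat.dvd_of_mem_divisors hd
        refine hω _ _ (Nat.div_pos (Nat.le_of_dvd hM hdM) (Nat.pos_of_dvd_of_pos hdM hM)) ?_
          fun q hq => hP q (hq.trans (Nat.div_dvd_of_dvd hdM))
        rw [← pow_mul, Nat.mul_div_cancel' hdM, hcM]
      refine this.congr fun p _ => ?_
      have h3 := moeb M hM (fun k => ω p (ConjClasses.mk (c.out ^ k)))
      simp only [pow_add, hcM, mul_one, ← pow_mul]
      rw [h3]
      push_cast
      rfl
    · refine (Good.zero P).congr fun p _ => (Finset.sum_eq_zero fun k _ => hω0 p _ ?_).symm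
      rw [isOfFinOrder_pow]
      rintro (h | h)
      · exact hf h
      · omega
  obtain ⟨ρ, hρ, hs0⟩ := h2
  have h3 : ∀ p ∈ P, ρ p = K.card * Λ p := by
    intro p hp
    apply Rat.cast_injective (α := ℚ_[p])
    rw [hρ p hp]
    simp only [Finset.mul_sum]
    rw [Finset.sum_comm, ← Finset.sum_congr rfl (h1 p hp)]
    simp
  rw [Finset.sum_congr rfl h3, ← Finset.mul_sum] at hs0
  exact (mul_eq_zero.1 hs0).resolve_left (Nat.cast_ne_zero.2 hK.card_pos.ne')

theorem sum_congr' {F : Type} [Field F] {α : Type*} (f g : α →₀ F) (ω : α → F)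
    (h : ∀ c, f c * ω c = g c * ω c) :
    f.sum (fun c a => a * ω c) = g.sum (fun c a => a * ω c) := by
  classical
  rw [Finsupp.sum_of_support_subset f (Finset.subset_union_left (s₂ := g.support)) _ (by simp),
    Finsupp.sum_of_support_subset g (Finset.subset_union_right (s₁ := f.support)) _ (by simp)]
  exact Finset.sum_congr rfl fun c _ => h c

theorem sq_cz (p : ℕ) [Fact p.Prime] {H : Type u} [Group H] (φ : H →* G) :
    (cz p G).comp (grp ℤ φ) = (grp ℤ_[p] φ).comp (cz p H) :=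
  MonoidAlgebra.mapRingHom_comp_mapDomainRingHom _ _

theorem sq_cq (p : ℕ) [Fact p.Prime] {H : Type u} [Group H] (φ : H →* G) :
    (cq p G).comp (grp ℤ_[p] φ) = (grp ℚ_[p] φ).comp (cq p H) :=
  MonoidAlgebra.mapRingHom_comp_mapDomainRingHom _ _

end MAIN

open MAIN in
theorem stMAIN (hAN2 : St_AN2.{u}) (hPD : St_PD.{u}) (hPDN : St_PDN.{u}) (hSUR : St_SUR.{u})
    (hR1 : St_R1.{u}) (hR2 : St_R2.{u}) (hVAN : St_VAN.{u}) (hTRIV : St_TRIV.{u})
    (hCORE : St_CORE.{u}) (hREP : St_REP.{u}) : St_MAIN.{u} := by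
  classical
  intro G _ x hx
  have hex : ∀ (Γ : Type u) [Group Γ] (p : Nat.Primes),
      ∃ D : K0 (MonoidAlgebra ℚ_[p] Γ) →+ Kneg (MonoidAlgebra ℤ Γ),
        IsPD p.1 (cz p Γ) (cq p Γ) D := fun Γ _ p =>
    hPD p.1 _ _ _ _ _ (hAN2 p.1 Γ).1 (hAN2 p.1 Γ).2.1
  choose D hD using hex
  have nat : ∀ (Γ Γ' : Type u) [Group Γ] [Group Γ'] (φ : Γ →* Γ') (p : Nat.Primes) y,
      Kneg.map (grp ℤ φ) (D Γ p y) = D Γ' p (K0.map (grp ℚ_[p] φ) y) := fun Γ Γ' _ _ φ p y =>
    (hPDN p.1 _ _ _ _ _ _ (hAN2 p.1 Γ).1 (hAN2 p.1 Γ).2.1 (hD Γ p)).2 _ _ _ _ _ _ _ _ _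
      (hAN2 p.1 Γ').1 (hAN2 p.1 Γ').2.1 (hD Γ' p) (sq_cz p φ) (sq_cq p φ) y
  refine tors x fun lam => ?_
  let L : ∀ H : FinSub G, Kneg (MonoidAlgebra ℤ H.1) →+ ℚ := fun H =>
    lam.comp ((QuotientAddGroup.mk' (colimRel G)).comp
      (DirectSum.of (fun H : FinSub G => Kneg (MonoidAlgebra ℤ H.1)) H))
  have hL : ∀ (H K : FinSub G) (g : G) (φ : H.1 →* K.1), (∀ h : H.1, (φ h : G) = g * h * g⁻¹) →
      ∀ y, L K (Kneg.map (grp ℤ φ) y) = L H y := by
    intro H K g φ hφ y
    simp only [L, AddMonoidHom.comp_apply, QuotientAddGroup.mk'_apply]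
    congr 1
    symm
    rw [QuotientAddGroup.eq_iff_sub_mem]
    exact AddSubgroup.subset_closure ⟨H, K, g, φ, y, hφ, rfl⟩
  let l : ∀ (p : Nat.Primes) (H : FinSub G), K0 (MonoidAlgebra ℚ_[p] H.1) →+ ℚ := fun p H =>
    (L H).comp (D H.1 p)
  have hω : ∀ p : Nat.Primes, ∃ ω : ConjClasses G → ℚ_[p], _ := fun p =>
    hREP ℚ_[p] G (l p) (fun H K g φ hφ y => by
      simp only [l, AddMonoidHom.comp_apply]
      rw [← nat, hL H K g φ hφ])
  choose ω hω1 hω2 hω3 using hω
  have hreg : ∀ (p : Nat.Primes) (g : G), IsOfFinOrder g → ¬ p.1 ∣ orderOf g →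
      ω p (ConjClasses.mk g) = 0 := by
    intro p g hg hp
    let H : FinSub G := ⟨Subgroup.zpowers g, Set.finite_coe_iff.2 hg.finite_zpowers⟩
    refine hω3 p H ?_ g (Subgroup.mem_zpowers g)
    refine AddMonoidHom.ext fun y => ?_
    have : Finite H.1 := H.2
    obtain ⟨y', rfl⟩ := hR1 p.1 H.1 (by rwa [Nat.card_zpowers]) y
    simp only [l, AddMonoidHom.comp_apply]
    rw [(hPDN p.1 _ _ _ _ _ _ (hAN2 p.1 H.1).1 (hAN2 p.1 H.1).2.1 (hD H.1 p)).1 y', map_zero]
    rfl
  obtain ⟨x0, rfl⟩ := QuotientAddGroup.mk_surjective x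
  have key : ∀ x0 : Src G, ∃ (P : Finset Nat.Primes)
      (y : ∀ p : Nat.Primes, K0 (MonoidAlgebra ℚ_[p] G)) (Λ : Nat.Primes → ℚ),
      (∀ p, p ∉ P → y p = 0 ∧ Λ p = 0) ∧ sumMap G x0 = ∑ p ∈ P, D G p (y p) ∧
      lam (QuotientAddGroup.mk x0) = ∑ p ∈ P, Λ p ∧
      ∀ p : Nat.Primes, (Λ p : ℚ_[p]) = (hsK ℚ_[p] G (y p)).sum (fun c a => a * ω p c) := by
    intro x0
    induction x0 using DirectSum.induction_on with
    | zero => exact ⟨∅, 0, 0, by simp, by simp, by simp, by simp⟩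
    | of H w =>
      have : Finite H.1 := H.2
      obtain ⟨P, y, rfl⟩ := hSUR H.1 (D H.1) (hD H.1) w
      refine ⟨P, fun p => if p ∈ P then K0.map (grp ℚ_[p] H.1.subtype) (y p) else 0,
        fun p => if p ∈ P then l p H (y p) else 0, fun p hp => by simp [hp], ?_, ?_, fun p => ?_⟩
      · rw [sumMap, DirectSum.toAddMonoid_of, map_sum]
        exact Finset.sum_congr rfl fun p hp => by simp only [if_pos hp]; rw [nat]
      · change L H _ = _
        rw [map_sum]
        exact Finset.sum_congr rfl fun p hp => by simp only [if_pos hp]; rfl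
      · by_cases hp : p ∈ P
        · simp only [if_pos hp]; exact hω1 p H (y p)
        · simp [hp]
    | add a b ha hb =>
      obtain ⟨P, y, Λ, h0, h1, h2, h3⟩ := ha
      obtain ⟨P', y', Λ', h0', h1', h2', h3'⟩ := hb
      refine ⟨P ∪ P', fun p => y p + y' p, fun p => Λ p + Λ' p, fun p hp => ?_, ?_, ?_,
        fun p => ?_⟩
      · rw [Finset.mem_union, not_or] at hp
        simp [h0 p hp.1, h0' p hp.2]
      · simp only [map_add, Finset.sum_add_distrib, h1, h1']
        congr 1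
        · exact Finset.sum_subset Finset.subset_union_left fun p _ hp => by simp [h0 p hp]
        · exact Finset.sum_subset Finset.subset_union_right fun p _ hp => by simp [h0' p hp]
      · rw [QuotientAddGroup.mk_add, map_add, h2, h2', Finset.sum_add_distrib]
        congr 1
        · exact Finset.sum_subset Finset.subset_union_left fun p _ hp => (h0 p hp).2
        · exact Finset.sum_subset Finset.subset_union_right fun p _ hp => (h0' p hp).2
      · rw [map_add, Finsupp.sum_add_index' (by simp) (by intro c a b; ring), ← h3, ← h3']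
        push_cast
        rfl
  obtain ⟨P, y, Λ, -, h1, h2, h3⟩ := key x0
  obtain ⟨w, E, hw, hT, hE⟩ := hTRIV G (D G) (hD G) P y
  have hw0 : w ∈ halves (MonoidAlgebra ℤ G) := by
    rw [← QuotientAddGroup.eq_zero_iff, hw, ← h1]
    exact hx
  obtain ⟨r, hr1, hr2⟩ := hCORE G P w E hT hw0
  rw [h2]
  refine avg hVAN P r hr1 ω hω2 ?_ Λ ?_
  · intro g N hN hg hq
    have hf : IsOfFinOrder g := isOfFinOrder_iff_pow_eq_one.2 ⟨N, hN, hg⟩
    let H : FinSub G := ⟨Subgroup.zpowers g, Set.finite_coe_iff.2 hf.finite_zpowers⟩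
    let h : H.1 := ⟨g, Subgroup.mem_zpowers g⟩
    have hh : h ^ N = 1 := Subtype.ext hg
    obtain ⟨hid, hsum⟩ := hR2 H.1 h N hN hh
    refine ⟨fun p => N * l p H (cls (nrm ℚ_[p] h N)), fun p _ => ?_, ?_⟩
    · push_cast
      rw [hω1 p H, map_cls _ (hid ℚ_[p]), hsK_cls (idem_map _ (hid ℚ_[p]))]
      have hN' : (N : ℚ_[p]) ≠ 0 := Nat.cast_ne_zero.2 hN.ne'
      simp only [Matrix.trace, Matrix.diag, Finset.univ_unique, Finset.sum_singleton,
        Matrix.map_apply, nrm, map_sum, hs_grp]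
      rw [← Finsupp.sum_finsetSum_index (by simp) (by intro c a b; ring), Finset.mul_sum]
      refine Finset.sum_congr rfl fun j _ => ?_
      rw [Finsupp.sum_single_index (by simp), ← mul_assoc, mul_inv_cancel₀ hN', one_mul]
      rfl
    · rw [← Finset.mul_sum]
      have : ∑ p ∈ P, l p H (cls (nrm ℚ_[p] h N)) =
          L H (∑ p ∈ P, D H.1 p (cls (nrm ℚ_[p] h N))) := by rw [map_sum]; rfl
      rw [this, hsum (D H.1) (hD H.1) P hq, map_zero, mul_zero]
  · intro p hp
    rw [h3 p]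
    have h4 : (hs 1 r).sum (fun c a => (a : ℚ_[p]) * ω p c) =
        ((hs 1 r).mapRange (fun a : ℚ => (a : ℚ_[p])) (by simp)).sum (fun c a => a * ω p c) := by
      rw [Finsupp.sum_mapRange_index (by simp)]
    rw [h4]
    refine sum_congr' _ _ _ fun c => ?_
    obtain ⟨g, rfl⟩ := ConjClasses.mk_surjective c
    by_cases hf : IsOfFinOrder g
    · by_cases hd : p.1 ∣ orderOf g
      · have hne : ConjClasses.mk g ≠ ConjClasses.mk 1 := by
          rw [Ne, ConjClasses.mk_eq_mk_iff_isConj, isConj_one_left]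
          rintro rfl
          rw [orderOf_one] at hd
          exact p.2.one_lt.ne' (Nat.dvd_one.1 hd)
        rw [← hE p hp _ hne, hr2 p hp g hf hd, Finsupp.mapRange_apply]
      · rw [hreg p g hf hd, mul_zero, mul_zero]
    · rw [hω2 p g hf, mul_zero, mul_zero]

end Pool.Agent.Lib.KM1
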