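import Pool.Agent.Lib.KM1.Blue

/-! Block MP: splitting a lattice into its primary parts. -/

namespace Pool.Agent.Lib.KM1

open Matrix

universe u

namespace MP

variable {S : Type u} [Ring S] {ι κ : Type} [Fintype ι] [DecidableEq ι] [Fintype κ]

/-- A lattice for `a * b` with a Bezout relation. -/
structure ZL (a b k l : ℤ) (ε : Matrix κ κ S) (i : Matrix ι κ S) (j : Matrix κ ι S) : Prop where
  bez : k * a + l * b = 1
  idem : ε * ε = ε
  i_e : i * ε = i
  e_j : ε * j = j
  ij : i * j = (a * b) • (1 : Matrix ι ι S)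
  ji : j * i = (a * b) • ε

/-- The embedding of `P + a F`. -/
def i1 (a : ℤ) (i : Matrix ι κ S) : Matrix ι (κ ⊕ ι) S := fromCols i (a • 1)

/-- Multiplication by `a` from `F` to `P + a F`. -/
def j1 (a k l : ℤ) (j : Matrix κ ι S) : Matrix (κ ⊕ ι) ι S := fromRows (l • j) ((k * a) • 1)

/-- The inclusion of `P` in `P + a F`. -/
def n1 (b k l : ℤ) (ε : Matrix κ κ S) (i : Matrix ι κ S) : Matrix (κ ⊕ ι) κ S :=
  fromRows ((l * b) • ε) (k • i)

/-- Multiplication by `b` from `P + a F` to `P`. -/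
def r1 (b : ℤ) (ε : Matrix κ κ S) (j : Matrix κ ι S) : Matrix κ (κ ⊕ ι) S := fromCols (b • ε) j

/-- The idempotent of `P + a F`. -/
def e1 (a b k l : ℤ) (ε : Matrix κ κ S) (i : Matrix ι κ S) (j : Matrix κ ι S) :
    Matrix (κ ⊕ ι) (κ ⊕ ι) S := fromBlocks ((l * b) • ε) (l • j) (k • i) ((k * a) • 1)

variable {a b k l : ℤ} {ε : Matrix κ κ S} {i : Matrix ι κ S} {j : Matrix κ ι S}

theorem ZL.symm (H : ZL a b k l ε i j) : ZL b a l k ε i j :=
  ⟨by rw [add_comm, H.bez], H.idem, H.i_e, H.e_j, by rw [mul_comm b a, H.ij],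
    by rw [mul_comm b a, H.ji]⟩

theorem ZL.i1_j1 (H : ZL a b k l ε i j) : i1 a i * j1 a k l j = a • (1 : Matrix ι ι S) := by
  simp only [i1, j1, fromCols_mul_fromRows, Matrix.mul_smul, H.ij, Matrix.mul_one]
  linear_combination (norm := module) (a * H.bez) • (1 : Matrix ι ι S)

theorem ZL.j1_i1 (H : ZL a b k l ε i j) : j1 a k l j * i1 a i = a • e1 a b k l ε i j := by
  simp only [i1, j1, e1, fromRows_mul_fromCols, Matrix.mul_smul, Matrix.smul_mul, H.ji,
    Matrix.mul_one, Matrix.one_mul, fromBlocks_smul]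
  congr 1 <;> module

theorem ZL.i1_n1 (H : ZL a b k l ε i j) : i1 a i * n1 b k l ε i = i := by
  simp only [i1, n1, fromCols_mul_fromRows, Matrix.mul_smul, Matrix.smul_mul, H.i_e, Matrix.one_mul]
  linear_combination (norm := module) H.bez • i

theorem ZL.r1_n1 (H : ZL a b k l ε i j) : r1 b ε j * n1 b k l ε i = b • ε := by
  simp only [r1, n1, fromCols_mul_fromRows, Matrix.mul_smul, Matrix.smul_mul, H.idem, H.ji]
  linear_combination (norm := module) (b * H.bez) • ε

theorem ZL.n1_r1 (H : ZL a b k l ε i j) : n1 b k l ε i * r1 b ε j = b • e1 a b k l ε i j := by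
  simp only [r1, n1, e1, fromRows_mul_fromCols, Matrix.mul_smul, Matrix.smul_mul, H.idem, H.i_e,
    H.e_j, H.ij, fromBlocks_smul]
  congr 1 <;> module

theorem ZL.r1_j1 (H : ZL a b k l ε i j) : r1 b ε j * j1 a k l j = j := by
  simp only [r1, j1, fromCols_mul_fromRows, Matrix.mul_smul, Matrix.smul_mul, H.e_j, Matrix.mul_one]
  linear_combination (norm := module) H.bez • j

theorem ZL.cross (H : ZL a b k l ε i j) : j1 a k l j * i1 b i = n1 b k l ε i * r1 a ε j := by
  simp only [i1, j1, r1, n1, fromRows_mul_fromCols, Matrix.mul_smul, Matrix.smul_mul, H.idem, H.i_e,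
    H.e_j, H.ij, H.ji, Matrix.mul_one, Matrix.one_mul]
  congr 1 <;> module

theorem ZL.n1_e (H : ZL a b k l ε i j) : n1 b k l ε i * ε = n1 b k l ε i := by
  simp only [n1, fromRows_mul, Matrix.smul_mul, H.idem, H.i_e]

theorem ZL.e1_eq (H : ZL a b k l ε i j) :
    e1 a b k l ε i j = l • (n1 b k l ε i * r1 b ε j) + k • (j1 a k l j * i1 a i) := by
  rw [H.n1_r1, H.j1_i1]
  linear_combination (norm := module) (-H.bez) • e1 a b k l ε i j

theorem ZL.i1_e1 (H : ZL a b k l ε i j) : i1 a i * e1 a b k l ε i j = i1 a i := by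
  simp only [i1, e1, fromCols_mul_fromBlocks, Matrix.mul_smul, Matrix.smul_mul, H.i_e, H.ij,
    Matrix.one_mul]
  congr 1
  · linear_combination (norm := module) H.bez • i
  · linear_combination (norm := module) (a * H.bez) • (1 : Matrix ι ι S)

theorem ZL.e1_j1 (H : ZL a b k l ε i j) : e1 a b k l ε i j * j1 a k l j = j1 a k l j := by
  simp only [j1, e1, fromBlocks_mul_fromRows, Matrix.mul_smul, Matrix.smul_mul, H.e_j, H.ij,
    Matrix.mul_one]
  congr 1
  · linear_combination (norm := module) (l * H.bez) • j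
  · linear_combination (norm := module) (k * a * H.bez) • (1 : Matrix ι ι S)

theorem ZL.e1_n1 (H : ZL a b k l ε i j) : e1 a b k l ε i j * n1 b k l ε i = n1 b k l ε i := by
  simp only [n1, e1, fromBlocks_mul_fromRows, Matrix.mul_smul, Matrix.smul_mul, H.idem, H.ji, H.i_e,
    Matrix.one_mul]
  congr 1
  · linear_combination (norm := module) (l * b * H.bez) • ε
  · linear_combination (norm := module) (k * H.bez) • i

theorem ZL.e1_idem (H : ZL a b k l ε i j) :
    e1 a b k l ε i j * e1 a b k l ε i j = e1 a b k l ε i j := by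
  conv_lhs => rhs; rw [H.e1_eq]
  rw [Matrix.mul_add, Matrix.mul_smul, Matrix.mul_smul, ← Matrix.mul_assoc, ← Matrix.mul_assoc,
    H.e1_n1, H.e1_j1, ← H.e1_eq]

/-- `P ⊕ F ≅ (P + a F) ⊕ (P + b F)`. -/
theorem ZL.cls_eq (H : ZL a b k l ε i j) :
    cls ε + cls (1 : Matrix ι ι S) = cls (e1 a b k l ε i j) + cls (e1 b a l k ε i j) := by
  have h1 : (1 : Matrix ι ι S) * 1 = 1 := Matrix.one_mul _
  rw [← cls_blocks H.idem h1, ← cls_blocks H.e1_idem H.symm.e1_idem]
  refine cls_equiv (idem_blocks H.idem h1) (idem_blocks H.e1_idem H.symm.e1_idem)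
    ⟨fromBlocks (l • r1 b ε j) (-k • r1 a ε j) (i1 a i) (i1 b i),
      fromBlocks (n1 b k l ε i) (k • j1 a k l j) (-n1 a l k ε i) (l • j1 b l k j), ?_, ?_⟩
  · simp only [fromBlocks_multiply, Matrix.mul_smul, Matrix.smul_mul, Matrix.mul_neg, H.r1_n1,
      H.symm.r1_n1, H.r1_j1, H.symm.r1_j1, H.i1_n1, H.symm.i1_n1, H.i1_j1, H.symm.i1_j1]
    congr 1
    · linear_combination (norm := module) H.bez • ε
    · module
    · module
    · linear_combination (norm := module) H.bez • (1 : Matrix ι ι S)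
  · simp only [fromBlocks_multiply, Matrix.mul_smul, Matrix.smul_mul, Matrix.neg_mul, H.cross,
      H.symm.cross, H.n1_r1, H.symm.n1_r1, H.j1_i1, H.symm.j1_i1]
    congr 1
    · linear_combination (norm := module) H.bez • e1 a b k l ε i j
    · module
    · module
    · linear_combination (norm := module) H.bez • e1 b a l k ε i j

theorem ZL.lat {m : ℕ} (H : ZL m b k l ε i j) :
    Lat m (e1 m b k l ε i j) (i1 m i) (j1 m k l j) :=
  ⟨H.e1_idem, H.i1_e1, H.e1_j1, by rw [H.i1_j1, natCast_zsmul], by rw [H.j1_i1, natCast_zsmul]⟩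

/-- The inclusion `P ⊆ P + a F` is an isomorphism modulo `q` for `q` prime to `b`. -/
theorem ZL.iso {m q : ℕ} (H : ZL a m k l ε i j) (hq : q.Coprime m) {S' : Type u} [Ring S']
    (φ : S →+* S') {h : Matrix κ ι S'} (hh : IsoMod q (ε.map φ) h) :
    IsoMod q ((e1 a m k l ε i j).map φ) ((n1 m k l ε i).map φ * h) := by
  obtain ⟨h0, h', u, v, h1, h2⟩ := hh
  obtain ⟨r, t, hb⟩ := Nat.isCoprime_iff_coprime.2 hq
  have e1' := congrArg (fun M => M.map φ) H.n1_r1
  have e2 := congrArg (fun M => M.map φ) H.r1_n1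
  have e3 := congrArg (fun M => M.map φ) H.n1_e
  have e4 := congrArg (fun M => M.map φ) H.e1_n1
  simp only [Matrix.map_mul, natCast_zsmul, map_nsmul'] at e1' e2 e3 e4
  set N := (n1 m k l ε i).map φ
  set R := (r1 m ε j).map φ
  set E := (e1 a m k l ε i j).map φ
  refine ⟨by rw [← Matrix.mul_assoc, e4], t • (h' * R), t • (N * u * R) - r • E,
    v - r • (h' * h), ?_, ?_⟩
  · rw [Matrix.mul_smul, Matrix.mul_assoc, ← Matrix.mul_assoc h, h1, Matrix.add_mul, Matrix.mul_add,
      ← Matrix.mul_assoc, e3, e1', Matrix.smul_mul, Matrix.mul_smul, ← Matrix.mul_assoc]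
    linear_combination (norm := module) hb • E
  · rw [Matrix.smul_mul, Matrix.mul_assoc, ← Matrix.mul_assoc R, e2, Matrix.smul_mul, h0,
      Matrix.mul_smul]
    linear_combination (norm := module) hb • (h' * h) + h2

theorem ZL.rep (H : ZL a b k l ε i j) {S' : Type u} [Ring S'] (φ : S →+* S') (h : Matrix κ ι S') :
    (i1 a i).map φ * ((n1 b k l ε i).map φ * h) = i.map φ * h := by
  rw [← Matrix.mul_assoc, ← Matrix.map_mul, H.i1_n1]

end MP

open MP in
theorem stMP (hL : St_LAT1.{u}) : St_MP.{u} := by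
  classical
  intro S _ S' _ φ hφ _ P ι κ _ _
  induction P using Finset.induction_on generalizing κ with
  | empty =>
    intro _ m ε i j h hm hP H _
    obtain rfl : m = 1 := by
      by_contra h1
      obtain ⟨q, hq, hd⟩ := Nat.exists_prime_and_dvd h1
      exact Finset.notMem_empty _ (hP ⟨q, hq⟩ hd)
    refine ⟨?_, fun p hp => absurd hp (Finset.notMem_empty _)⟩
    rw [Finset.sum_empty, sub_eq_zero]
    exact cls_equiv (Matrix.one_mul _) H.idem
      ⟨i, j, by rw [H.ij, one_smul], by rw [H.ji, one_smul]⟩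
  | insert p P hp ih =>
    intro _ m ε i j h hm hP H hh
    obtain ⟨s, m', hd, rfl⟩ := Nat.exists_eq_pow_mul_and_not_dvd hm.ne' p.1 p.2.ne_one
    have hc : p.1.Coprime m' := (Nat.Prime.coprime_iff_not_dvd p.2).2 hd
    obtain ⟨k, l, hb⟩ := Nat.isCoprime_iff_coprime.2 (hc.pow_left s)
    have Z : ZL ((p.1 ^ s : ℕ) : ℤ) (m' : ℤ) k l ε i j :=
      ⟨hb, H.idem, H.i_e, H.e_j, by rw [H.ij, ← Nat.cast_mul, natCast_zsmul],
        by rw [H.ji, ← Nat.cast_mul, natCast_zsmul]⟩
    obtain ⟨h1, h2⟩ := (hL p.1 S (S' p) (φ p) (hφ p) ι (i.map (φ p) * h p)).2 _ _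
      ⟨s, _, _, _, Z.lat, Z.iso hc (φ p) (hh p (Finset.mem_insert_self _ _)), Z.rep _ _⟩
    obtain ⟨h3, h4⟩ := ih (κ ⊕ ι) m' _ _ _
      (fun q => (n1 ((p.1 ^ s : ℕ) : ℤ) l k ε i).map (φ q) * h q) (Nat.pos_of_mul_pos_left hm)
      (fun q hq => (Finset.mem_insert.1 (hP q (hq.mul_left _))).resolve_left
        fun e => hd (e ▸ hq)) Z.symm.lat
      (fun q hq => Z.symm.iso (((Nat.coprime_primes q.2 p.2).2 fun e =>
        hp (Subtype.ext e ▸ hq)).pow_right s) (φ q) (hh q (Finset.mem_insert_of_mem hq)))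
    simp only [Z.symm.rep] at h3 h4
    refine ⟨?_, fun q hq => ?_⟩
    · rw [Finset.sum_insert hp, h1, ← h3]
      linear_combination (norm := abel) -Z.cls_eq
    · rcases Finset.mem_insert.1 hq with rfl | hq
      exacts [h2, h4 q hq]

end Pool.Agent.Lib.KM1
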