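import Pool.Agent.Lib.KM1.Blue

/-! The boundary homomorphism `K₀(B) → K₋₁(A)`: existence, naturality and its image. -/

namespace Pool.Agent.Lib.KM1

open Matrix LaurentPolynomial

universe u

namespace PD

theorem ring_inv {R : Type*} [Ring R] (m : ℕ) (X t t' : R) (hX : X * X = m • X)
    (h1 : X * t = t * X) (ht : t * t' = 1) :
    (m • (1 : R) + X * (t - 1)) * (m • (1 : R) + X * (t' - 1)) = (m * m) • (1 : R) := by
  have h2 : X * (t - 1) * (X * (t' - 1)) = m • (X * ((t - 1) * (t' - 1))) := by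
    have : (t - 1) * X = X * (t - 1) := by rw [sub_mul, mul_sub, h1, one_mul, mul_one]
    rw [mul_assoc, ← mul_assoc (t - 1), this, ← mul_assoc, ← mul_assoc, hX, smul_mul_assoc,
      smul_mul_assoc, mul_assoc]
  have h3 : (t - 1) * (t' - 1) = -((t - 1) + (t' - 1)) := by
    rw [sub_mul, mul_sub, mul_sub, ht, mul_one, one_mul, one_mul]; abel
  rw [add_mul, mul_add, mul_add, h2, h3, smul_mul_assoc, smul_mul_assoc, one_mul, one_mul,
    mul_smul_comm, mul_one, mul_neg, mul_add, smul_neg, smul_add, mul_smul]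
  abel

variable {ι κ : Type} [Fintype ι] [DecidableEq ι] [Fintype κ] [DecidableEq κ]

/-- The scalar matrix of `Tⁿ`. -/
noncomputable def tM (A : Type u) [Ring A] (ι : Type) [DecidableEq ι] (n : ℤ) :
    Matrix ι ι (LaurentPolynomial A) := Matrix.diagonal (fun _ => T n)

theorem tM_comm {A : Type u} [Ring A] (n : ℤ) (M : Matrix ι ι (LaurentPolynomial A)) :
    M * tM A ι n = tM A ι n * M := by
  ext1 i j
  rw [tM, Matrix.mul_diagonal, Matrix.diagonal_mul, (LaurentPolynomial.commute_T n (M i j)).eq]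

theorem tM_mul {A : Type u} [Ring A] (n k : ℤ) (h : n + k = 0) : tM A ι n * tM A ι k = 1 := by
  rw [tM, tM, Matrix.diagonal_mul_diagonal, ← Matrix.diagonal_one]
  congr 1
  ext1 i
  rw [← T_add, h, T_zero]

theorem uMat_eq {A : Type u} [Ring A] (m : ℕ) (x : Matrix ι ι A) :
    uMat m x = m • (1 : Matrix ι ι (LaurentPolynomial A)) + x.map C * (tM A ι 1 - 1) := by
  rw [uMat]
  congr 1
  ext1 i j
  rw [Matrix.mul_sub, Matrix.mul_one, Matrix.sub_apply, tM, Matrix.mul_diagonal]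
  simp [mul_sub]

theorem uMat_inv {A : Type u} [Ring A] (m : ℕ) (x : Matrix ι ι A) (hx : x * x = m • x) :
    ∃ a' : Matrix ι ι (LaurentPolynomial A),
      uMat m x * a' = (m * m) • (1 : Matrix ι ι (LaurentPolynomial A)) ∧
      a' * uMat m x = (m * m) • (1 : Matrix ι ι (LaurentPolynomial A)) := by
  have hX : x.map (C : A →+* LaurentPolynomial A) * x.map C = m • x.map C := by
    rw [← Matrix.map_mul, hx, map_nsmul']
  refine ⟨m • 1 + x.map C * (tM A ι (-1) - 1), ?_, ?_⟩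
  · rw [uMat_eq]
    exact ring_inv m _ _ _ hX (tM_comm _ _) (tM_mul _ _ (by simp))
  · rw [uMat_eq]
    exact ring_inv m _ _ _ hX (tM_comm _ _) (tM_mul _ _ (by simp))

theorem pinv_uMat {A : Type u} [Ring A] (p s : ℕ) (x : Matrix ι ι A) (hx : x * x = p ^ s • x) :
    PInv p (uMat (p ^ s) x) := by
  obtain ⟨a', h1, h2⟩ := uMat_inv (p ^ s) x hx
  exact ⟨s + s, a', 0, 0, by simp [h1, pow_add], by simp [h2, pow_add]⟩

theorem uMat_scale {A : Type u} [Ring A] (k m : ℕ) (x : Matrix ι ι A) :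
    uMat (k * m) (k • x) = (k • (1 : Matrix ι ι (LaurentPolynomial A))) * uMat m x := by
  rw [uMat_eq, uMat_eq, map_nsmul', smul_mul_assoc, smul_mul_assoc, one_mul, smul_add, mul_smul]

omit [Fintype ι] [Fintype κ] in
theorem uMat_blocks {A : Type u} [Ring A] (m : ℕ) (x : Matrix ι ι A) (y : Matrix κ κ A) :
    uMat m (fromBlocks x 0 0 y) = fromBlocks (uMat m x) 0 0 (uMat m y) := by
  ext1 i j
  rcases i with i | i <;> rcases j with j | j <;>
    simp [uMat, Matrix.natCast_apply]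

omit [Fintype ι] in
theorem uMat_zero {A : Type u} [Ring A] (m : ℕ) :
    uMat m (0 : Matrix ι ι A) = m • (1 : Matrix ι ι (LaurentPolynomial A)) := by
  rw [uMat, Matrix.map_zero _ (by simp), add_zero]

theorem uMat_conj {A : Type u} [Ring A] (m : ℕ) (g x y : Matrix ι ι A) (h : g * x = y * g) :
    g.map C * uMat m x = uMat m y * g.map C := by
  have h1 : g.map (C : A →+* LaurentPolynomial A) * x.map C = y.map C * g.map C := by
    rw [← Matrix.map_mul, ← Matrix.map_mul, h]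
  have h2 : (tM A ι 1 - 1) * g.map (C : A →+* LaurentPolynomial A) =
      g.map C * (tM A ι 1 - 1) := by
    rw [sub_mul, mul_sub, tM_comm, one_mul, mul_one]
  rw [uMat_eq, uMat_eq, mul_add, add_mul, mul_smul_comm, smul_mul_assoc, mul_one, one_mul,
    ← mul_assoc, h1, mul_assoc, mul_assoc, h2]

omit [DecidableEq ι] [DecidableEq κ] in
theorem lift_mat {p : ℕ} {A B : Type u} [Ring A] [Ring B] {ψ : A →+* B} (hψ : PLoc p ψ)
    (M : Matrix ι κ B) : ∃ (s : ℕ) (x : Matrix ι κ A), x.map ψ = p ^ s • M := by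
  choose s x hx using fun q : ι × κ => hψ.surj (M q.1 q.2)
  refine ⟨Finset.univ.sup s, fun i j => p ^ (Finset.univ.sup s - s (i, j)) • x (i, j), ?_⟩
  ext i j
  have h : s (i, j) ≤ Finset.univ.sup s := Finset.le_sup (Finset.mem_univ _)
  rw [Matrix.map_apply, map_nsmul, hx, Matrix.smul_apply, ← mul_smul, ← pow_add,
    Nat.sub_add_cancel h]

omit [Fintype ι] [Fintype κ] [DecidableEq ι] [DecidableEq κ] in
theorem map_inj {p : ℕ} {A B : Type u} [Ring A] [Ring B] {ψ : A →+* B} (hψ : PLoc p ψ)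
    {x y : Matrix ι κ A} (h : x.map ψ = y.map ψ) : x = y := by
  ext i j
  exact hψ.inj (congrFun (congrFun h i) j)

omit [DecidableEq ι] in
theorem sq_of_lift {p s : ℕ} {A B : Type u} [Ring A] [Ring B] {ψ : A →+* B} (hψ : PLoc p ψ)
    {e : Matrix ι ι B} {x : Matrix ι ι A} (he : e * e = e) (hx : x.map ψ = p ^ s • e) :
    x * x = p ^ s • x :=
  map_inj hψ (by rw [Matrix.map_mul, map_nsmul', hx, smul_mul_assoc, mul_smul_comm, he])

/-- The class of `delta` in `K₋₁`. -/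
noncomputable def dl (p : ℕ) {A A' : Type u} [Ring A] [Ring A'] (φ : A →+* A')
    (a : Matrix ι ι (LaurentPolynomial A')) : Kneg A :=
  QuotientAddGroup.mk (delta p (lau φ) a)

section

variable (h1 : St_AN1.{u}) (h2 : St_LAT2.{u}) (h3 : St_NAT.{u})
variable {p : ℕ} {A A' B : Type u} [Ring A] [Ring A'] [Ring B] {φ : A →+* A'} {ψ : A' →+* B}

include h1 h2 in
theorem dl_mul (hφ : AnIso p φ) {a b : Matrix ι ι (LaurentPolynomial A')} (ha : PInv p a)
    (hb : PInv p b) : PInv p (a * b) ∧ dl p φ (a * b) = dl p φ a + dl p φ b := by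
  obtain ⟨h, h'⟩ := (h2 p _ _ (lau φ) (h1 p A A' φ hφ).1 ι ι).1 a b ha hb
  exact ⟨h, by rw [dl, h', QuotientAddGroup.mk_add]; rfl⟩

include h1 h2 in
theorem dl_blocks (hφ : AnIso p φ) {a : Matrix ι ι (LaurentPolynomial A')}
    {b : Matrix κ κ (LaurentPolynomial A')} (ha : PInv p a) (hb : PInv p b) :
    dl p φ (fromBlocks a 0 0 b) = dl p φ a + dl p φ b := by
  obtain ⟨-, h'⟩ := (h2 p _ _ (lau φ) (h1 p A A' φ hφ).1 ι κ).2.1 a b ha hb
  rw [dl, h', QuotientAddGroup.mk_add]; rfl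

include h1 h2 in
theorem dl_pow (hφ : AnIso p φ) (k : ℕ) :
    PInv p (p ^ k • (1 : Matrix ι ι (LaurentPolynomial A'))) ∧
      dl p φ (p ^ k • (1 : Matrix ι ι (LaurentPolynomial A'))) = 0 := by
  have h := (h2 p _ _ (lau φ) (h1 p A A' φ hφ).1 ι ι).2.2.2.1 k (p ^ k • 1) 1 (by simp) (by simp)
  rw [map_nsmul', map_one'] at h
  exact ⟨h.1, by rw [dl, h.2]; rfl⟩

include h1 h3 in
theorem dl_pos (hφ : AnIso p φ) {a : Matrix ι ι (Polynomial A')} (ha : PInv p a) :
    dl p φ (a.map (incPos A')) = 0 := by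
  have h := h3 p _ _ _ _ (Polynomial.mapRingHom φ) (lau φ) (incPos A) (incPos A')
    (h1 p A A' φ hφ).2 (h1 p A A' φ hφ).1 (lau_incPos φ) ι a ha
  rw [dl, ← h, QuotientAddGroup.eq_zero_iff]
  exact AddSubgroup.mem_sup_left ⟨_, rfl⟩

include h1 h3 in
theorem dl_neg (hφ : AnIso p φ) {a : Matrix ι ι (Polynomial A')} (ha : PInv p a) :
    dl p φ (a.map (incNeg A')) = 0 := by
  have h := h3 p _ _ _ _ (Polynomial.mapRingHom φ) (lau φ) (incNeg A) (incNeg A')
    (h1 p A A' φ hφ).2 (h1 p A A' φ hφ).1 (lau_incNeg φ) ι a ha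
  rw [dl, ← h, QuotientAddGroup.eq_zero_iff]
  exact AddSubgroup.mem_sup_right ⟨_, rfl⟩

include h1 h3 in
theorem dl_const (hφ : AnIso p φ) {g : Matrix ι ι A'} (hg : PInv p g) :
    dl p φ (g.map C) = 0 := by
  have h := dl_pos h1 h3 hφ (hg.map (Polynomial.C : A' →+* Polynomial A'))
  have e : (g.map (Polynomial.C : A' →+* Polynomial A')).map (incPos A') = g.map C := by
    ext1 i j
    simp [incPos_C]
  rwa [e] at h

include h1 h2 in
theorem dl_smul (hφ : AnIso p φ) (k : ℕ) {a : Matrix ι ι (LaurentPolynomial A')} (ha : PInv p a) :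
    dl p φ ((p ^ k • (1 : Matrix ι ι (LaurentPolynomial A'))) * a) = dl p φ a := by
  rw [(dl_mul h1 h2 hφ (dl_pow h1 h2 hφ k).1 ha).2, (dl_pow h1 h2 hφ k).2, zero_add]

include h1 h2 in
theorem dl_indep (hφ : AnIso p φ) (hψ : PLoc p ψ) {e : Matrix ι ι B} (he : e * e = e) {s s' : ℕ}
    {x x' : Matrix ι ι A'} (hx : x.map ψ = p ^ s • e) (hx' : x'.map ψ = p ^ s' • e) :
    dl p φ (uMat (p ^ s) x) = dl p φ (uMat (p ^ s') x') := by
  have h : p ^ s' • x = p ^ s • x' :=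
    map_inj hψ (by rw [map_nsmul', map_nsmul', hx, hx', smul_comm])
  rw [← dl_smul h1 h2 hφ s' (pinv_uMat p s x (sq_of_lift hψ he hx)),
    ← dl_smul h1 h2 hφ s (pinv_uMat p s' x' (sq_of_lift hψ he hx')), ← uMat_scale, ← uMat_scale,
    h, mul_comm]

omit [Fintype ι] [Fintype κ] [DecidableEq ι] [DecidableEq κ] in
theorem lift_up {e : Matrix ι κ B} {s : ℕ} {x : Matrix ι κ A'} (hx : x.map ψ = p ^ s • e) (k : ℕ) :
    (p ^ k • x).map ψ = p ^ (k + s) • e := by
  rw [map_nsmul', hx, pow_add, mul_smul]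

omit [Fintype ι] [Fintype κ] [DecidableEq ι] [DecidableEq κ] in
theorem lift_blocks {e : Matrix ι ι B} {f : Matrix κ κ B} {n : ℕ} {x : Matrix ι ι A'}
    {y : Matrix κ κ A'} (hx : x.map ψ = n • e) (hy : y.map ψ = n • f) :
    (fromBlocks x 0 0 y).map ψ = n • fromBlocks e 0 0 f := by
  rw [Matrix.fromBlocks_map, Matrix.fromBlocks_smul, hx, hy]
  simp

include h1 h2 in
theorem dl_add (hφ : AnIso p φ) (hψ : PLoc p ψ) {e : Matrix ι ι B} {f : Matrix κ κ B}
    (he : e * e = e) (hf : f * f = f) {s : ℕ} {x : Matrix ι ι A'} {y : Matrix κ κ A'}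
    (hx : x.map ψ = p ^ s • e) (hy : y.map ψ = p ^ s • f) :
    dl p φ (uMat (p ^ s) (fromBlocks x 0 0 y)) =
      dl p φ (uMat (p ^ s) x) + dl p φ (uMat (p ^ s) y) := by
  rw [uMat_blocks, dl_blocks h1 h2 hφ (pinv_uMat p s x (sq_of_lift hψ he hx))
    (pinv_uMat p s y (sq_of_lift hψ hf hy))]

include h1 h2 h3 in
theorem dl_equiv (hφ : AnIso p φ) (hψ : PLoc p ψ) {e : Matrix ι ι B} {f : Matrix κ κ B}
    (he : e * e = e) (hf : f * f = f) (hef : MEq e f) {s : ℕ} {x : Matrix ι ι A'}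
    {y : Matrix κ κ A'} (hx : x.map ψ = p ^ s • e) (hy : y.map ψ = p ^ s • f) :
    dl p φ (uMat (p ^ s) x) = dl p φ (uMat (p ^ s) y) := by
  obtain ⟨a, b, hab, hba, hea, haf, hfb, hbe⟩ := MEq.norm he hf hef
  obtain ⟨k, G, hG⟩ := lift_mat hψ (fromBlocks (1 - e) a b (1 - f))
  have hgg : fromBlocks (1 - e) a b (1 - f) * fromBlocks (1 - e) a b (1 - f) = 1 := by
    rw [Matrix.fromBlocks_multiply, ← Matrix.fromBlocks_one]
    simp [Matrix.mul_sub, Matrix.sub_mul, he, hf, hab, hba, hea, haf, hfb, hbe]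
  have hc : fromBlocks (1 - e) a b (1 - f) * fromBlocks e 0 0 (0 : Matrix κ κ B) =
      fromBlocks (0 : Matrix ι ι B) 0 0 f * fromBlocks (1 - e) a b (1 - f) := by
    rw [Matrix.fromBlocks_multiply, Matrix.fromBlocks_multiply]
    simp [Matrix.mul_sub, Matrix.sub_mul, he, hf, hfb, hbe]
  have z1 : (0 : Matrix κ κ A').map ψ = p ^ s • (0 : Matrix κ κ B) := by simp
  have z2 : (0 : Matrix ι ι A').map ψ = p ^ s • (0 : Matrix ι ι B) := by simp
  have hGG : G * G = p ^ (k + k) • (1 : Matrix (ι ⊕ κ) (ι ⊕ κ) A') :=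
    map_inj hψ (by
      rw [Matrix.map_mul, hG, smul_mul_assoc, mul_smul_comm, hgg, map_nsmul', map_one', pow_add,
        mul_smul])
  have hGp : PInv p G := ⟨k + k, G, 0, 0, by simp [hGG], by simp [hGG]⟩
  have hGc : G * fromBlocks x 0 0 (0 : Matrix κ κ A') = fromBlocks (0 : Matrix ι ι A') 0 0 y * G :=
    map_inj hψ (by
      rw [Matrix.map_mul, Matrix.map_mul, hG, lift_blocks hx z1, lift_blocks z2 hy, smul_mul_assoc,
        mul_smul_comm, smul_mul_assoc, mul_smul_comm, hc, smul_comm])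
  have hu := uMat_conj (p ^ s) _ _ _ hGc
  have p1 := pinv_uMat p s _ (sq_of_lift hψ (idem_blocks he (by simp)) (lift_blocks hx z1))
  have p2 := pinv_uMat p s _ (sq_of_lift hψ (idem_blocks (by simp) hf) (lift_blocks z2 hy))
  have hGC := hGp.map (C : A' →+* LaurentPolynomial A')
  have h := (dl_mul h1 h2 hφ hGC p1).2
  rw [hu, (dl_mul h1 h2 hφ p2 hGC).2, dl_const h1 h3 hφ hGp, add_zero, zero_add,
    dl_add h1 h2 hφ hψ (by simp) hf z2 hy, dl_add h1 h2 hφ hψ he (by simp) hx z1, uMat_zero,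
    uMat_zero, (dl_pow h1 h2 hφ s).2, (dl_pow h1 h2 hφ s).2, zero_add, add_zero] at h
  exact h.symm

end

end PD

open PD

theorem stPD (h1 : St_AN1.{u}) (h2 : St_LAT2.{u}) (h3 : St_NAT.{u}) : St_PD.{u} := by
  intro p A A' B _ _ _ φ ψ hφ hψ
  have key : ∀ (ι : Type) [Fintype ι] [DecidableEq ι] (e : Matrix ι ι B), e * e = e →
      ∀ (s : ℕ) (x : Matrix ι ι A'), x.map ψ = p ^ s • e →
      dl p φ (uMat (p ^ (lift_mat hψ e).choose) (lift_mat hψ e).choose_spec.choose) =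
        dl p φ (uMat (p ^ s) x) := fun ι _ _ e he s x hx =>
    dl_indep h1 h2 hφ hψ he (lift_mat hψ e).choose_spec.choose_spec hx
  obtain ⟨D, hD⟩ := K0.exists_lift (R := B) (A := Kneg A)
    (fun ι _ _ e => dl p φ (uMat (p ^ (lift_mat hψ e).choose) (lift_mat hψ e).choose_spec.choose))
    (by
      intro ι κ _ _ _ _ e f he hf hef
      obtain ⟨s, x, hx⟩ := lift_mat hψ e
      obtain ⟨t, y, hy⟩ := lift_mat hψ f
      have hx' := lift_up hx t
      have hy' := lift_up hy s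
      rw [add_comm s t] at hy'
      rw [key ι e he _ _ hx', key κ f hf _ _ hy']
      exact dl_equiv h1 h2 h3 hφ hψ he hf hef hx' hy')
    (by
      intro ι κ _ _ _ _ e f he hf
      obtain ⟨s, x, hx⟩ := lift_mat hψ e
      obtain ⟨t, y, hy⟩ := lift_mat hψ f
      have hx' := lift_up hx t
      have hy' := lift_up hy s
      rw [add_comm s t] at hy'
      rw [key ι e he _ _ hx', key κ f hf _ _ hy',
        key _ _ (idem_blocks he hf) _ _ (lift_blocks hx' hy')]
      exact dl_add h1 h2 hφ hψ he hf hx' hy')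
  refine ⟨D, fun ι _ _ e s x he hx => ?_⟩
  rw [hD ι e he]
  exact key ι e he s x hx

theorem stPDN (h1 : St_AN1.{u}) (h2 : St_LAT2.{u}) (h3 : St_NAT.{u}) : St_PDN.{u} := by
  intro p A A' B _ _ _ φ ψ D hφ hψ hD
  refine ⟨fun y => ?_, ?_⟩
  · have h : D.comp (K0.map ψ) = 0 := by
      refine K0.hom_ext (fun n e he => ?_)
      rw [AddMonoidHom.comp_apply, map_cls ψ he, hD _ _ 0 e (idem_map ψ he) (by simp)]
      obtain ⟨a', ha, ha'⟩ := uMat_inv (p ^ 0) e (by simpa using he)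
      rw [((h2 p _ _ (lau φ) (h1 p A A' φ hφ).1 (Fin n) (Fin n)).2.2.1 _ a' 0 0
        (by simpa using ha) (by simpa using ha')).2]
      rfl
    exact DFunLike.congr_fun h y
  · intro A₁ A₁' B₁ _ _ _ φ₁ ψ₁ D₁ f f' g hφ₁ hψ₁ hD₁ hc hc' y
    have h : (Kneg.map f).comp D = D₁.comp (K0.map g) := by
      refine K0.hom_ext (fun n e he => ?_)
      obtain ⟨s, x, hx⟩ := lift_mat hψ e
      have hx' : (x.map f').map ψ₁ = p ^ s • e.map g := by
        rw [← map_nsmul', ← hx]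
        ext i j
        exact DFunLike.congr_fun hc' (x i j)
      rw [AddMonoidHom.comp_apply, AddMonoidHom.comp_apply, map_cls g he, hD _ e s x he hx,
        hD₁ _ _ s _ (idem_map g he) hx', ← uMat_map,
        ← h3 p _ _ _ _ (lau φ) (lau φ₁) (lau f) (lau f') (h1 p A A' φ hφ).1 (h1 p _ _ φ₁ hφ₁).1
          (by rw [lau_comp, lau_comp, hc]) _ _ (pinv_uMat p s x (sq_of_lift hψ he hx))]
      rfl
    exact DFunLike.congr_fun h y

theorem stHIG (h1 : St_AN1.{u}) (h2 : St_LAT2.{u}) (h3 : St_NAT.{u}) (h4 : St_HIG1.{u})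
    (h5 : St_HIG2a.{u}) (h6 : St_HIG2b.{u}) : St_HIG.{u} := by
  intro p A A' B _ _ _ φ ψ D hφ hψ hA hD ι _ _ a ha
  obtain ⟨κ, _, _, α, β, hl, hd⟩ := h4 p A A' φ (h1 p A A' φ hφ).1 ι a ha
  obtain ⟨s, g, b, hg, hb⟩ := h5 p A' hA κ α β hl
  have hm := dl_mul h1 h2 hφ hl (hg.map (C : A' →+* LaurentPolynomial A'))
  rw [hb, dl_const h1 h3 hφ hg, add_zero] at hm
  obtain ⟨t, k, x, Ap, Am, hx, hAp, hAm, hf⟩ := h6 p A' hA κ s b hm.1
  have e1 := dl_smul h1 h2 hφ k hm.1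
  have m1 := dl_mul h1 h2 hφ (pinv_uMat p t x hx) (hAm.map (incNeg A'))
  have m2 := dl_mul h1 h2 hφ m1.1 (hAp.map (incPos A'))
  rw [smul_mul_assoc, one_mul, hf, m2.2, m1.2, dl_pos h1 h3 hφ hAp, dl_neg h1 h3 hφ hAm, add_zero,
    add_zero, hm.2] at e1
  obtain ⟨v, hv⟩ := (hψ.unit.pow t).exists_right_inv
  have hinj : ∀ M N : Matrix κ κ B, p ^ t • M = p ^ t • N → M = N := by
    intro M N h
    ext i j
    have h' := congrFun (congrFun h i) j
    rw [Matrix.smul_apply, Matrix.smul_apply, nsmul_eq_mul, nsmul_eq_mul, Nat.cast_pow] at h'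
    exact (hψ.unit.pow t).mul_left_cancel h'
  have he : x.map ψ = p ^ t • (x.map fun r => v * ψ r) := by
    ext i j
    rw [Matrix.smul_apply, Matrix.map_apply, Matrix.map_apply, nsmul_eq_mul, Nat.cast_pow,
      ← mul_assoc, hv, one_mul]
  have hee : (x.map fun r => v * ψ r) * (x.map fun r => v * ψ r) = x.map fun r => v * ψ r := by
    refine hinj _ _ (hinj _ _ ?_)
    rw [← mul_smul_comm, ← smul_mul_assoc, ← he, ← Matrix.map_mul, hx, map_nsmul']
  refine ⟨cls (x.map fun r => v * ψ r), ?_⟩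
  rw [hD κ _ t x hee he, hd]
  exact e1

end Pool.Agent.Lib.KM1
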