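import Pool.Agent.Lib.KM1.Blue

/-! Block R1. -/

namespace Pool.Agent.Lib.KM1

open Matrix

universe u

namespace R1

theorem core (k : Type) [CommRing k] [IsDomain k] [IsPrincipalIdealRing k] (H : Type u) [Group H]
    [Finite H] (hc : IsUnit (Nat.card H : k)) (ι : Type) [Fintype ι] [DecidableEq ι] (m : ℕ)
    (x : Matrix ι ι (MonoidAlgebra k H)) (hx : x * x = m • x) :
    ∃ e : Matrix ι ι (MonoidAlgebra k H), e * e = e ∧ e * x = m • e ∧ x * e = x := by
  classical
  have := Fintype.ofFinite H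
  let T : (ι → MonoidAlgebra k H) →ₗ[MonoidAlgebra k H] (ι → MonoidAlgebra k H) :=
    (x - m • (1 : Matrix ι ι (MonoidAlgebra k H))).vecMulLinear
  have hT : ∀ v, T v = 0 ↔ v ᵥ* x = m • v := by
    intro v
    change v ᵥ* (x - m • (1 : Matrix ι ι (MonoidAlgebra k H))) = 0 ↔ _
    rw [Matrix.vecMul_sub, sub_eq_zero]
    have : v ᵥ* (m • (1 : Matrix ι ι (MonoidAlgebra k H))) = m • v := by
      ext1 j
      simp [Matrix.vecMul, dotProduct, Matrix.one_apply]
      exact (Nat.cast_commute m (v j)).eq.symm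
    rw [this]
  let T0 := T.restrictScalars k
  have : Module.Finite k (LinearMap.range T0) := inferInstance
  have : Module.Free k (LinearMap.range T0) := inferInstance
  obtain ⟨s, hs⟩ := Module.projective_lifting_property T0.rangeRestrict LinearMap.id
    T0.surjective_rangeRestrict
  have hs' : ∀ w : LinearMap.range T0, T (s w) = w.1 := fun w =>
    congrArg Subtype.val (LinearMap.congr_fun hs w)
  let π : (ι → MonoidAlgebra k H) →ₗ[k] LinearMap.ker T :=
    { toFun := fun v => ⟨v - s (T0.rangeRestrict v), by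
        rw [LinearMap.mem_ker, map_sub, hs']
        exact sub_self _⟩
      map_add' := fun a b => by
        ext1
        simp only [map_add, Submodule.coe_add]
        abel
      map_smul' := fun c a => by
        ext1
        simp only [map_smul, RingHom.id_apply, Submodule.coe_smul_of_tower, smul_sub] }
  have hπ : ∀ v : LinearMap.ker T, π ((LinearMap.ker T).subtype v) = v := by
    intro v
    ext1
    have : T0.rangeRestrict v.1 = 0 := Subtype.ext v.2
    change v.1 - s (T0.rangeRestrict v.1) = v.1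
    rw [this, map_zero, sub_zero]
  let ρ := π.equivariantProjection H
  have hρ : ∀ v : LinearMap.ker T, ρ v.1 = v := fun v =>
    π.equivariantProjection_condition H (LinearMap.ker T).subtype hc hπ v
  let e : Matrix ι ι (MonoidAlgebra k H) := Matrix.of fun i => (ρ (Pi.single i 1)).1
  have he : ∀ v, v ᵥ* e = (ρ v).1 := by
    intro v
    have hv : v = ∑ i, v i • (Pi.single i 1 : ι → MonoidAlgebra k H) := by
      ext1 j
      simp [Finset.sum_apply, Pi.single_apply]
    conv_rhs => rw [hv]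
    ext1 j
    simp [Matrix.vecMul, dotProduct, e, Finset.sum_apply]
  have hfix : ∀ v, v ᵥ* x = m • v → v ᵥ* e = v := fun v hv => by
    rw [he]
    exact congrArg Subtype.val (hρ ⟨v, (hT v).2 hv⟩)
  have hrow : ∀ i, e i ᵥ* x = m • e i := fun i => (hT _).1 (ρ (Pi.single i 1)).2
  refine ⟨e, ?_, ?_, ?_⟩
  · ext1 i j
    exact congrFun (hfix _ (hrow i)) j
  · ext1 i j
    exact congrFun (hrow i) j
  · ext1 i j
    refine congrFun (hfix (x i) ?_) j
    ext1 l
    exact congrFun (congrFun hx i) l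

theorem cq_inj (p : ℕ) [Fact p.Prime] (H : Type u) [Group H] : Function.Injective (cq p H) := by
  intro a b h
  refine MonoidAlgebra.ext (Finsupp.ext fun g => ?_)
  have := congrArg (fun z => z.coeff g) h
  simp only [cq, MonoidAlgebra.coeff_mapRingHom] at this
  exact Subtype.ext this

theorem cq_surj (p : ℕ) [Fact p.Prime] (H : Type u) [Group H] (y : MonoidAlgebra ℚ_[p] H) :
    ∃ s : ℕ, ∀ t, s ≤ t → ∃ x, cq p H x = p ^ t • y := by
  induction y using MonoidAlgebra.induction_linear with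
  | zero => exact ⟨0, fun t _ => ⟨0, by simp⟩⟩
  | add a b ha hb =>
    obtain ⟨s, hs⟩ := ha
    obtain ⟨s', hs'⟩ := hb
    refine ⟨max s s', fun t ht => ?_⟩
    obtain ⟨x, hx⟩ := hs t (le_trans (le_max_left _ _) ht)
    obtain ⟨x', hx'⟩ := hs' t (le_trans (le_max_right _ _) ht)
    exact ⟨x + x', by rw [map_add, hx, hx', smul_add]⟩
  | single g c =>
    have hp : (1 : ℝ) < p := by exact_mod_cast (Fact.out : p.Prime).one_lt
    obtain ⟨s, hs⟩ := pow_unbounded_of_one_lt ‖c‖ hp
    refine ⟨s, fun t ht => ⟨MonoidAlgebra.single g ⟨(p : ℚ_[p]) ^ t * c, ?_⟩, ?_⟩⟩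
    · rw [norm_mul, norm_pow, Padic.norm_p, inv_pow, inv_mul_le_iff₀ (by positivity), mul_one]
      exact le_trans hs.le (pow_le_pow_right₀ hp.le ht)
    · rw [cq, MonoidAlgebra.mapRingHom_single, MonoidAlgebra.smul_single]
      congr 1
      simp

theorem tf (p : ℕ) [Fact p.Prime] (H : Type u) [Group H] {ι : Type} (t : ℕ)
    {a b : Matrix ι ι (MonoidAlgebra ℚ_[p] H)} (h : p ^ t • a = p ^ t • b) : a = b := by
  have hp : ((p ^ t : ℕ) : ℚ_[p]) ≠ 0 :=
    Nat.cast_ne_zero.2 (pow_ne_zero _ (Fact.out : p.Prime).ne_zero)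
  rw [← Nat.cast_smul_eq_nsmul ℚ_[p], ← Nat.cast_smul_eq_nsmul ℚ_[p]] at h
  have := congrArg (fun z => ((p ^ t : ℕ) : ℚ_[p])⁻¹ • z) h
  simpa only [smul_smul, inv_mul_cancel₀ hp, one_smul] using this

end R1

theorem stR1 : St_R1.{u} := by
  intro p _ H _ _ hp y
  classical
  induction y using K0.induction with
  | h0 => exact ⟨0, map_zero _⟩
  | hn y hy => obtain ⟨z, rfl⟩ := hy; exact ⟨-z, map_neg _ _⟩
  | ha y z hy hz =>
    obtain ⟨a, rfl⟩ := hy
    obtain ⟨b, rfl⟩ := hz
    exact ⟨a + b, map_add _ _ _⟩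
  | hc n e he =>
    choose s hs using fun ij : Fin n × Fin n => R1.cq_surj p H (e ij.1 ij.2)
    choose x hx using fun ij : Fin n × Fin n =>
      hs ij (Finset.univ.sup s) (Finset.le_sup (Finset.mem_univ ij))
    set t := Finset.univ.sup s
    let X : Matrix (Fin n) (Fin n) (MonoidAlgebra ℤ_[p] H) := Matrix.of fun i j => x (i, j)
    have hX : X.map (cq p H) = p ^ t • e := by
      ext1 i j
      exact hx (i, j)
    have hXX : X * X = p ^ t • X := by
      refine Matrix.map_injective (R1.cq_inj p H) ?_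
      change (X * X).map (cq p H) = (p ^ t • X).map (cq p H)
      rw [Matrix.map_mul, map_nsmul', hX, Matrix.smul_mul, Matrix.mul_smul, he]
    have hc : IsUnit (Nat.card H : ℤ_[p]) := by
      rw [PadicInt.isUnit_iff, PadicInt.norm_natCast_eq_one_iff]
      exact (Nat.Prime.coprime_iff_not_dvd Fact.out).2 hp
    obtain ⟨f, h1, h2, h3⟩ := R1.core ℤ_[p] H hc (Fin n) (p ^ t) X hXX
    refine ⟨cls f, ?_⟩
    rw [map_cls _ h1]
    refine cls_equiv (idem_map _ h1) he ⟨f.map (cq p H), e, ?_, ?_⟩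
    · refine R1.tf p H t ?_
      rw [← Matrix.mul_smul, ← hX, ← Matrix.map_mul, h2, map_nsmul']
    · refine R1.tf p H t ?_
      rw [← Matrix.smul_mul, ← hX, ← Matrix.map_mul, h3]

end Pool.Agent.Lib.KM1
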