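import Pool.Agent.Lib.KM1.HIG

/-! The product formula for norm idempotents. -/

namespace Pool.Agent.Lib.KM1

open Matrix LaurentPolynomial

universe u

namespace R2

variable {G : Type u} [Group G] {h : G} {L : ℕ} {k : Type} [CommRing k]

/-- multiples of the norm element -/
noncomputable def nn (h : G) (L : ℕ) (c : k) : Matrix Unit Unit (MonoidAlgebra k G) :=
  fun _ _ => ∑ j ∈ Finset.range L, MonoidAlgebra.single (h ^ j) c

theorem shift (hL : h ^ L = 1) (c : k) (i : ℕ) :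
    ∑ j ∈ Finset.range L, MonoidAlgebra.single (h ^ i * h ^ j) c =
      ∑ j ∈ Finset.range L, MonoidAlgebra.single (h ^ j) c := by
  induction i with
  | zero => simp
  | succ i ih =>
    have h1 := (Finset.sum_range_succ' (fun j => MonoidAlgebra.single (h ^ i * h ^ j) c) L).symm.trans
      (Finset.sum_range_succ _ L)
    rw [hL, pow_zero, add_left_inj, ih] at h1
    rw [← h1]
    exact Finset.sum_congr rfl fun j _ => by rw [pow_succ, pow_succ', mul_assoc]

theorem nn_smul (n : ℕ) (c : k) : n • nn h L c = nn h L (n * c) := by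
  ext1 i j
  simp only [Matrix.smul_apply, nn, Finset.smul_sum, MonoidAlgebra.smul_single, nsmul_eq_mul]

theorem nn_mul (hL : h ^ L = 1) (c d : k) : nn h L c * nn h L d = nn h L (L * (c * d)) := by
  rw [← nn_smul]
  ext1 i j
  simp only [mul_apply, Finset.univ_unique, nn, Finset.sum_mul_sum, Finset.card_singleton,
    MonoidAlgebra.single_mul_single, shift hL, Finset.sum_const, Finset.card_range,
    Matrix.smul_apply, one_smul]

theorem nn_map {k' : Type} [CommRing k'] (f : k →+* k') (c : k) :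
    (nn h L c).map (MonoidAlgebra.mapRingHom G f) = nn h L (f c) := by
  ext1 i j
  simp only [map_apply, nn, map_sum, MonoidAlgebra.mapRingHom_single]

theorem uMat_smul {A : Type u} [Ring A] (n m : ℕ) (x : Matrix Unit Unit A) :
    uMat (n * m) (n • x) = n • uMat m x := by
  ext1 i j
  simp only [uMat, Matrix.add_apply, Matrix.smul_apply, map_apply, map_nsmul, smul_mul_assoc,
    smul_add, smul_smul]

theorem nrm_idem (h0 : 0 < L) (hL : h ^ L = 1) (k : Type) [Field k] [CharZero k] :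
    nrm k h L * nrm k h L = nrm k h L := by
  have : (L : k) ≠ 0 := Nat.cast_ne_zero.2 h0.ne'
  change nn h L _ * nn h L _ = nn h L _
  rw [nn_mul hL, mul_inv_cancel_left₀ this]

end R2

open R2

theorem stR2 (h1 : St_AN1.{u}) (h2 : St_AN2.{u}) (h3 : St_MP.{u}) (h4 : St_LAT2.{u}) :
    St_R2.{u} := by
  intro G _ h L h0 hL
  refine ⟨nrm_idem h0 hL, fun D hD P hP => ?_⟩
  have an := fun p : Nat.Primes => (h1 p _ _ _ (h2 p G).1).1
  have hN : nn h L (1 : ℤ) * nn h L 1 = L • nn h L 1 := by rw [nn_mul hL, nn_smul, mul_one]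
  have k1 := (h3 _ _ (fun p => lau (cz p G)) an (fun p => (h2 p G).2.2.1) P Unit Unit (L * L) 1
    (uMat L (nn h L (1 : ℤ))) (L • 1 + (nn h L (1 : ℤ)).map fun r => C r * (T (-1) - 1))
    (fun _ => 1) (Nat.mul_pos h0 h0) (fun q hq => hP q ((q.2.dvd_mul.1 hq).elim id id))
    ⟨mul_one _, mul_one _, one_mul _, HIG.inv_aux L _ hN 1,
      by simpa only [neg_neg, uMat] using HIG.inv_aux L _ hN (-1)⟩
    fun p _ => by
      rw [map_one']
      exact ⟨mul_one _, 1, 0, 0, by simp, by simp⟩).1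
  have k2 := congrArg (QuotientAddGroup.mk' (halves (MonoidAlgebra ℤ G))) k1
  rw [sub_self, map_zero, map_sum] at k2
  rw [k2]
  refine Finset.sum_congr rfl fun p _ => ?_
  obtain ⟨s, n, hn, rfl⟩ := Nat.exists_eq_pow_mul_and_not_dvd h0.ne' p.1 p.2.ne_one
  have hc : n.Coprime p.1 := ((Nat.Prime.coprime_iff_not_dvd p.2).2 hn).symm
  obtain ⟨v, hv⟩ : ∃ v : ℤ_[p], (n : ℤ_[p]) * v = 1 :=
    (PadicInt.isUnit_iff.2 (PadicInt.norm_natCast_eq_one_iff.2 hc.symm)).exists_right_inv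
  obtain ⟨m1, -, m2, -⟩ := h4 p _ _ _ (an p) Unit Unit
  have hx : nn h (p.1 ^ s * n) v * nn h (p.1 ^ s * n) v = p.1 ^ s • nn h (p.1 ^ s * n) v := by
    rw [nn_mul hL, nn_smul, Nat.cast_mul, mul_assoc, ← mul_assoc _ v, hv, one_mul]
  have hu := (h2 p G).2.2.1 n hc
  obtain ⟨u1, u2⟩ := m2 (n • 1) (fun _ _ => (hu.unit⁻¹ :)) 0 0
    (by ext1 i j; simp [mul_apply, Matrix.natCast_apply])
    (by ext1 i j; simp [mul_apply, Matrix.natCast_apply])
  have k3 : (uMat (p.1 ^ s * n) (nn h (p.1 ^ s * n) (1 : ℤ))).map (lau (cz p G)) * 1 =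
      n • 1 * uMat (p.1 ^ s) (nn h (p.1 ^ s * n) v) := by
    rw [mul_one, uMat_map, cz, nn_map, map_one, smul_mul_assoc, one_mul, ← uMat_smul, nn_smul, hv,
      mul_comm n]
  rw [k3, (m1 _ _ u1 (HIG.pinv_uMat p s _ hx)).2, u2, zero_add]
  refine hD p Unit _ s _ (nrm_idem h0 hL _) ?_
  change _ = _ • nn h _ _
  rw [cq, nn_map, nn_smul]
  congr 1
  have h5 := congrArg (PadicInt.Coe.ringHom (p := p)) hv
  have h6 : ((p.1 ^ s : ℕ) : ℚ_[p]) ≠ 0 := Nat.cast_ne_zero.2 (pow_ne_zero _ p.2.ne_zero)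
  rw [Nat.cast_mul, mul_inv, mul_inv_cancel_left₀ h6]
  rw [map_mul, map_natCast, map_one] at h5
  exact eq_inv_of_mul_eq_one_right h5

end Pool.Agent.Lib.KM1
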