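import Pool.Agent.Lib.KM1.Blue

/-! Block REP: rational functionals on `K0` are given by class functions. -/

namespace Pool.Agent.Lib.KM1

open Matrix

universe u

namespace REP

variable {F : Type} [Field F]

/-- Evaluation of a function against an element of the group ring. -/
noncomputable def ev {H : Type u} [Group H] (w : H → F) : MonoidAlgebra F H →+ F :=
  (Finsupp.liftAddHom fun h : H => AddMonoidHom.mulRight (w h⁻¹)).comp
    MonoidAlgebra.coeffAddEquiv.toAddMonoidHom

theorem ev_single {H : Type u} [Group H] (w : H → F) (h : H) (c : F) :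
    ev w (MonoidAlgebra.single h c) = c * w h⁻¹ := by
  simp [ev]

theorem ev_eq {H : Type u} [Group H] [Fintype H] (w : H → F) (r : MonoidAlgebra F H) :
    ev w r = ∑ h, r.coeff h * w h⁻¹ := by
  classical
  induction r using MonoidAlgebra.induction_linear with
  | zero => simp
  | add a b ha hb => simp [ha, hb, add_mul, Finset.sum_add_distrib]
  | single h c => simp [ev_single, Finsupp.single_apply]

theorem ev_grp {H K : Type u} [Group H] [Group K] (φ : H →* K) (w : K → F)
    (r : MonoidAlgebra F H) : ev w (grp F φ r) = ev (w ∘ φ) r := by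
  induction r using MonoidAlgebra.induction_linear with
  | zero => simp
  | add a b ha hb => simp only [map_add, ha, hb]
  | single h c => simp [grp, ev_single]

/-- The pairing as a bilinear map. -/
noncomputable def bil (F : Type) [Field F] (H : Type u) [Group H] [Fintype H] :
    (H → F) →ₗ[F] (H → F) →ₗ[F] F :=
  LinearMap.mk₂ F pairing
    (fun a b c => by simp [pairing, add_mul, mul_add, Finset.sum_add_distrib])
    (fun a b c => by simp [pairing, Finset.mul_sum, mul_assoc, mul_left_comm])
    (fun a b c => by simp [pairing, mul_add, Finset.sum_add_distrib])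
    (fun a b c => by simp [pairing, Finset.mul_sum, mul_left_comm])

variable {H : Type u} [Group H] [Fintype H]

theorem chi0_conj (r : MonoidAlgebra F H) (x g : H) : chi0 r (x * g * x⁻¹) = chi0 r g := by
  unfold chi0
  refine Fintype.sum_equiv (Equiv.mulRight x) _ _ fun z => ?_
  simp [mul_assoc]

theorem class_of_mem {χ : K0 (MonoidAlgebra F H) →+ (H → F)} (hχ : IsChi χ) {w : H → F}
    (hw : w ∈ Submodule.span F (Set.range χ)) (x g : H) : w (x * g * x⁻¹) = w g := by
  induction hw using Submodule.span_induction with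
  | mem z hz =>
    obtain ⟨y, rfl⟩ := hz
    induction y using K0.induction with
    | h0 => simp
    | hc n e he => rw [hχ _ e he, chi0_conj]
    | hn y hy => simp [hy]
    | ha y z hy hz => simp [hy, hz]
  | zero => rfl
  | add a b _ _ ha hb => simp [ha, hb]
  | smul a b _ hb => simp [hb]

theorem pairing_chi0 [CharZero F] {w : H → F} (hw : ∀ x g, w (x * g * x⁻¹) = w g)
    (r : MonoidAlgebra F H) : pairing w (chi0 r) = ev w r := by
  have h1 : ∀ x : H, ∑ g, w g * r.coeff (x * g⁻¹ * x⁻¹) = ev w r := by
    intro x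
    rw [ev_eq]
    refine Fintype.sum_equiv ((Equiv.inv H).trans (MulAut.conj x).toEquiv) _ _ fun g => ?_
    have := hw x g
    simp [mul_assoc] at this ⊢
    rw [this, mul_comm]
  have h2 : (Fintype.card H : F) ≠ 0 := by exact_mod_cast Fintype.card_ne_zero
  have h3 : ∑ g, w g * chi0 r g⁻¹ = Fintype.card H * ev w r := by
    simp only [chi0, Finset.mul_sum]
    rw [Finset.sum_comm]
    simp only [h1, Finset.sum_const, Finset.card_univ, nsmul_eq_mul]
  rw [pairing, h3]
  field_simp

end REP

open REP in
theorem stREP (hA : St_ANISO.{u}) (hR : St_RES.{u}) (hL : St_LIN.{u}) : St_REP.{u} := by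
  intro F _ _ G _ l hl
  classical
  have : ∀ H : FinSub G, Finite H.1 := fun H => H.2
  let _ : ∀ H : FinSub G, Fintype H.1 := fun H => Fintype.ofFinite _
  choose χ hχ using fun H : FinSub G => (hR F H.1).1
  have hw := fun H : FinSub G => hL F (H.1 → F) (bil F H.1) _ (χ H) (hA F H.1 _ (hχ H)).1
    (hA F H.1 _ (hχ H)).2 (l H)
  choose w hw1 hw2 using hw
  have hev : ∀ (H : FinSub G) (v : H.1 → F), v ∈ Submodule.span F (Set.range (χ H)) →
      ∀ (n : ℕ) (e : Matrix (Fin n) (Fin n) (MonoidAlgebra F H.1)), e * e = e →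
        bil F H.1 v (χ H (cls e)) = ev v e.trace := by
    intro H v hv n e he
    rw [hχ H _ e he]
    exact pairing_chi0 (class_of_mem (hχ H) hv) _
  have hC : ∀ (H K : FinSub G) (g : G) (φ : H.1 →* K.1), (∀ h : H.1, (φ h : G) = g * h * g⁻¹) →
      w K ∘ φ = w H := by
    intro H K g φ hφ
    have hinj : Function.Injective φ := by
      intro a b hab
      have := congrArg Subtype.val hab
      rw [hφ, hφ] at this
      exact Subtype.ext (by simpa using this)
    have hmem : w K ∘ φ ∈ Submodule.span F (Set.range (χ H)) := by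
      have h1 := Submodule.mem_map_of_mem (f := LinearMap.funLeft F F φ) (hw1 K).1
      rw [Submodule.map_span] at h1
      refine Submodule.span_mono ?_ h1
      rintro _ ⟨_, ⟨y, rfl⟩, rfl⟩
      exact (hR F K.1).2 H.1 φ hinj _ _ (hχ K) (hχ H) y
    refine hw2 H _ ⟨hmem, fun y => ?_⟩
    rw [← hl H K g φ hφ y, ← (hw1 K).2]
    induction y using K0.induction with
    | h0 => simp
    | hc n e he =>
      rw [map_cls _ he, hev H _ hmem n e he, hev K _ (hw1 K).1 n _ (idem_map _ he), ← ev_grp]
      exact congrArg _ (AddMonoidHom.map_trace (grp F φ).toAddMonoidHom e)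
    | hn y hy => simp only [map_neg, hy]
    | ha y z hy hz => simp only [map_add, hy, hz]
  choose rep hrep using fun c : ConjClasses G => ConjClasses.exists_rep c
  let ω : ConjClasses G → F := fun c =>
    if h : IsOfFinOrder (rep c) then
      w ⟨Subgroup.zpowers (rep c), h.finite_zpowers⟩ (⟨rep c, Subgroup.mem_zpowers _⟩ : _)⁻¹
    else 0
  have hconj : ∀ g : G, ∃ c : G, c * rep (ConjClasses.mk g) * c⁻¹ = g := fun g =>
    isConj_iff.1 (ConjClasses.mk_eq_mk_iff_isConj.1 (hrep _))
  have hfin : ∀ g : G, IsOfFinOrder (rep (ConjClasses.mk g)) ↔ IsOfFinOrder g := fun g => by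
    obtain ⟨c, hc⟩ := hconj g
    conv_rhs => rw [← hc]
    exact ((MulAut.conj c).injective.isOfFinOrder_iff
      (f := (MulAut.conj c).toMonoidHom)).symm
  have hω : ∀ (H : FinSub G) (h : H.1), ω (ConjClasses.mk (h : G)) = w H h⁻¹ := by
    intro H h
    have h1 : IsOfFinOrder (h : G) := H.1.subtype.isOfFinOrder (isOfFinOrder_of_finite h)
    have h2 := (hfin h).2 h1
    obtain ⟨c, hc⟩ := hconj h
    have h3 : ∀ x : Subgroup.zpowers (rep (ConjClasses.mk (h : G))),
        ((MulAut.conj c).toMonoidHom.comp (Subgroup.subtype _)) x ∈ H.1 := by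
      rintro ⟨_, k, rfl⟩
      have : c * rep (ConjClasses.mk (h : G)) ^ k * c⁻¹ = (h : G) ^ k := by
        rw [← conj_zpow, hc]
      simpa [this] using H.1.zpow_mem h.2 k
    have h4 := hC ⟨Subgroup.zpowers (rep (ConjClasses.mk (h : G))), h2.finite_zpowers⟩ H c
      (MonoidHom.codRestrict _ H.1 h3) fun x => rfl
    simp only [ω, dif_pos h2, ← h4, Function.comp_apply, map_inv]
    congr 2
    exact Subtype.ext hc
  refine ⟨ω, fun H y => ?_, fun g hg => ?_, fun H h0 g hg => ?_⟩
  · rw [← (hw1 H).2]
    induction y using K0.induction with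
    | h0 => simp
    | hc n e he =>
      rw [hev H _ (hw1 H).1 n e he, map_cls _ he, hsK_cls (idem_map _ he)]
      have h1 : (e.map (grp F H.1.subtype)).trace = grp F H.1.subtype e.trace :=
        (AddMonoidHom.map_trace (grp F H.1.subtype).toAddMonoidHom e).symm
      rw [h1]
      induction e.trace using MonoidAlgebra.induction_linear with
      | zero => simp
      | add a b ha hb =>
        rw [map_add, map_add, map_add, Finsupp.sum_add_index' (by simp) (by simp [add_mul]), ha, hb]
      | single h c => simp [grp, ev_single, hs_single, hω]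
    | hn y hy =>
      rw [map_neg, map_neg, map_neg, map_neg, hy, Finsupp.sum_neg_index (by simp)]
      simp [Finsupp.sum]
    | ha y z hy hz =>
      rw [map_add, map_add, map_add, map_add, Finsupp.sum_add_index' (by simp) (by simp [add_mul]),
        hy, hz]
  · exact dif_neg fun h => hg ((hfin g).1 h)
  · have h1 : (0 : H.1 → F) = w H := hw2 H 0 ⟨zero_mem _, fun y => by simp [h0]⟩
    rw [hω H ⟨g, hg⟩, ← h1]
    rfl

end Pool.Agent.Lib.KM1
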