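import Pool.Agent.Lib.KM1.Blue

/-! Block RES: the character map and restriction of characters. -/

namespace Pool.Agent.Lib.KM1

open Matrix

universe u

namespace RES

variable {F : Type} [Field F] {H D : Type u} [Group H] [Fintype H] [Group D] [Fintype D]

theorem coeff_mul (x y : MonoidAlgebra F H) (g : H) :
    (x * y).coeff g = ∑ h : H, x.coeff h * y.coeff (h⁻¹ * g) := by
  rw [MonoidAlgebra.coeff_mul_apply_left, Finsupp.sum_fintype _ _ (by simp)]

/-- the character as an additive map -/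
noncomputable def tau : MonoidAlgebra F H →+ (H → F) where
  toFun := chi0
  map_zero' := by funext g; simp [chi0]
  map_add' x y := by funext g; simp [chi0, Finset.sum_add_distrib]

theorem tau_comm (x y : MonoidAlgebra F H) : tau (x * y) = tau (y * x) := by
  funext g
  change ∑ k : H, (x * y).coeff (k * g * k⁻¹) = ∑ k : H, (y * x).coeff (k * g * k⁻¹)
  simp only [coeff_mul]
  rw [← Fintype.sum_prod_type', ← Fintype.sum_prod_type']
  refine Fintype.sum_equiv ⟨fun z => (z.2⁻¹ * z.1, z.2⁻¹ * (z.1 * g * z.1⁻¹)),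
    fun z => (z.2⁻¹ * z.1 * g, z.2⁻¹ * (z.1 * g * z.1⁻¹)), ?_, ?_⟩ _ _ ?_
  · rintro ⟨k, h⟩
    simp only [Prod.mk.injEq]
    constructor <;> group
  · rintro ⟨k, h⟩
    simp only [Prod.mk.injEq]
    constructor <;> group
  · rintro ⟨k, h⟩
    simp only [Equiv.coe_fn_mk]
    rw [mul_comm]
    congr 2
    group

omit [Fintype D] in
theorem exists_sec (φ : D →* H) (hφ : Function.Injective φ) : ∃ (n : ℕ) (s : Fin n → H),
    Function.Bijective fun z : Fin n × D => s z.1 * φ z.2 := by
  classical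
  let σ := (Finite.equivFin (H ⧸ φ.range)).symm
  refine ⟨_, fun i => (σ i).out, ?_, fun h => ?_⟩
  · rintro ⟨i, d⟩ ⟨j, d'⟩ e
    have h1 : ∀ i d, (QuotientGroup.mk ((σ i).out * φ d) : H ⧸ φ.range) = σ i := fun i d => by
      rw [QuotientGroup.mk_mul_of_mem _ (MonoidHom.mem_range.2 ⟨d, rfl⟩), QuotientGroup.out_eq']
    obtain rfl : i = j := σ.injective ((h1 i d).symm.trans ((congrArg _ e).trans (h1 j d')))
    exact Prod.ext rfl (hφ (mul_left_cancel e))
  · obtain ⟨i, hi⟩ := σ.surjective (QuotientGroup.mk h)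
    have h1 : ((σ i).out)⁻¹ * h ∈ φ.range := by
      rw [← QuotientGroup.eq, QuotientGroup.out_eq', hi]
    obtain ⟨d, hd⟩ := h1
    exact ⟨(i, d), by simp [hd]⟩

variable {n : ℕ} (s : Fin n → H) (φ : D →* H)

/-- the matrix of an element over the subgroup ring -/
noncomputable def rho (r : MonoidAlgebra F H) (i j : Fin n) : MonoidAlgebra F D :=
  .ofCoeff (Finsupp.equivFunOnFinite.symm fun d => r.coeff (s i * φ d * (s j)⁻¹))

omit [Fintype H] in
theorem rho_coeff (r : MonoidAlgebra F H) (i j : Fin n) (d : D) :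
    (rho s φ r i j).coeff d = r.coeff (s i * φ d * (s j)⁻¹) := rfl

omit [Fintype H] in
theorem rho_sum {ι : Type} (S : Finset ι) (r : ι → MonoidAlgebra F H) (i j : Fin n) :
    rho s φ (∑ a ∈ S, r a) i j = ∑ a ∈ S, rho s φ (r a) i j := by
  ext d
  simp only [rho_coeff, MonoidAlgebra.coeff_sum, Finsupp.finsetSum_apply]

variable {s φ}

theorem rho_mul (hs : Function.Bijective fun z : Fin n × D => s z.1 * φ z.2)
    (x y : MonoidAlgebra F H) (i j : Fin n) :
    rho s φ (x * y) i j = ∑ k, rho s φ x i k * rho s φ y k j := by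
  ext d
  simp only [rho_coeff, MonoidAlgebra.coeff_sum, Finsupp.finsetSum_apply, coeff_mul]
  rw [← Fintype.sum_prod_type']
  symm
  refine Fintype.sum_equiv ((((Equiv.refl _).prodCongr (Equiv.inv D)).trans
    (Equiv.ofBijective _ hs)).trans ((Equiv.inv H).trans (Equiv.mulLeft (s i)))) _ _ ?_
  rintro ⟨k, c⟩
  simp [mul_assoc]

theorem chi_rho (hs : Function.Bijective fun z : Fin n × D => s z.1 * φ z.2)
    (r : MonoidAlgebra F H) : chi0 (∑ i, rho s φ r i i) = chi0 r ∘ φ := by
  funext d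
  simp only [chi0, rho_coeff, MonoidAlgebra.coeff_sum, Finsupp.finsetSum_apply,
    Function.comp_apply]
  rw [Finset.sum_comm, ← Fintype.sum_prod_type']
  refine Fintype.sum_equiv (Equiv.ofBijective _ hs) _ _ ?_
  rintro ⟨k, c⟩
  simp [mul_assoc]

end RES

open RES in
theorem stRES : St_RES.{u} := by
  intro F _ H _ _
  refine ⟨K0.exists_trace (tau (F := F) (H := H)) tau_comm, fun D _ _ φ hφ χ χ' h h' y => ?_⟩
  obtain ⟨n, s, hs⟩ := exists_sec φ hφ
  induction y using K0.induction with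
  | h0 => exact ⟨0, by funext d; simp⟩
  | hc m e he =>
    let E : Matrix (Fin m × Fin n) (Fin m × Fin n) (MonoidAlgebra F D) :=
      .of fun a b => rho s φ (e a.1 b.1) a.2 b.2
    have hE : E * E = E := by
      ext1 a b
      rw [Matrix.mul_apply, Fintype.sum_prod_type]
      simp only [E, Matrix.of_apply, ← rho_mul hs, ← rho_sum]
      rw [← Matrix.mul_apply, he]
    refine ⟨cls E, ?_⟩
    rw [h' _ E hE, h _ e he, ← chi_rho hs]
    simp only [Matrix.trace, Matrix.diag, E, Matrix.of_apply, rho_sum]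
    rw [Fintype.sum_prod_type_right]
  | hn y hy =>
    obtain ⟨y', hy⟩ := hy
    exact ⟨-y', by rw [map_neg, map_neg, hy]; rfl⟩
  | ha y z hy hz =>
    obtain ⟨y', hy⟩ := hy
    obtain ⟨z', hz⟩ := hz
    exact ⟨y' + z', by rw [map_add, map_add, hy, hz]; rfl⟩

end Pool.Agent.Lib.KM1
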