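import Pool.Agent.Lib.KM1.AN

/-! Surjectivity of the sum of the boundary maps for finite groups. -/

namespace Pool.Agent.Lib.KM1

open Matrix LaurentPolynomial

universe u v w

namespace SUR

/-- `f` is onto up to denominators in `D`, with kernel divisible by `p`. -/
structure Cm (D : Submonoid ℕ) (p : ℕ) {A B : Type v} [Ring A] [Ring B] (f : A →+* B) : Prop where
  sj : ∀ y, ∃ m ∈ D, ∃ x, f x = m • y
  kr : ∀ x, f x = 0 → ∃ z, x = p • z

variable {D : Submonoid ℕ} {p : ℕ}

theorem Cm.fin {A B : Type v} [Ring A] [Ring B] {f : A →+* B} (h : Cm D p f) {I : Type w}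
    (s : Finset I) (y : I → B) : ∃ m ∈ D, ∃ x : I → A, ∀ i ∈ s, f (x i) = m • y i := by
  classical
  induction s using Finset.induction_on with
  | empty => exact ⟨1, one_mem _, 0, by simp⟩
  | insert a s _ ih =>
    obtain ⟨m, hm, x, hx⟩ := ih
    obtain ⟨k, hk, z, hz⟩ := h.sj (y a)
    refine ⟨m * k, mul_mem hm hk, fun i => if i = a then m • z else k • x i, fun i hi => ?_⟩
    by_cases e : i = a
    · simp only [e, if_true, map_nsmul, hz, smul_smul]
    · simp only [e, if_false, map_nsmul, hx i ((Finset.mem_insert.1 hi).resolve_left e), smul_smul,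
        mul_comm]

theorem Cm.transfer {M : Type w} {A A' : Type v} {S S' : Type u} [Ring A] [Ring A'] [Ring S]
    [Ring S'] {φ : A →+* A'} (hφ : Cm D p φ) (Φ : S →+* S') (e : S ≃+ (M →₀ A))
    (e' : S' ≃+ (M →₀ A')) (h : ∀ x m, e' (Φ x) m = φ (e x m)) : Cm D p Φ := by
  classical
  refine ⟨fun y => ?_, fun x hx => AN.div p e x fun m => hφ.kr _ (by simp [← h, hx])⟩
  obtain ⟨m, hm, x, hx⟩ := hφ.fin (e' y).support (e' y)
  refine ⟨m, hm, e.symm (Finsupp.onFinset (e' y).support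
    (fun i => if i ∈ (e' y).support then x i else 0) fun i hi => by
      by_contra k
      exact hi (if_neg k)), e'.injective (Finsupp.ext fun i => ?_)⟩
  rw [h, e.apply_symm_apply, Finsupp.onFinset_apply, map_nsmul, Finsupp.smul_apply]
  split_ifs with k
  · exact hx i k
  · rw [Finsupp.notMem_support_iff.1 k, map_zero, smul_zero]

theorem Cm.grp {k : Type} [CommRing k] (h : Cm D p (Int.castRingHom k)) (H : Type u) [Group H] :
    Cm D p (lau (MonoidAlgebra.mapRingHom H (Int.castRingHom k))) :=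
  (h.transfer _ MonoidAlgebra.coeffAddEquiv MonoidAlgebra.coeffAddEquiv
    fun x m => MonoidAlgebra.coeff_mapRingHom _ x m).transfer _ AddMonoidAlgebra.coeffAddEquiv
    AddMonoidAlgebra.coeffAddEquiv fun x m => AddMonoidAlgebra.coeff_mapRingHom _ x m

theorem cmQ : Cm (Submonoid.pos ℕ) 0 (Int.castRingHom ℚ) :=
  ⟨fun y => ⟨y.den, y.den_pos, y.num, by simp [Rat.den_mul_eq_num]⟩,
    fun x hx => ⟨0, by simpa using hx⟩⟩

theorem cmZ (p : ℕ) : Cm ⊥ p (Int.castRingHom (ZMod p)) :=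
  ⟨fun y => ⟨1, one_mem _, by simpa using ZMod.intCast_surjective y⟩,
    fun x hx => ((ZMod.intCast_zmod_eq_zero_iff_dvd x p).1 hx).imp fun _ e => by simpa using e⟩

variable {ι κ : Type} [Fintype ι] [Fintype κ] {A B : Type u} [Ring A] [Ring B]

theorem Cm.mat {f : A →+* B} (h : Cm D p f) (y : Matrix ι κ B) :
    ∃ m ∈ D, ∃ x : Matrix ι κ A, x.map f = m • y := by
  obtain ⟨m, hm, x, hx⟩ := h.fin Finset.univ fun a : ι × κ => y a.1 a.2
  exact ⟨m, hm, of fun i j => x (i, j), Matrix.ext fun i j => hx (i, j) (Finset.mem_univ _)⟩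

omit [Fintype ι] [Fintype κ] in
theorem Cm.eq {f : A →+* B} (h : Cm D p f) {x y : Matrix ι κ A} (e : x.map f = y.map f) :
    ∃ z, x = y + p • z := by
  choose z hz using fun i j => h.kr (x i j - y i j)
    (by rw [map_sub, sub_eq_zero]; exact congrFun₂ e i j)
  exact ⟨of z, Matrix.ext fun i j => sub_eq_iff_eq_add'.1 (hz i j)⟩

variable [DecidableEq ι]

/-- the complemented idempotent -/
noncomputable def eta (ε : Matrix ι ι (LaurentPolynomial A)) :
    Matrix (ι ⊕ ι) (ι ⊕ ι) (LaurentPolynomial A) :=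
  fromBlocks ε 0 0 (1 - (ε.map (ev1 A)).map C)

theorem eta_idem {ε : Matrix ι ι (LaurentPolynomial A)} (h : ε * ε = ε) : eta ε * eta ε = eta ε :=
  idem_blocks h (idem_compl (idem_map _ (idem_map _ h)))

theorem ev_lau (f : A →+* B) (x : LaurentPolynomial A) : ev1 B (lau f x) = f (ev1 A x) := by
  induction x using LaurentPolynomial.induction_on' with
  | add a b ha hb => simp only [map_add, ha, hb]
  | C_mul_T n c => simp only [map_mul, lau_C, lau_T, ev1_C, ev1_T, mul_one]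

omit [Fintype ι] in
theorem eta_map (f : A →+* B) (ε : Matrix ι ι (LaurentPolynomial A)) :
    (eta ε).map (lau f) = eta (ε.map (lau f)) := by
  ext1 i j
  rcases i with i | i <;> rcases j with j | j <;>
    simp [eta, lau_C, ev_lau, Matrix.one_apply, apply_ite (lau f)]

theorem triv (hC : St_CONST.{u}) [IsArtinianRing B] (f : A →+* B)
    {ε : Matrix ι ι (LaurentPolynomial A)} (h : ε * ε = ε) :
    ∃ (x : Matrix ι (ι ⊕ ι) (LaurentPolynomial B)) (y : Matrix (ι ⊕ ι) ι (LaurentPolynomial B)),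
      x * y = 1 ∧ y * x = (eta ε).map (lau f) ∧ x * (eta ε).map (lau f) = x ∧
        (eta ε).map (lau f) * y = y := by
  have h1 := idem_map (lau f) h
  rw [eta_map]
  generalize ε.map (lau f) = e at h1
  obtain ⟨g, g1, g2⟩ := hC B ι e h1
  have g3 := (g2.map (ev1 B)).map C
  have g4 : (g.map C).map (ev1 B) = g := Matrix.ext fun i j => ev1_C _
  rw [g4] at g3
  have h2 := idem_map C (idem_map (ev1 B) h1)
  have h3 := idem_compl h2
  have g5 := (MEq.trans h2 (idem_map C g1) h1 g3 g2.symm).blocks (MEq.refl h3)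
  generalize hc : (e.map (ev1 B)).map C = c at h2 h3 g5
  have g6 : MEq (1 : Matrix ι ι _) (fromBlocks c 0 0 (1 - c)) :=
    ⟨fromCols c (1 - c), fromRows c (1 - c), by
      rw [fromCols_mul_fromRows, h2, h3, add_sub_cancel], by
      rw [fromRows_mul_fromCols, h2, h3, Matrix.mul_sub, Matrix.sub_mul, h2]
      simp⟩
  obtain ⟨x, y, k1, k2, -, k3, k4, -⟩ := MEq.norm (mul_one _) (idem_blocks h1 h3)
    (MEq.trans (mul_one _) (idem_blocks h2 h3) (idem_blocks h1 h3) g6 g5)
  rw [eta, hc]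
  exact ⟨x, y, k1, k2, k3, k4⟩

omit [DecidableEq ι] in
theorem half {e : Matrix ι ι A} (h : e * e = e) : cls (e.map C) ∈ halves A := by
  refine AddSubgroup.mem_sup_left ⟨cls (e.map Polynomial.C), ?_⟩
  rw [map_cls _ (idem_map _ h)]
  exact congrArg cls (Matrix.ext fun i j => incPos_C _)

end SUR

open SUR in
theorem stSUR (h1 : St_AN1.{u}) (h2 : St_AN2.{u}) (h3 : St_MP.{u}) (h4 : St_CONST.{u})
    (h5 : St_HIG.{u}) : St_SUR.{u} := by
  classical
  intro H _ _ D hD w
  obtain ⟨w, rfl⟩ := QuotientAddGroup.mk_surjective w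
  obtain ⟨n, k, ε, he, rfl⟩ := K0.exists_rep w
  have hη := eta_idem he
  have cq' := cmQ.grp H
  have : IsArtinianRing (MonoidAlgebra ℚ H) := isArtinian_of_tower ℚ inferInstance
  obtain ⟨x, y, k1, k2, k3, k4⟩ := triv h4 (MonoidAlgebra.mapRingHom H (Int.castRingHom ℚ)) he
  obtain ⟨a, ha, i, hi⟩ := cq'.mat x
  obtain ⟨b, hb, j, hj⟩ := cq'.mat y
  have inj : ∀ {α β : Type} {u v : Matrix α β _}, u.map _ = v.map _ → u = v := fun e => by
    obtain ⟨z, hz⟩ := cq'.eq e
    simpa using hz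
  have lat : Lat (a * b) (eta ε) i j :=
    ⟨hη, inj (by rw [Matrix.map_mul, hi, Matrix.smul_mul, k3]),
      inj (by rw [Matrix.map_mul, hj, Matrix.mul_smul, k4]),
      inj (by rw [Matrix.map_mul, hi, hj, Matrix.smul_mul, Matrix.mul_smul, k1, map_nsmul',
        map_one', smul_smul]),
      inj (by rw [Matrix.map_mul, hi, hj, Matrix.smul_mul, Matrix.mul_smul, k2, map_nsmul',
        smul_smul, mul_comm])⟩
  have iso : ∀ p : Nat.Primes, ∃ h : Matrix _ (Fin n) _, IsoMod p.1 (eta ε) h := fun p => by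
    have cz' := (cmZ p.1).grp H
    have : IsArtinianRing (MonoidAlgebra (ZMod p.1) H) :=
      isArtinian_of_tower (ZMod p.1) inferInstance
    obtain ⟨x, y, k1, k2, k3, k4⟩ :=
      triv h4 (MonoidAlgebra.mapRingHom H (Int.castRingHom (ZMod p.1))) he
    obtain ⟨a, ha, i, hi⟩ := cz'.mat x
    obtain ⟨b, hb, j, hj⟩ := cz'.mat y
    rw [Submonoid.mem_bot.1 ha, one_smul] at hi
    rw [Submonoid.mem_bot.1 hb, one_smul] at hj
    obtain ⟨u, hu⟩ := cz'.eq (x := eta ε * j * i) (y := eta ε)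
      (by rw [Matrix.map_mul, Matrix.map_mul, hi, hj, k4, k2])
    obtain ⟨v, hv⟩ := cz'.eq (x := i * (eta ε * j)) (y := 1)
      (by rw [Matrix.map_mul, Matrix.map_mul, hi, hj, k4, k1, map_one'])
    exact ⟨eta ε * j, by rw [← Matrix.mul_assoc, hη], i, u, v, hu, hv⟩
  choose h hh using iso
  have hab : 0 < a * b := Nat.mul_pos ha hb
  let P : Finset Nat.Primes := (a * b).primeFactors.subtype Nat.Prime
  obtain ⟨m1, m2⟩ := h3 _ _ (fun p => lau (cz p H)) (fun p => (h1 p _ _ _ (h2 p H).1).1)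
    (fun p => (h2 p H).2.2.1) P _ _ (a * b) _ i j (fun p => (h p).map (lau (cz p H))) hab
    (fun q hq => Finset.mem_subtype.2 (Nat.mem_primeFactors.2 ⟨q.2, hq, hab.ne'⟩)) lat
    fun p _ => (hh p).map _
  have r : ∀ p : Nat.Primes, ∃ y, p ∈ P → D p y = QuotientAddGroup.mk (delta p.1 (lau (cz p H))
      (i.map (lau (cz p H)) * (h p).map (lau (cz p H)))) := fun p => by
    by_cases hp : p ∈ P
    · obtain ⟨y, hy⟩ := h5 p _ _ _ _ _ (D p) (h2 p H).1 (h2 p H).2.1 ((h2 p H).2.2.2 ‹_›) (hD p) _ _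
        (m2 p hp)
      exact ⟨y, fun _ => hy⟩
    · exact ⟨0, fun k => absurd k hp⟩
  choose y hy using r
  refine ⟨P, fun p => -y p, ?_⟩
  have m3 := congrArg (QuotientAddGroup.mk' (halves (MonoidAlgebra ℤ H))) m1
  rw [map_sum] at m3
  simp only [map_neg, Finset.sum_neg_distrib]
  rw [Finset.sum_congr rfl hy, ← show _ = ∑ p ∈ P, QuotientAddGroup.mk _ from m3,
    QuotientAddGroup.mk'_apply, ← QuotientAddGroup.mk_neg, QuotientAddGroup.eq_iff_sub_mem]
  have e1 := idem_map (ev1 _) he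
  have e2 := idem_map C e1
  rw [eta, cls_blocks he (idem_compl e2), ← cls_add_compl e2]
  have e3 := half (mul_one (1 : Matrix (Fin k) (Fin k) (MonoidAlgebra ℤ H)))
  rw [map_one'] at e3
  convert sub_mem (half e1) e3 using 1
  abel

end Pool.Agent.Lib.KM1
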