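import Pool.Agent.Lib.KM1.Defs

/-! The definitions used in the statement (the same objects as in `Defs`, wrapped in `def`s). -/

namespace Pool.Agent.Lib.KM1.St

open Pool.Agent.Lib.KM1

universe u v

/-- `K₀(R)`: the free abelian group on idempotent matrices modulo equivalence and block sum. -/
def KZero (R : Type u) [Ring R] : Type u :=
  FreeAbelianGroup (Idem R) ⧸ AddSubgroup.closure (K0Gen R)

noncomputable instance instKZero (R : Type u) [Ring R] : AddCommGroup (KZero R) :=
  QuotientAddGroup.Quotient.addCommGroup _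

/-- The map induced on `K₀` by a ring homomorphism. -/
noncomputable def KZero.map {R : Type u} {S : Type v} [Ring R] [Ring S] (f : R →+* S) :
    KZero R →+ KZero S :=
  QuotientAddGroup.map _ _ (FreeAbelianGroup.map (Idem.map f)) (K0Gen_map f)

/-- The subgroup of `K₀(R[t,t⁻¹])` generated by the images of `K₀(R[t])` and `K₀(R[t⁻¹])`. -/
noncomputable def halfImages (R : Type u) [Ring R] : AddSubgroup (KZero (LaurentPolynomial R)) :=
  (KZero.map (incPos R)).range ⊔ (KZero.map (incNeg R)).range

/-- Bass' `K₋₁(R) = coker (K₀(R[t]) ⊕ K₀(R[t⁻¹]) → K₀(R[t,t⁻¹]))`. -/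
def KNeg (R : Type u) [Ring R] : Type u := KZero (LaurentPolynomial R) ⧸ halfImages R

noncomputable instance instKNeg (R : Type u) [Ring R] : AddCommGroup (KNeg R) :=
  QuotientAddGroup.Quotient.addCommGroup _

theorem halfImages_map {R : Type u} {S : Type v} [Ring R] [Ring S] (f : R →+* S) :
    halfImages R ≤ (halfImages S).comap (KZero.map (lau f)) := halves_map f

/-- The map induced on `K₋₁` by a ring homomorphism. -/
noncomputable def KNeg.map {R : Type u} {S : Type v} [Ring R] [Ring S] (f : R →+* S) :
    KNeg R →+ KNeg S :=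
  QuotientAddGroup.map _ _ (KZero.map (lau f)) (halfImages_map f)

/-- `K₋₁(ℤG)`. -/
def KG (G : Type u) [Group G] : Type u := KNeg (MonoidAlgebra ℤ G)

noncomputable instance instKG (G : Type u) [Group G] : AddCommGroup (KG G) :=
  instKNeg (MonoidAlgebra ℤ G)

/-- The map `K₋₁(ℤG) → K₋₁(ℤG')` induced by a group homomorphism. -/
noncomputable def KG.map {G G' : Type u} [Group G] [Group G'] (φ : G →* G') : KG G →+ KG G' :=
  KNeg.map (grp ℤ φ)

/-- `K₋₁(ℤH)` for a finite subgroup `H`. -/
def KF {G : Type u} [Group G] (H : FinSub G) : Type u := KG H.1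

noncomputable instance instKF {G : Type u} [Group G] (H : FinSub G) : AddCommGroup (KF H) :=
  instKG H.1

/-- `⨁_{H ≤ G finite} K₋₁(ℤH)`. -/
def FinSum (G : Type u) [Group G] : Type u := DirectSum (FinSub G) KF

noncomputable instance instFinSum (G : Type u) [Group G] : AddCommGroup (FinSum G) :=
  (inferInstance : AddCommGroup (DirectSum (FinSub G) KF))

open Classical in
/-- The inclusion of the summand `K₋₁(ℤH)`. -/
noncomputable def FinSum.of {G : Type u} [Group G] (H : FinSub G) : KG H.1 →+ FinSum G :=
  DirectSum.of KF H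

/-- The relations of the colimit: `y ∈ K₋₁(ℤH)` is identified with its image in `K₋₁(ℤK)` under
`h ↦ g h g⁻¹` whenever `g H g⁻¹ ≤ K`. -/
noncomputable def relations (G : Type u) [Group G] : AddSubgroup (FinSum G) :=
  AddSubgroup.closure
    {z | ∃ (H K : FinSub G) (g : G) (φ : H.1 →* K.1) (y : KG H.1),
      (∀ h : H.1, (φ h : G) = g * h * g⁻¹) ∧ z = FinSum.of H y - FinSum.of K (KG.map φ y)}

open Classical in
/-- The sum of the maps `K₋₁(ℤH) → K₋₁(ℤG)` induced by the inclusions. -/
noncomputable def total (G : Type u) [Group G] : FinSum G →+ KG G :=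
  DirectSum.toAddMonoid (β := KF) (fun H : FinSub G => KG.map H.1.subtype)

theorem relations_le_ker (G : Type u) [Group G] : relations G ≤ (total G).ker :=
  colimRel_le_ker G

/-- `colim_{H ≤ G finite} K₋₁(ℤH)`, over inclusions and conjugations by elements of `G`. -/
def FinColim (G : Type u) [Group G] : Type u := FinSum G ⧸ relations G

noncomputable instance instFinColim (G : Type u) [Group G] : AddCommGroup (FinColim G) :=
  QuotientAddGroup.Quotient.addCommGroup _

/-- The canonical map `colim_{H ≤ G finite} K₋₁(ℤH) → K₋₁(ℤG)`. -/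
noncomputable def assemblyMap (G : Type u) [Group G] : FinColim G →+ KG G :=
  QuotientAddGroup.lift _ (total G) (relations_le_ker G)

end Pool.Agent.Lib.KM1.St
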