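import Pool.Agent.Lib.KM1.Blue

/-! Block TRIV: sums of boundary classes carry trivialisations. -/

namespace Pool.Agent.Lib.KM1

open Matrix LaurentPolynomial

universe u

namespace TRIV

variable {G : Type u} [Group G]

theorem blocks_map {α β γ δ : Type} {S T : Type u} [Ring S] [Ring T] (f : S →+* T)
    (a : Matrix α β S) (b : Matrix γ δ S) :
    (fromBlocks a 0 0 b).map f = fromBlocks (a.map f) 0 0 (b.map f) := by
  ext1 i j
  rcases i with i | i <;> rcases j with j | j <;> simp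

theorem triv_zero (hR : St_LRES.{u}) (P : Finset Nat.Primes) : Triv G P 0 0 := by
  refine ⟨Unit, Unit, inferInstance, inferInstance, inferInstance, 1, 1, 1, 1, Nat.one_pos,
    fun q hq => absurd (Nat.dvd_one.1 hq) q.2.ne_one,
    ⟨by simp, by simp, by simp, by simp, by simp⟩, (sub_self _).symm, fun p _ => ?_⟩
  refine ⟨1, 1, by rw [map_one', mul_one], by simp, ?_⟩
  rw [map_one', mul_one, (hR _ Unit Unit Unit).2.2.2.2.1, map_zero, map_zero]
  simp

theorem triv_add (hR : St_LRES.{u}) {P : Finset Nat.Primes}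
    {w w' : K0 (LaurentPolynomial (MonoidAlgebra ℤ G))}
    {E E' : ∀ p : Nat.Primes, ConjClasses G →₀ ℚ_[p]} (h : Triv G P w E) (h' : Triv G P w' E') :
    Triv G P (w + w') (E + E') := by
  obtain ⟨ι, κ, _, _, _, ε, i, j, m, hm, hP, hL, rfl, hp⟩ := h
  obtain ⟨ι', κ', _, _, _, ε', i', j', m', hm', hP', hL', rfl, hp'⟩ := h'
  refine ⟨ι ⊕ ι', κ ⊕ κ', inferInstance, inferInstance, inferInstance, fromBlocks ε 0 0 ε',
    fromBlocks i 0 0 i', fromBlocks (m' • j) 0 0 (m • j'), m * m', Nat.mul_pos hm hm',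
    fun q hq => ((Nat.Prime.dvd_mul q.2).1 hq).elim (hP q) (hP' q),
    ⟨idem_blocks hL.idem hL'.idem, ?_, ?_, ?_, ?_⟩, ?_, fun p hpP => ?_⟩
  · simp [fromBlocks_multiply, hL.i_e, hL'.i_e]
  · simp only [fromBlocks_multiply, Matrix.mul_smul, hL.e_j, hL'.e_j, Matrix.mul_zero,
      Matrix.zero_mul, add_zero, zero_add, smul_zero]
  · simp only [fromBlocks_multiply, Matrix.mul_smul, hL.ij, hL'.ij, Matrix.mul_zero,
      Matrix.zero_mul, add_zero, zero_add, smul_zero, smul_smul]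
    rw [← fromBlocks_one, fromBlocks_smul, smul_zero, smul_zero, mul_comm m' m]
  · simp only [fromBlocks_multiply, Matrix.smul_mul, hL.ji, hL'.ji, Matrix.mul_zero,
      Matrix.zero_mul, add_zero, zero_add, smul_smul]
    rw [fromBlocks_smul, smul_zero, smul_zero, mul_comm m' m]
  · rw [cls_one_sum, cls_blocks hL.idem hL'.idem]; abel
  · obtain ⟨a, b, h1, h2, h3⟩ := hp p hpP
    obtain ⟨a', b', h1', h2', h3'⟩ := hp' p hpP
    refine ⟨fromBlocks a 0 0 a', fromBlocks b 0 0 b', ?_, ?_, ?_⟩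
    · simp only [fromBlocks_multiply, h1, h1', blocks_map, Matrix.mul_zero,
        Matrix.zero_mul, add_zero, zero_add]
    · simp only [fromBlocks_multiply, h2, h2', Matrix.mul_zero,
        Matrix.zero_mul, add_zero, zero_add, fromBlocks_one]
    · simp only [fromBlocks_multiply, blocks_map, map_nsmul', Matrix.mul_smul, Matrix.mul_zero,
        Matrix.zero_mul, add_zero, zero_add, smul_zero]
      rw [(hR _ ι ι ι').2.2.2.1, (hR _ ι ι ι).2.1, (hR _ ι' ι' ι').2.1, map_add, map_add,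
        map_nsmul, map_nsmul, map_nsmul, map_nsmul, h3, h3', Pi.add_apply, smul_add, smul_smul,
        smul_smul, mul_comm m' m]

theorem lift_mat {p : ℕ} {A B : Type u} [Ring A] [Ring B] {ψ : A →+* B} (h : PLoc p ψ)
    {ι : Type} [Fintype ι] (e : Matrix ι ι B) :
    ∃ (s : ℕ) (x : Matrix ι ι A), x.map ψ = p ^ s • e := by
  choose s x hx using fun a b => h.surj (e a b)
  obtain ⟨N, hN⟩ := (Set.finite_range fun ab : ι × ι => s ab.1 ab.2).bddAbove
  refine ⟨N, Matrix.of fun a b => p ^ (N - s a b) • x a b, ?_⟩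
  ext1 a b
  have : s a b ≤ N := hN ⟨(a, b), rfl⟩
  rw [Matrix.map_apply, Matrix.of_apply, map_nsmul, hx, smul_smul, ← pow_add,
    Nat.sub_add_cancel this, Matrix.smul_apply]

theorem triv_base (h1 : St_AN1.{u}) (h2 : St_AN2.{u}) (hL1 : St_LAT1.{u}) (hL3 : St_LAT3.{u})
    (hR : St_LRES.{u}) {P : Finset Nat.Primes} {p : Nat.Primes} (hp : p ∈ P)
    {D : K0 (MonoidAlgebra ℚ_[p] G) →+ Kneg (MonoidAlgebra ℤ G)}
    (hD : IsPD p.1 (cz p G) (cq p G) D) {ι : Type} [Fintype ι] [DecidableEq ι]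
    {e : Matrix ι ι (MonoidAlgebra ℚ_[p] G)} (he : e * e = e)
    {E : ∀ q : Nat.Primes, ConjClasses G →₀ ℚ_[q]} (hE : E p = hs 1 e.trace)
    (hE' : ∀ q, q ≠ p → E q = 0) :
    ∃ w, (QuotientAddGroup.mk w : Kneg (MonoidAlgebra ℤ G)) = D (cls e) ∧ Triv G P w E := by
  obtain ⟨hz, hq, -, -⟩ := h2 p G
  have hφ := (h1 p _ _ _ hz).1
  obtain ⟨s, x, hx⟩ := lift_mat hq e
  have hxx : x * x = p.1 ^ s • x := by
    refine Matrix.map_injective hq.inj ?_
    change (x * x).map (cq p G) = (p.1 ^ s • x).map (cq p G)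
    rw [Matrix.map_mul, map_nsmul', hx, Matrix.smul_mul, Matrix.mul_smul, he]
  obtain ⟨a', k1, k2, k3⟩ := (hR _ ι ι ι).2.2.2.2.2.2 _ x hxx
  rw [← pow_add] at k1 k2
  have hinv : PInv p.1 (uMat (p.1 ^ s) x) :=
    ⟨s + s, a', 0, 0, by rw [k1, smul_zero, add_zero], by rw [k2, smul_zero, add_zero]⟩
  obtain ⟨ε, hε⟩ := (hL1 p _ _ _ hφ ι _).1 hinv
  have hδ := ((hL1 p _ _ _ hφ ι _).2 _ ε hε).1
  obtain ⟨t, i, j, h, hL, hI, hU⟩ := hε
  refine ⟨cls 1 - cls ε, by rw [hD ι e s x he hx, hδ], ι, ι ⊕ ι, inferInstance, inferInstance,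
    inferInstance, ε, i, j, p.1 ^ t, pow_pos p.2.pos t, fun q hq => ?_, hL, rfl, fun q _ => ?_⟩
  · have : q = p := Subtype.ext
      ((Nat.prime_dvd_prime_iff_eq q.2 p.2).1 (q.2.dvd_of_dvd_pow hq))
    rwa [this]
  by_cases hqp : q = p
  · subst hqp
    have hL' := hL.map (lau (cz q G))
    obtain ⟨h', e1, e2⟩ := hL3 q _ hφ.tf' ι _ t (s + s) _ _ _ h a' hL' hI (by rw [hU, k1])
      (by rw [hU, k2])
    refine ⟨h, h', e1, e2, ?_⟩
    have e3 : uMat (q.1 ^ s) x * (h' * j.map (lau (cz q G))) = q.1 ^ t • 1 := by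
      rw [← hU, Matrix.mul_assoc, ← Matrix.mul_assoc h, e1, hL'.e_j, hL'.ij]
    have e4 : q.1 ^ (s + s) • (h' * j.map (lau (cz q G))) = q.1 ^ t • a' := by
      calc _ = (a' * uMat (q.1 ^ s) x) * (h' * j.map (lau (cz q G))) := by
            rw [k2, Matrix.smul_mul, Matrix.one_mul]
        _ = _ := by rw [Matrix.mul_assoc, e3, Matrix.mul_smul, Matrix.mul_one]
    have e5 := congrArg (fun M => hs 1 (cq q G (lres (uMat (q.1 ^ s) x) M))) e4
    simp only [(hR _ ι ι ι).2.1, k3, map_nsmul] at e5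
    have e6 : cq q G x.trace = q.1 ^ s • e.trace := by
      rw [← Matrix.trace_smul, ← hx]
      simp [Matrix.trace]
    rw [e6, map_nsmul, smul_smul (q.1 ^ s), ← pow_add, smul_comm (q.1 ^ t), ← hE] at e5
    rw [hU]
    exact nsmul_right_injective (pow_ne_zero _ q.2.ne_zero) e5
  · have hL' := hL.map (lau (cz q G))
    have hc : (p.1 ^ t).Coprime q.1 :=
      Nat.Coprime.pow_left t ((Nat.coprime_primes p.2 q.2).2 fun h => hqp (Subtype.ext h.symm))
    obtain ⟨v, hv⟩ := (h2 q G).2.2.1 _ hc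
    have c1 : ∀ {α β : Type} (M : Matrix α β (LaurentPolynomial (MonoidAlgebra ℤ_[q] G))),
        (↑v⁻¹ : LaurentPolynomial (MonoidAlgebra ℤ_[q] G)) • (p.1 ^ t • M) = M := by
      intro α β M
      ext1 a b
      rw [Matrix.smul_apply, Matrix.smul_apply, nsmul_eq_mul, ← hv, smul_eq_mul,
        Units.inv_mul_cancel_left]
    have c2 : ∀ {α β : Type} (M : Matrix α β (LaurentPolynomial (MonoidAlgebra ℤ_[q] G))),
        p.1 ^ t • ((↑v⁻¹ : LaurentPolynomial (MonoidAlgebra ℤ_[q] G)) • M) = M := by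
      intro α β M
      ext1 a b
      rw [Matrix.smul_apply, Matrix.smul_apply, nsmul_eq_mul, ← hv, smul_eq_mul,
        Units.mul_inv_cancel_left]
    have e2 : i.map (lau (cz q G)) *
        ((↑v⁻¹ : LaurentPolynomial (MonoidAlgebra ℤ_[q] G)) • j.map (lau (cz q G))) = 1 := by
      rw [← c1 (_ * _), ← Matrix.mul_smul, c2, hL'.ij, c1]
    refine ⟨(↑v⁻¹ : LaurentPolynomial (MonoidAlgebra ℤ_[q] G)) • j.map (lau (cz q G)),
      i.map (lau (cz q G)), by rw [Matrix.smul_mul, hL'.ji, c1], e2, ?_⟩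
    rw [e2, (hR _ ι ι ι).2.2.2.2.1, map_zero, map_zero, hE' q hqp, smul_zero]

theorem pd_one (h1 : St_AN1.{u}) (h2 : St_AN2.{u}) (hL2 : St_LAT2.{u}) (hR : St_LRES.{u})
    {p : Nat.Primes} {D : K0 (MonoidAlgebra ℚ_[p] G) →+ Kneg (MonoidAlgebra ℤ G)}
    (hD : IsPD p.1 (cz p G) (cq p G) D) (k : ℕ) :
    D (cls (1 : Matrix (Fin k) (Fin k) (MonoidAlgebra ℚ_[p] G))) = 0 := by
  have hφ := (h1 p _ _ _ (h2 p G).1).1
  obtain ⟨a', k1, k2, -⟩ := (hR (MonoidAlgebra ℤ_[p] G) (Fin k) (Fin k) (Fin k)).2.2.2.2.2.2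
    (p.1 ^ 0) 1 (by simp)
  rw [hD (Fin k) 1 0 1 (by simp) (by rw [map_one']; simp),
    ((hL2 p _ _ _ hφ (Fin k) (Fin k)).2.2.1 _ a' 0 0 (by rw [k1]; simp) (by rw [k2]; simp)).2]
  rfl

theorem hs_trace_one {k : Type} [CommRing k] (n : ℕ) (c : ConjClasses G)
    (hc : c ≠ ConjClasses.mk 1) :
    hs 1 (1 : Matrix (Fin n) (Fin n) (MonoidAlgebra k G)).trace c = 0 := by
  rw [Matrix.trace_one, ← nsmul_one, map_nsmul, MonoidAlgebra.one_def, hs_single, one_pow,
    Finsupp.smul_apply, Finsupp.single_eq_of_ne hc, smul_zero]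

end TRIV

open TRIV in
theorem stTRIV (h1 : St_AN1.{u}) (h2 : St_AN2.{u}) (hL1 : St_LAT1.{u}) (hL2 : St_LAT2.{u})
    (hL3 : St_LAT3.{u}) (hR : St_LRES.{u}) : St_TRIV.{u} := by
  classical
  intro G _ D hD P y
  choose n k e he hy using fun p => K0.exists_rep (y p)
  have key : ∀ Q : Finset Nat.Primes, Q ⊆ P →
      ∃ (w : K0 (LaurentPolynomial (MonoidAlgebra ℤ G)))
        (E : ∀ p : Nat.Primes, ConjClasses G →₀ ℚ_[p]),
        (QuotientAddGroup.mk w : Kneg (MonoidAlgebra ℤ G)) = ∑ p ∈ Q, D p (cls (e p)) ∧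
        Triv G P w E ∧ (∀ p ∈ Q, E p = hs 1 (e p).trace) ∧ ∀ p, p ∉ Q → E p = 0 := by
    intro Q
    induction Q using Finset.induction_on with
    | empty => exact fun _ => ⟨0, 0, by simp, triv_zero hR P, by simp, fun _ _ => rfl⟩
    | insert p Q hp ih =>
      intro hQ
      obtain ⟨w, E, a1, a2, a3, a4⟩ := ih ((Finset.subset_insert p Q).trans hQ)
      obtain ⟨w', b1, b2⟩ := triv_base h1 h2 hL1 hL3 hR (hQ (Finset.mem_insert_self p Q)) (hD p)
        (he p) (E := Pi.single p (hs 1 (e p).trace)) (Pi.single_eq_same _ _)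
        (fun q hq => Pi.single_eq_of_ne hq _)
      refine ⟨w' + w, _, ?_, triv_add hR b2 a2, fun q hq => ?_, fun q hq => ?_⟩
      · rw [Finset.sum_insert hp, QuotientAddGroup.mk_add, b1, a1]
      · rcases Finset.mem_insert.1 hq with rfl | hq'
        · rw [Pi.add_apply, Pi.single_eq_same, a4 q hp, add_zero]
        · rw [Pi.add_apply, Pi.single_eq_of_ne (fun h : q = p => hp (h ▸ hq')), a3 q hq', zero_add]
      · rw [Finset.mem_insert, not_or] at hq
        rw [Pi.add_apply, Pi.single_eq_of_ne hq.1, a4 q hq.2, add_zero]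
  obtain ⟨w, E, a1, a2, a3, -⟩ := key P (Finset.Subset.refl P)
  refine ⟨w, E, ?_, a2, fun p hp c hc => ?_⟩
  · rw [a1]
    refine Finset.sum_congr rfl fun p _ => ?_
    rw [hy p, map_sub, pd_one h1 h2 hL2 hR (hD p), sub_zero]
  · rw [a3 p hp, hy p, map_sub, hsK_cls (he p), hsK_cls (by simp), Finsupp.sub_apply,
      hs_trace_one _ c hc, sub_zero]

end Pool.Agent.Lib.KM1
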