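import Pool.Agent.Lib.KM1.Blue

/-! Consequences of power invariance. -/

namespace Pool.Agent.Lib.KM1

universe u

namespace VAN

variable {k : Type} [CommRing k] {G : Type u} [Group G]

/-- powers of conjugacy classes -/
def pw (a : ℕ) : ConjClasses G → ConjClasses G :=
  Quotient.map (· ^ a) fun _ _ h => IsConj.pow a h

theorem hs_mul (a b : ℕ) (r : MonoidAlgebra k G) :
    hs (a * b) r = Finsupp.mapDomain (pw b) (hs a r) := by
  induction r using MonoidAlgebra.induction_linear with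
  | zero => simp
  | add x y hx hy => simp only [map_add, Finsupp.mapDomain_add, hx, hy]
  | single g c =>
    rw [hs_single, hs_single, Finsupp.mapDomain_single, pow_mul]
    rfl

theorem mul (r : MonoidAlgebra k G) (a b : ℕ) (ha : hs a r = hs 1 r) (hb : hs b r = hs 1 r) :
    hs (a * b) r = hs 1 r := by
  rw [hs_mul, ha, ← hs_mul, one_mul, hb]

theorem dvd_order {l : ℕ} (hl : l.Prime) {h : G} (j : ℕ) (h0 : IsOfFinOrder (h ^ l ^ j))
    (h1 : l ∣ orderOf (h ^ l ^ j)) : IsOfFinOrder h ∧ l ^ j ∣ orderOf h := by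
  have h2 : IsOfFinOrder h := h0.of_pow (pow_ne_zero j hl.ne_zero)
  refine ⟨h2, ?_⟩
  rw [h2.orderOf_pow] at h1
  obtain ⟨i, hi, h3⟩ := (Nat.dvd_prime_pow hl).1 (Nat.gcd_dvd_right (orderOf h) (l ^ j))
  rcases hi.eq_or_lt with rfl | hi
  · exact h3 ▸ Nat.gcd_dvd_left _ _
  · have h4 : l ^ (i + 1) ∣ orderOf h := by
      rw [pow_succ, ← h3]
      exact Nat.mul_dvd_of_dvd_div (Nat.gcd_dvd_left _ _) h1
    have h5 := Nat.dvd_gcd h4 (pow_dvd_pow l hi)
    rw [h3, Nat.pow_dvd_pow_iff_le_right hl.one_lt] at h5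
    omega

end VAN

open VAN

theorem stVAN : St_VAN.{u} := by
  intro k _ G _ r
  refine ⟨VAN.mul r, fun l hl h g hg hd => ?_⟩
  classical
  have h1 : ∀ j, hs (l ^ j) r = hs 1 r := fun j => by
    induction j with
    | zero => rw [pow_zero]
    | succ j ih => exact VAN.mul r _ _ ih h
  let j := r.coeff.support.sup orderOf
  rw [← h1 j]
  by_contra h2
  obtain ⟨x, hx, h3⟩ := Finset.mem_image.1
    (Finsupp.mapDomain_support (Finsupp.mem_support_iff.2 h2))
  obtain ⟨c, hc⟩ := isConj_iff.1 (ConjClasses.mk_eq_mk_iff_isConj.1 h3)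
  have h4 : orderOf (x ^ l ^ j) = orderOf g := by
    rw [← hc]
    exact (orderOf_injective (MulAut.conj c).toMonoidHom (MulAut.conj c).injective _).symm
  obtain ⟨h5, h6⟩ := dvd_order hl j (orderOf_pos_iff.1 (h4 ▸ hg.orderOf_pos)) (h4 ▸ hd)
  have h7 : orderOf x ≤ j := Finset.le_sup (f := orderOf) hx
  exact absurd ((Nat.le_of_dvd h5.orderOf_pos h6).trans h7) (Nat.lt_pow_self hl.one_lt).not_ge

end Pool.Agent.Lib.KM1
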